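import Pool.Agent.Helper60.MEI.R8

/-!
# Project MEI (M2), w-term: soundness of the checker of rule R8, a leaf
-/

set_option autoImplicit false

namespace Helper60.R8

open Set MeasureTheory Helper78.MEI Helper80.CW Helper82.CW Helper14.CW Helper93.MEI Helper82.M2
open Helper14.MEI2 Pool.Agent.Helper52.MEI Pool.Agent.Helper73.MEI Pool.Agent.Helper31.SR
open Helper33.MEI (Wi Dl tx M3 mt mt_pos)
open Helper60.R7 (U U_pos F4 cast_tsub In mtx rc rc_meas mem_rc mt_mtx cb cb_nonneg)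

/-- the inequality in real numbers -/
theorem ein_real {A m D X C E P e F la ps ow om : ℕ} (he : e < 2 * U) (hps : ps ≤ U)
    (h : ein A m D X C E P e F la ps ow om = true) :
    vin ((A : ℝ) / U) ((ps : ℝ) / U) ((la : ℝ) / U) ((ow : ℝ) / U)
      ((e : ℝ) / U / (1 - (e : ℝ) / U / 2)) ((e : ℝ) / U) ((m : ℝ) / U) ((C : ℝ) / U ^ 2)
      ((D : ℝ) / U ^ 2) ((X : ℝ) / U ^ 2) ((E : ℝ) / U ^ 2) ((P : ℝ) / U ^ 4) ((F : ℝ) / U ^ 4) ((om : ℝ) / U) := by
  have hU := U_pos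
  simp only [ein, Nat.ble_eq, Nat.mul_eq, Nat.add_eq, Nat.sub_eq] at h
  have h' := (Nat.cast_le (α := ℝ)).2 h
  have e1 : ((2 * U - e : ℕ) : ℝ) = 2 * U - e := by
    rw [Nat.cast_sub he.le]
    push_cast
    ring
  have e2 : ((U - ps : ℕ) : ℝ) = U - ps := by
    rw [Nat.cast_sub hps]
  push_cast at h'
  rw [e1, e2] at h'
  obtain ⟨a, ha⟩ : ∃ a, a = (A : ℝ) / U := ⟨_, rfl⟩
  obtain ⟨b, hb⟩ : ∃ a, a = (ps : ℝ) / U := ⟨_, rfl⟩
  obtain ⟨c, hc⟩ : ∃ a, a = (la : ℝ) / U := ⟨_, rfl⟩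
  obtain ⟨d, hd⟩ : ∃ a, a = (ow : ℝ) / U := ⟨_, rfl⟩
  obtain ⟨g, hg⟩ : ∃ a, a = (e : ℝ) / U := ⟨_, rfl⟩
  obtain ⟨k, hk⟩ : ∃ a, a = (m : ℝ) / U := ⟨_, rfl⟩
  obtain ⟨o, ho⟩ : ∃ a, a = (om : ℝ) / U := ⟨_, rfl⟩
  obtain ⟨c', hc'⟩ : ∃ a, a = (C : ℝ) / (U : ℝ) ^ 2 := ⟨_, rfl⟩
  obtain ⟨d', hd'⟩ : ∃ a, a = (D : ℝ) / (U : ℝ) ^ 2 := ⟨_, rfl⟩
  obtain ⟨g', hg'⟩ : ∃ a, a = (E : ℝ) / (U : ℝ) ^ 2 := ⟨_, rfl⟩
  obtain ⟨x', hx'⟩ : ∃ a, a = (X : ℝ) / (U : ℝ) ^ 2 := ⟨_, rfl⟩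
  obtain ⟨p', hp'⟩ : ∃ a, a = (P : ℝ) / (U : ℝ) ^ 4 := ⟨_, rfl⟩
  obtain ⟨f', hf'⟩ : ∃ a, a = (F : ℝ) / (U : ℝ) ^ 4 := ⟨_, rfl⟩
  have s1 : ∀ z y : ℝ, y = z / (U : ℝ) → z = y * U := fun z y h => by
    rw [h]
    field_simp
  have s2 : ∀ z y : ℝ, y = z / (U : ℝ) ^ 2 → z = y * (U : ℝ) ^ 2 := fun z y h => by
    rw [h]
    field_simp
  have s4 : ∀ z y : ℝ, y = z / (U : ℝ) ^ 4 → z = y * (U : ℝ) ^ 4 := fun z y h => by
    rw [h]
    field_simp
  have hg2 : g < 2 := by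
    rw [hg, div_lt_iff₀ hU]
    exact_mod_cast he
  rw [← ha, ← hb, ← hc, ← hd, ← hg, ← hk, ← ho, ← hc', ← hd', ← hg', ← hx', ← hp', ← hf']
  rw [s1 _ _ ha, s1 _ _ hb, s1 _ _ hc, s1 _ _ hd, s1 _ _ hg, s1 _ _ hk, s1 _ _ ho, s2 _ _ hc',
    s2 _ _ hd', s2 _ _ hg', s2 _ _ hx', s4 _ _ hp', s4 _ _ hf'] at h'
  have dg : 0 < 2 - g := by linarith
  have hka : g / (1 - g / 2) * (2 - g) = 2 * g := by
    have e3 : (2 : ℝ) - g ≠ 0 := dg.ne'
    have e4 : 1 - g / 2 = (2 - g) / 2 := by ring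
    rw [e4]
    field_simp
  obtain ⟨ka, hkaa⟩ : ∃ a, a = g / (1 - g / 2) := ⟨_, rfl⟩
  rw [← hkaa] at hka ⊢
  unfold vin
  refine le_of_mul_le_mul_right ?_ (show (0 : ℝ) < (2 - g) * (1000 * (U : ℝ) ^ 7) by positivity)
  have e5 : (0.127 * ka * k + b * (a * ((k - 1 + d') * g + x')) + (1 - b) * (a * (g' - f')) +
      a * p' * (ka / 2) + c * (c' + k * d - f')) * ((2 - g) * (1000 * (U : ℝ) ^ 7)) =
      (0.254 * g * k + (2 - g) * (b * (a * ((k - 1 + d') * g + x')) + (1 - b) * (a * (g' - f')) +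
        c * (c' + k * d - f')) + a * p' * g) * (1000 * (U : ℝ) ^ 7) := by
    linear_combination ((0.127 * k + a * p' / 2) * (1000 * (U : ℝ) ^ 7)) * hka
  rw [e5]
  linarith

/-- the affine function in real numbers -/
noncomputable def afr (p : P3) (x y : ℝ) : ℝ :=
  (p.k : ℝ) / U * (1 - x - y) + (p.j : ℝ) / U * x + (p.l : ℝ) / U * y

theorem af_cast (p : P3) {x y : ℕ} (h : x + y ≤ U) :
    ((af p x y : ℕ) : ℝ) / U ^ 2 = afr p ((x : ℝ) / U) ((y : ℝ) / U) := by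
  have hU := U_pos
  have e : ((U - x - y : ℕ) : ℝ) = U - x - y := by
    rw [Nat.cast_sub (by omega), Nat.cast_sub (by omega)]
  unfold af afr
  simp only [Nat.mul_eq, Nat.add_eq, Nat.sub_eq]
  rw [Nat.cast_add, Nat.cast_add, Nat.cast_mul, Nat.cast_mul, Nat.cast_mul, e]
  field_simp
  ring

theorem rwk_get {A m o x y : ℕ} {I : Iv} {Fu Fv : ℕ} : ∀ {Rs : List Row} {Os : List ℕ},
    rwk A m o x y I Fu Fv Rs Os = true → ∀ i < Rs.length,
      one A m o I Fu Fv (af (Rs.getD i zR).S x y) (af ((Rs.getD i zR).ls.getD I.li zL).D x y)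
        (af ((Rs.getD i zR).ls.getD I.li zL).X x y)
        (af ((Rs.getD i zR).es.getD I.ei z3) x y) (Rs.getD i zR).s (Os.getD i 0) = true
  | [], _, _, i, hi => by simp at hi
  | R :: Rs, [], h, i, hi => by simp [rwk] at h
  | R :: Rs, V :: Vs, h, i, hi => by
    rw [rwk, Bool.and_eq_true] at h
    cases i with
    | zero => simpa using h.1
    | succ i =>
      have := rwk_get h.2 i (by simpa using hi)
      simpa using this

/-- sums over the rows at a vertex -/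
noncomputable def sC (rows : List Row) (lam : ℕ → ℝ) (x y : ℕ) : ℝ :=
  ∑ i ∈ Finset.range rows.length, lam i * (((af (rows.getD i zR).S x y : ℕ) : ℝ) / U ^ 2)
noncomputable def sD (rows : List Row) (lam : ℕ → ℝ) (li x y : ℕ) : ℝ :=
  ∑ i ∈ Finset.range rows.length,
    lam i * (((af ((rows.getD i zR).ls.getD li zL).D x y : ℕ) : ℝ) / U ^ 2)
noncomputable def sX (rows : List Row) (lam : ℕ → ℝ) (li x y : ℕ) : ℝ :=
  ∑ i ∈ Finset.range rows.length,
    lam i * (((af ((rows.getD i zR).ls.getD li zL).X x y : ℕ) : ℝ) / U ^ 2)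
noncomputable def sE (rows : List Row) (lam : ℕ → ℝ) (ei x y : ℕ) : ℝ :=
  ∑ i ∈ Finset.range rows.length,
    lam i * (((af ((rows.getD i zR).es.getD ei z3) x y : ℕ) : ℝ) / U ^ 2)
noncomputable def sP (rows : List Row) (lam : ℕ → ℝ) (F x y : ℕ) : ℝ :=
  ∑ i ∈ Finset.range rows.length,
    lam i * (((af (rows.getD i zR).S x y * (U * U) - F : ℕ) : ℝ) / U ^ 4)
noncomputable def sS (rows : List Row) (lam : ℕ → ℝ) : ℝ :=
  ∑ i ∈ Finset.range rows.length, lam i * (((rows.getD i zR).s : ℝ) / U)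

section
variable {rows : List Row} {lam : ℕ → ℝ} (h0 : ∀ i, 0 ≤ lam i)
  (h1 : ∑ i ∈ Finset.range rows.length, lam i = 1)

include h0 in
theorem sP_nonneg (F x y : ℕ) : 0 ≤ sP rows lam F x y :=
  Finset.sum_nonneg fun i _ => mul_nonneg (h0 i)
    (div_nonneg (Nat.cast_nonneg _) (pow_nonneg U_pos.le 4))

include h0 in
theorem sS_nonneg : 0 ≤ sS rows lam :=
  Finset.sum_nonneg fun i _ => mul_nonneg (h0 i) (div_nonneg (Nat.cast_nonneg _) U_pos.le)

include h0 in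
theorem sO_nonneg (Os : List ℕ) : 0 ≤ sO rows lam Os :=
  Finset.sum_nonneg fun i _ => mul_nonneg (h0 i) (div_nonneg (Nat.cast_nonneg _) U_pos.le)

include h0 h1 in
theorem sP_ge (F x y : ℕ) : sC rows lam x y - (F : ℝ) / U ^ 4 ≤ sP rows lam F x y := by
  have hU := U_pos
  have k : ∀ i, ((af (rows.getD i zR).S x y : ℕ) : ℝ) / U ^ 2 - (F : ℝ) / U ^ 4 ≤
      (((af (rows.getD i zR).S x y * (U * U) - F : ℕ) : ℝ) / U ^ 4) := by
    intro i
    have q := (cast_tsub (af (rows.getD i zR).S x y * (U * U)) F).1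
    rw [le_div_iff₀ (by positivity)]
    have e : (((af (rows.getD i zR).S x y : ℕ) : ℝ) / U ^ 2 - (F : ℝ) / U ^ 4) * (U : ℝ) ^ 4 =
        ((af (rows.getD i zR).S x y : ℕ) : ℝ) * ((U : ℝ) * U) - F := by
      field_simp
    rw [e]
    push_cast at q
    exact q
  have h2 : ∑ i ∈ Finset.range rows.length,
      lam i * (((af (rows.getD i zR).S x y : ℕ) : ℝ) / U ^ 2 - (F : ℝ) / U ^ 4) ≤
      sP rows lam F x y :=
    Finset.sum_le_sum fun i _ => mul_le_mul_of_nonneg_left (k i) (h0 i)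
  simp only [mul_sub, Finset.sum_sub_distrib, ← Finset.sum_mul, h1, one_mul] at h2
  exact h2

/-- the own value used by the rule -/
noncomputable def owr (rows : List Row) (lam : ℕ → ℝ) (ty o : ℕ) : ℝ :=
  match ty with
  | 0 => sS rows lam
  | 2 => sS rows lam
  | _ => (o : ℝ) / U

include h0 h1 in
/-- **a vertex**, rules `0`, `1` -/
theorem vx_sound {A c0 c1 m o x y : ℕ} {I : Iv} {Os : List ℕ} (hv : I.u < 2 * U)
    (hv2 : I.v < 2 * U) (hps : I.ps ≤ U)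
    (h : vxk rows A c0 c1 m o x y I Os = true) (hty : I.ty = 0 ∨ I.ty = 1) :
    vin ((A : ℝ) / U) ((I.ps : ℝ) / U) ((I.la : ℝ) / U) (owr rows lam I.ty o)
        ((I.u : ℝ) / U / (1 - (I.u : ℝ) / U / 2)) ((I.u : ℝ) / U) ((m : ℝ) / U)
        (sC rows lam x y) (sD rows lam I.li x y) (sX rows lam I.li x y) (sE rows lam I.ei x y)
        (sP rows lam (F4 c0 c1 m (min x y) I.u I.ru) x y)
        (((F4 c0 c1 m (min x y) I.u I.ru : ℕ) : ℝ) / U ^ 4) (sO rows lam Os) ∧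
      vin ((A : ℝ) / U) ((I.ps : ℝ) / U) ((I.la : ℝ) / U) (owr rows lam I.ty o)
        ((I.v : ℝ) / U / (1 - (I.v : ℝ) / U / 2)) ((I.v : ℝ) / U) ((m : ℝ) / U)
        (sC rows lam x y) (sD rows lam I.li x y) (sX rows lam I.li x y) (sE rows lam I.ei x y)
        (sP rows lam (F4 c0 c1 m (min x y) I.u I.ru) x y)
        (((F4 c0 c1 m (min x y) I.v I.rv : ℕ) : ℝ) / U ^ 4) (sO rows lam Os) := by
  have hU := U_pos
  unfold vxk at h
  rw [Bool.and_eq_true] at h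
  have hg := rwk_get h.2
  obtain ⟨Fu, hFu⟩ : ∃ F, F = F4 c0 c1 m (min x y) I.u I.ru := ⟨_, rfl⟩
  obtain ⟨Fv, hFv⟩ : ∃ F, F = F4 c0 c1 m (min x y) I.v I.rv := ⟨_, rfl⟩
  rw [← hFu, ← hFv] at hg ⊢
  rcases hty with hty | hty
  · -- `s` of the row
    have hk : ∀ i < rows.length, _ ∧ _ := fun i hi => by
      have h2 := hg i hi
      unfold one at h2
      rw [hty] at h2
      simp only [Bool.and_eq_true, Nat.mul_eq, Nat.sub_eq] at h2
      exact And.intro (ein_real hv hps h2.1) (ein_real hv2 hps h2.2)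
    constructor
    · have hc := comb6 h0 h1 (a0 := 0.127 * ((I.u : ℝ) / U / (1 - (I.u : ℝ) / U / 2)) * ((m : ℝ) / U)
          + (I.ps : ℝ) / U * ((A : ℝ) / U * (((m : ℝ) / U - 1) * ((I.u : ℝ) / U)))
          - (1 - (I.ps : ℝ) / U) * ((A : ℝ) / U * ((Fu : ℝ) / U ^ 4))
          - (I.la : ℝ) / U * ((Fu : ℝ) / U ^ 4))
        (a1 := (I.ps : ℝ) / U * ((A : ℝ) / U * ((I.u : ℝ) / U)))
        (a2 := (1 - (I.ps : ℝ) / U) * ((A : ℝ) / U))
        (a3 := (A : ℝ) / U * ((I.u : ℝ) / U / (1 - (I.u : ℝ) / U / 2) / 2))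
        (a4 := (I.la : ℝ) / U) (a5 := (I.la : ℝ) / U * ((m : ℝ) / U))
        (a6 := (I.ps : ℝ) / U * ((A : ℝ) / U))
        (D := fun i => ((af ((rows.getD i zR).ls.getD I.li zL).D x y : ℕ) : ℝ) / U ^ 2)
        (X := fun i => ((af ((rows.getD i zR).ls.getD I.li zL).X x y : ℕ) : ℝ) / U ^ 2)
        (E := fun i => ((af ((rows.getD i zR).es.getD I.ei z3) x y : ℕ) : ℝ) / U ^ 2)
        (P := fun i => (((af (rows.getD i zR).S x y * (U * U) - Fu : ℕ) : ℝ) / U ^ 4))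
        (C := fun i => ((af (rows.getD i zR).S x y : ℕ) : ℝ) / U ^ 2)
        (s := fun i => ((rows.getD i zR).s : ℝ) / U)
        (om := fun i => ((Os.getD i 0 : ℕ) : ℝ) / U) (fun i hi => by
          have := (hk i hi).1
          unfold vin at this
          linarith)
      have ew : owr rows lam I.ty o = sS rows lam := by
        rw [hty]
        rfl
      rw [ew]
      unfold vin sC sD sX sE sP sO sS
      linarith
    · have hc := comb6 h0 h1 (a0 := 0.127 * ((I.v : ℝ) / U / (1 - (I.v : ℝ) / U / 2)) * ((m : ℝ) / U)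
          + (I.ps : ℝ) / U * ((A : ℝ) / U * (((m : ℝ) / U - 1) * ((I.v : ℝ) / U)))
          - (1 - (I.ps : ℝ) / U) * ((A : ℝ) / U * ((Fv : ℝ) / U ^ 4))
          - (I.la : ℝ) / U * ((Fv : ℝ) / U ^ 4))
        (a1 := (I.ps : ℝ) / U * ((A : ℝ) / U * ((I.v : ℝ) / U)))
        (a2 := (1 - (I.ps : ℝ) / U) * ((A : ℝ) / U))
        (a3 := (A : ℝ) / U * ((I.v : ℝ) / U / (1 - (I.v : ℝ) / U / 2) / 2))
        (a4 := (I.la : ℝ) / U) (a5 := (I.la : ℝ) / U * ((m : ℝ) / U))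
        (a6 := (I.ps : ℝ) / U * ((A : ℝ) / U))
        (D := fun i => ((af ((rows.getD i zR).ls.getD I.li zL).D x y : ℕ) : ℝ) / U ^ 2)
        (X := fun i => ((af ((rows.getD i zR).ls.getD I.li zL).X x y : ℕ) : ℝ) / U ^ 2)
        (E := fun i => ((af ((rows.getD i zR).es.getD I.ei z3) x y : ℕ) : ℝ) / U ^ 2)
        (P := fun i => (((af (rows.getD i zR).S x y * (U * U) - Fu : ℕ) : ℝ) / U ^ 4))
        (C := fun i => ((af (rows.getD i zR).S x y : ℕ) : ℝ) / U ^ 2)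
        (s := fun i => ((rows.getD i zR).s : ℝ) / U)
        (om := fun i => ((Os.getD i 0 : ℕ) : ℝ) / U) (fun i hi => by
          have := (hk i hi).2
          unfold vin at this
          linarith)
      have ew : owr rows lam I.ty o = sS rows lam := by
        rw [hty]
        rfl
      rw [ew]
      unfold vin sC sD sX sE sP sO sS
      linarith
  · -- the bound `o`
    have hk : ∀ i < rows.length, _ ∧ _ := fun i hi => by
      have h2 := hg i hi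
      unfold one at h2
      rw [hty] at h2
      simp only [Bool.and_eq_true, Nat.mul_eq, Nat.sub_eq] at h2
      exact And.intro (ein_real hv hps h2.1) (ein_real hv2 hps h2.2)
    constructor
    · have hc := comb6 h0 h1 (a0 := 0.127 * ((I.u : ℝ) / U / (1 - (I.u : ℝ) / U / 2)) * ((m : ℝ) / U)
          + (I.ps : ℝ) / U * ((A : ℝ) / U * (((m : ℝ) / U - 1) * ((I.u : ℝ) / U)))
          - (1 - (I.ps : ℝ) / U) * ((A : ℝ) / U * ((Fu : ℝ) / U ^ 4))
          + (I.la : ℝ) / U * ((m : ℝ) / U * ((o : ℝ) / U) - (Fu : ℝ) / U ^ 4))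
        (a1 := (I.ps : ℝ) / U * ((A : ℝ) / U * ((I.u : ℝ) / U)))
        (a2 := (1 - (I.ps : ℝ) / U) * ((A : ℝ) / U))
        (a3 := (A : ℝ) / U * ((I.u : ℝ) / U / (1 - (I.u : ℝ) / U / 2) / 2))
        (a4 := (I.la : ℝ) / U) (a5 := 0) (a6 := (I.ps : ℝ) / U * ((A : ℝ) / U))
        (s := fun _ => 0)
        (D := fun i => ((af ((rows.getD i zR).ls.getD I.li zL).D x y : ℕ) : ℝ) / U ^ 2)
        (X := fun i => ((af ((rows.getD i zR).ls.getD I.li zL).X x y : ℕ) : ℝ) / U ^ 2)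
        (E := fun i => ((af ((rows.getD i zR).es.getD I.ei z3) x y : ℕ) : ℝ) / U ^ 2)
        (P := fun i => (((af (rows.getD i zR).S x y * (U * U) - Fu : ℕ) : ℝ) / U ^ 4))
        (C := fun i => ((af (rows.getD i zR).S x y : ℕ) : ℝ) / U ^ 2)
        (om := fun i => ((Os.getD i 0 : ℕ) : ℝ) / U) (fun i hi => by
          have := (hk i hi).1
          unfold vin at this
          linarith)
      have ew : owr rows lam I.ty o = (o : ℝ) / U := by
        rw [hty]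
        rfl
      rw [ew]
      unfold vin sC sD sX sE sP sO
      linarith
    · have hc := comb6 h0 h1 (a0 := 0.127 * ((I.v : ℝ) / U / (1 - (I.v : ℝ) / U / 2)) * ((m : ℝ) / U)
          + (I.ps : ℝ) / U * ((A : ℝ) / U * (((m : ℝ) / U - 1) * ((I.v : ℝ) / U)))
          - (1 - (I.ps : ℝ) / U) * ((A : ℝ) / U * ((Fv : ℝ) / U ^ 4))
          + (I.la : ℝ) / U * ((m : ℝ) / U * ((o : ℝ) / U) - (Fv : ℝ) / U ^ 4))
        (a1 := (I.ps : ℝ) / U * ((A : ℝ) / U * ((I.v : ℝ) / U)))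
        (a2 := (1 - (I.ps : ℝ) / U) * ((A : ℝ) / U))
        (a3 := (A : ℝ) / U * ((I.v : ℝ) / U / (1 - (I.v : ℝ) / U / 2) / 2))
        (a4 := (I.la : ℝ) / U) (a5 := 0) (a6 := (I.ps : ℝ) / U * ((A : ℝ) / U))
        (s := fun _ => 0)
        (D := fun i => ((af ((rows.getD i zR).ls.getD I.li zL).D x y : ℕ) : ℝ) / U ^ 2)
        (X := fun i => ((af ((rows.getD i zR).ls.getD I.li zL).X x y : ℕ) : ℝ) / U ^ 2)
        (E := fun i => ((af ((rows.getD i zR).es.getD I.ei z3) x y : ℕ) : ℝ) / U ^ 2)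
        (P := fun i => (((af (rows.getD i zR).S x y * (U * U) - Fu : ℕ) : ℝ) / U ^ 4))
        (C := fun i => ((af (rows.getD i zR).S x y : ℕ) : ℝ) / U ^ 2)
        (om := fun i => ((Os.getD i 0 : ℕ) : ℝ) / U) (fun i hi => by
          have := (hk i hi).2
          unfold vin at this
          linarith)
      have ew : owr rows lam I.ty o = (o : ℝ) / U := by
        rw [hty]
        rfl
      rw [ew]
      unfold vin sC sD sX sE sP sO
      linarith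

include h0 h1 in
/-- **a vertex**, rules `2`, `3` -/
theorem vx_out {A c0 c1 m o x y : ℕ} {I : Iv} {Os : List ℕ}
    (h : vxk rows A c0 c1 m o x y I Os = true) (hty : 2 ≤ I.ty) :
    sC rows lam x y + (m : ℝ) / U * owr rows lam I.ty o + 1 / (U : ℝ) ^ 4 ≤
      (((F4 c0 c1 m (min x y) I.u I.ru : ℕ) : ℝ) / U ^ 4) := by
  have hU := U_pos
  unfold vxk at h
  rw [Bool.and_eq_true] at h
  have hg := rwk_get h.2
  obtain ⟨Fu, hFu⟩ : ∃ F, F = F4 c0 c1 m (min x y) I.u I.ru := ⟨_, rfl⟩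
  obtain ⟨Fv, hFv⟩ : ∃ F, F = F4 c0 c1 m (min x y) I.v I.rv := ⟨_, rfl⟩
  rw [← hFu, ← hFv] at hg
  rw [← hFu]
  have key : ∀ (C w : ℕ), U * U * (C + m * w) + 1 ≤ Fu →
      (C : ℝ) / U ^ 2 + (m : ℝ) / U * ((w : ℝ) / U) + 1 / (U : ℝ) ^ 4 ≤ (Fu : ℝ) / U ^ 4 := by
    intro C w hk
    have h' : ((U * U * (C + m * w) + 1 : ℕ) : ℝ) ≤ ((Fu : ℕ) : ℝ) := by exact_mod_cast hk
    push_cast at h'
    rw [le_div_iff₀ (by positivity)]
    have e : ((C : ℝ) / U ^ 2 + (m : ℝ) / U * ((w : ℝ) / U) + 1 / (U : ℝ) ^ 4) * (U : ℝ) ^ 4 =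
        U * U * (C + m * w) + 1 := by
      field_simp
    rw [e]
    exact h'
  have eF : ∑ i ∈ Finset.range rows.length, lam i * ((Fu : ℝ) / U ^ 4) = (Fu : ℝ) / U ^ 4 := by
    rw [← Finset.sum_mul, h1, one_mul]
  rcases Nat.lt_or_ge I.ty 3 with h3 | h3
  · have hty' : I.ty = 2 := by omega
    have hk : ∀ i < rows.length, 1 / (U : ℝ) ^ 4 + 0 * (0 : ℝ) + 0 * (0 : ℝ) + 0 * (0 : ℝ) +
        1 * (((af (rows.getD i zR).S x y : ℕ) : ℝ) / U ^ 2) +
        (m : ℝ) / U * (((rows.getD i zR).s : ℝ) / U) + 0 * (0 : ℝ) ≤ (Fu : ℝ) / U ^ 4 := by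
      intro i hi
      have h2 := hg i hi
      unfold one at h2
      rw [hty'] at h2
      simp only [Nat.mul_eq, Nat.add_eq, Nat.succ_eq_add_one, Nat.ble_eq] at h2
      have := key _ _ h2
      linarith
    have hc := comb6 (D := fun _ => 0) (E := fun _ => 0) (P := fun _ => 0) (X := fun _ => 0) h0 h1 hk
    rw [eF] at hc
    have ew : owr rows lam I.ty o = sS rows lam := by
      rw [hty']
      rfl
    rw [ew]
    unfold sC sS
    linarith
  · have hk : ∀ i < rows.length, (1 / (U : ℝ) ^ 4 + (m : ℝ) / U * ((o : ℝ) / U)) + 0 * (0 : ℝ) +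
        0 * (0 : ℝ) + 0 * (0 : ℝ) +
        1 * (((af (rows.getD i zR).S x y : ℕ) : ℝ) / U ^ 2) + 0 * (0 : ℝ) + 0 * (0 : ℝ) ≤
        (Fu : ℝ) / U ^ 4 := by
      intro i hi
      have h2 := hg i hi
      have h4 : Nat.ble (Nat.succ (Nat.mul (Nat.mul U U)
          (Nat.add (af (rows.getD i zR).S x y) (Nat.mul m o)))) Fu = true := by
        unfold one at h2
        obtain ⟨k, hk⟩ := Nat.exists_eq_add_of_le h3
        rw [hk, Nat.add_comm] at h2
        exact h2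
      simp only [Nat.mul_eq, Nat.add_eq, Nat.succ_eq_add_one, Nat.ble_eq] at h4
      have := key _ _ h4
      linarith
    have hc := comb6 (D := fun _ => 0) (E := fun _ => 0) (P := fun _ => 0) (s := fun _ => 0)
      (X := fun _ => 0)
      h0 h1 hk
    rw [eF] at hc
    have e : owr rows lam I.ty o = (o : ℝ) / U := by
      unfold owr
      obtain ⟨k, hk⟩ := Nat.exists_eq_add_of_le h3
      rw [hk, Nat.add_comm]
      rfl
    rw [e]
    unfold sC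
    linarith

end

end Helper60.R8
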