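import Pool.Agent.Helper60.MEI.R9

/-!
# Project MEI (M2), w-term: a family of tables with one skeleton, the cost of a face

Members `e` with weights `wt e`; the load is only needed for the mean of the members.
-/

set_option autoImplicit false

namespace Helper60.R9

open Set MeasureTheory Helper78.MEI Helper80.CW Helper82.CW Helper14.CW Helper93.MEI Helper82.M2
open Helper14.MEI2 Pool.Agent.Helper52.MEI Pool.Agent.Helper73.MEI Pool.Agent.Helper31.SR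
open Helper33.MEI (Wi Dl tx M3 mt mt_pos)
open Helper60.R7 (U U_pos F4 cast_tsub In mtx rc rc_meas mem_rc mt_mtx cb cb_nonneg jj ll ch_fst
  ch_snd T3_sum ch_meas mt_ch M3_ch int_ch cap_ch T3_pos' ex_corner own_ch)
open Helper60.R8

/-- the intervals exhaust the range of `w` -/
theorem w_lt {rows : List Row} {lam : ℕ → ℝ} (h0 : ∀ i, 0 ≤ lam i)
    (h1 : ∑ i ∈ Finset.range rows.length, lam i = 1) {s w : ℝ} (hs : s ≤ sS rows lam)
    (hw1 : w ≤ 1 + s) {b : ℕ} (hb : (rows.all fun R => Nat.blt (U + R.s) b) = true) :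
    w < (b : ℝ) / U := by
  have hU := U_pos
  have k : ∀ i < rows.length, (1 : ℝ) + (((rows.getD i zR).s : ℕ) : ℝ) / U ≤ ((b : ℝ) - 1) / U := by
    intro i hi
    have h2 : U + (rows.getD i zR).s < b := by
      rw [List.getD_eq_getElem _ _ hi]
      have h5 := List.all_eq_true.1 hb _ (List.getElem_mem hi)
      rwa [Nat.blt_eq] at h5
    have h3 : ((U + (rows.getD i zR).s + 1 : ℕ) : ℝ) ≤ (b : ℝ) := by exact_mod_cast h2
    push_cast at h3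
    rw [le_div_iff₀ hU, add_mul, one_mul, div_mul_cancel₀ _ hU.ne']
    linarith
  have e : 1 + sS rows lam =
      ∑ i ∈ Finset.range rows.length, lam i * (1 + (((rows.getD i zR).s : ℕ) : ℝ) / U) := by
    unfold sS
    simp only [mul_add, mul_one, Finset.sum_add_distrib, h1]
  have h2 : ∑ i ∈ Finset.range rows.length, lam i * (1 + (((rows.getD i zR).s : ℕ) : ℝ) / U) ≤
      ∑ i ∈ Finset.range rows.length, lam i * (((b : ℝ) - 1) / U) :=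
    Finset.sum_le_sum fun i hi => mul_le_mul_of_nonneg_left (k i (Finset.mem_range.1 hi)) (h0 i)
  rw [← Finset.sum_mul, h1, one_mul] at h2
  have h3 : ((b : ℝ) - 1) / U < (b : ℝ) / U := div_lt_div_of_pos_right (by linarith) hU
  linarith

/-- the interval of `w`, the same index in every member -/
theorem ivk_find_fam {ι : Type*} [hne : Nonempty ι] {rows : ι → List Row}
    {A c0 c1 nl ne x0 x1 y0 y1 : ℕ} {c : ι → Lf} {w : ℝ}
    (hW : ∀ e, ∀ b : ℕ, ((rows e).all fun R => Nat.blt (U + R.s) b) = true → w < (b : ℝ) / U) :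
    ∀ (L0 : List Iv) (L : ι → List Iv) (b : ℕ), (∀ e, skI L0 (L e) = true) →
      (∀ e, ivk (rows e) A c0 c1 nl ne x0 x1 y0 y1 (c e) b (L e) = true) → (b : ℝ) / U ≤ w →
      ∃ (J : Iv) (I : ι → Iv), (∀ e, skV J (I e) = true) ∧ (J.u : ℝ) / U ≤ w ∧
        w ≤ (J.v : ℝ) / U ∧ ∀ e, ik (rows e) A c0 c1 nl ne x0 x1 y0 y1 (c e) (I e) = true
  | [], L, b, hs, h, hb => by
    obtain ⟨e⟩ := hne
    have h2 := h e
    rw [skI_nil (hs e)] at h2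
    exact absurd hb (not_le.2 (hW e b h2))
  | J :: L0, L, b, hs, h, hb => by
    have hU := U_pos
    choose I M hL hJ hM using fun e => skI_cons (hs e)
    have h' : ∀ e, ((I e).u ≤ b ∧ ik (rows e) A c0 c1 nl ne x0 x1 y0 y1 (c e) (I e) = true) ∧
        ivk (rows e) A c0 c1 nl ne x0 x1 y0 y1 (c e) (I e).v (M e) = true := by
      intro e
      have h2 := h e
      rw [hL e] at h2
      simpa only [ivk, Bool.and_eq_true, Nat.ble_eq] using h2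
    rcases le_or_gt w ((J.v : ℝ) / U) with hv | hv
    · refine ⟨J, I, hJ, ?_, hv, fun e => (h' e).1.2⟩
      obtain ⟨e⟩ := hne
      rw [(skV_iff (hJ e)).1]
      exact le_trans (div_le_div_of_nonneg_right (by exact_mod_cast (h' e).1.1) hU.le) hb
    · refine ivk_find_fam hW L0 M J.v hM (fun e => ?_) hv.le
      rw [(skV_iff (hJ e)).2.1]
      exact (h' e).2

section
variable {x0 x1 y0 y1 : ℕ} {p q x y m : ℝ} (hp0 : 0 ≤ p) (hp1 : p ≤ 1) (hq0 : 0 ≤ q)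
  (hq1 : q ≤ 1) (hx : x = (1 - p) * ((x0 : ℝ) / U) + p * ((x1 : ℝ) / U))
  (hy : y = (1 - q) * ((y0 : ℝ) / U) + q * ((y1 : ℝ) / U))
  (hx0 : 0 ≤ x) (hy0 : 0 ≤ y) (hz0 : 0 ≤ 1 - x - y) (hm : m ^ 2 = mtx x y) (hm0 : 0 < m)

include hp0 hp1 hq0 hq1 hx hy hx0 hy0 hz0 hm hm0 in
/-- rules `2`, `3`: out of range -/
theorem lf_out {rows : List Row} {A c0 c1 nl ne : ℕ} {c : Lf} (hbk : bk x0 x1 y0 y1 c = true)
    {I : Iv} (hik : ik rows A c0 c1 nl ne x0 x1 y0 y1 c I = true) (hty : 2 ≤ I.ty)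
    {lam : ℕ → ℝ} (h0 : ∀ i, 0 ≤ lam i) (h1 : ∑ i ∈ Finset.range rows.length, lam i = 1)
    {Sk Sj Sl s ow C d0 d1 w Y : ℝ}
    (hSk : Sk ≤ ∑ i ∈ Finset.range rows.length, lam i * (((rows.getD i zR).S.k : ℝ) / U))
    (hSj : Sj ≤ ∑ i ∈ Finset.range rows.length, lam i * (((rows.getD i zR).S.j : ℝ) / U))
    (hSl : Sl ≤ ∑ i ∈ Finset.range rows.length, lam i * (((rows.getD i zR).S.l : ℝ) / U))
    (hs : s ≤ sS rows lam) (how0 : 0 ≤ ow) (how : ow ≤ s)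
    (how2 : ow ≤ (3 * x ^ 2 + 2 * x * y + 3 * y ^ 2) / (2 - x - y) ^ 2)
    (hCe : C = (1 - x - y) * Sk + x * Sj + y * Sl)
    (hd0 : (c0 : ℝ) / U ≤ d0) (hd1 : d1 ≤ (c1 : ℝ) / U) (hd : 0 ≤ d1)
    (hu : (I.u : ℝ) / U ≤ w) (hm1 : m ≤ 1) (hw3 : 3 * d1 * w ≤ d0)
    (hS : ph m (bil p q ((min x0 y0 : ℕ) / U) ((min x0 y1 : ℕ) / U) ((min x1 y0 : ℕ) / U)
        ((min x1 y1 : ℕ) / U)) d0 d1 w - C + m * w ≤ Y) (hO : Y / m - w ≤ ow) : False := by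
  have hU := U_pos
  have hC := C_bil hp0 hp1 hq0 hq1 hx hy hx0 hy0 hz0 hm hm0 hbk hSk hSj hSl hCe
  obtain ⟨j1, j2, j3, j4, ⟨b1, b2, b3, b4⟩, _⟩ := bk_iff hbk
  obtain ⟨u1, n1⟩ := mk1_iff b1
  obtain ⟨u2, n2⟩ := mk1_iff b2
  obtain ⟨u3, n3⟩ := mk1_iff b3
  obtain ⟨u4, n4⟩ := mk1_iff b4
  have hnm : In x0 x1 y0 y1 x y := by
    have a1 : (x0 : ℝ) / U ≤ (x1 : ℝ) / U :=
      div_le_div_of_nonneg_right (by exact_mod_cast j1.le) hU.le
    have a2 : (y0 : ℝ) / U ≤ (y1 : ℝ) / U :=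
      div_le_div_of_nonneg_right (by exact_mod_cast j2.le) hU.le
    refine ⟨?_, ?_, ?_, ?_⟩
    · rw [hx]; nlinarith
    · rw [hx]; nlinarith
    · rw [hy]; nlinarith
    · rw [hy]; nlinarith
  have hmo := Helper60.R7.mck_o (bk_mck hbk) hnm
  unfold ik at hik
  simp only [Bool.and_eq_true, Bool.or_eq_true, Nat.ble_eq, Nat.blt_eq] at hik
  obtain ⟨⟨⟨⟨⟨⟨⟨⟨⟨⟨⟨i1, i2⟩, i3⟩, i4⟩, i5⟩, i6⟩, i7⟩, i8⟩, x1'⟩, x2'⟩, x3'⟩, x4'⟩ := hik
  have hcu : c1 * I.u ≤ c0 * U := (Nat.mul_le_mul_left _ i1.le).trans i5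
  have t1 : 0 ≤ (1 - p) * (1 - q) := mul_nonneg (by linarith) (by linarith)
  have t2 : 0 ≤ (1 - p) * q := mul_nonneg (by linarith) hq0
  have t3 : 0 ≤ p * (1 - q) := mul_nonneg hp0 (by linarith)
  have t4 : 0 ≤ p * q := mul_nonneg hp0 hq0
  have hmc := m_conv hp0 hp1 hq0 hq1 hx hy hm hm0 (m1 := (c.m00 : ℝ) / U)
    (m2 := (c.m01 : ℝ) / U) (m3 := (c.m10 : ℝ) / U) (m4 := (c.m11 : ℝ) / U)
    (by positivity) (by positivity) (by positivity) (by positivity) n1 n2 n3 n4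
  obtain ⟨μ, hμ⟩ : ∃ μ, μ = bil p q ((min x0 y0 : ℕ) / U) ((min x0 y1 : ℕ) / U)
    ((min x1 y0 : ℕ) / U) ((min x1 y1 : ℕ) / U) := ⟨_, rfl⟩
  have hμ0 : 0 ≤ μ := by
    have p' : 0 ≤ 1 - p := sub_nonneg.2 hp1
    have q' : 0 ≤ 1 - q := sub_nonneg.2 hq1
    rw [hμ]
    unfold bil
    positivity
  have hsu := FF_ph hp0 hp1 hq0 hq1 hx hy hm hm0 hbk hd0 hd1 hcu i3
  rw [← hμ] at hsu hS
  have hu0 : 0 ≤ (I.u : ℝ) / U := by positivity
  have hown : ow ≤ owr rows lam I.ty c.o := by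
    unfold owr
    split
    · exact how.trans hs
    · exact how.trans hs
    · exact how2.trans hmo
  have hown0 : 0 ≤ owr rows lam I.ty c.o := how0.trans hown
  have o1 := vx_out h0 h1 x1' hty
  have o2 := vx_out h0 h1 x2' hty
  have o3 := vx_out h0 h1 x3' hty
  have o4 := vx_out h0 h1 x4' hty
  have a1 := mul_le_mul_of_nonneg_left o1 t1
  have a2 := mul_le_mul_of_nonneg_left o2 t2
  have a3 := mul_le_mul_of_nonneg_left o3 t3
  have a4 := mul_le_mul_of_nonneg_left o4 t4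
  have k1 : m * ow ≤ ((1 - p) * (1 - q) * ((c.m00 : ℝ) / U) + (1 - p) * q * ((c.m01 : ℝ) / U) +
      p * (1 - q) * ((c.m10 : ℝ) / U) + p * q * ((c.m11 : ℝ) / U)) *
      owr rows lam I.ty c.o :=
    mul_le_mul hmc hown how0 (hm0.le.trans hmc)
  have q0' : (0 : ℝ) < 1 / (U : ℝ) ^ 4 := by positivity
  have tq : ((1 - p) * (1 - q) + (1 - p) * q + p * (1 - q) + p * q) * (1 / (U : ℝ) ^ 4) =
    1 / (U : ℝ) ^ 4 := by ring
  have hmono : ph m μ d0 d1 ((I.u : ℝ) / U) ≤ ph m μ d0 d1 w := ph_mono hm1 hμ0 hd hu0 hu hw3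
  have hY : Y ≤ m * ow + m * w := by
    have e : m * (Y / m - w) = Y - m * w := by field_simp
    have := mul_le_mul_of_nonneg_left hO hm0.le
    linarith only [this, e]
  unfold FF at hsu
  unfold bil at hC hsu
  linarith only [a1, a2, a3, a4, k1, q0', tq, hC, hsu, hmono, hY, hS]

end

theorem avg_le {ι : Type*} [Fintype ι] {wt : ι → ℝ} (hwt : ∀ e, 0 ≤ wt e)
    (hws : ∑ e, wt e = 1) {a0 a1 a2 a3 a4 a5 m : ℝ} {D X E P l o : ι → ℝ}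
    (h : ∀ e, a0 + a1 * D e + a2 * X e + a3 * E e + a4 * P e + a5 * l e ≤ m * o e) :
    a0 + a1 * (∑ e, wt e * D e) + a2 * (∑ e, wt e * X e) + a3 * (∑ e, wt e * E e) +
      a4 * (∑ e, wt e * P e) + a5 * (∑ e, wt e * l e) ≤ m * ∑ e, wt e * o e := by
  have g : ∀ (a : ℝ) (F : ι → ℝ), a * ∑ e, wt e * F e = ∑ e, wt e * (a * F e) := fun a F => by
    rw [Finset.mul_sum]
    exact Finset.sum_congr rfl fun e _ => by ring
  have g0 : a0 = ∑ e, wt e * a0 := by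
    rw [← Finset.sum_mul, hws, one_mul]
  rw [g, g, g, g, g, g]
  have k := Finset.sum_le_sum fun e (_ : e ∈ Finset.univ) =>
    mul_le_mul_of_nonneg_left (h e) (hwt e)
  refine le_trans (le_of_eq ?_) k
  simp only [mul_add, Finset.sum_add_distrib]
  rw [← g0]

theorem avg_const {ι : Type*} [Fintype ι] {wt : ι → ℝ} (hwt : ∀ e, 0 ≤ wt e)
    (hws : ∑ e, wt e = 1) {a : ℝ} {F : ι → ℝ} (h : ∀ e, a ≤ F e) : a ≤ ∑ e, wt e * F e := by
  have g0 : a = ∑ e, wt e * a := by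
    rw [← Finset.sum_mul, hws, one_mul]
  rw [g0]
  exact Finset.sum_le_sum fun e _ => mul_le_mul_of_nonneg_left (h e) (hwt e)

/-- **a leaf at a point**, the mean of the members -/
theorem lf_fam {ι : Type*} [Fintype ι] {rows : ι → List Row}
    {A c0 c1 nl ne x0 x1 y0 y1 : ℕ} {c : ι → Lf} {cs : Lf}
    (hck : ∀ e, lk8 (rows e) A c0 c1 nl ne x0 x1 y0 y1 (c e) = true)
    (hsk : ∀ e, skL cs (c e) = true)
    {wt : ι → ℝ} (hwt : ∀ e, 0 ≤ wt e) (hws : ∑ e, wt e = 1)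
    {lam : ι → ℕ → ℝ} (h0 : ∀ e i, 0 ≤ lam e i)
    (h1 : ∀ e, ∑ i ∈ Finset.range (rows e).length, lam e i = 1)
    {x y p q Sk Sj Sl s d0 d1 m ow w G Y : ℝ} (hp0 : 0 ≤ p) (hp1 : p ≤ 1) (hq0 : 0 ≤ q)
    (hq1 : q ≤ 1) (hx : x = (1 - p) * ((x0 : ℝ) / U) + p * ((x1 : ℝ) / U))
    (hy : y = (1 - q) * ((y0 : ℝ) / U) + q * ((y1 : ℝ) / U))
    (hx0 : 0 ≤ x) (hy0 : 0 ≤ y) (hz0 : 0 ≤ 1 - x - y)
    (hSk : ∀ e, Sk ≤ ∑ i ∈ Finset.range (rows e).length,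
      lam e i * ((((rows e).getD i zR).S.k : ℝ) / U))
    (hSj : ∀ e, Sj ≤ ∑ i ∈ Finset.range (rows e).length,
      lam e i * ((((rows e).getD i zR).S.j : ℝ) / U))
    (hSl : ∀ e, Sl ≤ ∑ i ∈ Finset.range (rows e).length,
      lam e i * ((((rows e).getD i zR).S.l : ℝ) / U))
    (hs : ∀ e, s ≤ sS (rows e) (lam e))
    (hd0 : (c0 : ℝ) / U ≤ d0) (hd1 : d1 ≤ (c1 : ℝ) / U) (hd : 0 ≤ d1)
    (hm : m ^ 2 = mtx x y) (hm0 : 0 < m) (how0 : 0 ≤ ow) (how : ow ≤ s)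
    (how2 : ow ≤ (3 * x ^ 2 + 2 * x * y + 3 * y ^ 2) / (2 - x - y) ^ 2)
    (hw0 : 0 ≤ w) (hw1 : w ≤ 1 + s) (hm1 : m ≤ 1) (hw3 : 3 * d1 * w ≤ d0)
    {C : ℝ} (hCe : C = (1 - x - y) * Sk + x * Sj + y * Sl)
    (hL : ∀ li < nl, G + (1 - ∑ e, wt e * sAf (rows e).length (lam e)
      (fun i => (((rows e).getD i zR).ls.getD li zL).D) x y) * w -
        ∑ e, wt e * sAf (rows e).length (lam e)
          (fun i => (((rows e).getD i zR).ls.getD li zL).X) x y ≤ Y)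
    (hE : ∀ ei < ne, G ≤ -C + ∑ e, wt e * sAf (rows e).length (lam e)
      (fun i => ((rows e).getD i zR).es.getD ei z3) x y)
    (hS : ph m (bil p q ((min x0 y0 : ℕ) / U) ((min x0 y1 : ℕ) / U) ((min x1 y0 : ℕ) / U)
        ((min x1 y1 : ℕ) / U)) d0 d1 w - C + m * w ≤ Y)
    (hO : Y / m - w ≤ ow)
    {om : ι → ℝ} (hom : ∀ e, BO (rows e) (lam e) (c e) p q ≤ m * om e) :
    (A : ℝ) / U * (G / m) - ∑ e, wt e * om e ≤ ff ((A : ℝ) / U) (Y / m - w) w := by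
  have hU := U_pos
  have hne : Nonempty ι := by
    by_contra hn
    rw [not_nonempty_iff] at hn
    simp at hws
  have hk : ∀ e, bk x0 x1 y0 y1 (c e) = true ∧
      ivk (rows e) A c0 c1 nl ne x0 x1 y0 y1 (c e) 0 (c e).iv = true := fun e => by
    have h := hck e
    unfold lk8 at h
    rwa [Bool.and_eq_true] at h
  obtain ⟨J, I, hJ, hu, hv, hik⟩ := ivk_find_fam (rows := rows) (c := c) (w := w)
    (fun e b hb => w_lt (h0 e) (h1 e) (hs e) hw1 hb) cs.iv (fun e => (c e).iv) 0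
    (fun e => (skL_iff (hsk e)).2.2.2.2.2) (fun e => (hk e).2) (by simpa using hw0)
  rcases Nat.lt_or_ge J.ty 2 with hty | hty
  swap
  · obtain ⟨e⟩ := hne
    obtain ⟨k1, k2, k3, k4, k5, k6, k7, k8⟩ := skV_iff (hJ e)
    exact (lf_out hp0 hp1 hq0 hq1 hx hy hx0 hy0 hz0 hm hm0 (hk e).1 (hik e) (k5 ▸ hty) (h0 e)
      (h1 e) (hSk e) (hSj e) (hSl e) (hs e) how0 how how2 hCe hd0 hd1 hd (k1 ▸ hu) hm1 hw3 hS
      hO).elim
  -- the members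
  have hb : ∀ e, ∃ P : ℝ, 0 ≤ P ∧ C - FF cs c0 c1 x0 x1 y0 y1 p q J.u J.ru ≤ P ∧
      vin ((A : ℝ) / U) ((J.ps : ℝ) / U) (((I e).la : ℝ) / U) ow
        ((J.u : ℝ) / U / (1 - (J.u : ℝ) / U / 2)) ((J.u : ℝ) / U) m C
        (sAf (rows e).length (lam e) (fun i => (((rows e).getD i zR).ls.getD J.li zL).D) x y)
        (sAf (rows e).length (lam e) (fun i => (((rows e).getD i zR).ls.getD J.li zL).X) x y)
        (sAf (rows e).length (lam e) (fun i => ((rows e).getD i zR).es.getD J.ei z3) x y) P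
        (FF cs c0 c1 x0 x1 y0 y1 p q J.u J.ru) (BO (rows e) (lam e) (c e) p q) ∧
      vin ((A : ℝ) / U) ((J.ps : ℝ) / U) (((I e).la : ℝ) / U) ow
        ((J.v : ℝ) / U / (1 - (J.v : ℝ) / U / 2)) ((J.v : ℝ) / U) m C
        (sAf (rows e).length (lam e) (fun i => (((rows e).getD i zR).ls.getD J.li zL).D) x y)
        (sAf (rows e).length (lam e) (fun i => (((rows e).getD i zR).ls.getD J.li zL).X) x y)
        (sAf (rows e).length (lam e) (fun i => ((rows e).getD i zR).es.getD J.ei z3) x y) P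
        (FF cs c0 c1 x0 x1 y0 y1 p q J.v J.rv) (BO (rows e) (lam e) (c e) p q) := by
    intro e
    obtain ⟨k1, k2, k3, k4, k5, k6, k7, k8⟩ := skV_iff (hJ e)
    have h := lf_blk hp0 hp1 hq0 hq1 hx hy hx0 hy0 hz0 hm hm0 (hk e).1 (hik e)
      (by rw [← k5]; omega) (h0 e) (h1 e) (hSk e) (hSj e) (hSl e) (hs e) how0 how how2 hCe
    rw [FF_sk (hsk e), FF_sk (hsk e)] at h
    rw [k1, k2, k3, k4, k6, k7, k8]
    exact h
  choose P hP0 hPC hV1 hV2 using hb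
  obtain ⟨e0⟩ := hne
  obtain ⟨k1, k2, k3, k4, k5, k6, k7, k8⟩ := skV_iff (hJ e0)
  have hmn := FF_mono hp0 hp1 hq0 hq1 (hik e0)
  rw [FF_sk (hsk e0), FF_sk (hsk e0), ← k1, ← k2, ← k3, ← k4] at hmn
  have hik0 := hik e0
  unfold ik at hik0
  simp only [Bool.and_eq_true, Bool.or_eq_true, Nat.ble_eq, Nat.blt_eq] at hik0
  obtain ⟨⟨⟨⟨⟨⟨⟨⟨⟨⟨⟨i1, i2⟩, i3⟩, i4⟩, i5⟩, i6⟩, i7⟩, i8⟩, _⟩, _⟩, _⟩, _⟩ := hik0
  have hcu : c1 * (I e0).u ≤ c0 * U := (Nat.mul_le_mul_left _ i1.le).trans i5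
  have hsu := FF_ph hp0 hp1 hq0 hq1 hx hy hm hm0 (hk e0).1 hd0 hd1 hcu i3
  have hsv := FF_ph hp0 hp1 hq0 hq1 hx hy hm hm0 (hk e0).1 hd0 hd1 i5 i4
  rw [FF_sk (hsk e0), ← k1, ← k3] at hsu
  rw [FF_sk (hsk e0), ← k2, ← k4] at hsv
  rw [← k1, ← k2] at i1
  rw [← k2] at i2
  rw [← k6] at i6
  rw [← k7] at i7
  rw [← k6, ← k8] at i8
  obtain ⟨μ, hμ⟩ : ∃ μ, μ = bil p q ((min x0 y0 : ℕ) / U) ((min x0 y1 : ℕ) / U)
    ((min x1 y0 : ℕ) / U) ((min x1 y1 : ℕ) / U) := ⟨_, rfl⟩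
  have hμ0 : 0 ≤ μ := by
    have p' : 0 ≤ 1 - p := sub_nonneg.2 hp1
    have q' : 0 ≤ 1 - q := sub_nonneg.2 hq1
    rw [hμ]
    unfold bil
    positivity
  rw [← hμ] at hsu hsv hS
  obtain ⟨fu, hfu⟩ : ∃ f, f = FF cs c0 c1 x0 x1 y0 y1 p q J.u J.ru := ⟨_, rfl⟩
  obtain ⟨fv, hfv⟩ : ∃ f, f = FF cs c0 c1 x0 x1 y0 y1 p q J.v J.rv := ⟨_, rfl⟩
  rw [← hfu] at hsu hmn hPC hV1
  rw [← hfv] at hsv hmn hV2
  have hu0 : 0 ≤ (J.u : ℝ) / U := by positivity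
  have huv : (J.u : ℝ) / U < (J.v : ℝ) / U :=
    div_lt_div_of_pos_right (by exact_mod_cast i1) hU
  have hv3 : (J.v : ℝ) / U < 2 := by
    rw [div_lt_iff₀ hU]
    exact_mod_cast i2
  have hd0' : 0 ≤ d0 := le_trans (by positivity) hd0
  have hA : 0 ≤ (A : ℝ) / U := by positivity
  have hps1 : (J.ps : ℝ) / U ≤ 1 := by
    rw [div_le_one hU]
    exact_mod_cast i6
  have hps0 : 0 ≤ (J.ps : ℝ) / U := by positivity
  -- the position in the interval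
  obtain ⟨r, hr⟩ : ∃ r, r = (w - (J.u : ℝ) / U) / ((J.v : ℝ) / U - (J.u : ℝ) / U) := ⟨_, rfl⟩
  have hd' : 0 < (J.v : ℝ) / U - (J.u : ℝ) / U := sub_pos.2 huv
  have hr0 : 0 ≤ r := by
    rw [hr]
    exact div_nonneg (sub_nonneg.2 hu) hd'.le
  have hr1 : r ≤ 1 := by
    rw [hr, div_le_one hd']
    exact sub_le_sub_right hv _
  have hw' : w = (1 - r) * ((J.u : ℝ) / U) + r * ((J.v : ℝ) / U) := by
    have : r * ((J.v : ℝ) / U - (J.u : ℝ) / U) = w - (J.u : ℝ) / U := by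
      rw [hr]
      exact div_mul_cancel₀ _ hd'.ne'
    linarith only [this]
  have hfw : (1 - r) * fu + r * fv ≤ ph m μ d0 d1 w := by
    have e1 := ph_chord (m := m) hμ0 hu0 huv hr0 hr1 hw' hd0' hd
    have a1 := mul_le_mul_of_nonneg_left hsu (sub_nonneg.2 hr1)
    have a2 := mul_le_mul_of_nonneg_left hsv hr0
    linarith only [a1, a2, e1]
  -- the means
  have hLi := hL J.li i7
  obtain ⟨D, hD⟩ : ∃ D : ι → ℝ, D = fun e => sAf (rows e).length (lam e)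
    (fun i => (((rows e).getD i zR).ls.getD J.li zL).D) x y := ⟨_, rfl⟩
  obtain ⟨X, hX⟩ : ∃ D : ι → ℝ, D = fun e => sAf (rows e).length (lam e)
    (fun i => (((rows e).getD i zR).ls.getD J.li zL).X) x y := ⟨_, rfl⟩
  obtain ⟨E, hEe⟩ : ∃ D : ι → ℝ, D = fun e => sAf (rows e).length (lam e)
    (fun i => ((rows e).getD i zR).es.getD J.ei z3) x y := ⟨_, rfl⟩
  have eD : ∀ e, sAf (rows e).length (lam e)
    (fun i => (((rows e).getD i zR).ls.getD J.li zL).D) x y = D e := fun e => by rw [hD]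
  have eX : ∀ e, sAf (rows e).length (lam e)
    (fun i => (((rows e).getD i zR).ls.getD J.li zL).X) x y = X e := fun e => by rw [hX]
  have eE : ∀ e, sAf (rows e).length (lam e)
    (fun i => ((rows e).getD i zR).es.getD J.ei z3) x y = E e := fun e => by rw [hEe]
  simp only [eD, eX] at hLi
  simp only [eD, eX, eE] at hV1 hV2
  obtain ⟨E2, hEi, hE2⟩ : ∃ E2, G ≤ -C + E2 ∧
      (1 - (J.ps : ℝ) / U) * E2 = (1 - (J.ps : ℝ) / U) * ∑ e, wt e * E e := by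
    rcases i8 with i8 | i8
    · refine ⟨G + C, by linarith, ?_⟩
      have e : (J.ps : ℝ) / U = 1 := by
        rw [le_antisymm i6 i8]
        exact div_self hU.ne'
      rw [e]
      ring
    · refine ⟨∑ e, wt e * E e, ?_, rfl⟩
      have := hE J.ei i8
      simpa only [eE] using this
  have hE3 : ∀ z, (1 - (J.ps : ℝ) / U) * ((A : ℝ) / U * (E2 - z)) =
      (1 - (J.ps : ℝ) / U) * ((A : ℝ) / U * ((∑ e, wt e * E e) - z)) := by
    intro z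
    linear_combination ((A : ℝ) / U) * hE2
  obtain ⟨Db, hDb⟩ : ∃ a, a = ∑ e, wt e * D e := ⟨_, rfl⟩
  obtain ⟨Xb, hXb⟩ : ∃ a, a = ∑ e, wt e * X e := ⟨_, rfl⟩
  obtain ⟨Eb, hEb⟩ : ∃ a, a = ∑ e, wt e * E e := ⟨_, rfl⟩
  obtain ⟨Pb, hPb⟩ : ∃ a, a = ∑ e, wt e * P e := ⟨_, rfl⟩
  obtain ⟨lb, hlb⟩ : ∃ a, a = ∑ e, wt e * (((I e).la : ℝ) / U) := ⟨_, rfl⟩
  obtain ⟨ob, hob⟩ : ∃ a, a = ∑ e, wt e * om e := ⟨_, rfl⟩
  have hla0 : 0 ≤ lb := by
    rw [hlb]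
    exact Finset.sum_nonneg fun e _ => mul_nonneg (hwt e) (by positivity)
  have A1 := avg_le hwt hws (a0 := 0.127 * ((J.u : ℝ) / U / (1 - (J.u : ℝ) / U / 2)) * m +
      (J.ps : ℝ) / U * ((A : ℝ) / U * ((m - 1) * ((J.u : ℝ) / U))) -
      (1 - (J.ps : ℝ) / U) * ((A : ℝ) / U * fu))
    (a1 := (J.ps : ℝ) / U * ((A : ℝ) / U * ((J.u : ℝ) / U)))
    (a2 := (J.ps : ℝ) / U * ((A : ℝ) / U))
    (a3 := (1 - (J.ps : ℝ) / U) * ((A : ℝ) / U))
    (a4 := (A : ℝ) / U * ((J.u : ℝ) / U / (1 - (J.u : ℝ) / U / 2) / 2))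
    (a5 := C + m * ow - fu) (m := m) (D := D) (X := X) (E := E) (P := P)
    (l := fun e => ((I e).la : ℝ) / U) (o := om) (fun e => by
      have v := hV1 e
      have v2 := hom e
      unfold vin at v
      linarith only [v, v2])
  have A2 := avg_le hwt hws (a0 := 0.127 * ((J.v : ℝ) / U / (1 - (J.v : ℝ) / U / 2)) * m +
      (J.ps : ℝ) / U * ((A : ℝ) / U * ((m - 1) * ((J.v : ℝ) / U))) -
      (1 - (J.ps : ℝ) / U) * ((A : ℝ) / U * fv))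
    (a1 := (J.ps : ℝ) / U * ((A : ℝ) / U * ((J.v : ℝ) / U)))
    (a2 := (J.ps : ℝ) / U * ((A : ℝ) / U))
    (a3 := (1 - (J.ps : ℝ) / U) * ((A : ℝ) / U))
    (a4 := (A : ℝ) / U * ((J.v : ℝ) / U / (1 - (J.v : ℝ) / U / 2) / 2))
    (a5 := C + m * ow - fv) (m := m) (D := D) (X := X) (E := E) (P := P)
    (l := fun e => ((I e).la : ℝ) / U) (o := om) (fun e => by
      have v := hV2 e
      have v2 := hom e
      unfold vin at v
      linarith only [v, v2])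
  rw [← hDb, ← hXb, ← hEb, ← hPb, ← hlb, ← hob] at A1 A2
  rw [← hDb, ← hXb] at hLi
  rw [← hEb] at hE3
  rw [← hob]
  refine ends_of (A := (A : ℝ) / U) (m := m) (C := C) (D := Db) (X := Xb) (E := E2) (fu := fu)
    (fv := fv) (w := w) (om := ob) (P := Pb) (psi := (J.ps : ℝ) / U) (la := lb)
    (ow := ow) (u := (J.u : ℝ) / U) (v := (J.v : ℝ) / U) (r := r) hA hm0 hu0 huv hv3 hr0 hr1
    hw' hLi (by linarith only [hfw, hS]) hO hEi ?_ ?_ hmn hps0 hps1 hla0 ?_ ?_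
  · rw [hPb]
    exact Finset.sum_nonneg fun e _ => mul_nonneg (hwt e) (hP0 e)
  · rw [hPb]
    exact avg_const hwt hws hPC
  · rw [hE3]
    linarith only [A1]
  · rw [hE3]
    linarith only [A2]

/-! ### Trees -/

/-- **search in the trees of the family** -/
theorem find_fam {ι : Type*} [hne : Nonempty ι] {rows : ι → List Row} {A c0 c1 ne h : ℕ}
    {nf : ℕ → ℕ → ℕ} {lam : ι → ℕ → ℝ} (h0 : ∀ e i, 0 ≤ lam e i) {x y : ℝ}
    (k1 : 2 * x + y ≤ 1) (k2 : x + 2 * y ≤ 1) :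
    ∀ (S : Tr) (T : ι → Tr) (x0 x1 y0 y1 : ℕ), (∀ e, sk S (T e) = true) →
    (∀ e, (T e).ckf (rows e) A c0 c1 nf ne h x0 x1 y0 y1 = true) →
    (x0 : ℝ) / U < x → x ≤ (x1 : ℝ) / U → (y0 : ℝ) / U < y → y ≤ (y1 : ℝ) / U →
    (∃ (cs : Lf) (c : ι → Lf) (a0 a1 b0 b1 : ℕ), (∀ e, skL cs (c e) = true) ∧
      (∀ e, lk8 (rows e) A c0 c1 (nf a0 b0) ne a0 a1 b0 b1 (c e) = true) ∧
      In a0 a1 b0 b1 x y ∧
      ∀ e, Bf (rows e) (lam e) a0 a1 b0 b1 (c e) (x, y) / √(mt (x, y)) ≤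
        (T e).val (rows e) (lam e) x0 x1 y0 y1 (x, y)) ∨
    (x ≤ (h : ℝ) / U ∧ y ≤ (h : ℝ) / U)
  | .lf c, T, x0, x1, y0, y1, hs, hk, e1, e2, e3, e4 => by
    choose d hd hd2 using fun e => sk_lf (hs e)
    refine Or.inl ⟨c, d, x0, x1, y0, y1, hd2, fun e => ?_, ⟨e1.le, e2, e3.le, e4⟩,
      fun e => ?_⟩
    · have h2 := hk e
      rw [hd e, Tr.ckf] at h2
      exact h2
    · rw [hd e]
      show _ ≤ (rc x0 x1 y0 y1).indicator
        (fun t => Bf (rows e) (lam e) x0 x1 y0 y1 (d e) t / √(mt t)) (x, y)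
      rw [indicator_of_mem (mem_rc.2 ⟨e1.le, e2, e3.le, e4⟩)]
  | .em, T, x0, x1, y0, y1, hs, hk, e1, e2, e3, e4 => by
    exfalso
    obtain ⟨e⟩ := hne
    have hk := hk e
    rw [sk_em (hs e)] at hk
    have hU := U_pos
    simp only [Tr.ckf, Bool.or_eq_true, Nat.ble_eq] at hk
    rw [div_lt_iff₀ hU] at e1 e3
    rcases hk with hk | hk
    · have h2 : (U : ℝ) ≤ ((2 * x0 + y0 : ℕ) : ℝ) := by exact_mod_cast hk
      push_cast at h2
      have h3 := mul_le_mul_of_nonneg_right k1 hU.le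
      linarith
    · have h2 : (U : ℝ) ≤ ((x0 + 2 * y0 : ℕ) : ℝ) := by exact_mod_cast hk
      push_cast at h2
      have h3 := mul_le_mul_of_nonneg_right k2 hU.le
      linarith
  | .tp, T, x0, x1, y0, y1, hs, hk, e1, e2, e3, e4 => by
    obtain ⟨e⟩ := hne
    have hk := hk e
    rw [sk_tp (hs e)] at hk
    have hU := U_pos
    simp only [Tr.ckf, Bool.and_eq_true, Nat.ble_eq] at hk
    refine Or.inr ⟨e2.trans ?_, e4.trans ?_⟩
    · exact div_le_div_of_nonneg_right (by exact_mod_cast hk.1) hU.le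
    · exact div_le_div_of_nonneg_right (by exact_mod_cast hk.2) hU.le
  | .sx a l r, T, x0, x1, y0, y1, hs, hk, e1, e2, e3, e4 => by
    choose l' r' hT hl hr using fun e => sk_sx (hs e)
    have hk2 : ∀ e, (l' e).ckf (rows e) A c0 c1 nf ne h x0 a y0 y1 = true ∧
        (r' e).ckf (rows e) A c0 c1 nf ne h a x1 y0 y1 = true := fun e => by
      have h2 := hk e
      rw [hT e] at h2
      simpa only [Tr.ckf, Bool.and_eq_true] using h2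
    rcases le_or_gt x ((a : ℝ) / U) with ha | ha
    · rcases find_fam h0 k1 k2 l l' x0 a y0 y1 hl (fun e => (hk2 e).1) e1 ha e3 e4 with
        ⟨cs, c, a0, a1, b0, b1, q0, q1, q2, q3⟩ | q
      · refine Or.inl ⟨cs, c, a0, a1, b0, b1, q0, q1, q2, fun e => (q3 e).trans ?_⟩
        rw [hT e]
        exact le_add_of_nonneg_right
          (Helper45.R8I.val_nonneg (rows e) (h0 e) (r' e) a x1 y0 y1 _)
      · exact Or.inr q
    · rcases find_fam h0 k1 k2 r r' a x1 y0 y1 hr (fun e => (hk2 e).2) ha e2 e3 e4 with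
        ⟨cs, c, a0, a1, b0, b1, q0, q1, q2, q3⟩ | q
      · refine Or.inl ⟨cs, c, a0, a1, b0, b1, q0, q1, q2, fun e => (q3 e).trans ?_⟩
        rw [hT e]
        exact le_add_of_nonneg_left
          (Helper45.R8I.val_nonneg (rows e) (h0 e) (l' e) x0 a y0 y1 _)
      · exact Or.inr q
  | .sy b l r, T, x0, x1, y0, y1, hs, hk, e1, e2, e3, e4 => by
    choose l' r' hT hl hr using fun e => sk_sy (hs e)
    have hk2 : ∀ e, (l' e).ckf (rows e) A c0 c1 nf ne h x0 x1 y0 b = true ∧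
        (r' e).ckf (rows e) A c0 c1 nf ne h x0 x1 b y1 = true := fun e => by
      have h2 := hk e
      rw [hT e] at h2
      simpa only [Tr.ckf, Bool.and_eq_true] using h2
    rcases le_or_gt y ((b : ℝ) / U) with ha | ha
    · rcases find_fam h0 k1 k2 l l' x0 x1 y0 b hl (fun e => (hk2 e).1) e1 e2 e3 ha with
        ⟨cs, c, a0, a1, b0, b1, q0, q1, q2, q3⟩ | q
      · refine Or.inl ⟨cs, c, a0, a1, b0, b1, q0, q1, q2, fun e => (q3 e).trans ?_⟩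
        rw [hT e]
        exact le_add_of_nonneg_right
          (Helper45.R8I.val_nonneg (rows e) (h0 e) (r' e) x0 x1 b y1 _)
      · exact Or.inr q
    · rcases find_fam h0 k1 k2 r r' x0 x1 b y1 hr (fun e => (hk2 e).2) e1 e2 ha e4 with
        ⟨cs, c, a0, a1, b0, b1, q0, q1, q2, q3⟩ | q
      · refine Or.inl ⟨cs, c, a0, a1, b0, b1, q0, q1, q2, fun e => (q3 e).trans ?_⟩
        rw [hT e]
        exact le_add_of_nonneg_left
          (Helper45.R8I.val_nonneg (rows e) (h0 e) (l' e) x0 x1 y0 b _)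
      · exact Or.inr q

/-! ### A family of corners -/

/-- **a family of corners with one skeleton** -/
structure Fam {ι : Type*} (Q : ι → Cor) (A c0 c1 : ℕ) (nf : ℕ → ℕ → ℕ) (n hh : ℕ) : Prop where
  ok : ∀ e, (Q e).okf A c0 c1 nf = true
  ne : ∀ e, (Q e).ne = n
  h : ∀ e, (Q e).h = hh
  sk : ∃ S : Tr, ∀ e, sk S (Q e).T = true

/-- **the loads and the majorants hold for the mean of the members** -/
def LoadsB {ι : Type*} [Fintype ι] (Q : ι → Cor) (wt : ι → ℝ) (nf : ℕ → ℕ → ℕ) (n : ℕ)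
    (lam : ι → ℕ → ℝ) (x y w C Y G : ℝ) : Prop :=
  (∀ x0 y0 : ℕ, (x0 : ℝ) / U ≤ x → (y0 : ℝ) / U ≤ y → ∀ li < nf x0 y0,
    G + (1 - ∑ e, wt e * (Q e).D (lam e) li x y) * w -
      ∑ e, wt e * (Q e).X (lam e) li x y ≤ Y) ∧
  (∀ ei < n, G ≤ -C + ∑ e, wt e * (Q e).E (lam e) ei x y)

/-- constant number of loads -/
theorem LoadsB.of {ι : Type*} [Fintype ι] {Q : ι → Cor} {wt : ι → ℝ} {nl n : ℕ}
    {lam : ι → ℕ → ℝ} {x y w C Y G : ℝ}
    (h1 : ∀ li < nl, G + (1 - ∑ e, wt e * (Q e).D (lam e) li x y) * w -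
      ∑ e, wt e * (Q e).X (lam e) li x y ≤ Y)
    (h2 : ∀ ei < n, G ≤ -C + ∑ e, wt e * (Q e).E (lam e) ei x y) :
    LoadsB Q wt (fun _ _ => nl) n lam x y w C Y G :=
  ⟨fun _ _ _ _ li hli => h1 li hli, h2⟩

/-- **the mean of a family, pointwise** in the chart -/
theorem Fam.pt {ι : Type*} [Fintype ι] {Q : ι → Cor} {A c0 c1 n hh : ℕ} {nf : ℕ → ℕ → ℕ}
    (hQ : Fam Q A c0 c1 nf n hh) {wt : ι → ℝ} (hwt : ∀ e, 0 ≤ wt e) (hws : ∑ e, wt e = 1)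
    {lam : ι → ℕ → ℝ} {x y Sk Sj Sl s d0 d1 m ow w C G Y : ℝ}
    (hR : ∀ e, RowB (Q e) (lam e) Sk Sj Sl s)
    (hx : 0 < x) (hy : 0 < y) (k1 : 2 * x + y ≤ 1) (k2 : x + 2 * y ≤ 1)
    (hnt : ¬ (x ≤ (hh : ℝ) / U ∧ y ≤ (hh : ℝ) / U))
    (hd0 : (c0 : ℝ) / U ≤ d0) (hd1 : d1 ≤ (c1 : ℝ) / U) (hd : 0 ≤ d1)
    (hd3 : 3 * d1 * (1 + s) ≤ d0)
    (hm : m ^ 2 = mtx x y) (hm0 : 0 < m) (how0 : 0 ≤ ow) (how : ow ≤ s)
    (how2 : ow ≤ (3 * x ^ 2 + 2 * x * y + 3 * y ^ 2) / (2 - x - y) ^ 2)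
    (hw0 : 0 ≤ w) (hw1 : w ≤ 1 + s) (hm1 : m ≤ 1)
    (hCe : C = (1 - x - y) * Sk + x * Sj + y * Sl)
    (hL : LoadsB Q wt nf n lam x y w C Y G)
    (hS : ∀ μ, 0 ≤ μ → μ ≤ x → μ ≤ y → -C + w + 2 * μ * ((d0 - d1 * w) * √w) ≤ Y)
    (hO : Y / m - w ≤ ow) :
    (A : ℝ) / U * (G / m) - ∑ e, wt e * (Q e).f (lam e) (x, y) ≤
      ff ((A : ℝ) / U) (Y / m - w) w := by
  have hU := U_pos
  have h0 := fun e => (hR e).h0
  have hne : Nonempty ι := by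
    by_contra hn
    rw [not_nonempty_iff] at hn
    simp at hws
  have hH : (H : ℝ) / U = 1 / 2 := by
    unfold H U
    norm_num
  obtain ⟨hok, hn, hhh, Sk', hsk⟩ := hQ
  have hok' : ∀ e, (Q e).T.ckf (Q e).rows A c0 c1 nf n hh 0 H 0 H = true := fun e => by
    have h2 := hok e
    unfold Cor.okf at h2
    rw [hn e, hhh e] at h2
    exact h2
  rcases find_fam (rows := fun e => (Q e).rows) h0 k1 k2 Sk' (fun e => (Q e).T) 0 H 0 H hsk hok'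
      (by simpa using hx) (by rw [hH]; linarith) (by simpa using hy) (by rw [hH]; linarith) with
    ⟨cs, c, a0, a1, b0, b1, q0, q1, q2, q3⟩ | q
  swap
  · exact absurd q hnt
  obtain ⟨g1, g2, g3, g4⟩ := q2
  obtain ⟨e0⟩ := id hne
  have hbk := q1 e0
  unfold lk8 at hbk
  rw [Bool.and_eq_true] at hbk
  obtain ⟨j1, j2, _⟩ := bk_iff hbk.1
  obtain ⟨p0, p1, p2⟩ := pos_mem j1 g1 g2
  obtain ⟨r0, r1, r2⟩ := pos_mem j2 g3 g4
  obtain ⟨p, hp⟩ : ∃ p, p = pos a0 a1 x := ⟨_, rfl⟩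
  obtain ⟨r, hr⟩ : ∃ r, r = pos b0 b1 y := ⟨_, rfl⟩
  have hmt : √(mt (x, y)) = m := by
    rw [mt_mtx]
    show √(mtx x y) = m
    rw [← hm]
    exact Real.sqrt_sq hm0.le
  have hom2 : ∀ e, BO (Q e).rows (lam e) (c e) p r ≤ m * (Q e).f (lam e) (x, y) := by
    intro e
    have h3 := q3 e
    rw [hmt, div_le_iff₀ hm0] at h3
    rw [hp, hr]
    refine le_trans h3 (le_of_eq ?_)
    unfold Cor.f
    ring
  rw [← hp] at p0 p1 p2
  rw [← hr] at r0 r1 r2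
  have hw3 : 3 * d1 * w ≤ d0 := by
    have := mul_le_mul_of_nonneg_left hw1 (show 0 ≤ 3 * d1 by linarith)
    linarith
  obtain ⟨μ, hμ⟩ : ∃ μ, μ = bil p r ((min a0 b0 : ℕ) / U) ((min a0 b1 : ℕ) / U)
    ((min a1 b0 : ℕ) / U) ((min a1 b1 : ℕ) / U) := ⟨_, rfl⟩
  have p' : 0 ≤ 1 - p := sub_nonneg.2 p1
  have r' : 0 ≤ 1 - r := sub_nonneg.2 r1
  have hμ0 : 0 ≤ μ := by
    rw [hμ]
    unfold bil
    positivity
  have cl : ∀ a b : ℕ, ((min a b : ℕ) : ℝ) / U ≤ (a : ℝ) / U := fun a b =>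
    div_le_div_of_nonneg_right (by exact_mod_cast min_le_left a b) hU.le
  have cr : ∀ a b : ℕ, ((min a b : ℕ) : ℝ) / U ≤ (b : ℝ) / U := fun a b =>
    div_le_div_of_nonneg_right (by exact_mod_cast min_le_right a b) hU.le
  have hμx : μ ≤ x := by
    rw [hμ]
    unfold bil
    have e1 := mul_le_mul_of_nonneg_left (cl a0 b0) (mul_nonneg p' r')
    have e2 := mul_le_mul_of_nonneg_left (cl a0 b1) (mul_nonneg p' r0)
    have e3 := mul_le_mul_of_nonneg_left (cl a1 b0) (mul_nonneg p0 r')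
    have e4 := mul_le_mul_of_nonneg_left (cl a1 b1) (mul_nonneg p0 r0)
    refine le_trans (add_le_add (add_le_add (add_le_add e1 e2) e3) e4) (le_of_eq ?_)
    rw [p2]
    ring
  have hμy : μ ≤ y := by
    rw [hμ]
    unfold bil
    have e1 := mul_le_mul_of_nonneg_left (cr a0 b0) (mul_nonneg p' r')
    have e2 := mul_le_mul_of_nonneg_left (cr a0 b1) (mul_nonneg p' r0)
    have e3 := mul_le_mul_of_nonneg_left (cr a1 b0) (mul_nonneg p0 r')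
    have e4 := mul_le_mul_of_nonneg_left (cr a1 b1) (mul_nonneg p0 r0)
    refine le_trans (add_le_add (add_le_add (add_le_add e1 e2) e3) e4) (le_of_eq ?_)
    rw [r2]
    ring
  refine lf_fam (rows := fun e => (Q e).rows) q1 q0 hwt hws h0 (fun e => (hR e).h1) p0 p1 r0 r1
    p2 r2 hx.le hy.le (by linarith) (fun e => (hR e).k) (fun e => (hR e).j) (fun e => (hR e).l)
    (fun e => (hR e).s) hd0 hd1 hd hm hm0 how0 how how2 hw0 hw1 hm1 hw3 hCe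
    (fun li hli => hL.1 a0 b0 g1 g3 li hli) hL.2 ?_ hO hom2
  rw [← hμ]
  have := hS μ hμ0 hμx hμy
  unfold ph
  linarith

section
variable {a : Fin 4 → E3} {σ : Measure (E3 × E3)} {K : Set E3} {S : Fin 4 → ℝ}
    {c : Fin 4 → E3} (h : CN K σ a c) (v : Viol K a S)
    (τ : Equiv.Perm (Fin 4)) {A c0 c1 : ℕ} {Sm d0 d1 : ℝ} (hC : IsC Sm d0 d1)
    (hSm : ∀ k, S k ≤ Sm) (hd : 0 ≤ d1) (hd3 : 3 * d1 * (1 + S (τ 0)) ≤ d0)
    (hd0 : (c0 : ℝ) / U ≤ d0) (hd1 : d1 ≤ (c1 : ℝ) / U)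

include h v hC hSm hd hd3 hd0 hd1 in
/-- **THE MEAN OF A FAMILY AT A POINT OF THE BODY**, any number `G` with the loads of the mean -/
theorem fam_pt {ι : Type*} [Fintype ι] {Q : ι → Cor} {n hh : ℕ} {nf : ℕ → ℕ → ℕ}
    (hQ : Fam Q A c0 c1 nf n hh) {wt : ι → ℝ} (hwt : ∀ e, 0 ≤ wt e) (hws : ∑ e, wt e = 1)
    {lam : ι → ℕ → ℝ} (k : Fin 3)
    (hR : ∀ e, RowB (Q e) (lam e) (S (τ k.succ)) (S (τ (jj k).succ)) (S (τ (ll k).succ))
      (S (τ 0)))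
    {t : ℝ × ℝ} (ht : t ∈ Dl) (hk1 : T3 t (jj k) ≤ T3 t k) (hk2 : T3 t (ll k) ≤ T3 t k)
    (htp : ¬ (T3 t (jj k) ≤ (hh : ℝ) / U ∧ T3 t (ll k) ≤ (hh : ℝ) / U))
    {q : E3} (hq : q ∈ K)
    (hX : Yt (fun i => a (τ i)) t q / √(mt t) - ‖a (τ 0) - q‖ ^ 2 ≤ own (S (τ 0)) t)
    {G : ℝ} (hL : LoadsB Q wt nf n lam (T3 t (jj k)) (T3 t (ll k)) (‖a (τ 0) - q‖ ^ 2)
      (T3 t 0 * S (τ 1) + T3 t 1 * S (τ 2) + T3 t 2 * S (τ 3)) (Yt (fun i => a (τ i)) t q) G) :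
    (A : ℝ) / U * (G / √(mt t)) - ∑ e, wt e * (Q e).f (lam e) (Helper60.R7.ch k t) ≤
      ff ((A : ℝ) / U) (Yt (fun i => a (τ i)) t q / √(mt t) - ‖a (τ 0) - q‖ ^ 2)
        (‖a (τ 0) - q‖ ^ 2) := by
  have hU := U_pos
  have h' := h.perm τ
  have v' := viol_perm v τ
  have hgr := gram_of_dist h'.ha
  have hm : 0 < √(mt t) := Real.sqrt_pos.2 mt_pos
  have hm1 : √(mt t) ≤ 1 := sqrt_mt_le ht
  have hp := fun k => T3_pos' ht k
  have hsum := T3_sum k t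
  have hcap := cap_ch k t fun p => S (τ p.succ)
  have hmm : √(mt t) ^ 2 = mtx (T3 t (jj k)) (T3 t (ll k)) := by
    have h := mt_ch k t
    rw [mt_mtx (Helper60.R7.ch k t), ch_fst, ch_snd] at h
    rw [Real.sq_sqrt (mt_pos (t := t)).le]
    exact h.symm
  have hpq := h'.hp q hq
  have h19 : ‖a (τ 0) - q‖ ^ 2 ≤ 19 / 16 := by
    have h1 := h.ap hq (τ 0)
    unfold Qv at h1
    rw [norm_sub_rev]
    linarith
  have hw1 : ‖a (τ 0) - q‖ ^ 2 ≤ 1 + S (τ 0) := by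
    have h1 := v.le (τ 0) q hq
    unfold Qv at h1
    rw [norm_sub_rev]
    linarith
  have ech : Helper60.R7.ch k t = (T3 t (jj k), T3 t (ll k)) := by
    rw [← ch_fst, ← ch_snd]
  rw [ech]
  refine Fam.pt hQ hwt hws hR (hp (jj k)) (hp (ll k)) (by linarith) (by linarith) htp
    hd0 hd1 hd hd3 hmm hm (own_nonneg (v.nn _) ht)
    (own_le_s (S (τ 0)) t) (own_ch ht k) (sq_nonneg _) hw1 hm1 hcap hL ?_ hX
  intro μ hμ hμx hμy
  have hM : ∀ p, μ ≤ T3 t p := by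
    intro p
    have hμk : μ ≤ T3 t k := hμx.trans hk1
    fin_cases k
    · fin_cases p
      · exact hμk
      · exact hμy
      · exact hμx
    · fin_cases p
      · exact hμx
      · exact hμk
      · exact hμy
    · fin_cases p
      · exact hμx
      · exact hμy
      · exact hμk
  have hS := Yt_cw (a := fun i => a (τ i)) (t := t) hgr hC hpq h19
    (V := fun k => S (τ k.succ)) (fun k => v.nn _) (fun k => hSm _) hμ hM
    (v'.le 1 q hq) (v'.le 2 q hq) (v'.le 3 q hq)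
  have hT : T3 t 0 + T3 t 1 + T3 t 2 = 1 := by
    show t.1 + t.2 + (1 - t.1 - t.2) = 1
    ring
  have r1 := mul_le_mul_of_nonneg_left (le_pp (‖a (τ 0) - q‖ ^ 2 - S (τ 1))) (hμ.trans (hM 0))
  have r2 := mul_le_mul_of_nonneg_left (le_pp (‖a (τ 0) - q‖ ^ 2 - S (τ 2))) (hμ.trans (hM 1))
  have r3 := mul_le_mul_of_nonneg_left (le_pp (‖a (τ 0) - q‖ ^ 2 - S (τ 3))) (hμ.trans (hM 2))
  have e2 : (T3 t 0 + T3 t 1 + T3 t 2) * ‖a (τ 0) - q‖ ^ 2 = ‖a (τ 0) - q‖ ^ 2 := by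
    rw [hT, one_mul]
  refine le_trans ?_ hS
  show -(T3 t 0 * S (τ 1) + T3 t 1 * S (τ 2) + T3 t 2 * S (τ 3)) + _ + _ ≤
    (T3 t 0 * pp (‖a (τ 0) - q‖ ^ 2 - S (τ 1)) +
    T3 t 1 * pp (‖a (τ 0) - q‖ ^ 2 - S (τ 2)) + T3 t 2 * pp (‖a (τ 0) - q‖ ^ 2 - S (τ 3))) +
    2 * μ * ((d0 - d1 * ‖a (τ 0) - q‖ ^ 2) * √(‖a (τ 0) - q‖ ^ 2))
  nlinarith

include h v hC hSm hd hd3 hd0 hd1 in
/-- **THE MEAN OF THE FAMILIES AS A COST OF THE FACE**, one family per corner -/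
theorem wcost_fam {ι : Type*} [Fintype ι] {G D : ℝ × ℝ → ℝ} {Q : Fin 3 → ι → Cor}
    {n hh : Fin 3 → ℕ} {nf : Fin 3 → ℕ → ℕ → ℕ} (hQ : ∀ k, Fam (Q k) A c0 c1 (nf k) (n k) (hh k))
    {wt : Fin 3 → ι → ℝ} (hwt : ∀ k e, 0 ≤ wt k e) (hws : ∀ k, ∑ e, wt k e = 1)
    {lam : Fin 3 → ι → ℕ → ℝ}
    (hR : ∀ k e, RowB (Q k e) (lam k e) (S (τ k.succ)) (S (τ (jj k).succ))
      (S (τ (ll k).succ)) (S (τ 0)))
    (hL : ∀ k, ∀ t ∈ Dl, T3 t (jj k) ≤ T3 t k → T3 t (ll k) ≤ T3 t k →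
      ¬ (T3 t (jj k) ≤ (hh k : ℝ) / U ∧ T3 t (ll k) ≤ (hh k : ℝ) / U) → ∀ q ∈ K,
      G t + (1 - D t) * ‖a (τ 0) - q‖ ^ 2 ≤ Yt (fun i => a (τ i)) t q →
      LoadsB (Q k) (wt k) (nf k) (n k) (lam k) (T3 t (jj k)) (T3 t (ll k)) (‖a (τ 0) - q‖ ^ 2)
        (T3 t 0 * S (τ 1) + T3 t 1 * S (τ 2) + T3 t 2 * S (τ 3)) (Yt (fun i => a (τ i)) t q)
        (G t))
    {omT : ℝ × ℝ → ℝ} {CT cT : ℝ} (hTm : AEStronglyMeasurable omT (volume.restrict Dl))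
    (hT0 : ∀ t ∈ Dl, 0 ≤ omT t) (hTb : ∀ t ∈ Dl, omT t ≤ CT)
    (hcT : (√2)⁻¹ * ∫ t in Dl, omT t * M3 t ≤ cT)
    (hTt : ∀ k, ∀ t ∈ Dl, T3 t (jj k) ≤ (hh k : ℝ) / U → T3 t (ll k) ≤ (hh k : ℝ) / U →
      T3 t (jj k) ≤ T3 t k → T3 t (ll k) ≤ T3 t k → ∀ q ∈ K,
      Yt (fun i => a (τ i)) t q / √(mt t) - ‖a (τ 0) - q‖ ^ 2 ≤ own (S (τ 0)) t →
      G t + (1 - D t) * ‖a (τ 0) - q‖ ^ 2 ≤ Yt (fun i => a (τ i)) t q →
      (A : ℝ) / U * (G t / √(mt t)) - omT t ≤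
        ff ((A : ℝ) / U) (Yt (fun i => a (τ i)) t q / √(mt t) - ‖a (τ 0) - q‖ ^ 2)
          (‖a (τ 0) - q‖ ^ 2)) :
    WCost a K τ ((A : ℝ) / U) G D
      ((√2)⁻¹ * ((∑ e, wt 0 e * (Q 0 e).W (lam 0 e)) + (∑ e, wt 1 e * (Q 1 e).W (lam 1 e)) +
        (∑ e, wt 2 e * (Q 2 e).W (lam 2 e))) + cT) := by
  have n0 : ∀ k e t, 0 ≤ (Q k e).f (lam k e) t := fun k e t =>
    Cor.f_nonnegF ((hQ k).ok e) (hR k e).h0 t
  have n1 : ∀ k t, 0 ≤ ∑ e, wt k e * (Q k e).f (lam k e) t := fun k t =>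
    Finset.sum_nonneg fun e _ => mul_nonneg (hwt k e) (n0 k e t)
  refine wcost_abs
    (f := fun k t => ∑ e, wt k e * (Q k e).f (lam k e) t)
    (W := fun k => ∑ e, wt k e * (Q k e).W (lam k e)) h v τ
    (fun k => Finset.measurable_sum _ fun e _ => (Cor.f_meas _ _).const_mul _) n1
    (fun k => ?_) (fun k => ?_) hTm hT0 hTb hcT ?_
  · choose C hC using fun e => Cor.f_bdF ((hQ k).ok e) (hR k e).h0
    exact ⟨∑ e, wt k e * C e, fun t => Finset.sum_le_sum fun e _ =>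
      mul_le_mul_of_nonneg_left (hC e t) (hwt k e)⟩
  · have i0 := fun e => Cor.f_onF ((hQ k).ok e) (hR k e).h0 k
    have e : ∀ t, (∑ e, wt k e * (Q k e).f (lam k e) (Helper60.R7.ch k t)) * M3 t =
        ∑ e, wt k e * ((Q k e).f (lam k e) (Helper60.R7.ch k t) * M3 t) := fun t => by
      rw [Finset.sum_mul]
      exact Finset.sum_congr rfl fun e _ => by ring
    simp only [e]
    rw [integral_finsetSum _ fun e _ => (i0 e).const_mul (wt k e)]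
    simp only [integral_const_mul]
    exact Finset.sum_le_sum fun e _ => mul_le_mul_of_nonneg_left
      (Cor.f_intcF ((hQ k).ok e) (hR k e).h0 k) (hwt k e)
  · intro k t htD hk1 hk2 q hq hX hG
    by_cases htp : T3 t (jj k) ≤ (hh k : ℝ) / U ∧ T3 t (ll k) ≤ (hh k : ℝ) / U
    · have e := hTt k t htD htp.1 htp.2 hk1 hk2 q hq hX hG
      have := n1 k (Helper60.R7.ch k t)
      linarith
    · have e := fam_pt h v τ hC hSm hd hd3 hd0 hd1 (hQ k) (hwt k) (hws k) k (hR k) htD hk1 hk2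
        htp hq hX (hL k t htD hk1 hk2 htp q hq hG)
      have := hT0 t htD
      linarith

end

end Helper60.R9
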