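import Pool.Agent.Helper60.MEI.R10E

/-!
# Project MEI (M2), w-term: packed checker of a family, the weights and the family
-/

set_option autoImplicit false

namespace Helper60.R10

open Helper60.R8 Helper60.R9
open Helper60.R7 (U F4 U_pos)

/-- the high part at a vertex, one row -/
def hv (A c0 c1 m o x y e : ℕ) (r : Row) (L : List Iv) : ℕ :=
  (acv A c0 c1 m o x y e r Z L - Z) / 2 ^ 104 + 1

/-- the weight of a row, packed units -/
def WL (A c0 c1 e : ℕ) (r : Row) : Tr → ℕ → ℕ → ℕ → ℕ → ℕ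
  | .lf c, x0, x1, y0, y1 => (x1 - x0) * (y1 - y0) * c.M *
      ((hv A c0 c1 c.m00 c.o x0 y0 e r c.iv + hv A c0 c1 c.m01 c.o x0 y1 e r c.iv) +
        (hv A c0 c1 c.m10 c.o x1 y0 e r c.iv + hv A c0 c1 c.m11 c.o x1 y1 e r c.iv))
  | .em, _, _, _, _ => 0
  | .tp, _, _, _, _ => 0
  | .sx a l r', x0, x1, y0, y1 => WL A c0 c1 e r l x0 a y0 y1 + WL A c0 c1 e r r' a x1 y0 y1
  | .sy b l r', x0, x1, y0, y1 => WL A c0 c1 e r l x0 x1 y0 b + WL A c0 c1 e r r' x0 x1 b y1

theorem Z_lt : Z < HH := by norm_num [Z, HH]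

theorem hiP_eq {P : PR} {R : ℕ → ℕ → Row} (hG : Ag P R) {A c0 c1 m o x y : ℕ} {L : List Iv}
    (hL : ∀ I ∈ L, Vk A c0 c1 m o x y I) :
    hiP P A c0 c1 m o x y L = pk2 P.E P.V (fun e v => hv A c0 c1 m o x y e (R e v) L) ∧
      ∀ e < P.E, ∀ v < P.V, hv A c0 c1 m o x y e (R e v) L ≤ 549755813888 := by
  obtain ⟨h1, h2⟩ := acP_eq hG hL (a := fun _ _ => Z) fun _ _ _ _ => Z_lt
  have h3 : ∀ e < P.E, ∀ v < P.V, acv A c0 c1 m o x y e (R e v) Z L - Z < HH := fun e he v hv =>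
    lt_of_le_of_lt (Nat.sub_le _ _) (h2 e he v hv)
  refine ⟨?_, fun e he v hv => ?_⟩
  · unfold hiP
    rw [hG.zN, h1, hG.mN, hG.nN]
    show hi _ _ (pk2 P.E P.V (fun e v => acv A c0 c1 m o x y e (R e v) Z L) -
      pk2 P.E P.V fun _ _ => Z) = _
    rw [pk2_sub fun e _ v _ => acv_ge L Z, hi_pk2 hG.V0 h3]
    rfl
  · unfold Helper60.R10.hv
    have h4 := h3 e he v hv
    have : (acv A c0 c1 m o x y e (R e v) Z L - Z) / 2 ^ 104 < 549755813888 := by
      rw [Nat.div_lt_iff_lt_mul (by norm_num)]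
      refine lt_of_lt_of_le h4 (le_of_eq ?_)
      norm_num [HH]
    exact this

/-- **the packed weights** -/
theorem ws_eq {P : PR} {Rs : List (List Row)} (hG : agk P Rs = true) {A c0 c1 : ℕ}
    (hA : A ≤ 4194304) {nf : ℕ → ℕ → ℕ} {h : ℕ} : ∀ (T : Tr) (x0 x1 y0 y1 : ℕ),
    ckP P c0 c1 nf h T x0 x1 y0 y1 = true →
    wsP P A c0 c1 T x0 x1 y0 y1 =
      pk2 P.E P.V (fun e v => WL A c0 c1 e ((Rs.getD e []).getD v zR) T x0 x1 y0 y1) ∧
    ∀ e < P.E, ∀ v < P.V, WL A c0 c1 e ((Rs.getD e []).getD v zR) T x0 x1 y0 y1 ≤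
      arP T x0 x1 y0 y1 * 2199023255552
  | .lf c, x0, x1, y0, y1, hc => by
    rw [ckP] at hc
    unfold lkP at hc
    rw [Bool.and_eq_true, Bool.and_eq_true, Nat.ble_eq] at hc
    obtain ⟨h1, h2, h3⟩ := hc
    have h4 := ivP_all h3
    have ag := (agk_sound hG).1
    obtain ⟨e1, l1⟩ := hiP_eq ag (A := A) (c0 := c0) (c1 := c1) (m := c.m00) (o := c.o)
      (x := x0) (y := y0) (L := c.iv) fun J hJ => (ikP_iff (A := A) (h4 J hJ) h1 h2 hA).2.2.1
    obtain ⟨e2, l2⟩ := hiP_eq ag (A := A) (c0 := c0) (c1 := c1) (m := c.m01) (o := c.o)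
      (x := x0) (y := y1) (L := c.iv) fun J hJ => (ikP_iff (A := A) (h4 J hJ) h1 h2 hA).2.2.2.1
    obtain ⟨e3, l3⟩ := hiP_eq ag (A := A) (c0 := c0) (c1 := c1) (m := c.m10) (o := c.o)
      (x := x1) (y := y0) (L := c.iv) fun J hJ => (ikP_iff (A := A) (h4 J hJ) h1 h2 hA).2.2.2.2.1
    obtain ⟨e4, l4⟩ := hiP_eq ag (A := A) (c0 := c0) (c1 := c1) (m := c.m11) (o := c.o)
      (x := x1) (y := y1) (L := c.iv) fun J hJ => (ikP_iff (A := A) (h4 J hJ) h1 h2 hA).2.2.2.2.2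
    refine ⟨?_, fun e he v hv => ?_⟩
    · rw [wsP, e1, e2, e3, e4]
      show (x1 - x0) * (y1 - y0) * c.M * ((_ + _) + (_ + _)) = _
      rw [pk2_add, pk2_add, pk2_add, pk2_smul]
      rfl
    · rw [WL, arP]
      show (x1 - x0) * (y1 - y0) * c.M * _ ≤ (x1 - x0) * (y1 - y0) * c.M * _
      refine Nat.mul_le_mul_left _ ?_
      have a1 := l1 e he v hv
      have a2 := l2 e he v hv
      have a3 := l3 e he v hv
      have a4 := l4 e he v hv
      omega
  | .em, _, _, _, _, _ => by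
    refine ⟨?_, fun e he v hv => ?_⟩
    · rw [wsP, pk2_z]
      intro e _ v _
      rw [WL]
    · rw [WL]
      exact Nat.zero_le _
  | .tp, _, _, _, _, _ => by
    refine ⟨?_, fun e he v hv => ?_⟩
    · rw [wsP, pk2_z]
      intro e _ v _
      rw [WL]
    · rw [WL]
      exact Nat.zero_le _
  | .sx a l r, x0, x1, y0, y1, hc => by
    rw [ckP, Bool.and_eq_true] at hc
    obtain ⟨e1, l1⟩ := ws_eq hG hA l _ _ _ _ hc.1
    obtain ⟨e2, l2⟩ := ws_eq hG hA r _ _ _ _ hc.2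
    refine ⟨?_, fun e he v hv => ?_⟩
    · rw [wsP, e1, e2, Nat.add_eq, pk2_add]
      rfl
    · rw [WL, arP, Nat.add_eq, add_mul]
      exact Nat.add_le_add (l1 e he v hv) (l2 e he v hv)
  | .sy a l r, x0, x1, y0, y1, hc => by
    rw [ckP, Bool.and_eq_true] at hc
    obtain ⟨e1, l1⟩ := ws_eq hG hA l _ _ _ _ hc.1
    obtain ⟨e2, l2⟩ := ws_eq hG hA r _ _ _ _ hc.2
    refine ⟨?_, fun e he v hv => ?_⟩
    · rw [wsP, e1, e2, Nat.add_eq, pk2_add]
      rfl
    · rw [WL, arP, Nat.add_eq, add_mul]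
      exact Nat.add_le_add (l1 e he v hv) (l2 e he v hv)

theorem memO_get {A c0 c1 m o x y e i : ℕ} {R : List Row} {L : List Iv} (hi : i < R.length) :
    1000000000000000000000000000000000 * (memO A c0 c1 m o x y e R L).getD i 0 ≤
      20282409603651670423947251286016 * hv A c0 c1 m o x y e (R.getD i zR) L +
        1000000000000000000000000000000000 := by
  unfold memO
  rw [List.getD_eq_getElem _ _ (by rw [List.length_map]; exact hi), List.getElem_map,
    List.getD_eq_getElem _ _ hi]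
  have h := omv_le (acv A c0 c1 m o x y e R[i] Z L)
  unfold hv
  have e0 : (20282409603651670423947251286016 : ℕ) = 2 ^ 104 := by norm_num
  rw [e0] at h ⊢
  exact h

/-- the weight of a member against the packed weight -/
theorem wt_le {A c0 c1 e i : ℕ} {R : List Row} (hi : i < R.length) :
    ∀ (T : Tr) (x0 x1 y0 y1 : ℕ),
    1000000000000000000000000000000000 *
        (mem A c0 c1 e R T x0 x1 y0 y1).wt i x0 x1 y0 y1 ≤
      20282409603651670423947251286016 * WL A c0 c1 e (R.getD i zR) T x0 x1 y0 y1 +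
        4 * 1000000000000000000000000000000000 * arP T x0 x1 y0 y1
  | .lf c, x0, x1, y0, y1 => by
    rw [mem, Tr.wt, WL, arP]
    have h1 := memO_get (A := A) (c0 := c0) (c1 := c1) (m := c.m00) (o := c.o) (x := x0)
      (y := y0) (e := e) (L := c.iv) hi
    have h2 := memO_get (A := A) (c0 := c0) (c1 := c1) (m := c.m01) (o := c.o) (x := x0)
      (y := y1) (e := e) (L := c.iv) hi
    have h3 := memO_get (A := A) (c0 := c0) (c1 := c1) (m := c.m10) (o := c.o) (x := x1)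
      (y := y0) (e := e) (L := c.iv) hi
    have h4 := memO_get (A := A) (c0 := c0) (c1 := c1) (m := c.m11) (o := c.o) (x := x1)
      (y := y1) (e := e) (L := c.iv) hi
    unfold memL
    simp only [Nat.mul_eq, Nat.sub_eq]
    generalize (memO A c0 c1 c.m00 c.o x0 y0 e R c.iv).getD i 0 = o1 at h1 ⊢
    generalize (memO A c0 c1 c.m01 c.o x0 y1 e R c.iv).getD i 0 = o2 at h2 ⊢
    generalize (memO A c0 c1 c.m10 c.o x1 y0 e R c.iv).getD i 0 = o3 at h3 ⊢
    generalize (memO A c0 c1 c.m11 c.o x1 y1 e R c.iv).getD i 0 = o4 at h4 ⊢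
    generalize hv A c0 c1 c.m00 c.o x0 y0 e (R.getD i zR) c.iv = w1 at h1 ⊢
    generalize hv A c0 c1 c.m01 c.o x0 y1 e (R.getD i zR) c.iv = w2 at h2 ⊢
    generalize hv A c0 c1 c.m10 c.o x1 y0 e (R.getD i zR) c.iv = w3 at h3 ⊢
    generalize hv A c0 c1 c.m11 c.o x1 y1 e (R.getD i zR) c.iv = w4 at h4 ⊢
    have h5 : 1000000000000000000000000000000000 * (o1 + o2 + o3 + o4) ≤
        20282409603651670423947251286016 * ((w1 + w2) + (w3 + w4)) +
          4 * 1000000000000000000000000000000000 := by omega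
    have h6 := Nat.mul_le_mul_left ((x1 - x0) * (y1 - y0) * c.M) h5
    calc _ = (x1 - x0) * (y1 - y0) * c.M *
          (1000000000000000000000000000000000 * (o1 + o2 + o3 + o4)) := by ring
      _ ≤ _ := h6
      _ = _ := by ring
  | .em, _, _, _, _ => by
    rw [mem, Tr.wt, mul_zero]
    exact Nat.zero_le _
  | .tp, _, _, _, _ => by
    rw [mem, Tr.wt, mul_zero]
    exact Nat.zero_le _
  | .sx a l r, x0, x1, y0, y1 => by
    have h1 := wt_le hi (A := A) (c0 := c0) (c1 := c1) (e := e) l x0 a y0 y1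
    have h2 := wt_le hi (A := A) (c0 := c0) (c1 := c1) (e := e) r a x1 y0 y1
    rw [mem, Tr.wt, WL, arP, Nat.add_eq]
    omega
  | .sy a l r, x0, x1, y0, y1 => by
    have h1 := wt_le hi (A := A) (c0 := c0) (c1 := c1) (e := e) l x0 x1 y0 a
    have h2 := wt_le hi (A := A) (c0 := c0) (c1 := c1) (e := e) r x0 x1 a y1
    rw [mem, Tr.wt, WL, arP, Nat.add_eq]
    omega

/-! ### Pieces of a tree -/

/-- **a checked piece of a tree**: packed weight `w`, area `a` -/
structure OkT (P : PR) (A c0 c1 : ℕ) (nf : ℕ → ℕ → ℕ) (h : ℕ) (T : Tr)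
    (x0 x1 y0 y1 w a : ℕ) : Prop where
  ck : ckP P c0 c1 nf h T x0 x1 y0 y1 = true
  ws : wsP P A c0 c1 T x0 x1 y0 y1 = w
  ar : arP T x0 x1 y0 y1 = a

section
variable {P : PR} {A c0 c1 : ℕ} {nf : ℕ → ℕ → ℕ} {h x0 x1 y0 y1 : ℕ}

/-- one run of the kernel for a piece -/
def okB (P : PR) (A c0 c1 : ℕ) (nf : ℕ → ℕ → ℕ) (h : ℕ) (T : Tr) (x0 x1 y0 y1 w a : ℕ) : Bool :=
  ckP P c0 c1 nf h T x0 x1 y0 y1 && (Nat.beq (wsP P A c0 c1 T x0 x1 y0 y1) w &&
    Nat.beq (arP T x0 x1 y0 y1) a)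

theorem OkT.of {T : Tr} {w a : ℕ} (hb : okB P A c0 c1 nf h T x0 x1 y0 y1 w a = true) :
    OkT P A c0 c1 nf h T x0 x1 y0 y1 w a := by
  unfold okB at hb
  rw [Bool.and_eq_true, Bool.and_eq_true, Nat.beq_eq, Nat.beq_eq] at hb
  exact ⟨hb.1, hb.2.1, hb.2.2⟩

theorem OkT.sx {b : ℕ} {l r : Tr} {w w' a a' : ℕ} (h1 : OkT P A c0 c1 nf h l x0 b y0 y1 w a)
    (h2 : OkT P A c0 c1 nf h r b x1 y0 y1 w' a') :
    OkT P A c0 c1 nf h (.sx b l r) x0 x1 y0 y1 (w + w') (a + a') := by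
  refine ⟨?_, ?_, ?_⟩
  · rw [ckP, h1.ck, h2.ck]
    rfl
  · rw [wsP, h1.ws, h2.ws]
    rfl
  · rw [arP, h1.ar, h2.ar]
    rfl

theorem OkT.sy {b : ℕ} {l r : Tr} {w w' a a' : ℕ} (h1 : OkT P A c0 c1 nf h l x0 x1 y0 b w a)
    (h2 : OkT P A c0 c1 nf h r x0 x1 b y1 w' a') :
    OkT P A c0 c1 nf h (.sy b l r) x0 x1 y0 y1 (w + w') (a + a') := by
  refine ⟨?_, ?_, ?_⟩
  · rw [ckP, h1.ck, h2.ck]
    rfl
  · rw [wsP, h1.ws, h2.ws]
    rfl
  · rw [arP, h1.ar, h2.ar]
    rfl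

end

/-! ### The family -/

/-- bound of the weight of a lane -/
def wb (a x : ℕ) : ℕ :=
  Nat.add (Nat.div (Nat.mul 20282409603651670423947251286016 x)
    1000000000000000000000000000000000) (Nat.mul 4 a)

/-- the printed weights against the packed weight -/
def chW (a : ℕ) : ℕ → List ℕ → Bool
  | _, [] => true
  | w, b :: L => Nat.ble (wb a (Nat.mod w BB)) b && chW a (Nat.div w BB) L

theorem chW_get {a : ℕ} : ∀ {n : ℕ} {g : ℕ → ℕ} {L : List ℕ}, L.length = n →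
    (∀ i < n, g i < BB) → chW a (pk n g) L = true → ∀ i < n, wb a (g i) ≤ L.getD i 0
  | 0, _, _, _, _, _, i, hi => absurd hi (Nat.not_lt_zero i)
  | n + 1, g, [], hl, _, _, _, _ => by simp at hl
  | n + 1, g, b :: L, hl, hg, hc, i, hi => by
    have g0 := hg 0 (Nat.succ_pos n)
    rw [chW, pk_succ, Bool.and_eq_true, Nat.ble_eq] at hc
    have e1 : Nat.mod (g 0 + BB * pk n fun i => g (i + 1)) BB = g 0 := by
      show (g 0 + BB * pk n fun i => g (i + 1)) % BB = g 0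
      rw [Nat.add_mul_mod_self_left, Nat.mod_eq_of_lt g0]
    have e2 : Nat.div (g 0 + BB * pk n fun i => g (i + 1)) BB = pk n fun i => g (i + 1) := by
      show (g 0 + BB * pk n fun i => g (i + 1)) / BB = _
      rw [Nat.add_mul_div_left _ _ BB_pos, Nat.div_eq_of_lt g0, zero_add]
    rw [e1, e2] at hc
    cases i with
    | zero => exact hc.1
    | succ i =>
      exact chW_get (by simpa using hl) (fun j hj => hg (j + 1) (by omega)) hc.2 i (by omega)

/-- the final check -/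
def finB (P : PR) (Rs : List (List Row)) (A w a : ℕ) (Wn : List ℕ) : Bool :=
  agk P Rs && (Nat.ble A 4194304 && (Nat.ble a 1000000000000000000000000000000 &&
    (Nat.beq Wn.length (Nat.mul P.E P.V) && chW a w Wn)))

/-- the member `e` of the family -/
def QQ (P : PR) (Rs : List (List Row)) (A c0 c1 h : ℕ) (T : Tr) (e : ℕ) : Cor :=
  ⟨Rs.getD e [], P.nl, P.ne, h, mem A c0 c1 e (Rs.getD e []) T 0 500000 0 500000⟩

section
variable {P : PR} {Rs : List (List Row)} {A c0 c1 h w a : ℕ} {nf : ℕ → ℕ → ℕ} {T : Tr}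
  {Wn : List ℕ} (hF : finB P Rs A w a Wn = true)
  (hT : OkT P A c0 c1 nf h T 0 500000 0 500000 w a)
include hF

theorem rows_len {e : ℕ} (he : e < P.E) : (Rs.getD e []).length = P.V := by
  unfold finB at hF
  simp only [Bool.and_eq_true] at hF
  exact (agk_sound hF.1).2.2 e he

include hT

/-- **the packed family is a family of rule R9** -/
theorem fam_of : Fam (fun e : Fin P.E => QQ P Rs A c0 c1 h T e) A c0 c1 nf P.ne h := by
  unfold finB at hF
  simp only [Bool.and_eq_true, Nat.ble_eq] at hF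
  exact ⟨fun e => ck_ok hF.1 hF.2.1 e.2 T 0 500000 0 500000 hT.ck, fun _ => rfl, fun _ => rfl,
    _, fun e => sk_mem A c0 c1 e (Rs.getD 0 []) (Rs.getD e []) T 0 500000 0 500000⟩

/-- **the weights of the members** -/
theorem w_le {e : ℕ} (he : e < P.E) {i : ℕ} (hi : i < P.V) :
    (QQ P Rs A c0 c1 h T e).w i ≤ Wn.getD (e * P.V + i) 0 := by
  have hlen := rows_len hF he
  unfold finB at hF
  simp only [Bool.and_eq_true, Nat.ble_eq, Nat.beq_eq] at hF
  obtain ⟨h1, h2, h3, h4, h5⟩ := hF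
  have ag := (agk_sound h1).1
  obtain ⟨e1, l1⟩ := ws_eq h1 h2 (c0 := c0) (c1 := c1) T _ _ _ _ hT.ck
  rw [hT.ws] at e1
  rw [hT.ar] at l1
  have hB : ∀ e < P.E, ∀ v < P.V, WL A c0 c1 e ((Rs.getD e []).getD v zR) T 0 500000 0 500000 <
      BB := by
    intro e he v hv
    refine lt_of_le_of_lt ((l1 e he v hv).trans (Nat.mul_le_mul_right _ h3)) ?_
    norm_num [BB]
  rw [pk2_eq ag.V0] at e1
  rw [e1] at h5
  have k := chW_get (n := P.E * P.V) h4 (fun i hi => hB _ (lane hi).1 _ (lane hi).2) h5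
    (e * P.V + i) (by
      calc e * P.V + i < e * P.V + P.V := by omega
        _ = (e + 1) * P.V := by ring
        _ ≤ P.E * P.V := Nat.mul_le_mul_right P.V he)
  have d1 : (e * P.V + i) / P.V = e := by
    rw [mul_comm, Nat.mul_add_div ag.V0, Nat.div_eq_of_lt hi, add_zero]
  have d2 : (e * P.V + i) % P.V = i := by
    rw [mul_comm, Nat.mul_add_mod, Nat.mod_eq_of_lt hi]
  simp only [d1, d2] at k
  refine le_trans ?_ k
  have h6 := wt_le (A := A) (c0 := c0) (c1 := c1) (e := e) (i := i) (R := Rs.getD e [])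
    (by rw [hlen]; exact hi) T 0 500000 0 500000
  rw [hT.ar] at h6
  have h7 : (QQ P Rs A c0 c1 h T e).w i =
      (mem A c0 c1 e (Rs.getD e []) T 0 500000 0 500000).wt i 0 500000 0 500000 := rfl
  rw [h7]
  generalize (mem A c0 c1 e (Rs.getD e []) T 0 500000 0 500000).wt i 0 500000 0 500000 = g at h6 ⊢
  generalize WL A c0 c1 e ((Rs.getD e []).getD i zR) T 0 500000 0 500000 = x at h6 ⊢
  unfold wb
  simp only [Nat.add_eq, Nat.mul_eq]
  show g ≤ 20282409603651670423947251286016 * x / 1000000000000000000000000000000000 + 4 * a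
  rw [← Nat.add_mul_div_left _ _ (show 0 < 1000000000000000000000000000000000 by norm_num),
    Nat.le_div_iff_mul_le (by norm_num)]
  calc g * 1000000000000000000000000000000000 = 1000000000000000000000000000000000 * g :=
        mul_comm _ _
    _ ≤ _ := h6
    _ = _ := by ring

/-- **the weight of a member at a point of the parameter box** -/
theorem W_le {e : ℕ} (he : e < P.E) {lam : ℕ → ℝ} (h0 : ∀ i, 0 ≤ lam i) :
    (QQ P Rs A c0 c1 h T e).W lam ≤ ∑ i ∈ Finset.range P.V,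
      lam i * (((Wn.getD (e * P.V + i) 0 : ℕ) : ℝ) / (4 * U ^ 4)) := by
  have hU := U_pos
  have hl : (QQ P Rs A c0 c1 h T e).rows.length = P.V := rows_len hF he
  unfold Cor.W
  rw [hl]
  refine Finset.sum_le_sum fun i hi => mul_le_mul_of_nonneg_left
    (div_le_div_of_nonneg_right ?_ (by positivity)) (h0 i)
  exact_mod_cast w_le hF hT he (Finset.mem_range.1 hi)

end

end Helper60.R10
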