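import Pool.Agent.Helper60.MEI.R8S

/-!
# Project MEI (M2), w-term: soundness of the checker of rule R8, a leaf at a point
-/

set_option autoImplicit false

namespace Helper60.R8

open Set MeasureTheory Helper78.MEI Helper80.CW Helper82.CW Helper14.CW Helper93.MEI Helper82.M2
open Helper14.MEI2 Pool.Agent.Helper52.MEI Pool.Agent.Helper73.MEI Pool.Agent.Helper31.SR
open Helper33.MEI (Wi Dl tx M3 mt mt_pos)
open Helper60.R7 (U U_pos F4 cast_tsub In mtx rc rc_meas mem_rc mt_mtx cb cb_nonneg)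

theorem bk_iff {x0 x1 y0 y1 : ℕ} {c : Lf} (h : bk x0 x1 y0 y1 c = true) :
    x0 < x1 ∧ y0 < y1 ∧ x1 + y1 < U ∧ 0 < c.m0 ∧
      (mk1 x0 y0 c.m00 = true ∧ mk1 x0 y1 c.m01 = true ∧ mk1 x1 y0 c.m10 = true ∧
        mk1 x1 y1 c.m11 = true) ∧
      ((2 * x1 + y1 ≤ U ∧ x1 + 2 * y1 ≤ U ∧
        c.m0 * c.m0 + U * x1 + U * y1 ≤ U * U + x1 * x1 + y1 * y1 + x1 * y1) ∨
        c.m0 * c.m0 + U * x1 + U * y1 ≤ U * U + x0 * x0 + y0 * y0 + x0 * y0 ∨
        3 * (c.m0 * c.m0) ≤ 2 * (U * U)) ∧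
      U * (3 * (x1 * x1) + 2 * (x1 * y1) + 3 * (y1 * y1)) ≤
        c.o * ((2 * U - x1 - y1) * (2 * U - x1 - y1)) ∧
      U * U * (U * U) * U ≤ c.M * (c.m0 * c.m0 * (c.m0 * c.m0)) := by
  unfold bk at h
  simp only [Bool.and_eq_true, Bool.or_eq_true, Nat.ble_eq, Nat.blt_eq] at h
  obtain ⟨⟨⟨⟨⟨⟨⟨⟨⟨⟨h1, h2⟩, h3⟩, h4⟩, h5⟩, h6⟩, h7⟩, h8⟩, h9⟩, h10⟩, h11⟩ := h
  refine ⟨h1, h2, h3, h4, ⟨h5, h6, h7, h8⟩, ?_, h10, h11⟩
  rcases h9 with (h9 | h9) | h9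
  · exact Or.inl ⟨h9.1.1, h9.1.2, h9.2⟩
  · exact Or.inr (Or.inl h9)
  · exact Or.inr (Or.inr h9)

/-- the check of `R7` for the same numbers -/
theorem bk_mck {x0 x1 y0 y1 : ℕ} {c : Lf} (h : bk x0 x1 y0 y1 c = true) :
    Helper60.R7.mck x0 x1 y0 y1 ⟨c.m0, U, c.o, U ^ 4, [], [], []⟩ = true := by
  obtain ⟨h1, h2, h3, h4, _, h6, h7, _⟩ := bk_iff h
  unfold Helper60.R7.mck
  simp only [Bool.and_eq_true, Bool.or_eq_true, Nat.ble_eq, Nat.blt_eq]
  refine ⟨⟨⟨⟨⟨⟨h3, h4⟩, le_rfl⟩, ?_⟩, ?_⟩, h7⟩, ?_⟩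
  · have e1 : x0 + y0 ≤ U := by omega
    have e2 : x0 * x0 + x0 * y0 ≤ U * x0 := by
      calc x0 * x0 + x0 * y0 = (x0 + y0) * x0 := by ring
        _ ≤ U * x0 := Nat.mul_le_mul_right _ e1
    have e3 : y0 * y0 ≤ U * y0 := Nat.mul_le_mul_right _ (by omega)
    omega
  · rcases h6 with h6 | h6 | h6
    · exact Or.inl (Or.inl ⟨⟨h6.1, h6.2.1⟩, h6.2.2⟩)
    · exact Or.inl (Or.inr h6)
    · exact Or.inr h6
  · have : 0 < c.m0 * c.m0 * c.m0 := by positivity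
    calc U ^ 4 = U ^ 4 * 1 := (mul_one _).symm
      _ ≤ U ^ 4 * (c.m0 * c.m0 * c.m0) := Nat.mul_le_mul_left _ this

theorem mk1_iff {x y m : ℕ} (h : mk1 x y m = true) :
    m ≤ U ∧ mtx ((x : ℝ) / U) ((y : ℝ) / U) ≤ ((m : ℝ) / U) ^ 2 := by
  have hU := U_pos
  unfold mk1 at h
  simp only [Bool.and_eq_true, Nat.ble_eq] at h
  refine ⟨h.1, ?_⟩
  have h' : ((U * U + x * x + y * y + x * y : ℕ) : ℝ) ≤ ((m * m + U * x + U * y : ℕ) : ℝ) := by
    exact_mod_cast h.2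
  push_cast at h'
  unfold mtx
  rw [← sub_nonneg]
  have e : ((m : ℝ) / U) ^ 2 - (1 - (x : ℝ) / U - (y : ℝ) / U + ((x : ℝ) / U) ^ 2 +
      ((y : ℝ) / U) ^ 2 + (x : ℝ) / U * ((y : ℝ) / U)) =
      (m * m + U * x + U * y - (U * U + x * x + y * y + x * y)) / ((U : ℝ) * U) := by
    field_simp
    ring
  rw [e]
  exact div_nonneg (by linarith) (by positivity)

/-- the interval of `w` -/
theorem ivk_find {rows : List Row} {A c0 c1 nl ne x0 x1 y0 y1 : ℕ} {c : Lf} {w : ℝ}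
    (hW : ∀ b : ℕ, (rows.all fun R => Nat.blt (U + R.s) b) = true → w < (b : ℝ) / U) :
    ∀ (L : List Iv) (b : ℕ), ivk rows A c0 c1 nl ne x0 x1 y0 y1 c b L = true → (b : ℝ) / U ≤ w →
      ∃ I : Iv, (I.u : ℝ) / U ≤ w ∧ w ≤ (I.v : ℝ) / U ∧
        ik rows A c0 c1 nl ne x0 x1 y0 y1 c I = true
  | [], b, h, hb => absurd hb (not_le.2 (hW b h))
  | I :: L, b, h, hb => by
    have hU := U_pos
    simp only [ivk, Bool.and_eq_true, Nat.ble_eq] at h
    obtain ⟨⟨h1, h2⟩, h3⟩ := h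
    rcases le_or_gt w ((I.v : ℝ) / U) with hv | hv
    · refine ⟨I, le_trans ?_ hb, hv, h2⟩
      exact div_le_div_of_nonneg_right (by exact_mod_cast h1) hU.le
    · exact ivk_find hW L I.v h3 hv.le

/-- the strip function from its numbers -/
theorem F4_eq {c0 c1 m1 mu u r : ℕ} (hm1 : m1 ≤ U) (hc : c1 * u ≤ c0 * U) :
    ((F4 c0 c1 m1 mu u r : ℕ) : ℝ) / U ^ 4 = (1 - (m1 : ℝ) / U) * ((u : ℝ) / U) +
      2 * ((mu : ℝ) / U) * (((c0 : ℝ) / U - (c1 : ℝ) / U * ((u : ℝ) / U)) * ((r : ℝ) / U)) := by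
  have hU := U_pos
  unfold F4
  push_cast [Nat.cast_sub hm1, Nat.cast_sub hc]
  field_simp

theorem ph_lo {m μ d0 d1 c0 c1 u m1 μ0 r : ℝ} (hm : m ≤ m1) (hμ : μ0 ≤ μ) (hμ0 : 0 ≤ μ0)
    (hu : 0 ≤ u) (hr : 0 ≤ r) (hr2 : r ^ 2 ≤ u) (hc : c1 * u ≤ c0) (h0 : c0 ≤ d0)
    (h1 : d1 ≤ c1) : (1 - m1) * u + 2 * μ0 * ((c0 - c1 * u) * r) ≤ ph m μ d0 d1 u := by
  refine (ph_num hm hμ hμ0 hu hr hr2 hc).trans ?_
  unfold ph
  have k1 : (c0 - c1 * u) * √u ≤ (d0 - d1 * u) * √u := by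
    refine mul_le_mul_of_nonneg_right ?_ (Real.sqrt_nonneg _)
    have := mul_le_mul_of_nonneg_right h1 hu
    linarith
  have k2 := mul_le_mul_of_nonneg_left k1 (show 0 ≤ 2 * μ by linarith)
  linarith

/-- sums over the rows, from the vertices to the point -/
theorem sum_bil {rows : List Row} {lam : ℕ → ℝ} {x0 x1 y0 y1 : ℕ} (hxy : x1 + y1 < U)
    (hx01 : x0 < x1) (hy01 : y0 < y1) {p q x y : ℝ}
    (hx : x = (1 - p) * ((x0 : ℝ) / U) + p * ((x1 : ℝ) / U))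
    (hy : y = (1 - q) * ((y0 : ℝ) / U) + q * ((y1 : ℝ) / U)) (g : ℕ → P3) :
    ∑ i ∈ Finset.range rows.length, lam i * afr (g i) x y =
      bil p q
        (∑ i ∈ Finset.range rows.length, lam i * (((af (g i) x0 y0 : ℕ) : ℝ) / U ^ 2))
        (∑ i ∈ Finset.range rows.length, lam i * (((af (g i) x0 y1 : ℕ) : ℝ) / U ^ 2))
        (∑ i ∈ Finset.range rows.length, lam i * (((af (g i) x1 y0 : ℕ) : ℝ) / U ^ 2))
        (∑ i ∈ Finset.range rows.length, lam i * (((af (g i) x1 y1 : ℕ) : ℝ) / U ^ 2)) := by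
  unfold bil
  rw [Finset.mul_sum, Finset.mul_sum, Finset.mul_sum, Finset.mul_sum, ← Finset.sum_add_distrib,
    ← Finset.sum_add_distrib, ← Finset.sum_add_distrib]
  refine Finset.sum_congr rfl fun i _ => ?_
  rw [af_cast _ (by omega), af_cast _ (by omega), af_cast _ (by omega), af_cast _ (by omega)]
  unfold afr
  rw [hx, hy]
  ring

/-- **a leaf at a point** -/
theorem lf_pt {rows : List Row} {A c0 c1 nl ne x0 x1 y0 y1 : ℕ} {c : Lf}
    (hck : lk8 rows A c0 c1 nl ne x0 x1 y0 y1 c = true)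
    {lam : ℕ → ℝ} (h0 : ∀ i, 0 ≤ lam i) (h1 : ∑ i ∈ Finset.range rows.length, lam i = 1)
    {x y p q Sk Sj Sl s d0 d1 m ow w G Y : ℝ} (hp0 : 0 ≤ p) (hp1 : p ≤ 1) (hq0 : 0 ≤ q)
    (hq1 : q ≤ 1) (hx : x = (1 - p) * ((x0 : ℝ) / U) + p * ((x1 : ℝ) / U))
    (hy : y = (1 - q) * ((y0 : ℝ) / U) + q * ((y1 : ℝ) / U))
    (hx0 : 0 ≤ x) (hy0 : 0 ≤ y) (hz0 : 0 ≤ 1 - x - y)
    (hSk : Sk ≤ ∑ i ∈ Finset.range rows.length, lam i * (((rows.getD i zR).S.k : ℝ) / U))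
    (hSj : Sj ≤ ∑ i ∈ Finset.range rows.length, lam i * (((rows.getD i zR).S.j : ℝ) / U))
    (hSl : Sl ≤ ∑ i ∈ Finset.range rows.length, lam i * (((rows.getD i zR).S.l : ℝ) / U))
    (hs : s ≤ sS rows lam)
    (hd0 : (c0 : ℝ) / U ≤ d0) (hd1 : d1 ≤ (c1 : ℝ) / U) (hd : 0 ≤ d1)
    (hm : m ^ 2 = mtx x y) (hm0 : 0 < m) (how0 : 0 ≤ ow) (how : ow ≤ s)
    (how2 : ow ≤ (3 * x ^ 2 + 2 * x * y + 3 * y ^ 2) / (2 - x - y) ^ 2)
    (hw0 : 0 ≤ w) (hw1 : w ≤ 1 + s) (hm1 : m ≤ 1) (hw3 : 3 * d1 * w ≤ d0)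
    {C : ℝ} (hCe : C = (1 - x - y) * Sk + x * Sj + y * Sl)
    (hL : ∀ li < nl, G + (1 - ∑ i ∈ Finset.range rows.length,
      lam i * afr ((rows.getD i zR).ls.getD li zL).D x y) * w -
        ∑ i ∈ Finset.range rows.length, lam i * afr ((rows.getD i zR).ls.getD li zL).X x y ≤ Y)
    (hE : ∀ ei < ne, G ≤ -C + ∑ i ∈ Finset.range rows.length,
      lam i * afr ((rows.getD i zR).es.getD ei z3) x y)
    (hS : ph m (bil p q ((min x0 y0 : ℕ) / U) ((min x0 y1 : ℕ) / U) ((min x1 y0 : ℕ) / U)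
        ((min x1 y1 : ℕ) / U)) d0 d1 w - C + m * w ≤ Y)
    (hO : Y / m - w ≤ ow)
    {om : ℝ} (hom : bil p q (sO rows lam c.o00) (sO rows lam c.o01) (sO rows lam c.o10)
      (sO rows lam c.o11) ≤ m * om) :
    (A : ℝ) / U * (G / m) - om ≤ ff ((A : ℝ) / U) (Y / m - w) w := by
  have hU := U_pos
  have hnm : In x0 x1 y0 y1 x y := by
    have a1 : (x0 : ℝ) / U ≤ (x1 : ℝ) / U := by
      unfold lk8 at hck
      simp only [Bool.and_eq_true] at hck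
      have := (bk_iff hck.1).1
      exact div_le_div_of_nonneg_right (by exact_mod_cast this.le) hU.le
    have a2 : (y0 : ℝ) / U ≤ (y1 : ℝ) / U := by
      unfold lk8 at hck
      simp only [Bool.and_eq_true] at hck
      have := (bk_iff hck.1).2.1
      exact div_le_div_of_nonneg_right (by exact_mod_cast this.le) hU.le
    refine ⟨?_, ?_, ?_, ?_⟩
    · rw [hx]; nlinarith
    · rw [hx]; nlinarith
    · rw [hy]; nlinarith
    · rw [hy]; nlinarith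
  unfold lk8 at hck
  simp only [Bool.and_eq_true] at hck
  obtain ⟨hbk, hiv⟩ := hck
  obtain ⟨j1, j2, j3, j4, ⟨b1, b2, b3, b4⟩, _⟩ := bk_iff hbk
  have hmo := Helper60.R7.mck_o (bk_mck hbk) hnm
  obtain ⟨u1, n1⟩ := mk1_iff b1
  obtain ⟨u2, n2⟩ := mk1_iff b2
  obtain ⟨u3, n3⟩ := mk1_iff b3
  obtain ⟨u4, n4⟩ := mk1_iff b4
  -- weights
  have t1 : 0 ≤ (1 - p) * (1 - q) := mul_nonneg (by linarith) (by linarith)
  have t2 : 0 ≤ (1 - p) * q := mul_nonneg (by linarith) hq0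
  have t3 : 0 ≤ p * (1 - q) := mul_nonneg hp0 (by linarith)
  have t4 : 0 ≤ p * q := mul_nonneg hp0 hq0
  have ts : (1 - p) * (1 - q) + (1 - p) * q + p * (1 - q) + p * q = 1 := by ring
  -- `m`
  have hmc := m_conv hp0 hp1 hq0 hq1 hx hy hm hm0 (m1 := (c.m00 : ℝ) / U)
    (m2 := (c.m01 : ℝ) / U) (m3 := (c.m10 : ℝ) / U) (m4 := (c.m11 : ℝ) / U)
    (by positivity) (by positivity) (by positivity) (by positivity) n1 n2 n3 n4
  -- the caps
  have hC : (1 - x - y) * Sk + x * Sj + y * Sl ≤ bil p q (sC rows lam x0 y0)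
      (sC rows lam x0 y1) (sC rows lam x1 y0) (sC rows lam x1 y1) := by
    have e := sum_bil (lam := lam) (rows := rows) j3 j1 j2 hx hy fun i => (rows.getD i zR).S
    unfold sC
    rw [← e]
    have q1 := mul_le_mul_of_nonneg_left hSk hz0
    have q2 := mul_le_mul_of_nonneg_left hSj hx0
    have q3 := mul_le_mul_of_nonneg_left hSl hy0
    refine (add_le_add (add_le_add q1 q2) q3).trans (le_of_eq ?_)
    rw [Finset.mul_sum, Finset.mul_sum, Finset.mul_sum, ← Finset.sum_add_distrib,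
      ← Finset.sum_add_distrib]
    refine Finset.sum_congr rfl fun i _ => ?_
    unfold afr
    ring
  -- the range
  have hW : ∀ b : ℕ, (rows.all fun R => Nat.blt (U + R.s) b) = true → w < (b : ℝ) / U := by
    intro b hb
    have k : ∀ i < rows.length, (1 : ℝ) + (((rows.getD i zR).s : ℕ) : ℝ) / U ≤ ((b : ℝ) - 1) / U := by
      intro i hi
      have h2 : U + (rows.getD i zR).s < b := by
        rw [List.getD_eq_getElem _ _ hi]
        have h5 := List.all_eq_true.1 hb _ (List.getElem_mem hi)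
        rwa [Nat.blt_eq] at h5
      have h3 : ((U + (rows.getD i zR).s + 1 : ℕ) : ℝ) ≤ (b : ℝ) := by exact_mod_cast h2
      push_cast at h3
      rw [le_div_iff₀ hU, add_mul, one_mul, div_mul_cancel₀ _ hU.ne']
      linarith
    have e : 1 + sS rows lam =
        ∑ i ∈ Finset.range rows.length, lam i * (1 + (((rows.getD i zR).s : ℕ) : ℝ) / U) := by
      unfold sS
      simp only [mul_add, mul_one, Finset.sum_add_distrib, h1]
    have h2 : ∑ i ∈ Finset.range rows.length, lam i * (1 + (((rows.getD i zR).s : ℕ) : ℝ) / U) ≤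
        ∑ i ∈ Finset.range rows.length, lam i * (((b : ℝ) - 1) / U) :=
      Finset.sum_le_sum fun i hi => mul_le_mul_of_nonneg_left (k i (Finset.mem_range.1 hi)) (h0 i)
    rw [← Finset.sum_mul, h1, one_mul] at h2
    have h3 : ((b : ℝ) - 1) / U < (b : ℝ) / U := div_lt_div_of_pos_right (by linarith) hU
    linarith
  obtain ⟨I, hu, hv, hik⟩ := ivk_find hW c.iv 0 hiv (by simpa using hw0)
  unfold ik at hik
  simp only [Bool.and_eq_true, Bool.or_eq_true, Nat.ble_eq, Nat.blt_eq] at hik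
  obtain ⟨⟨⟨⟨⟨⟨⟨⟨⟨⟨⟨i1, i2⟩, i3⟩, i4⟩, i5⟩, i6⟩, i7⟩, i8⟩, x1'⟩, x2'⟩, x3'⟩, x4'⟩ := hik
  have hcu : c1 * I.u ≤ c0 * U := (Nat.mul_le_mul_left _ i1.le).trans i5
  -- the strip functions
  obtain ⟨μ, hμ⟩ : ∃ μ, μ = bil p q ((min x0 y0 : ℕ) / U) ((min x0 y1 : ℕ) / U)
    ((min x1 y0 : ℕ) / U) ((min x1 y1 : ℕ) / U) := ⟨_, rfl⟩
  rw [← hμ] at hS
  have hμ0 : 0 ≤ μ := by
    rw [hμ]
    unfold bil
    positivity
  have hstrip : ∀ e r : ℕ, c1 * e ≤ c0 * U → r * r ≤ e * U →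
      bil p q (((F4 c0 c1 c.m00 (min x0 y0) e r : ℕ) : ℝ) / U ^ 4)
        (((F4 c0 c1 c.m01 (min x0 y1) e r : ℕ) : ℝ) / U ^ 4)
        (((F4 c0 c1 c.m10 (min x1 y0) e r : ℕ) : ℝ) / U ^ 4)
        (((F4 c0 c1 c.m11 (min x1 y1) e r : ℕ) : ℝ) / U ^ 4) ≤ ph m μ d0 d1 ((e : ℝ) / U) := by
    intro e r hce hre
    have hr2 : ((r : ℝ) / U) ^ 2 ≤ (e : ℝ) / U := by
      have h1 : ((r * r : ℕ) : ℝ) ≤ ((e * U : ℕ) : ℝ) := by exact_mod_cast hre
      push_cast at h1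
      rw [div_pow, div_le_div_iff₀ (by positivity) hU]
      nlinarith
    have hcu' : (c1 : ℝ) / U * ((e : ℝ) / U) ≤ (c0 : ℝ) / U := by
      have h1 : ((c1 * e : ℕ) : ℝ) ≤ ((c0 * U : ℕ) : ℝ) := by exact_mod_cast hce
      push_cast at h1
      rw [← mul_div_mul_comm, div_le_div_iff₀ (by positivity) hU]
      nlinarith
    refine le_trans (le_of_eq ?_) (ph_lo (μ0 := μ) (r := (r : ℝ) / U) hmc le_rfl hμ0
      (by positivity) (by positivity) hr2 hcu' hd0 hd1)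
    rw [F4_eq u1 hce, F4_eq u2 hce, F4_eq u3 hce, F4_eq u4 hce, hμ]
    unfold bil
    ring
  have hsu := hstrip I.u I.ru hcu i3
  have hsv := hstrip I.v I.rv i5 i4
  have hu0 : 0 ≤ (I.u : ℝ) / U := by positivity
  have huv : (I.u : ℝ) / U < (I.v : ℝ) / U :=
    div_lt_div_of_pos_right (by exact_mod_cast i1) hU
  have hv3 : (I.v : ℝ) / U < 2 := by
    rw [div_lt_iff₀ hU]
    exact_mod_cast i2
  have hd0' : 0 ≤ d0 := le_trans (by positivity) hd0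
  have hA : 0 ≤ (A : ℝ) / U := by positivity
  have hps1 : (I.ps : ℝ) / U ≤ 1 := by
    rw [div_le_one hU]
    exact_mod_cast i6
  have hps0 : 0 ≤ (I.ps : ℝ) / U := by positivity
  have hla0 : 0 ≤ (I.la : ℝ) / U := by positivity
  rw [← hCe] at hC
  -- the load and the value
  have hLi := hL I.li i7
  obtain ⟨D, hD⟩ : ∃ D, D = ∑ i ∈ Finset.range rows.length,
    lam i * afr ((rows.getD i zR).ls.getD I.li zL).D x y := ⟨_, rfl⟩
  obtain ⟨X, hX⟩ : ∃ D, D = ∑ i ∈ Finset.range rows.length,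
    lam i * afr ((rows.getD i zR).ls.getD I.li zL).X x y := ⟨_, rfl⟩
  obtain ⟨E, hEe⟩ : ∃ D, D = ∑ i ∈ Finset.range rows.length,
    lam i * afr ((rows.getD i zR).es.getD I.ei z3) x y := ⟨_, rfl⟩
  rw [← hD, ← hX] at hLi
  obtain ⟨E2, hEi, hE2⟩ : ∃ E2, G ≤ -C + E2 ∧
      (1 - (I.ps : ℝ) / U) * E2 = (1 - (I.ps : ℝ) / U) * E := by
    rcases i8 with i8 | i8
    · refine ⟨G + C, by linarith, ?_⟩
      have e : (I.ps : ℝ) / U = 1 := by
        rw [le_antisymm i6 i8]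
        exact div_self hU.ne'
      rw [e]
      ring
    · refine ⟨E, ?_, rfl⟩
      rw [hEe]
      exact hE I.ei i8
  have hE3 : ∀ z, (1 - (I.ps : ℝ) / U) * ((A : ℝ) / U * (E2 - z)) =
      (1 - (I.ps : ℝ) / U) * ((A : ℝ) / U * (E - z)) := by
    intro z
    linear_combination ((A : ℝ) / U) * hE2
  have hD' : D ≤ bil p q (sD rows lam I.li x0 y0) (sD rows lam I.li x0 y1)
      (sD rows lam I.li x1 y0) (sD rows lam I.li x1 y1) := by
    rw [hD]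
    exact le_of_eq (sum_bil (lam := lam) (rows := rows) j3 j1 j2 hx hy fun i =>
      ((rows.getD i zR).ls.getD I.li zL).D)
  have hX' : X ≤ bil p q (sX rows lam I.li x0 y0) (sX rows lam I.li x0 y1)
      (sX rows lam I.li x1 y0) (sX rows lam I.li x1 y1) := by
    rw [hX]
    exact le_of_eq (sum_bil (lam := lam) (rows := rows) j3 j1 j2 hx hy fun i =>
      ((rows.getD i zR).ls.getD I.li zL).X)
  have hE' : E ≤ bil p q (sE rows lam I.ei x0 y0) (sE rows lam I.ei x0 y1)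
      (sE rows lam I.ei x1 y0) (sE rows lam I.ei x1 y1) := by
    rw [hEe]
    exact le_of_eq (sum_bil (lam := lam) (rows := rows) j3 j1 j2 hx hy fun i =>
      (rows.getD i zR).es.getD I.ei z3)
  -- the own value
  have hown : ow ≤ owr rows lam I.ty c.o := by
    unfold owr
    split
    · exact how.trans hs
    · exact how.trans hs
    · exact how2.trans hmo
  have hown0 : 0 ≤ owr rows lam I.ty c.o := how0.trans hown
  rcases Nat.lt_or_ge I.ty 2 with hty | hty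
  · -- the inequality
    have hty' : I.ty = 0 ∨ I.ty = 1 := by omega
    have hI2 : I.u < 2 * U := i1.trans i2
    obtain ⟨v1, w1⟩ := vx_sound h0 h1 hI2 i2 i6 x1' hty'
    obtain ⟨v2, w2⟩ := vx_sound h0 h1 hI2 i2 i6 x2' hty'
    obtain ⟨v3, w3⟩ := vx_sound h0 h1 hI2 i2 i6 x3' hty'
    obtain ⟨v4, w4⟩ := vx_sound h0 h1 hI2 i2 i6 x4' hty'
    have du : 0 < 1 - (I.u : ℝ) / U / 2 := by linarith only [huv, hv3]
    have dv : 0 < 1 - (I.v : ℝ) / U / 2 := by linarith only [hv3]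
    have V1 := vin_comb hA hps0 hps1 hla0 hown0 (div_nonneg hu0 du.le) hu0 t1 t2 t3 t4 ts
      v1 v2 v3 v4 hmc hC hD' hX' hE'
    have V2 := vin_comb hA hps0 hps1 hla0 hown0 (div_nonneg (hu0.trans huv.le) dv.le)
      (hu0.trans huv.le) t1 t2 t3 t4 ts w1 w2 w3 w4 hmc hC hD' hX' hE'
    -- the real own value
    have k1 : (I.la : ℝ) / U * (m * ow) ≤ (I.la : ℝ) / U * (m * owr rows lam I.ty c.o) :=
      mul_le_mul_of_nonneg_left (mul_le_mul_of_nonneg_left hown hm0.le) hla0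
    obtain ⟨P, hP⟩ : ∃ P, P = (1 - p) * (1 - q) * sP rows lam
        (F4 c0 c1 c.m00 (min x0 y0) I.u I.ru) x0 y0 + (1 - p) * q * sP rows lam
        (F4 c0 c1 c.m01 (min x0 y1) I.u I.ru) x0 y1 + p * (1 - q) * sP rows lam
        (F4 c0 c1 c.m10 (min x1 y0) I.u I.ru) x1 y0 + p * q * sP rows lam
        (F4 c0 c1 c.m11 (min x1 y1) I.u I.ru) x1 y1 := ⟨_, rfl⟩
    obtain ⟨fu, hfu⟩ : ∃ f, f = bil p q (((F4 c0 c1 c.m00 (min x0 y0) I.u I.ru : ℕ) : ℝ) / U ^ 4)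
        (((F4 c0 c1 c.m01 (min x0 y1) I.u I.ru : ℕ) : ℝ) / U ^ 4)
        (((F4 c0 c1 c.m10 (min x1 y0) I.u I.ru : ℕ) : ℝ) / U ^ 4)
        (((F4 c0 c1 c.m11 (min x1 y1) I.u I.ru : ℕ) : ℝ) / U ^ 4) := ⟨_, rfl⟩
    obtain ⟨fv, hfv⟩ : ∃ f, f = bil p q (((F4 c0 c1 c.m00 (min x0 y0) I.v I.rv : ℕ) : ℝ) / U ^ 4)
        (((F4 c0 c1 c.m01 (min x0 y1) I.v I.rv : ℕ) : ℝ) / U ^ 4)
        (((F4 c0 c1 c.m10 (min x1 y0) I.v I.rv : ℕ) : ℝ) / U ^ 4)
        (((F4 c0 c1 c.m11 (min x1 y1) I.v I.rv : ℕ) : ℝ) / U ^ 4) := ⟨_, rfl⟩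
    have hP0 : 0 ≤ P := by
      rw [hP]
      have a1 := mul_nonneg t1 (sP_nonneg (rows := rows) h0 (F4 c0 c1 c.m00 (min x0 y0) I.u I.ru) x0 y0)
      have a2 := mul_nonneg t2 (sP_nonneg (rows := rows) h0 (F4 c0 c1 c.m01 (min x0 y1) I.u I.ru) x0 y1)
      have a3 := mul_nonneg t3 (sP_nonneg (rows := rows) h0 (F4 c0 c1 c.m10 (min x1 y0) I.u I.ru) x1 y0)
      have a4 := mul_nonneg t4 (sP_nonneg (rows := rows) h0 (F4 c0 c1 c.m11 (min x1 y1) I.u I.ru) x1 y1)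
      linarith only [a1, a2, a3, a4]
    have hPC : C - fu ≤ P := by
      rw [hP, hfu]
      unfold bil at hC ⊢
      have a1 := mul_le_mul_of_nonneg_left
        (sP_ge h0 h1 (F4 c0 c1 c.m00 (min x0 y0) I.u I.ru) x0 y0) t1
      have a2 := mul_le_mul_of_nonneg_left
        (sP_ge h0 h1 (F4 c0 c1 c.m01 (min x0 y1) I.u I.ru) x0 y1) t2
      have a3 := mul_le_mul_of_nonneg_left
        (sP_ge h0 h1 (F4 c0 c1 c.m10 (min x1 y0) I.u I.ru) x1 y0) t3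
      have a4 := mul_le_mul_of_nonneg_left
        (sP_ge h0 h1 (F4 c0 c1 c.m11 (min x1 y1) I.u I.ru) x1 y1) t4
      linarith only [a1, a2, a3, a4, hC]
    have hfuv : fu ≤ fv := by
      have g : ∀ {mm xx yy : ℕ} {Os : List ℕ},
          vxk rows A c0 c1 mm c.o xx yy I Os = true →
          ((F4 c0 c1 mm (min xx yy) I.u I.ru : ℕ) : ℝ) / U ^ 4 ≤
            ((F4 c0 c1 mm (min xx yy) I.v I.rv : ℕ) : ℝ) / U ^ 4 := by
        intro mm xx yy Os hh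
        unfold vxk at hh
        rw [Bool.and_eq_true, Nat.ble_eq] at hh
        exact div_le_div_of_nonneg_right (by exact_mod_cast hh.1) (by positivity)
      rw [hfu, hfv]
      unfold bil
      have a1 := mul_le_mul_of_nonneg_left (g x1') t1
      have a2 := mul_le_mul_of_nonneg_left (g x2') t2
      have a3 := mul_le_mul_of_nonneg_left (g x3') t3
      have a4 := mul_le_mul_of_nonneg_left (g x4') t4
      linarith only [a1, a2, a3, a4]
    -- the position in the interval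
    obtain ⟨r, hr⟩ : ∃ r, r = (w - (I.u : ℝ) / U) / ((I.v : ℝ) / U - (I.u : ℝ) / U) := ⟨_, rfl⟩
    have hd' : 0 < (I.v : ℝ) / U - (I.u : ℝ) / U := sub_pos.2 huv
    have hr0 : 0 ≤ r := by
      rw [hr]
      exact div_nonneg (sub_nonneg.2 hu) hd'.le
    have hr1 : r ≤ 1 := by
      rw [hr, div_le_one hd']
      exact sub_le_sub_right hv _
    have hw' : w = (1 - r) * ((I.u : ℝ) / U) + r * ((I.v : ℝ) / U) := by
      have : r * ((I.v : ℝ) / U - (I.u : ℝ) / U) = w - (I.u : ℝ) / U := by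
        rw [hr]
        exact div_mul_cancel₀ _ hd'.ne'
      linarith only [this]
    have hfw : (1 - r) * fu + r * fv ≤ ph m μ d0 d1 w := by
      have e1 := ph_chord (m := m) hμ0 hu0 huv hr0 hr1 hw' hd0' hd
      rw [← hfu] at hsu
      rw [← hfv] at hsv
      have a1 := mul_le_mul_of_nonneg_left hsu (sub_nonneg.2 hr1)
      have a2 := mul_le_mul_of_nonneg_left hsv hr0
      linarith only [a1, a2, e1]
    exact ends_of (A := (A : ℝ) / U) (m := m) (C := C) (D := D) (X := X) (E := E2) (fu := fu)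
        (fv := fv) (w := w) (om := om) (P := P) (psi := (I.ps : ℝ) / U) (la := (I.la : ℝ) / U)
        (ow := ow) (u := (I.u : ℝ) / U) (v := (I.v : ℝ) / U) (r := r) hA hm0 hu0 huv hv3 hr0 hr1
        hw' hLi (by linarith only [hfw, hS]) hO hEi hP0 hPC hfuv hps0 hps1 hla0 (by
          unfold vin at V1
          rw [hE3, hfu, hP]
          unfold bil at hom ⊢
          linarith only [V1, k1, hom]) (by
          unfold vin at V2
          rw [hE3, hfv, hP]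
          unfold bil at hom ⊢
          linarith only [V2, k1, hom])
  · -- out of range
    exfalso
    have o1 := vx_out h0 h1 x1' hty
    have o2 := vx_out h0 h1 x2' hty
    have o3 := vx_out h0 h1 x3' hty
    have o4 := vx_out h0 h1 x4' hty
    have a1 := mul_le_mul_of_nonneg_left o1 t1
    have a2 := mul_le_mul_of_nonneg_left o2 t2
    have a3 := mul_le_mul_of_nonneg_left o3 t3
    have a4 := mul_le_mul_of_nonneg_left o4 t4
    have k1 : m * ow ≤ ((1 - p) * (1 - q) * ((c.m00 : ℝ) / U) + (1 - p) * q * ((c.m01 : ℝ) / U) +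
        p * (1 - q) * ((c.m10 : ℝ) / U) + p * q * ((c.m11 : ℝ) / U)) *
        owr rows lam I.ty c.o :=
      mul_le_mul hmc hown how0 (hm0.le.trans hmc)
    have q0' : (0 : ℝ) < 1 / (U : ℝ) ^ 4 := by positivity
    have tq : ((1 - p) * (1 - q) + (1 - p) * q + p * (1 - q) + p * q) * (1 / (U : ℝ) ^ 4) =
      1 / (U : ℝ) ^ 4 := by ring
    have hmono : ph m μ d0 d1 ((I.u : ℝ) / U) ≤ ph m μ d0 d1 w := ph_mono hm1 hμ0 hd hu0 hu hw3
    have hY : Y ≤ m * ow + m * w := by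
      have e : m * (Y / m - w) = Y - m * w := by field_simp
      have := mul_le_mul_of_nonneg_left hO hm0.le
      linarith only [this, e]
    unfold bil at hC hsu
    linarith only [a1, a2, a3, a4, k1, q0', tq, hC, hsu, hmono, hY, hS]

end Helper60.R8
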