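import Pool.Agent.Helper78.MEI.Face

/-!
# Project MEI (M2), w-term: step functions on rational cells near the corners of the simplex

A step function `stp L` is a sum of multiples of indicators of rational rectangles.
* `stp_meas`, `stp_bd`, `stp_nonneg`: hypotheses of the face theorem;
* `stp_ge`: lower bound on a cell of the list;
* `stp_int`: `∫ t in Dl, stp L t * M3 t` is at most the sum of the weights `v * area * M` with
  `M ≥ M3` on the cell (`M ^ 2 * (1 - x1 - y1) ^ 3 ≥ 1`);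
* `c0`, `c1`, `c2`: coordinates at the three corners, the integrals are the same.
-/

namespace Helper60.MEI

open Set MeasureTheory Helper33.MEI

/-- a rational rectangle with a value and a bound for the weight -/
structure Cell where
  x0 : ℚ
  x1 : ℚ
  y0 : ℚ
  y1 : ℚ
  v : ℚ
  M : ℚ
deriving DecidableEq

/-- the rectangle -/
def Cell.rect (c : Cell) : Set (ℝ × ℝ) := Icc (c.x0 : ℝ) c.x1 ×ˢ Icc (c.y0 : ℝ) c.y1

theorem Cell.rect_meas (c : Cell) : MeasurableSet c.rect := measurableSet_Icc.prod measurableSet_Icc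

/-- one step -/
noncomputable def Cell.ind (c : Cell) (t : ℝ × ℝ) : ℝ := c.rect.indicator (fun _ => (c.v : ℝ)) t

/-- step function -/
noncomputable def stp (L : List Cell) (t : ℝ × ℝ) : ℝ := (L.map fun c => c.ind t).sum

@[simp] theorem stp_nil (t : ℝ × ℝ) : stp [] t = 0 := rfl

@[simp] theorem stp_cons (c : Cell) (L : List Cell) (t : ℝ × ℝ) :
    stp (c :: L) t = c.ind t + stp L t := by
  simp [stp]

/-- admissible cell -/
def Cell.ok (c : Cell) : Bool :=
  decide (0 ≤ c.x0) && decide (c.x0 ≤ c.x1) && decide (0 ≤ c.y0) && decide (c.y0 ≤ c.y1) &&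
    decide (0 ≤ c.v) && decide (0 ≤ c.M) && decide (c.x1 + c.y1 < 1) &&
    decide (1 ≤ c.M ^ 2 * (1 - c.x1 - c.y1) ^ 3)

theorem Cell.ok_iff (c : Cell) : c.ok = true ↔ 0 ≤ c.x0 ∧ c.x0 ≤ c.x1 ∧ 0 ≤ c.y0 ∧ c.y0 ≤ c.y1 ∧
    0 ≤ c.v ∧ 0 ≤ c.M ∧ c.x1 + c.y1 < 1 ∧ 1 ≤ c.M ^ 2 * (1 - c.x1 - c.y1) ^ 3 := by
  unfold Cell.ok
  simp only [Bool.and_eq_true, decide_eq_true_eq]
  tauto

/-- total weight -/
def wt (L : List Cell) : ℚ := (L.map fun c => c.v * ((c.x1 - c.x0) * (c.y1 - c.y0)) * c.M).sum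

@[simp] theorem wt_cons (c : Cell) (L : List Cell) :
    wt (c :: L) = c.v * ((c.x1 - c.x0) * (c.y1 - c.y0)) * c.M + wt L := by
  simp [wt]

theorem ind_meas (c : Cell) : Measurable c.ind := measurable_const.indicator c.rect_meas

theorem stp_meas (L : List Cell) : Measurable (stp L) := by
  induction L with
  | nil => exact measurable_const
  | cons c L ih =>
    have : stp (c :: L) = fun t => c.ind t + stp L t := by
      funext t
      simp
    rw [this]
    exact (ind_meas c).add ih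

theorem ind_nonneg {c : Cell} (h : c.ok = true) (t : ℝ × ℝ) : 0 ≤ c.ind t := by
  obtain ⟨_, _, _, _, hv, _⟩ := c.ok_iff.1 h
  exact indicator_nonneg (fun _ _ => by exact_mod_cast hv) _

theorem stp_nonneg {L : List Cell} (h : L.all Cell.ok = true) (t : ℝ × ℝ) : 0 ≤ stp L t := by
  induction L with
  | nil => simp
  | cons c L ih =>
    rw [List.all_cons, Bool.and_eq_true] at h
    rw [stp_cons]
    exact add_nonneg (ind_nonneg h.1 t) (ih h.2)

theorem ind_le {c : Cell} (h : c.ok = true) (t : ℝ × ℝ) : c.ind t ≤ c.v := by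
  obtain ⟨_, _, _, _, hv, _⟩ := c.ok_iff.1 h
  have hv' : (0 : ℝ) ≤ c.v := by exact_mod_cast hv
  unfold Cell.ind
  by_cases ht : t ∈ c.rect
  · rw [indicator_of_mem ht]
  · rw [indicator_of_notMem ht]
    exact hv'

/-- bounded -/
theorem stp_bd (L : List Cell) (h : L.all Cell.ok = true) :
    ∃ C : ℝ, ∀ t, |stp L t| ≤ C := by
  induction L with
  | nil => exact ⟨0, fun t => by simp⟩
  | cons c L ih =>
    rw [List.all_cons, Bool.and_eq_true] at h
    obtain ⟨C, hC⟩ := ih h.2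
    refine ⟨c.v + C, fun t => ?_⟩
    rw [stp_cons]
    have h1 := ind_nonneg h.1 t
    have h2 := ind_le h.1 t
    have h3 := hC t
    rw [abs_le] at h3 ⊢
    constructor <;> linarith [h3.1, h3.2]

/-- lower bound on a cell -/
theorem stp_ge {L : List Cell} (h : L.all Cell.ok = true) {c : Cell} (hc : c ∈ L) {t : ℝ × ℝ}
    (ht : t ∈ c.rect) : (c.v : ℝ) ≤ stp L t := by
  induction L with
  | nil => simp at hc
  | cons d L ih =>
    rw [List.all_cons, Bool.and_eq_true] at h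
    rw [stp_cons]
    rcases List.mem_cons.1 hc with e | hc
    · rw [← e]
      have : c.ind t = c.v := indicator_of_mem ht _
      rw [this]
      linarith [stp_nonneg h.2 t]
    · linarith [ih h.2 hc, ind_nonneg h.1 t]

/-- `M3` on the part `t.1 + t.2 ≤ h` -/
theorem M3_corner {t : ℝ × ℝ} (h1 : 0 ≤ t.1) (h2 : 0 ≤ t.2) {h M : ℝ} (hh : t.1 + t.2 ≤ h)
    (hh1 : h < 1) (hM : 0 ≤ M) (hMh : 1 ≤ M ^ 2 * (1 - h) ^ 3) : M3 t ≤ M := by
  have hmt : 1 - h ≤ Helper33.MEI.mt t := by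
    unfold Helper33.MEI.mt
    nlinarith [mul_nonneg h1 h2]
  have hp : 0 < 1 - h := by linarith
  have hs : 0 < √(Helper33.MEI.mt t) := Real.sqrt_pos.2 mt_pos
  have hsq := Real.sq_sqrt (mt_pos (t := t)).le
  unfold M3
  rw [inv_pow]
  rw [inv_le_iff_one_le_mul₀ (by positivity)]
  have k1 : (1 - h) ^ 3 ≤ (√(Helper33.MEI.mt t) ^ 3) ^ 2 := by
    have : (√(Helper33.MEI.mt t) ^ 3) ^ 2 = (Helper33.MEI.mt t) ^ 3 := by
      calc (√(Helper33.MEI.mt t) ^ 3) ^ 2 = (√(Helper33.MEI.mt t) ^ 2) ^ 3 := by ring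
        _ = (Helper33.MEI.mt t) ^ 3 := by rw [hsq]
    rw [this]
    exact pow_le_pow_left₀ hp.le hmt 3
  have k2 : 1 ≤ (M * √(Helper33.MEI.mt t) ^ 3) ^ 2 := by
    calc (1 : ℝ) ≤ M ^ 2 * (1 - h) ^ 3 := hMh
      _ ≤ M ^ 2 * (√(Helper33.MEI.mt t) ^ 3) ^ 2 := mul_le_mul_of_nonneg_left k1 (sq_nonneg M)
      _ = (M * √(Helper33.MEI.mt t) ^ 3) ^ 2 := by ring
  have k3 : 0 ≤ M * √(Helper33.MEI.mt t) ^ 3 := by positivity
  nlinarith

theorem ind_int {c : Cell} (h : c.ok = true) :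
    ∫ t in Dl, c.ind t * M3 t ≤ ((c.v * ((c.x1 - c.x0) * (c.y1 - c.y0)) * c.M : ℚ) : ℝ) := by
  obtain ⟨hx0, hx, hy0, hy, hv, hM, hxy, hMh⟩ := c.ok_iff.1 h
  have hx0' : (0 : ℝ) ≤ c.x0 := by exact_mod_cast hx0
  have hx' : (c.x0 : ℝ) ≤ c.x1 := by exact_mod_cast hx
  have hy0' : (0 : ℝ) ≤ c.y0 := by exact_mod_cast hy0
  have hy' : (c.y0 : ℝ) ≤ c.y1 := by exact_mod_cast hy
  have hv' : (0 : ℝ) ≤ c.v := by exact_mod_cast hv
  have hM' : (0 : ℝ) ≤ c.M := by exact_mod_cast hM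
  have hxy' : (c.x1 : ℝ) + c.y1 < 1 := by exact_mod_cast hxy
  have hMh' : (1 : ℝ) ≤ (c.M : ℝ) ^ 2 * (1 - (c.x1 + c.y1)) ^ 3 := by
    have : (1 : ℝ) ≤ (c.M : ℝ) ^ 2 * (1 - c.x1 - c.y1) ^ 3 := by exact_mod_cast hMh
    rw [show (1 : ℝ) - (c.x1 + c.y1) = 1 - c.x1 - c.y1 by ring]
    exact this
  have hrf : volume c.rect = ENNReal.ofReal ((c.x1 : ℝ) - c.x0) * ENNReal.ofReal ((c.y1 : ℝ) - c.y0) := by
    unfold Cell.rect
    rw [Measure.volume_eq_prod, Measure.prod_prod, Real.volume_Icc, Real.volume_Icc]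
  have hlt : volume c.rect < ⊤ := by
    rw [hrf]
    exact ENNReal.mul_lt_top ENNReal.ofReal_lt_top ENNReal.ofReal_lt_top
  have hint : IntegrableOn (fun t => c.rect.indicator (fun _ => (c.v : ℝ) * c.M) t) Dl := by
    refine IntegrableOn.indicator ?_ c.rect_meas
    exact integrableOn_const (Dl_fin.ne)
  have hle : ∀ t ∈ Dl, c.ind t * M3 t ≤ c.rect.indicator (fun _ => (c.v : ℝ) * c.M) t := by
    rintro t ⟨h1, h2, h3⟩
    unfold Cell.ind
    by_cases ht : t ∈ c.rect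
    · rw [indicator_of_mem ht, indicator_of_mem ht]
      obtain ⟨hx2, hy2⟩ := ht
      refine mul_le_mul_of_nonneg_left ?_ hv'
      exact M3_corner h1.le h2.le (add_le_add hx2.2 hy2.2) hxy' hM' hMh'
    · rw [indicator_of_notMem ht, indicator_of_notMem ht, zero_mul]
  have hi1 : IntegrableOn (fun t => c.ind t * M3 t) Dl := by
    refine Helper78.MEI.on_Dl (C := c.v) (ind_meas c).aestronglyMeasurable fun t _ => ?_
    rw [abs_of_nonneg (ind_nonneg h t)]
    exact ind_le h t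
  calc ∫ t in Dl, c.ind t * M3 t ≤ ∫ t in Dl, c.rect.indicator (fun _ => (c.v : ℝ) * c.M) t :=
        setIntegral_mono_on hi1 hint Dl_meas hle
    _ = ∫ t in Dl ∩ c.rect, (c.v : ℝ) * c.M := by
        rw [setIntegral_indicator c.rect_meas]
    _ = volume.real (Dl ∩ c.rect) * ((c.v : ℝ) * c.M) := by
        rw [setIntegral_const, smul_eq_mul]
    _ ≤ (((c.x1 : ℝ) - c.x0) * ((c.y1 : ℝ) - c.y0)) * ((c.v : ℝ) * c.M) := by
        refine mul_le_mul_of_nonneg_right ?_ (mul_nonneg hv' hM')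
        have e : volume.real c.rect = ((c.x1 : ℝ) - c.x0) * ((c.y1 : ℝ) - c.y0) := by
          rw [Measure.real, hrf, ENNReal.toReal_mul, ENNReal.toReal_ofReal (by linarith),
            ENNReal.toReal_ofReal (by linarith)]
        rw [← e]
        exact measureReal_mono inter_subset_right hlt.ne
    _ = ((c.v * ((c.x1 - c.x0) * (c.y1 - c.y0)) * c.M : ℚ) : ℝ) := by
        push_cast
        ring

/-- **the integral of a step function** -/
theorem stp_int {L : List Cell} (h : L.all Cell.ok = true) :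
    ∫ t in Dl, stp L t * M3 t ≤ ((wt L : ℚ) : ℝ) := by
  induction L with
  | nil => simp [stp, wt]
  | cons c L ih =>
    rw [List.all_cons, Bool.and_eq_true] at h
    have i1 : IntegrableOn (fun t => c.ind t * M3 t) Dl := by
      refine Helper78.MEI.on_Dl (C := c.v) (ind_meas c).aestronglyMeasurable fun t _ => ?_
      rw [abs_of_nonneg (ind_nonneg h.1 t)]
      exact ind_le h.1 t
    obtain ⟨C, hC⟩ := stp_bd L h.2
    have i2 : IntegrableOn (fun t => stp L t * M3 t) Dl :=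
      Helper78.MEI.on_Dl (stp_meas L).aestronglyMeasurable fun t _ => hC t
    have e : ∀ t, stp (c :: L) t * M3 t = c.ind t * M3 t + stp L t * M3 t := fun t => by
      rw [stp_cons]
      ring
    simp only [e]
    rw [integral_add i1 i2, wt_cons]
    push_cast
    have k := ind_int h.1
    push_cast at k
    linarith [ih h.2]

/-! ### The three corners -/

/-- coordinates at the corner `t.1 = 1` -/
def c0 (t : ℝ × ℝ) : ℝ × ℝ := (1 - t.1 - t.2, t.2)

/-- coordinates at the corner `t.2 = 1` -/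
def c1 (t : ℝ × ℝ) : ℝ × ℝ := (t.1, 1 - t.1 - t.2)

theorem c0_eq : c0 = Pool.Agent.Helper55.Sx.sh := rfl

theorem c0_meas : Measurable c0 := Pool.Agent.Helper55.Sx.sh_meas

theorem c1_meas : Measurable c1 := by
  unfold c1
  fun_prop

theorem c0_mem {t : ℝ × ℝ} : c0 t ∈ Dl ↔ t ∈ Dl := by
  simp only [c0, Dl, mem_ofPred_eq]
  constructor
  · rintro ⟨h1, h2, h3⟩
    exact ⟨by linarith, h2, by linarith⟩
  · rintro ⟨h1, h2, h3⟩
    exact ⟨by linarith, h2, by linarith⟩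

theorem c1_mem {t : ℝ × ℝ} : c1 t ∈ Dl ↔ t ∈ Dl := by
  simp only [c1, Dl, mem_ofPred_eq]
  constructor
  · rintro ⟨h1, h2, h3⟩
    exact ⟨h1, by linarith, by linarith⟩
  · rintro ⟨h1, h2, h3⟩
    exact ⟨h1, by linarith, by linarith⟩

theorem mt_c0 (t : ℝ × ℝ) : Helper33.MEI.mt (c0 t) = Helper33.MEI.mt t := by
  unfold Helper33.MEI.mt c0
  ring

theorem mt_c1 (t : ℝ × ℝ) : Helper33.MEI.mt (c1 t) = Helper33.MEI.mt t := by
  unfold Helper33.MEI.mt c1
  ring

theorem M3_c0 (t : ℝ × ℝ) : M3 (c0 t) = M3 t := by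
  unfold M3
  rw [mt_c0]

theorem M3_c1 (t : ℝ × ℝ) : M3 (c1 t) = M3 t := by
  unfold M3
  rw [mt_c1]

theorem int_c0 (F : ℝ × ℝ → ℝ) : ∫ t in Dl, F (c0 t) = ∫ t in Dl, F t := by
  have hss : ∀ t, c0 (c0 t) = t := Pool.Agent.Helper55.Sx.sh_sh
  have hem : MeasurableEmbedding c0 :=
    (MeasurableEquiv.mk ⟨c0, c0, hss, hss⟩ c0_meas c0_meas).measurableEmbedding
  have h := Pool.Agent.Helper55.Sx.sh_mp.setIntegral_preimage_emb hem F Dl
  have e : (Pool.Agent.Helper55.Sx.sh) ⁻¹' Dl = Dl := by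
    ext t
    exact c0_mem
  rw [e] at h
  exact h

theorem c1_mp : MeasurePreserving c1 volume volume := by
  unfold c1
  rw [Measure.volume_eq_prod]
  exact MeasurePreserving.skew_product (μa := (volume : Measure ℝ))
    (μb := (volume : Measure ℝ)) (μc := (volume : Measure ℝ)) (μd := (volume : Measure ℝ))
    (f := fun x : ℝ => x) (MeasurePreserving.id _) (g := fun x y => 1 - x - y)
    (by simp only [Function.uncurry_def]; fun_prop)
    (Filter.Eventually.of_forall fun x =>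
      (Measure.measurePreserving_sub_left (volume : Measure ℝ) (1 - x)).map_eq)

theorem int_c1 (F : ℝ × ℝ → ℝ) : ∫ t in Dl, F (c1 t) = ∫ t in Dl, F t := by
  have hss : ∀ t, c1 (c1 t) = t := by
    intro t
    ext
    · rfl
    · simp only [c1]
      ring
  have hem : MeasurableEmbedding c1 :=
    (MeasurableEquiv.mk ⟨c1, c1, hss, hss⟩ c1_meas c1_meas).measurableEmbedding
  have h := c1_mp.setIntegral_preimage_emb hem F Dl
  have e : c1 ⁻¹' Dl = Dl := by
    ext t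
    exact c1_mem
  rw [e] at h
  exact h

/-- step functions at the three corners -/
noncomputable def st3 (L0 L1 L2 : List Cell) (t : ℝ × ℝ) : ℝ :=
  stp L0 (c0 t) + stp L1 (c1 t) + stp L2 t

theorem st3_meas (L0 L1 L2 : List Cell) : Measurable (st3 L0 L1 L2) :=
  (((stp_meas L0).comp c0_meas).add ((stp_meas L1).comp c1_meas)).add (stp_meas L2)

theorem st3_nonneg {L0 L1 L2 : List Cell} (h0 : L0.all Cell.ok = true)
    (h1 : L1.all Cell.ok = true) (h2 : L2.all Cell.ok = true) (t : ℝ × ℝ) :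
    0 ≤ st3 L0 L1 L2 t :=
  add_nonneg (add_nonneg (stp_nonneg h0 _) (stp_nonneg h1 _)) (stp_nonneg h2 _)

theorem st3_bd {L0 L1 L2 : List Cell} (h0 : L0.all Cell.ok = true)
    (h1 : L1.all Cell.ok = true) (h2 : L2.all Cell.ok = true) :
    ∃ C : ℝ, ∀ t, |st3 L0 L1 L2 t| ≤ C := by
  obtain ⟨C0, k0⟩ := stp_bd L0 h0
  obtain ⟨C1, k1⟩ := stp_bd L1 h1
  obtain ⟨C2, k2⟩ := stp_bd L2 h2
  refine ⟨C0 + C1 + C2, fun t => ?_⟩
  have a0 := k0 (c0 t)
  have a1 := k1 (c1 t)
  have a2 := k2 t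
  have n := st3_nonneg h0 h1 h2 t
  rw [abs_of_nonneg n]
  unfold st3
  linarith [(abs_le.1 a0).2, (abs_le.1 a1).2, (abs_le.1 a2).2]

/-- **the integral over the three corners** -/
theorem st3_int {L0 L1 L2 : List Cell} (h0 : L0.all Cell.ok = true)
    (h1 : L1.all Cell.ok = true) (h2 : L2.all Cell.ok = true) :
    ∫ t in Dl, st3 L0 L1 L2 t * M3 t ≤ ((wt L0 : ℚ) : ℝ) + ((wt L1 : ℚ) : ℝ) + ((wt L2 : ℚ) : ℝ) := by
  have onI : ∀ {L : List Cell} (_ : L.all Cell.ok = true) {c : ℝ × ℝ → ℝ × ℝ} (_ : Measurable c),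
      IntegrableOn (fun t => stp L (c t) * M3 t) Dl := by
    intro L h c hc
    obtain ⟨C, hC⟩ := stp_bd L h
    exact Helper78.MEI.on_Dl ((stp_meas L).comp hc).aestronglyMeasurable fun t _ => hC _
  have i0 := onI h0 c0_meas
  have i1 := onI h1 c1_meas
  have i2 := onI h2 measurable_id
  have e0 : ∫ t in Dl, stp L0 (c0 t) * M3 t = ∫ t in Dl, stp L0 t * M3 t := by
    have h := int_c0 fun t => stp L0 t * M3 t
    simp only [M3_c0] at h
    exact h
  have e1 : ∫ t in Dl, stp L1 (c1 t) * M3 t = ∫ t in Dl, stp L1 t * M3 t := by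
    have h := int_c1 fun t => stp L1 t * M3 t
    simp only [M3_c1] at h
    exact h
  have e : ∀ t, st3 L0 L1 L2 t * M3 t =
      stp L0 (c0 t) * M3 t + stp L1 (c1 t) * M3 t + stp L2 (id t) * M3 t := fun t => by
    unfold st3
    simp only [id]
    ring
  simp only [e]
  have k1 : ∫ t in Dl, (stp L0 (c0 t) * M3 t + stp L1 (c1 t) * M3 t) + stp L2 (id t) * M3 t =
      (∫ t in Dl, (stp L0 (c0 t) * M3 t + stp L1 (c1 t) * M3 t)) +
        ∫ t in Dl, stp L2 (id t) * M3 t := integral_add (i0.add i1) i2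
  have k2 : ∫ t in Dl, (stp L0 (c0 t) * M3 t + stp L1 (c1 t) * M3 t) =
      (∫ t in Dl, stp L0 (c0 t) * M3 t) + ∫ t in Dl, stp L1 (c1 t) * M3 t := integral_add i0 i1
  rw [k1, k2, e0, e1]
  exact add_le_add (add_le_add (stp_int h0) (stp_int h1)) (stp_int h2)

end Helper60.MEI
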