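import Pool.Agent.Helper60.MEI.R8L
import Pool.Agent.Helper45.MEI.R8I

/-!
# Project MEI (M2), w-term: tables of rule R8, the cost of a face
-/

set_option autoImplicit false

namespace Helper60.R8

open Set MeasureTheory Helper78.MEI Helper80.CW Helper82.CW Helper14.CW Helper93.MEI Helper82.M2
open Helper14.MEI2 Pool.Agent.Helper52.MEI Pool.Agent.Helper73.MEI Pool.Agent.Helper31.SR
open Helper33.MEI (Wi Dl tx M3 mt mt_pos)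
open Helper60.R7 (U U_pos F4 cast_tsub In mtx rc rc_meas mem_rc mt_mtx cb cb_nonneg jj ll ch_fst
  ch_snd T3_sum ch_meas mt_ch M3_ch int_ch cap_ch T3_pos' ex_corner own_ch)

/-! ### Number of loads depending on the box -/

/-- the check, the number of admissible loads depends on the box -/
def Tr.ckf (rows : List Row) (A c0 c1 : ℕ) (nf : ℕ → ℕ → ℕ) (ne h : ℕ) :
    Tr → ℕ → ℕ → ℕ → ℕ → Bool
  | lf c, x0, x1, y0, y1 => lk8 rows A c0 c1 (nf x0 y0) ne x0 x1 y0 y1 c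
  | em, x0, _, y0, _ => Nat.ble U (2 * x0 + y0) || Nat.ble U (x0 + 2 * y0)
  | tp, _, x1, _, y1 => Nat.ble x1 h && Nat.ble y1 h
  | sx a l r, x0, x1, y0, y1 =>
    Tr.ckf rows A c0 c1 nf ne h l x0 a y0 y1 && Tr.ckf rows A c0 c1 nf ne h r a x1 y0 y1
  | sy b l r, x0, x1, y0, y1 =>
    Tr.ckf rows A c0 c1 nf ne h l x0 x1 y0 b && Tr.ckf rows A c0 c1 nf ne h r x0 x1 b y1

theorem Tr.ckf_const {rows : List Row} {A c0 c1 nl ne h : ℕ} : ∀ (T : Tr) (x0 x1 y0 y1 : ℕ),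
    T.ckf rows A c0 c1 (fun _ _ => nl) ne h x0 x1 y0 y1 = T.ck rows A c0 c1 nl ne h x0 x1 y0 y1
  | lf _, _, _, _, _ => rfl
  | em, _, _, _, _ => rfl
  | tp, _, _, _, _ => rfl
  | sx a l r, x0, x1, y0, y1 => by
    rw [Tr.ckf, Tr.ck, Tr.ckf_const l, Tr.ckf_const r]
  | sy b l r, x0, x1, y0, y1 => by
    rw [Tr.ckf, Tr.ck, Tr.ckf_const l, Tr.ckf_const r]

theorem ivk_mono {rows : List Row} {A c0 c1 nl N ne x0 x1 y0 y1 : ℕ} {c : Lf} (hN : nl ≤ N) :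
    ∀ (L : List Iv) (b : ℕ), ivk rows A c0 c1 nl ne x0 x1 y0 y1 c b L = true →
      ivk rows A c0 c1 N ne x0 x1 y0 y1 c b L = true
  | [], _, h => h
  | I :: L, b, h => by
    rw [ivk] at h ⊢
    simp only [Bool.and_eq_true] at h ⊢
    refine ⟨⟨h.1.1, ?_⟩, ivk_mono hN L _ h.2⟩
    have h2 := h.1.2
    unfold ik at h2 ⊢
    simp only [Bool.and_eq_true, Nat.blt_eq] at h2 ⊢
    obtain ⟨⟨⟨⟨⟨⟨⟨⟨⟨⟨⟨i1, i2⟩, i3⟩, i4⟩, i5⟩, i6⟩, i7⟩, i8⟩, x1'⟩, x2'⟩, x3'⟩, x4'⟩ := h2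
    exact ⟨⟨⟨⟨⟨⟨⟨⟨⟨⟨⟨i1, i2⟩, i3⟩, i4⟩, i5⟩, i6⟩, i7.trans_le hN⟩, i8⟩, x1'⟩, x2'⟩, x3'⟩, x4'⟩

theorem lk8_mono {rows : List Row} {A c0 c1 nl N ne x0 x1 y0 y1 : ℕ} {c : Lf} (hN : nl ≤ N)
    (h : lk8 rows A c0 c1 nl ne x0 x1 y0 y1 c = true) :
    lk8 rows A c0 c1 N ne x0 x1 y0 y1 c = true := by
  unfold lk8 at h ⊢
  rw [Bool.and_eq_true] at h ⊢
  exact ⟨h.1, ivk_mono hN _ _ h.2⟩

theorem Tr.ck_mono {rows : List Row} {A c0 c1 nl N ne h : ℕ} (hN : nl ≤ N) :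
    ∀ (T : Tr) (x0 x1 y0 y1 : ℕ), T.ck rows A c0 c1 nl ne h x0 x1 y0 y1 = true →
      T.ck rows A c0 c1 N ne h x0 x1 y0 y1 = true
  | lf _, _, _, _, _, hk => lk8_mono hN hk
  | em, _, _, _, _, hk => hk
  | tp, _, _, _, _, hk => hk
  | sx a l r, x0, x1, y0, y1, hk => by
    rw [Tr.ck, Bool.and_eq_true] at hk ⊢
    exact ⟨Tr.ck_mono hN l _ _ _ _ hk.1, Tr.ck_mono hN r _ _ _ _ hk.2⟩
  | sy b l r, x0, x1, y0, y1, hk => by
    rw [Tr.ck, Bool.and_eq_true] at hk ⊢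
    exact ⟨Tr.ck_mono hN l _ _ _ _ hk.1, Tr.ck_mono hN r _ _ _ _ hk.2⟩

theorem Tr.ck_of_ckf {rows : List Row} {A c0 c1 ne h : ℕ} {nf : ℕ → ℕ → ℕ} :
    ∀ (T : Tr) (x0 x1 y0 y1 : ℕ), T.ckf rows A c0 c1 nf ne h x0 x1 y0 y1 = true →
      ∃ N, T.ck rows A c0 c1 N ne h x0 x1 y0 y1 = true
  | lf _, x0, _, y0, _, hk => ⟨nf x0 y0, hk⟩
  | em, _, _, _, _, hk => ⟨0, hk⟩
  | tp, _, _, _, _, hk => ⟨0, hk⟩
  | sx a l r, x0, x1, y0, y1, hk => by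
    rw [Tr.ckf, Bool.and_eq_true] at hk
    obtain ⟨N1, h1⟩ := Tr.ck_of_ckf l _ _ _ _ hk.1
    obtain ⟨N2, h2⟩ := Tr.ck_of_ckf r _ _ _ _ hk.2
    refine ⟨max N1 N2, ?_⟩
    rw [Tr.ck, Bool.and_eq_true]
    exact ⟨Tr.ck_mono (le_max_left _ _) l _ _ _ _ h1, Tr.ck_mono (le_max_right _ _) r _ _ _ _ h2⟩
  | sy b l r, x0, x1, y0, y1, hk => by
    rw [Tr.ckf, Bool.and_eq_true] at hk
    obtain ⟨N1, h1⟩ := Tr.ck_of_ckf l _ _ _ _ hk.1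
    obtain ⟨N2, h2⟩ := Tr.ck_of_ckf r _ _ _ _ hk.2
    refine ⟨max N1 N2, ?_⟩
    rw [Tr.ck, Bool.and_eq_true]
    exact ⟨Tr.ck_mono (le_max_left _ _) l _ _ _ _ h1, Tr.ck_mono (le_max_right _ _) r _ _ _ _ h2⟩

/-- **search in the tree** -/
theorem Tr.find {rows : List Row} {A c0 c1 ne h : ℕ} {nf : ℕ → ℕ → ℕ} {lam : ℕ → ℝ}
    (h0 : ∀ i, 0 ≤ lam i) {x y : ℝ} (k1 : 2 * x + y ≤ 1) (k2 : x + 2 * y ≤ 1) :
    ∀ (T : Tr) (x0 x1 y0 y1 : ℕ), T.ckf rows A c0 c1 nf ne h x0 x1 y0 y1 = true →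
    (x0 : ℝ) / U < x → x ≤ (x1 : ℝ) / U → (y0 : ℝ) / U < y → y ≤ (y1 : ℝ) / U →
    (∃ (c : Lf) (a0 a1 b0 b1 : ℕ), lk8 rows A c0 c1 (nf a0 b0) ne a0 a1 b0 b1 c = true ∧
      In a0 a1 b0 b1 x y ∧
      Bf rows lam a0 a1 b0 b1 c (x, y) / √(mt (x, y)) ≤ T.val rows lam x0 x1 y0 y1 (x, y)) ∨
    (x ≤ (h : ℝ) / U ∧ y ≤ (h : ℝ) / U)
  | lf c, x0, x1, y0, y1, hk, e1, e2, e3, e4 => by
    rw [Tr.ckf] at hk
    refine Or.inl ⟨c, x0, x1, y0, y1, hk, ⟨e1.le, e2, e3.le, e4⟩, ?_⟩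
    show _ ≤ (rc x0 x1 y0 y1).indicator
      (fun t => Bf rows lam x0 x1 y0 y1 c t / √(mt t)) (x, y)
    rw [indicator_of_mem (mem_rc.2 ⟨e1.le, e2, e3.le, e4⟩)]
  | em, x0, x1, y0, y1, hk, e1, e2, e3, e4 => by
    exfalso
    have hU := U_pos
    simp only [Tr.ckf, Bool.or_eq_true, Nat.ble_eq] at hk
    rw [div_lt_iff₀ hU] at e1 e3
    rcases hk with hk | hk
    · have h2 : (U : ℝ) ≤ ((2 * x0 + y0 : ℕ) : ℝ) := by exact_mod_cast hk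
      push_cast at h2
      have h3 := mul_le_mul_of_nonneg_right k1 hU.le
      linarith
    · have h2 : (U : ℝ) ≤ ((x0 + 2 * y0 : ℕ) : ℝ) := by exact_mod_cast hk
      push_cast at h2
      have h3 := mul_le_mul_of_nonneg_right k2 hU.le
      linarith
  | tp, x0, x1, y0, y1, hk, e1, e2, e3, e4 => by
    have hU := U_pos
    simp only [Tr.ckf, Bool.and_eq_true, Nat.ble_eq] at hk
    refine Or.inr ⟨e2.trans ?_, e4.trans ?_⟩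
    · exact div_le_div_of_nonneg_right (by exact_mod_cast hk.1) hU.le
    · exact div_le_div_of_nonneg_right (by exact_mod_cast hk.2) hU.le
  | sx a l r, x0, x1, y0, y1, hk, e1, e2, e3, e4 => by
    simp only [Tr.ckf, Bool.and_eq_true] at hk
    rcases le_or_gt x ((a : ℝ) / U) with ha | ha
    · rcases Tr.find h0 k1 k2 l x0 a y0 y1 hk.1 e1 ha e3 e4 with
        ⟨c, a0, a1, b0, b1, q1, q2, q3⟩ | q
      · refine Or.inl ⟨c, a0, a1, b0, b1, q1, q2, q3.trans ?_⟩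
        exact le_add_of_nonneg_right (Helper45.R8I.val_nonneg rows h0 r a x1 y0 y1 _)
      · exact Or.inr q
    · rcases Tr.find h0 k1 k2 r a x1 y0 y1 hk.2 ha e2 e3 e4 with
        ⟨c, a0, a1, b0, b1, q1, q2, q3⟩ | q
      · refine Or.inl ⟨c, a0, a1, b0, b1, q1, q2, q3.trans ?_⟩
        exact le_add_of_nonneg_left (Helper45.R8I.val_nonneg rows h0 l x0 a y0 y1 _)
      · exact Or.inr q
  | sy b l r, x0, x1, y0, y1, hk, e1, e2, e3, e4 => by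
    simp only [Tr.ckf, Bool.and_eq_true] at hk
    rcases le_or_gt y ((b : ℝ) / U) with ha | ha
    · rcases Tr.find h0 k1 k2 l x0 x1 y0 b hk.1 e1 e2 e3 ha with
        ⟨c, a0, a1, b0, b1, q1, q2, q3⟩ | q
      · refine Or.inl ⟨c, a0, a1, b0, b1, q1, q2, q3.trans ?_⟩
        exact le_add_of_nonneg_right (Helper45.R8I.val_nonneg rows h0 r x0 x1 b y1 _)
      · exact Or.inr q
    · rcases Tr.find h0 k1 k2 r x0 x1 b y1 hk.2 e1 e2 ha e4 with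
        ⟨c, a0, a1, b0, b1, q1, q2, q3⟩ | q
      · refine Or.inl ⟨c, a0, a1, b0, b1, q1, q2, q3.trans ?_⟩
        exact le_add_of_nonneg_left (Helper45.R8I.val_nonneg rows h0 l x0 x1 y0 b _)
      · exact Or.inr q

/-! ### One corner -/

/-- half of the unit -/
def H : ℕ := 500000

/-- the check of a corner, the number of loads depends on the box -/
def Cor.okf (Q : Cor) (A c0 c1 : ℕ) (nf : ℕ → ℕ → ℕ) : Bool :=
  Q.T.ckf Q.rows A c0 c1 nf Q.ne Q.h 0 500000 0 500000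

theorem Cor.okf_of_ok {Q : Cor} {A c0 c1 : ℕ} (h : Q.ok A c0 c1 = true) :
    Q.okf A c0 c1 (fun _ _ => Q.nl) = true := by
  unfold Cor.okf
  rw [Tr.ckf_const]
  exact h

/-- weight of a point of the parameter box -/
noncomputable def Cor.W (Q : Cor) (lam : ℕ → ℝ) : ℝ :=
  ∑ i ∈ Finset.range Q.rows.length, lam i * (((Q.w i : ℕ) : ℝ) / (4 * U ^ 4))

/-- the function of a corner -/
noncomputable def Cor.f (Q : Cor) (lam : ℕ → ℝ) : ℝ × ℝ → ℝ :=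
  Q.T.val Q.rows lam 0 H 0 H

section
variable {Q : Cor} {A c0 c1 : ℕ} {nf : ℕ → ℕ → ℕ} (hQ : Q.okf A c0 c1 nf = true) {lam : ℕ → ℝ}
  (h0 : ∀ i, 0 ≤ lam i)

include hQ h0

theorem Cor.f_intF : ∫ t in Dl, Q.f lam t * M3 t ≤ Q.W lam := by
  obtain ⟨N, hN⟩ := Tr.ck_of_ckf Q.T _ _ _ _ hQ
  exact Helper45.R8I.val_int h0 Q.T 0 H 0 H hN

omit hQ in
theorem Cor.f_nn (t : ℝ × ℝ) : 0 ≤ Q.f lam t :=
  Helper45.R8I.val_nonneg Q.rows h0 Q.T 0 H 0 H t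

theorem Cor.f_nonnegF (t : ℝ × ℝ) : 0 ≤ Q.f lam t := by
  obtain ⟨N, hN⟩ := Tr.ck_of_ckf Q.T _ _ _ _ hQ
  exact Helper45.R8I.val_nonneg Q.rows h0 Q.T 0 H 0 H t

theorem Cor.f_bdF : ∃ C, ∀ t, Q.f lam t ≤ C := by
  obtain ⟨N, hN⟩ := Tr.ck_of_ckf Q.T _ _ _ _ hQ
  exact Helper45.R8I.val_bd Q.rows h0 Q.T 0 H 0 H

omit hQ h0 in
theorem Cor.f_meas (Q : Cor) (lam : ℕ → ℝ) : Measurable (Q.f lam) :=
  Helper45.R8I.val_meas Q.rows lam Q.T 0 H 0 H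

/-- in the chart of the corner `k`: integrable -/
theorem Cor.f_onF (k : Fin 3) :
    IntegrableOn (fun t => Q.f lam (Helper60.R7.ch k t) * M3 t) Dl := by
  obtain ⟨C, hCb⟩ := Cor.f_bdF hQ h0
  refine Helper78.MEI.on_Dl (C := C)
    ((Cor.f_meas _ _).comp (ch_meas k)).aestronglyMeasurable fun t _ => ?_
  rw [abs_of_nonneg (Cor.f_nonnegF hQ h0 _)]
  exact hCb _

/-- in the chart of the corner `k`: the integral -/
theorem Cor.f_intcF (k : Fin 3) :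
    ∫ t in Dl, Q.f lam (Helper60.R7.ch k t) * M3 t ≤ Q.W lam := by
  have h := int_ch k fun t => Q.f lam t * M3 t
  simp only [M3_ch] at h
  rw [h]
  exact Cor.f_intF hQ h0

end

section
variable {Q : Cor} {A c0 c1 : ℕ} (hQ : Q.ok A c0 c1 = true) {lam : ℕ → ℝ} (h0 : ∀ i, 0 ≤ lam i)
include hQ h0

theorem Cor.f_int : ∫ t in Dl, Q.f lam t * M3 t ≤ Q.W lam := Cor.f_intF (Cor.okf_of_ok hQ) h0

theorem Cor.f_nonneg (t : ℝ × ℝ) : 0 ≤ Q.f lam t := Cor.f_nonnegF (Cor.okf_of_ok hQ) h0 t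

theorem Cor.f_bd : ∃ C, ∀ t, Q.f lam t ≤ C := Cor.f_bdF (Cor.okf_of_ok hQ) h0

theorem Cor.f_on (k : Fin 3) :
    IntegrableOn (fun t => Q.f lam (Helper60.R7.ch k t) * M3 t) Dl :=
  Cor.f_onF (Cor.okf_of_ok hQ) h0 k

theorem Cor.f_intc (k : Fin 3) :
    ∫ t in Dl, Q.f lam (Helper60.R7.ch k t) * M3 t ≤ Q.W lam :=
  Cor.f_intcF (Cor.okf_of_ok hQ) h0 k

end

theorem pos_mem {a0 a1 : ℕ} (h : a0 < a1) {z : ℝ} (h1 : (a0 : ℝ) / U ≤ z)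
    (h2 : z ≤ (a1 : ℝ) / U) : 0 ≤ pos a0 a1 z ∧ pos a0 a1 z ≤ 1 ∧
      z = (1 - pos a0 a1 z) * ((a0 : ℝ) / U) + pos a0 a1 z * ((a1 : ℝ) / U) := by
  have hU := U_pos
  have hd : 0 < (a1 : ℝ) / U - (a0 : ℝ) / U :=
    sub_pos.2 (div_lt_div_of_pos_right (by exact_mod_cast h) hU)
  have e : pos a0 a1 z * ((a1 : ℝ) / U - (a0 : ℝ) / U) = z - (a0 : ℝ) / U := by
    unfold pos
    exact div_mul_cancel₀ _ hd.ne'
  refine ⟨?_, ?_, by linarith⟩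
  · unfold pos
    exact div_nonneg (sub_nonneg.2 h1) hd.le
  · unfold pos
    rw [div_le_one hd]
    exact sub_le_sub_right h2 _

/-- the sum of a load or a majorant in the chart -/
noncomputable def sAf (n : ℕ) (lam : ℕ → ℝ) (p : ℕ → P3) (x y : ℝ) : ℝ :=
  ∑ i ∈ Finset.range n, lam i * afr (p i) x y

/-- the deficit of the load `li` -/
noncomputable def Cor.D (Q : Cor) (lam : ℕ → ℝ) (li : ℕ) (x y : ℝ) : ℝ :=
  sAf Q.rows.length lam (fun i => ((Q.rows.getD i zR).ls.getD li zL).D) x y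
/-- the dropped part of the load `li` -/
noncomputable def Cor.X (Q : Cor) (lam : ℕ → ℝ) (li : ℕ) (x y : ℝ) : ℝ :=
  sAf Q.rows.length lam (fun i => ((Q.rows.getD i zR).ls.getD li zL).X) x y
/-- the majorant `ei` of the value above the empty filling -/
noncomputable def Cor.E (Q : Cor) (lam : ℕ → ℝ) (ei : ℕ) (x y : ℝ) : ℝ :=
  sAf Q.rows.length lam (fun i => (Q.rows.getD i zR).es.getD ei z3) x y

/-- **the loads and the majorants hold for the number `G`** at the position `(x, y)` -/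
def Loads (Q : Cor) (nf : ℕ → ℕ → ℕ) (lam : ℕ → ℝ) (x y w C Y G : ℝ) : Prop :=
  (∀ x0 y0 : ℕ, (x0 : ℝ) / U ≤ x → (y0 : ℝ) / U ≤ y → ∀ li < nf x0 y0,
    G + (1 - Q.D lam li x y) * w - Q.X lam li x y ≤ Y) ∧
  (∀ ei < Q.ne, G ≤ -C + Q.E lam ei x y)

/-- constant number of loads -/
theorem Loads.of {Q : Cor} {lam : ℕ → ℝ} {x y w C Y G : ℝ}
    (h1 : ∀ li < Q.nl, G + (1 - Q.D lam li x y) * w - Q.X lam li x y ≤ Y)
    (h2 : ∀ ei < Q.ne, G ≤ -C + Q.E lam ei x y) :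
    Loads Q (fun _ _ => Q.nl) lam x y w C Y G :=
  ⟨fun _ _ _ _ li hli => h1 li hli, h2⟩

/-- the row bounds of a corner -/
structure RowB (Q : Cor) (lam : ℕ → ℝ) (Sk Sj Sl s : ℝ) : Prop where
  h0 : ∀ i, 0 ≤ lam i
  h1 : ∑ i ∈ Finset.range Q.rows.length, lam i = 1
  k : Sk ≤ ∑ i ∈ Finset.range Q.rows.length, lam i * (((Q.rows.getD i zR).S.k : ℝ) / U)
  j : Sj ≤ ∑ i ∈ Finset.range Q.rows.length, lam i * (((Q.rows.getD i zR).S.j : ℝ) / U)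
  l : Sl ≤ ∑ i ∈ Finset.range Q.rows.length, lam i * (((Q.rows.getD i zR).S.l : ℝ) / U)
  s : s ≤ sS Q.rows lam

/-- **one corner, pointwise** in the chart -/
theorem Cor.ptF {Q : Cor} {A c0 c1 : ℕ} {nf : ℕ → ℕ → ℕ} (hQ : Q.okf A c0 c1 nf = true)
    {lam : ℕ → ℝ} {x y Sk Sj Sl s d0 d1 m ow w C G Y : ℝ} (hR : RowB Q lam Sk Sj Sl s)
    (hx : 0 < x) (hy : 0 < y) (k1 : 2 * x + y ≤ 1) (k2 : x + 2 * y ≤ 1)
    (hnt : ¬ (x ≤ (Q.h : ℝ) / U ∧ y ≤ (Q.h : ℝ) / U))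
    (hd0 : (c0 : ℝ) / U ≤ d0) (hd1 : d1 ≤ (c1 : ℝ) / U) (hd : 0 ≤ d1)
    (hd3 : 3 * d1 * (1 + s) ≤ d0)
    (hm : m ^ 2 = mtx x y) (hm0 : 0 < m) (how0 : 0 ≤ ow) (how : ow ≤ s)
    (how2 : ow ≤ (3 * x ^ 2 + 2 * x * y + 3 * y ^ 2) / (2 - x - y) ^ 2)
    (hw0 : 0 ≤ w) (hw1 : w ≤ 1 + s) (hm1 : m ≤ 1)
    (hCe : C = (1 - x - y) * Sk + x * Sj + y * Sl)
    (hL : Loads Q nf lam x y w C Y G)
    (hS : ∀ μ, 0 ≤ μ → μ ≤ x → μ ≤ y → -C + w + 2 * μ * ((d0 - d1 * w) * √w) ≤ Y)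
    (hO : Y / m - w ≤ ow) :
    (A : ℝ) / U * (G / m) - Q.f lam (x, y) ≤ ff ((A : ℝ) / U) (Y / m - w) w := by
  have hU := U_pos
  have h0 := hR.h0
  have hH : (H : ℝ) / U = 1 / 2 := by
    unfold H U
    norm_num
  rcases Tr.find h0 k1 k2 Q.T 0 H 0 H hQ (by simpa using hx)
      (by rw [hH]; linarith) (by simpa using hy) (by rw [hH]; linarith) with
    ⟨c, a0, a1, b0, b1, q1, q2, q3⟩ | q
  swap
  · exact absurd q hnt
  obtain ⟨g1, g2, g3, g4⟩ := q2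
  have hbk := q1
  unfold lk8 at hbk
  rw [Bool.and_eq_true] at hbk
  obtain ⟨j1, j2, _⟩ := bk_iff hbk.1
  obtain ⟨p0, p1, p2⟩ := pos_mem j1 g1 g2
  obtain ⟨r0, r1, r2⟩ := pos_mem j2 g3 g4
  obtain ⟨p, hp⟩ : ∃ p, p = pos a0 a1 x := ⟨_, rfl⟩
  obtain ⟨r, hr⟩ : ∃ r, r = pos b0 b1 y := ⟨_, rfl⟩
  have hmt : √(mt (x, y)) = m := by
    rw [mt_mtx]
    show √(mtx x y) = m
    rw [← hm]
    exact Real.sqrt_sq hm0.le
  have hom2 : Bf Q.rows lam a0 a1 b0 b1 c (x, y) ≤ m * Q.f lam (x, y) := by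
    have h3 := q3
    rw [hmt, div_le_iff₀ hm0] at h3
    unfold Cor.f
    linarith
  unfold Bf at hom2
  dsimp only at hom2
  rw [← hp] at p0 p1 p2 hom2
  rw [← hr] at r0 r1 r2 hom2
  have hw3 : 3 * d1 * w ≤ d0 := by
    have := mul_le_mul_of_nonneg_left hw1 (show 0 ≤ 3 * d1 by linarith)
    linarith
  obtain ⟨μ, hμ⟩ : ∃ μ, μ = bil p r ((min a0 b0 : ℕ) / U) ((min a0 b1 : ℕ) / U)
    ((min a1 b0 : ℕ) / U) ((min a1 b1 : ℕ) / U) := ⟨_, rfl⟩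
  have p' : 0 ≤ 1 - p := sub_nonneg.2 p1
  have r' : 0 ≤ 1 - r := sub_nonneg.2 r1
  have hμ0 : 0 ≤ μ := by
    rw [hμ]
    unfold bil
    positivity
  have cl : ∀ a b : ℕ, ((min a b : ℕ) : ℝ) / U ≤ (a : ℝ) / U := fun a b =>
    div_le_div_of_nonneg_right (by exact_mod_cast min_le_left a b) hU.le
  have cr : ∀ a b : ℕ, ((min a b : ℕ) : ℝ) / U ≤ (b : ℝ) / U := fun a b =>
    div_le_div_of_nonneg_right (by exact_mod_cast min_le_right a b) hU.le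
  have hμx : μ ≤ x := by
    rw [hμ]
    unfold bil
    have e1 := mul_le_mul_of_nonneg_left (cl a0 b0) (mul_nonneg p' r')
    have e2 := mul_le_mul_of_nonneg_left (cl a0 b1) (mul_nonneg p' r0)
    have e3 := mul_le_mul_of_nonneg_left (cl a1 b0) (mul_nonneg p0 r')
    have e4 := mul_le_mul_of_nonneg_left (cl a1 b1) (mul_nonneg p0 r0)
    refine le_trans (add_le_add (add_le_add (add_le_add e1 e2) e3) e4) (le_of_eq ?_)
    rw [p2]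
    ring
  have hμy : μ ≤ y := by
    rw [hμ]
    unfold bil
    have e1 := mul_le_mul_of_nonneg_left (cr a0 b0) (mul_nonneg p' r')
    have e2 := mul_le_mul_of_nonneg_left (cr a0 b1) (mul_nonneg p' r0)
    have e3 := mul_le_mul_of_nonneg_left (cr a1 b0) (mul_nonneg p0 r')
    have e4 := mul_le_mul_of_nonneg_left (cr a1 b1) (mul_nonneg p0 r0)
    refine le_trans (add_le_add (add_le_add (add_le_add e1 e2) e3) e4) (le_of_eq ?_)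
    rw [r2]
    ring
  refine lf_pt q1 h0 hR.h1 p0 p1 r0 r1 p2 r2 hx.le hy.le (by linarith) hR.k hR.j hR.l hR.s hd0
    hd1 hd hm hm0 how0 how how2 hw0 hw1 hm1 hw3 hCe (fun li hli => hL.1 a0 b0 g1 g3 li hli) hL.2
    ?_ hO hom2
  rw [← hμ]
  have := hS μ hμ0 hμx hμy
  unfold ph
  linarith

/-- **one corner, pointwise** in the chart, constant number of loads -/
theorem Cor.pt {Q : Cor} {A c0 c1 : ℕ} (hQ : Q.ok A c0 c1 = true) {lam : ℕ → ℝ}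
    (h0 : ∀ i, 0 ≤ lam i) (h1 : ∑ i ∈ Finset.range Q.rows.length, lam i = 1)
    {x y Sk Sj Sl s d0 d1 m ow w C G Y : ℝ} (hx : 0 < x) (hy : 0 < y)
    (k1 : 2 * x + y ≤ 1) (k2 : x + 2 * y ≤ 1)
    (hnt : ¬ (x ≤ (Q.h : ℝ) / U ∧ y ≤ (Q.h : ℝ) / U))
    (hSk : Sk ≤ ∑ i ∈ Finset.range Q.rows.length, lam i * (((Q.rows.getD i zR).S.k : ℝ) / U))
    (hSj : Sj ≤ ∑ i ∈ Finset.range Q.rows.length, lam i * (((Q.rows.getD i zR).S.j : ℝ) / U))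
    (hSl : Sl ≤ ∑ i ∈ Finset.range Q.rows.length, lam i * (((Q.rows.getD i zR).S.l : ℝ) / U))
    (hs : s ≤ sS Q.rows lam)
    (hd0 : (c0 : ℝ) / U ≤ d0) (hd1 : d1 ≤ (c1 : ℝ) / U) (hd : 0 ≤ d1)
    (hd3 : 3 * d1 * (1 + s) ≤ d0)
    (hm : m ^ 2 = mtx x y) (hm0 : 0 < m) (how0 : 0 ≤ ow) (how : ow ≤ s)
    (how2 : ow ≤ (3 * x ^ 2 + 2 * x * y + 3 * y ^ 2) / (2 - x - y) ^ 2)
    (hw0 : 0 ≤ w) (hw1 : w ≤ 1 + s) (hm1 : m ≤ 1)
    (hCe : C = (1 - x - y) * Sk + x * Sj + y * Sl)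
    (hL : ∀ li < Q.nl, G + (1 - ∑ i ∈ Finset.range Q.rows.length,
      lam i * afr ((Q.rows.getD i zR).ls.getD li zL).D x y) * w -
        ∑ i ∈ Finset.range Q.rows.length, lam i * afr ((Q.rows.getD i zR).ls.getD li zL).X x y ≤ Y)
    (hE : ∀ ei < Q.ne, G ≤ -C + ∑ i ∈ Finset.range Q.rows.length,
      lam i * afr ((Q.rows.getD i zR).es.getD ei z3) x y)
    (hS : ∀ μ, 0 ≤ μ → μ ≤ x → μ ≤ y → -C + w + 2 * μ * ((d0 - d1 * w) * √w) ≤ Y)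
    (hO : Y / m - w ≤ ow) {om : ℝ} (hom : Q.f lam (x, y) ≤ om) :
    (A : ℝ) / U * (G / m) - om ≤ ff ((A : ℝ) / U) (Y / m - w) w := by
  have := Cor.ptF (Cor.okf_of_ok hQ) (G := G) ⟨h0, h1, hSk, hSj, hSl, hs⟩ hx hy k1 k2 hnt hd0 hd1
    hd hd3 hm hm0 how0 how how2 hw0 hw1 hm1 hCe (Loads.of hL hE) hS hO
  linarith

/-! ### A face -/

theorem afr_nonneg (p : P3) {x y : ℝ} (hx : 0 ≤ x) (hy : 0 ≤ y) (hxy : x + y ≤ 1) :
    0 ≤ afr p x y := by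
  have hU := U_pos
  unfold afr
  have h1 : 0 ≤ 1 - x - y := by linarith
  positivity

theorem sAf_nonneg {n : ℕ} {lam : ℕ → ℝ} (h0 : ∀ i, 0 ≤ lam i) (p : ℕ → P3) {x y : ℝ}
    (hx : 0 ≤ x) (hy : 0 ≤ y) (hxy : x + y ≤ 1) : 0 ≤ sAf n lam p x y :=
  Finset.sum_nonneg fun i _ => mul_nonneg (h0 i) (afr_nonneg _ hx hy hxy)

/-- a load: whole (`g0 = 0`) or with a dropped part `g0` -/
theorem load_part {D1 X1 G g0 D w Y : ℝ} (hw : 0 ≤ w) (h : G - g0 + (1 - D) * w ≤ Y)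
    (hD : D ≤ D1) (hX : g0 ≤ X1) : G + (1 - D1) * w - X1 ≤ Y := by
  have h1 := mul_le_mul_of_nonneg_right (sub_le_sub_left hD 1) hw
  linarith

section
variable {a : Fin 4 → E3} {σ : Measure (E3 × E3)} {K : Set E3} {S : Fin 4 → ℝ}
    {c : Fin 4 → E3} (h : CN K σ a c) (v : Viol K a S)
    (τ : Equiv.Perm (Fin 4)) {A c0 c1 : ℕ} {Sm d0 d1 : ℝ} (hC : IsC Sm d0 d1)
    (hSm : ∀ k, S k ≤ Sm) (hd : 0 ≤ d1) (hd3 : 3 * d1 * (1 + S (τ 0)) ≤ d0)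
    (hd0 : (c0 : ℝ) / U ≤ d0) (hd1 : d1 ≤ (c1 : ℝ) / U)

include h v hC hSm hd hd3 hd0 hd1 in
/-- **THE TABLE AT A POINT OF THE BODY**, any number `G` with the loads -/
theorem cor_pt {Q : Cor} {nf : ℕ → ℕ → ℕ} (hQ : Q.okf A c0 c1 nf = true) {lam : ℕ → ℝ}
    (k : Fin 3) (hR : RowB Q lam (S (τ k.succ)) (S (τ (jj k).succ)) (S (τ (ll k).succ)) (S (τ 0)))
    {t : ℝ × ℝ} (ht : t ∈ Dl) (hk1 : T3 t (jj k) ≤ T3 t k) (hk2 : T3 t (ll k) ≤ T3 t k)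
    (htp : ¬ (T3 t (jj k) ≤ (Q.h : ℝ) / U ∧ T3 t (ll k) ≤ (Q.h : ℝ) / U))
    {q : E3} (hq : q ∈ K)
    (hX : Yt (fun i => a (τ i)) t q / √(mt t) - ‖a (τ 0) - q‖ ^ 2 ≤ own (S (τ 0)) t)
    {G : ℝ} (hL : Loads Q nf lam (T3 t (jj k)) (T3 t (ll k)) (‖a (τ 0) - q‖ ^ 2)
      (T3 t 0 * S (τ 1) + T3 t 1 * S (τ 2) + T3 t 2 * S (τ 3)) (Yt (fun i => a (τ i)) t q) G) :
    (A : ℝ) / U * (G / √(mt t)) - Q.f lam (Helper60.R7.ch k t) ≤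
      ff ((A : ℝ) / U) (Yt (fun i => a (τ i)) t q / √(mt t) - ‖a (τ 0) - q‖ ^ 2)
        (‖a (τ 0) - q‖ ^ 2) := by
  have hU := U_pos
  have h' := h.perm τ
  have v' := viol_perm v τ
  have hgr := gram_of_dist h'.ha
  have hm : 0 < √(mt t) := Real.sqrt_pos.2 mt_pos
  have hm1 : √(mt t) ≤ 1 := sqrt_mt_le ht
  have hp := fun k => T3_pos' ht k
  have hsum := T3_sum k t
  have hcap := cap_ch k t fun p => S (τ p.succ)
  have hmm : √(mt t) ^ 2 = mtx (T3 t (jj k)) (T3 t (ll k)) := by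
    have h := mt_ch k t
    rw [mt_mtx (Helper60.R7.ch k t), ch_fst, ch_snd] at h
    rw [Real.sq_sqrt (mt_pos (t := t)).le]
    exact h.symm
  have hpq := h'.hp q hq
  have h19 : ‖a (τ 0) - q‖ ^ 2 ≤ 19 / 16 := by
    have h1 := h.ap hq (τ 0)
    unfold Qv at h1
    rw [norm_sub_rev]
    linarith
  have hw1 : ‖a (τ 0) - q‖ ^ 2 ≤ 1 + S (τ 0) := by
    have h1 := v.le (τ 0) q hq
    unfold Qv at h1
    rw [norm_sub_rev]
    linarith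
  have ech : Helper60.R7.ch k t = (T3 t (jj k), T3 t (ll k)) := by
    rw [← ch_fst, ← ch_snd]
  rw [ech]
  refine Cor.ptF hQ hR (hp (jj k)) (hp (ll k)) (by linarith) (by linarith) htp
    hd0 hd1 hd hd3 hmm hm (own_nonneg (v.nn _) ht)
    (own_le_s (S (τ 0)) t) (own_ch ht k) (sq_nonneg _) hw1 hm1 hcap hL ?_ hX
  intro μ hμ hμx hμy
  have hM : ∀ p, μ ≤ T3 t p := by
    intro p
    have hμk : μ ≤ T3 t k := hμx.trans hk1
    fin_cases k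
    · fin_cases p
      · exact hμk
      · exact hμy
      · exact hμx
    · fin_cases p
      · exact hμx
      · exact hμk
      · exact hμy
    · fin_cases p
      · exact hμx
      · exact hμy
      · exact hμk
  have hS := Yt_cw (a := fun i => a (τ i)) (t := t) hgr hC hpq h19
    (V := fun k => S (τ k.succ)) (fun k => v.nn _) (fun k => hSm _) hμ hM
    (v'.le 1 q hq) (v'.le 2 q hq) (v'.le 3 q hq)
  have hT : T3 t 0 + T3 t 1 + T3 t 2 = 1 := by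
    show t.1 + t.2 + (1 - t.1 - t.2) = 1
    ring
  have r1 := mul_le_mul_of_nonneg_left (le_pp (‖a (τ 0) - q‖ ^ 2 - S (τ 1))) (hμ.trans (hM 0))
  have r2 := mul_le_mul_of_nonneg_left (le_pp (‖a (τ 0) - q‖ ^ 2 - S (τ 2))) (hμ.trans (hM 1))
  have r3 := mul_le_mul_of_nonneg_left (le_pp (‖a (τ 0) - q‖ ^ 2 - S (τ 3))) (hμ.trans (hM 2))
  have e2 : (T3 t 0 + T3 t 1 + T3 t 2) * ‖a (τ 0) - q‖ ^ 2 = ‖a (τ 0) - q‖ ^ 2 := by
    rw [hT, one_mul]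
  refine le_trans ?_ hS
  show -(T3 t 0 * S (τ 1) + T3 t 1 * S (τ 2) + T3 t 2 * S (τ 3)) + _ + _ ≤
    (T3 t 0 * pp (‖a (τ 0) - q‖ ^ 2 - S (τ 1)) +
    T3 t 1 * pp (‖a (τ 0) - q‖ ^ 2 - S (τ 2)) + T3 t 2 * pp (‖a (τ 0) - q‖ ^ 2 - S (τ 3))) +
    2 * μ * ((d0 - d1 * ‖a (τ 0) - q‖ ^ 2) * √(‖a (τ 0) - q‖ ^ 2))
  nlinarith

/-- the tip is empty for `h = 0` -/
theorem no_tip {t : ℝ × ℝ} (ht : t ∈ Dl) (k : Fin 3) {h : ℕ} (hh : h = 0) :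
    ¬ (T3 t (jj k) ≤ (h : ℝ) / U ∧ T3 t (ll k) ≤ (h : ℝ) / U) := by
  rintro ⟨h1, _⟩
  have := T3_pos' ht (jj k)
  rw [hh, Nat.cast_zero, zero_div] at h1
  linarith

include h v in
/-- **the cost of a face from three functions, one for each corner, and the tip** -/
theorem wcost_abs {A' : ℝ} {G D : ℝ × ℝ → ℝ} {f : Fin 3 → ℝ × ℝ → ℝ}
    (hfm : ∀ k, Measurable (f k)) (hf0 : ∀ k t, 0 ≤ f k t) (hfb : ∀ k, ∃ C, ∀ t, f k t ≤ C)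
    {W : Fin 3 → ℝ} (hfi : ∀ k, ∫ t in Dl, f k (Helper60.R7.ch k t) * M3 t ≤ W k)
    {omT : ℝ × ℝ → ℝ} {CT cT : ℝ} (hTm : AEStronglyMeasurable omT (volume.restrict Dl))
    (hT0 : ∀ t ∈ Dl, 0 ≤ omT t) (hTb : ∀ t ∈ Dl, omT t ≤ CT)
    (hcT : (√2)⁻¹ * ∫ t in Dl, omT t * M3 t ≤ cT)
    (hpt : ∀ k, ∀ t ∈ Dl, T3 t (jj k) ≤ T3 t k → T3 t (ll k) ≤ T3 t k → ∀ q ∈ K,
      Yt (fun i => a (τ i)) t q / √(mt t) - ‖a (τ 0) - q‖ ^ 2 ≤ own (S (τ 0)) t →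
      G t + (1 - D t) * ‖a (τ 0) - q‖ ^ 2 ≤ Yt (fun i => a (τ i)) t q →
      A' * (G t / √(mt t)) - (f k (Helper60.R7.ch k t) + omT t) ≤
        ff A' (Yt (fun i => a (τ i)) t q / √(mt t) - ‖a (τ 0) - q‖ ^ 2)
          (‖a (τ 0) - q‖ ^ 2)) :
    WCost a K τ A' G D ((√2)⁻¹ * (W 0 + W 1 + W 2) + cT) := by
  obtain ⟨ω, hω⟩ : ∃ ω : ℝ × ℝ → ℝ, ω = fun t => f 0 (Helper60.R7.ch 0 t) +
    f 1 (Helper60.R7.ch 1 t) + f 2 (Helper60.R7.ch 2 t) + omT t := ⟨_, rfl⟩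
  have hωm : AEStronglyMeasurable ω (volume.restrict Dl) := by
    rw [hω]
    exact (((((hfm 0).comp (ch_meas 0)).add ((hfm 1).comp (ch_meas 1))).add
      ((hfm 2).comp (ch_meas 2))).aestronglyMeasurable).add hTm
  have hge : ∀ k t, f k (Helper60.R7.ch k t) + omT t ≤ ω t := by
    intro k t
    rw [hω]
    have e0 := hf0 0 (Helper60.R7.ch 0 t)
    have e1 := hf0 1 (Helper60.R7.ch 1 t)
    have e2 := hf0 2 (Helper60.R7.ch 2 t)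
    fin_cases k
    · show f 0 (Helper60.R7.ch 0 t) + omT t ≤ f 0 (Helper60.R7.ch 0 t) +
        f 1 (Helper60.R7.ch 1 t) + f 2 (Helper60.R7.ch 2 t) + omT t
      linarith
    · show f 1 (Helper60.R7.ch 1 t) + omT t ≤ f 0 (Helper60.R7.ch 0 t) +
        f 1 (Helper60.R7.ch 1 t) + f 2 (Helper60.R7.ch 2 t) + omT t
      linarith
    · show f 2 (Helper60.R7.ch 2 t) + omT t ≤ f 0 (Helper60.R7.ch 0 t) +
        f 1 (Helper60.R7.ch 1 t) + f 2 (Helper60.R7.ch 2 t) + omT t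
      linarith
  obtain ⟨C0, hC0⟩ := hfb 0
  obtain ⟨C1, hC1⟩ := hfb 1
  obtain ⟨C2, hC2⟩ := hfb 2
  have hωb : ∀ t ∈ Dl, |ω t| ≤ C0 + C1 + C2 + CT := by
    intro t ht
    have e0 := hf0 0 (Helper60.R7.ch 0 t)
    have e1 := hf0 1 (Helper60.R7.ch 1 t)
    have e2 := hf0 2 (Helper60.R7.ch 2 t)
    have e3 := hT0 t ht
    have e : ω t = f 0 (Helper60.R7.ch 0 t) + f 1 (Helper60.R7.ch 1 t) +
      f 2 (Helper60.R7.ch 2 t) + omT t := by rw [hω]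
    rw [e, abs_of_nonneg (by linarith)]
    exact add_le_add (add_le_add (add_le_add (hC0 _) (hC1 _)) (hC2 _)) (hTb t ht)
  have hint : (√2)⁻¹ * ∫ t in Dl, ω t * M3 t ≤ (√2)⁻¹ * (W 0 + W 1 + W 2) + cT := by
    have i : ∀ k, IntegrableOn (fun t => f k (Helper60.R7.ch k t) * M3 t) Dl := fun k => by
      obtain ⟨C, hCb⟩ := hfb k
      refine Helper78.MEI.on_Dl (C := C)
        ((hfm k).comp (ch_meas k)).aestronglyMeasurable fun t _ => ?_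
      rw [abs_of_nonneg (hf0 k _)]
      exact hCb _
    have iT : IntegrableOn (fun t => omT t * M3 t) Dl :=
      Helper78.MEI.on_Dl (C := CT) hTm fun t ht => by
        rw [abs_of_nonneg (hT0 t ht)]
        exact hTb t ht
    have e3 : ∀ t, ω t * M3 t = ((f 0 (Helper60.R7.ch 0 t) * M3 t +
        f 1 (Helper60.R7.ch 1 t) * M3 t) + f 2 (Helper60.R7.ch 2 t) * M3 t) + omT t * M3 t :=
      fun t => by
        rw [hω]
        ring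
    simp only [e3]
    have k0 := integral_add (((i 0).add (i 1)).add (i 2)) iT
    have k1 := integral_add ((i 0).add (i 1)) (i 2)
    have k2 := integral_add (i 0) (i 1)
    simp only [Pi.add_apply] at k0 k1 k2
    rw [k0, k1, k2, mul_add]
    refine add_le_add (mul_le_mul_of_nonneg_left ?_ (by positivity)) hcT
    exact add_le_add (add_le_add (hfi 0) (hfi 1)) (hfi 2)
  refine ⟨ω, own (S (τ 0)), C0 + C1 + C2 + CT, hωm, hωb, fun t ht => own_nonneg (v.nn _) ht,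
    own_ok h v τ, ?_, hint⟩
  intro t ht q hq hX hG
  obtain ⟨k, hk1, hk2⟩ := ex_corner t
  have e := hpt k t ht hk1 hk2 q hq hX hG
  have := hge k t
  linarith

include h v hC hSm hd hd3 hd0 hd1 in
/-- **THE TABLE AS A COST OF THE FACE**, rule R8, one tree per corner -/
theorem wcost_tab8 {G D : ℝ × ℝ → ℝ} {Q : Fin 3 → Cor} {nf : Fin 3 → ℕ → ℕ → ℕ}
    (hQ : ∀ k, (Q k).okf A c0 c1 (nf k) = true) {lam : Fin 3 → ℕ → ℝ}
    (hR : ∀ k, RowB (Q k) (lam k) (S (τ k.succ)) (S (τ (jj k).succ)) (S (τ (ll k).succ))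
      (S (τ 0)))
    (hL : ∀ k, ∀ t ∈ Dl, T3 t (jj k) ≤ T3 t k → T3 t (ll k) ≤ T3 t k →
      ¬ (T3 t (jj k) ≤ ((Q k).h : ℝ) / U ∧ T3 t (ll k) ≤ ((Q k).h : ℝ) / U) → ∀ q ∈ K,
      G t + (1 - D t) * ‖a (τ 0) - q‖ ^ 2 ≤ Yt (fun i => a (τ i)) t q →
      Loads (Q k) (nf k) (lam k) (T3 t (jj k)) (T3 t (ll k)) (‖a (τ 0) - q‖ ^ 2)
        (T3 t 0 * S (τ 1) + T3 t 1 * S (τ 2) + T3 t 2 * S (τ 3)) (Yt (fun i => a (τ i)) t q)
        (G t))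
    {omT : ℝ × ℝ → ℝ} {CT cT : ℝ} (hTm : AEStronglyMeasurable omT (volume.restrict Dl))
    (hT0 : ∀ t ∈ Dl, 0 ≤ omT t) (hTb : ∀ t ∈ Dl, omT t ≤ CT)
    (hcT : (√2)⁻¹ * ∫ t in Dl, omT t * M3 t ≤ cT)
    (hTt : ∀ k, ∀ t ∈ Dl, T3 t (jj k) ≤ ((Q k).h : ℝ) / U → T3 t (ll k) ≤ ((Q k).h : ℝ) / U →
      T3 t (jj k) ≤ T3 t k → T3 t (ll k) ≤ T3 t k → ∀ q ∈ K,
      Yt (fun i => a (τ i)) t q / √(mt t) - ‖a (τ 0) - q‖ ^ 2 ≤ own (S (τ 0)) t →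
      G t + (1 - D t) * ‖a (τ 0) - q‖ ^ 2 ≤ Yt (fun i => a (τ i)) t q →
      (A : ℝ) / U * (G t / √(mt t)) - omT t ≤
        ff ((A : ℝ) / U) (Yt (fun i => a (τ i)) t q / √(mt t) - ‖a (τ 0) - q‖ ^ 2)
          (‖a (τ 0) - q‖ ^ 2)) :
    WCost a K τ ((A : ℝ) / U) G D
      ((√2)⁻¹ * ((Q 0).W (lam 0) + (Q 1).W (lam 1) + (Q 2).W (lam 2)) + cT) := by
  refine wcost_abs (f := fun k => (Q k).f (lam k)) (W := fun k => (Q k).W (lam k)) h v τ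
    (fun k => Cor.f_meas _ _) (fun k t => Cor.f_nonnegF (hQ k) (hR k).h0 t)
    (fun k => Cor.f_bdF (hQ k) (hR k).h0) (fun k => Cor.f_intcF (hQ k) (hR k).h0 k)
    hTm hT0 hTb hcT ?_
  intro k t ht hk1 hk2 q hq hX hG
  by_cases htp : T3 t (jj k) ≤ ((Q k).h : ℝ) / U ∧ T3 t (ll k) ≤ ((Q k).h : ℝ) / U
  · have e := hTt k t ht htp.1 htp.2 hk1 hk2 q hq hX hG
    have := Cor.f_nonnegF (hQ k) (hR k).h0 (Helper60.R7.ch k t)
    linarith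
  · have e := cor_pt h v τ hC hSm hd hd3 hd0 hd1 (hQ k) k (hR k) ht hk1 hk2 htp hq hX
      (hL k t ht hk1 hk2 htp q hq hG)
    have := hT0 t ht
    linarith

include h v hC hSm hd hd3 hd0 hd1 in
/-- **THE TABLE AS A COST OF THE FACE**, rule R8, two trees per corner, weights `1 - bet k`,
`bet k` -/
theorem wcost_two {G D : ℝ × ℝ → ℝ} {Q : Fin 3 → Fin 2 → Cor} {nf : Fin 3 → Fin 2 → ℕ → ℕ → ℕ}
    {ht : ℕ} (hh : ∀ k b, (Q k b).h = ht)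
    (hQ : ∀ k b, (Q k b).okf A c0 c1 (nf k b) = true) {lam : Fin 3 → Fin 2 → ℕ → ℝ}
    (hR : ∀ k b, RowB (Q k b) (lam k b) (S (τ k.succ)) (S (τ (jj k).succ))
      (S (τ (ll k).succ)) (S (τ 0)))
    {bet : Fin 3 → ℝ} (hb0 : ∀ k, 0 ≤ bet k) (hb1 : ∀ k, bet k ≤ 1)
    (hL : ∀ k, ∀ t ∈ Dl, T3 t (jj k) ≤ T3 t k → T3 t (ll k) ≤ T3 t k →
      ¬ (T3 t (jj k) ≤ (ht : ℝ) / U ∧ T3 t (ll k) ≤ (ht : ℝ) / U) → ∀ q ∈ K,
      G t + (1 - D t) * ‖a (τ 0) - q‖ ^ 2 ≤ Yt (fun i => a (τ i)) t q →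
      ∃ g : Fin 2 → ℝ, G t ≤ (1 - bet k) * g 0 + bet k * g 1 ∧
        ∀ b, Loads (Q k b) (nf k b) (lam k b) (T3 t (jj k)) (T3 t (ll k)) (‖a (τ 0) - q‖ ^ 2)
          (T3 t 0 * S (τ 1) + T3 t 1 * S (τ 2) + T3 t 2 * S (τ 3)) (Yt (fun i => a (τ i)) t q)
          (g b))
    {omT : ℝ × ℝ → ℝ} {CT cT : ℝ} (hTm : AEStronglyMeasurable omT (volume.restrict Dl))
    (hT0 : ∀ t ∈ Dl, 0 ≤ omT t) (hTb : ∀ t ∈ Dl, omT t ≤ CT)
    (hcT : (√2)⁻¹ * ∫ t in Dl, omT t * M3 t ≤ cT)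
    (hTt : ∀ k, ∀ t ∈ Dl, T3 t (jj k) ≤ (ht : ℝ) / U → T3 t (ll k) ≤ (ht : ℝ) / U →
      T3 t (jj k) ≤ T3 t k → T3 t (ll k) ≤ T3 t k → ∀ q ∈ K,
      Yt (fun i => a (τ i)) t q / √(mt t) - ‖a (τ 0) - q‖ ^ 2 ≤ own (S (τ 0)) t →
      G t + (1 - D t) * ‖a (τ 0) - q‖ ^ 2 ≤ Yt (fun i => a (τ i)) t q →
      (A : ℝ) / U * (G t / √(mt t)) - omT t ≤
        ff ((A : ℝ) / U) (Yt (fun i => a (τ i)) t q / √(mt t) - ‖a (τ 0) - q‖ ^ 2)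
          (‖a (τ 0) - q‖ ^ 2)) :
    WCost a K τ ((A : ℝ) / U) G D
      ((√2)⁻¹ * (((1 - bet 0) * (Q 0 0).W (lam 0 0) + bet 0 * (Q 0 1).W (lam 0 1)) +
        ((1 - bet 1) * (Q 1 0).W (lam 1 0) + bet 1 * (Q 1 1).W (lam 1 1)) +
        ((1 - bet 2) * (Q 2 0).W (lam 2 0) + bet 2 * (Q 2 1).W (lam 2 1))) + cT) := by
  have n0 : ∀ k b t, 0 ≤ (Q k b).f (lam k b) t := fun k b t =>
    Cor.f_nonnegF (hQ k b) (hR k b).h0 t
  have n1 : ∀ k t, 0 ≤ (1 - bet k) * (Q k 0).f (lam k 0) t + bet k * (Q k 1).f (lam k 1) t :=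
    fun k t => add_nonneg (mul_nonneg (sub_nonneg.2 (hb1 k)) (n0 k 0 t))
      (mul_nonneg (hb0 k) (n0 k 1 t))
  refine wcost_abs
    (f := fun k t => (1 - bet k) * (Q k 0).f (lam k 0) t + bet k * (Q k 1).f (lam k 1) t)
    (W := fun k => (1 - bet k) * (Q k 0).W (lam k 0) + bet k * (Q k 1).W (lam k 1)) h v τ
    (fun k => ((Cor.f_meas _ _).const_mul _).add ((Cor.f_meas _ _).const_mul _)) n1
    (fun k => ?_) (fun k => ?_) hTm hT0 hTb hcT ?_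
  · obtain ⟨C0, hC0⟩ := Cor.f_bdF (hQ k 0) (hR k 0).h0
    obtain ⟨C1, hC1⟩ := Cor.f_bdF (hQ k 1) (hR k 1).h0
    refine ⟨(1 - bet k) * C0 + bet k * C1, fun t => ?_⟩
    exact add_le_add (mul_le_mul_of_nonneg_left (hC0 t) (sub_nonneg.2 (hb1 k)))
      (mul_le_mul_of_nonneg_left (hC1 t) (hb0 k))
  · have i0 := Cor.f_onF (hQ k 0) (hR k 0).h0 k
    have i1 := Cor.f_onF (hQ k 1) (hR k 1).h0 k
    have e : ∀ t, ((1 - bet k) * (Q k 0).f (lam k 0) (Helper60.R7.ch k t) +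
        bet k * (Q k 1).f (lam k 1) (Helper60.R7.ch k t)) * M3 t =
        (1 - bet k) * ((Q k 0).f (lam k 0) (Helper60.R7.ch k t) * M3 t) +
        bet k * ((Q k 1).f (lam k 1) (Helper60.R7.ch k t) * M3 t) := fun t => by ring
    simp only [e]
    have k0 := integral_add (i0.const_mul (1 - bet k)) (i1.const_mul (bet k))
    rw [k0, integral_const_mul, integral_const_mul]
    exact add_le_add (mul_le_mul_of_nonneg_left (Cor.f_intcF (hQ k 0) (hR k 0).h0 k)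
      (sub_nonneg.2 (hb1 k)))
      (mul_le_mul_of_nonneg_left (Cor.f_intcF (hQ k 1) (hR k 1).h0 k) (hb0 k))
  · intro k t htD hk1 hk2 q hq hX hG
    by_cases htp : T3 t (jj k) ≤ (ht : ℝ) / U ∧ T3 t (ll k) ≤ (ht : ℝ) / U
    · have e := hTt k t htD htp.1 htp.2 hk1 hk2 q hq hX hG
      have := n1 k (Helper60.R7.ch k t)
      linarith
    · obtain ⟨g, hg, hLb⟩ := hL k t htD hk1 hk2 htp q hq hG
      have p : ∀ b, (A : ℝ) / U * (g b / √(mt t)) - (Q k b).f (lam k b) (Helper60.R7.ch k t) ≤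
          ff ((A : ℝ) / U) (Yt (fun i => a (τ i)) t q / √(mt t) - ‖a (τ 0) - q‖ ^ 2)
            (‖a (τ 0) - q‖ ^ 2) := fun b =>
        cor_pt h v τ hC hSm hd hd3 hd0 hd1 (hQ k b) k (hR k b) htD hk1 hk2
          (by rw [hh k b]; exact htp) hq hX (hLb b)
      have p0 := mul_le_mul_of_nonneg_left (p 0) (sub_nonneg.2 (hb1 k))
      have p1 := mul_le_mul_of_nonneg_left (p 1) (hb0 k)
      have hm : 0 < √(mt t) := Real.sqrt_pos.2 mt_pos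
      have hA : 0 ≤ (A : ℝ) / U := div_nonneg (Nat.cast_nonneg A) U_pos.le
      have e : (A : ℝ) / U * (G t / √(mt t)) ≤
          (1 - bet k) * ((A : ℝ) / U * (g 0 / √(mt t))) +
            bet k * ((A : ℝ) / U * (g 1 / √(mt t))) := by
        have e1 := mul_le_mul_of_nonneg_left (div_le_div_of_nonneg_right hg hm.le) hA
        refine e1.trans (le_of_eq ?_)
        ring
      have := hT0 t htD
      linarith

/-- the two numbers `G_b` from a decomposition of the deficit -/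
theorem two_of_D {Q : Fin 2 → Cor} {lam : Fin 2 → ℕ → ℝ} {x y w C Y G D be : ℝ}
    {Db : Fin 2 → ℝ} (hne : ∀ b, (Q b).ne = 0) (hw : 0 ≤ w) (hG : G + (1 - D) * w ≤ Y)
    (hD : D ≤ (1 - be) * Db 0 + be * Db 1)
    (hl : ∀ b, ∀ li < (Q b).nl, Db b ≤ (Q b).D (lam b) li x y ∧ 0 ≤ (Q b).X (lam b) li x y) :
    ∃ g : Fin 2 → ℝ, G ≤ (1 - be) * g 0 + be * g 1 ∧
      ∀ b, Loads (Q b) (fun _ _ => (Q b).nl) (lam b) x y w C Y (g b) := by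
  refine ⟨fun b => Y - (1 - Db b) * w, ?_, fun b => Loads.of (fun li hli => ?_) ?_⟩
  · have := mul_le_mul_of_nonneg_right hD hw
    dsimp only
    linarith
  · obtain ⟨h1, h2⟩ := hl b li hli
    have := mul_le_mul_of_nonneg_right h1 hw
    dsimp only
    linarith
  · intro ei hei
    rw [hne b] at hei
    exact absurd hei (Nat.not_lt_zero _)

/-- the two numbers `G_b` from all pairs of loads -/
theorem two_of_pairs {Q : Fin 2 → Cor} {lam : Fin 2 → ℕ → ℝ} {x y w C Y G D be : ℝ}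
    (hne : ∀ b, (Q b).ne = 0) (hnl : ∀ b, 0 < (Q b).nl) (hw : 0 ≤ w)
    (hG : G + (1 - D) * w ≤ Y)
    (hD : ∀ l0 < (Q 0).nl, ∀ l1 < (Q 1).nl,
      D ≤ (1 - be) * (Q 0).D (lam 0) l0 x y + be * (Q 1).D (lam 1) l1 x y)
    (hX : ∀ b, ∀ li < (Q b).nl, 0 ≤ (Q b).X (lam b) li x y) :
    ∃ g : Fin 2 → ℝ, G ≤ (1 - be) * g 0 + be * g 1 ∧
      ∀ b, Loads (Q b) (fun _ _ => (Q b).nl) (lam b) x y w C Y (g b) := by
  have mn : ∀ b, ∃ l < (Q b).nl, ∀ li < (Q b).nl,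
      (Q b).D (lam b) l x y ≤ (Q b).D (lam b) li x y := by
    intro b
    obtain ⟨l, hl, hm⟩ := Finset.exists_min_image (Finset.range (Q b).nl)
      (fun li => (Q b).D (lam b) li x y) ⟨0, Finset.mem_range.2 (hnl b)⟩
    exact ⟨l, Finset.mem_range.1 hl, fun li hli => hm li (Finset.mem_range.2 hli)⟩
  choose m hm1 hm2 using mn
  exact two_of_D (Db := fun b => (Q b).D (lam b) (m b) x y) hne hw hG
    (hD (m 0) (hm1 0) (m 1) (hm1 1)) fun b li hli => ⟨hm2 b li hli, hX b li hli⟩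

end

end Helper60.R8
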