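import Mathlib

/-!
# Packed vectors of naturals

Lanes of 144 bits: sums, products, lane-wise maximum and comparison.
-/

set_option autoImplicit false

namespace Helper60.R10

/-- base of the lanes, `2 ^ 144` -/
def BB : ℕ := 22300745198530623141535718272648361505980416

/-- half of the base, `2 ^ 143` -/
def HH : ℕ := 11150372599265311570767859136324180752990208

theorem BB_eq : BB = 2 ^ 144 := by norm_num [BB]
theorem HH_eq : HH = 2 ^ 143 := by norm_num [HH]
theorem BB_two : BB = 2 * HH := by norm_num [BB, HH]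
theorem BB_pos : 0 < BB := by norm_num [BB]
theorem HH_pos : 0 < HH := by norm_num [HH]

/-- packing -/
def pk (n : ℕ) (g : ℕ → ℕ) : ℕ := ∑ i ∈ Finset.range n, g i * BB ^ i

theorem pk_zero (g : ℕ → ℕ) : pk 0 g = 0 := by simp [pk]

theorem pk_succ (n : ℕ) (g : ℕ → ℕ) : pk (n + 1) g = g 0 + BB * pk n fun i => g (i + 1) := by
  unfold pk
  rw [Finset.sum_range_succ', Finset.mul_sum, pow_zero, mul_one, add_comm]
  congr 1
  refine Finset.sum_congr rfl fun i _ => ?_
  rw [pow_succ]
  ring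

theorem pk_congr {n : ℕ} {g h : ℕ → ℕ} (e : ∀ i < n, g i = h i) : pk n g = pk n h :=
  Finset.sum_congr rfl fun i hi => by rw [e i (Finset.mem_range.1 hi)]

theorem pk_add (n : ℕ) (g h : ℕ → ℕ) : pk n g + pk n h = pk n fun i => g i + h i := by
  unfold pk
  rw [← Finset.sum_add_distrib]
  exact Finset.sum_congr rfl fun i _ => by ring

theorem pk_smul (n c : ℕ) (g : ℕ → ℕ) : c * pk n g = pk n fun i => c * g i := by
  unfold pk
  rw [Finset.mul_sum]
  exact Finset.sum_congr rfl fun i _ => by ring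

theorem pk_sub {n : ℕ} {g h : ℕ → ℕ} (e : ∀ i < n, h i ≤ g i) :
    pk n g - pk n h = pk n fun i => g i - h i := by
  have k : pk n g = pk n h + pk n fun i => g i - h i := by
    rw [pk_add]
    exact pk_congr fun i hi => by
      have := e i hi
      omega
  rw [k, Nat.add_sub_cancel_left]

theorem land_step {k a b x y : ℕ} (ha : a < 2 ^ k) (hb : b < 2 ^ k) :
    (a + 2 ^ k * x) &&& (b + 2 ^ k * y) = (a &&& b) + 2 ^ k * (x &&& y) := by
  have hc : (a &&& b) < 2 ^ k := lt_of_le_of_lt Nat.and_le_left ha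
  refine Nat.eq_of_testBit_eq fun j => ?_
  rw [Nat.testBit_and, add_comm a, add_comm b, add_comm (a &&& b),
    Nat.testBit_two_pow_mul_add _ ha, Nat.testBit_two_pow_mul_add _ hb,
    Nat.testBit_two_pow_mul_add _ hc]
  split
  · rw [Nat.testBit_and]
  · rw [Nat.testBit_and]

theorem pk_land : ∀ (n : ℕ) (g h : ℕ → ℕ), (∀ i < n, g i < BB) → (∀ i < n, h i < BB) →
    pk n g &&& pk n h = pk n fun i => g i &&& h i
  | 0, g, h, _, _ => by simp [pk]
  | n + 1, g, h, hg, hh => by
    rw [pk_succ, pk_succ, pk_succ]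
    have e1 := hg 0 (Nat.succ_pos n)
    have e2 := hh 0 (Nat.succ_pos n)
    rw [BB_eq] at e1 e2 ⊢
    rw [land_step e1 e2, pk_land n _ _ (fun i hi => hg _ (by omega)) fun i hi => hh _ (by omega)]

/-- uniqueness of the lanes -/
theorem pk_inj : ∀ {n : ℕ} {g h : ℕ → ℕ}, (∀ i < n, g i < BB) → (∀ i < n, h i < BB) →
    pk n g = pk n h → ∀ i < n, g i = h i
  | 0, g, h, _, _, _, i, hi => absurd hi (Nat.not_lt_zero i)
  | n + 1, g, h, hg, hh, e, i, hi => by
    rw [pk_succ, pk_succ] at e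
    have e1 := hg 0 (Nat.succ_pos n)
    have e2 := hh 0 (Nat.succ_pos n)
    have q0 : g 0 = h 0 := by
      have := congrArg (· % BB) e
      simpa only [Nat.add_mul_mod_self_left, Nat.mod_eq_of_lt e1, Nat.mod_eq_of_lt e2] using this
    rw [q0] at e
    have q1 : pk n (fun i => g (i + 1)) = pk n fun i => h (i + 1) :=
      Nat.eq_of_mul_eq_mul_left BB_pos (Nat.add_left_cancel e)
    cases i with
    | zero => exact q0
    | succ i =>
      exact pk_inj (fun j hj => hg (j + 1) (by omega)) (fun j hj => hh (j + 1) (by omega))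
        q1 i (by omega)

/-- a number below `2 HH` against the guard bit -/
theorem land_HH {d : ℕ} (hd : d < BB) : d &&& HH = (if HH ≤ d then 1 else 0) * HH := by
  rw [BB_eq] at hd
  rw [HH_eq]
  have e1 : d = d % 2 ^ 143 + 2 ^ 143 * (d / 2 ^ 143) := (Nat.mod_add_div d _).symm
  have h1 : d % 2 ^ 143 < 2 ^ 143 := Nat.mod_lt _ (by norm_num)
  have h2 : d / 2 ^ 143 < 2 := by
    rw [Nat.div_lt_iff_lt_mul (by norm_num)]
    calc d < 2 ^ 144 := hd
      _ = 2 * 2 ^ 143 := by norm_num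
  have k : d &&& 2 ^ 143 = 2 ^ 143 * ((d / 2 ^ 143) &&& 1) := by
    have := land_step (k := 143) (a := d % 2 ^ 143) (b := 0) (x := d / 2 ^ 143) (y := 1) h1
      (by norm_num)
    rw [← e1, Nat.and_zero, zero_add, zero_add, mul_one] at this
    exact this
  rw [k]
  rcases Nat.lt_or_ge d (2 ^ 143) with h | h
  · rw [Nat.div_eq_of_lt h, if_neg (by omega)]
    simp
  · have h3 : d / 2 ^ 143 = 1 := by
      have : 1 ≤ d / 2 ^ 143 := (Nat.one_le_div_iff (by norm_num)).2 h
      omega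
    rw [h3, if_pos h]
    simp

theorem land_low {d : ℕ} (h1 : HH ≤ d) (h2 : d < BB) : d &&& (HH - 1) = d - HH := by
  have e : HH - 1 = 2 ^ 143 - 1 := by rw [HH_eq]
  rw [e, Nat.and_two_pow_sub_one_eq_mod, ← HH_eq]
  rw [BB_two] at h2
  have : d = (d - HH) + HH := by omega
  rw [this, Nat.add_mod_right, Nat.mod_eq_of_lt (by omega)]
  omega

/-! ### Lane-wise maximum -/

def mxg (a t g : ℕ) : ℕ := Nat.add a (Nat.land t (Nat.sub g (Nat.div g HH)))
def mxt (h a t : ℕ) : ℕ := mxg a t (Nat.land t h)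
/-- lane-wise maximum, `h` = `HH` at every lane -/
def mx (h a b : ℕ) : ℕ := mxt h a (Nat.sub (Nat.add b h) a)

theorem mx_pk {n : ℕ} {g h : ℕ → ℕ} (hg : ∀ i < n, g i < HH) (hh : ∀ i < n, h i < HH) :
    mx (pk n fun _ => HH) (pk n g) (pk n h) = pk n fun i => max (g i) (h i) := by
  have hB := BB_two
  have hH := HH_pos
  unfold mx mxt mxg
  simp only [Nat.add_eq, Nat.sub_eq]
  show pk n g + ((pk n h + (pk n fun _ => HH) - pk n g) &&&
    (((pk n h + (pk n fun _ => HH) - pk n g) &&& (pk n fun _ => HH)) -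
      ((pk n h + (pk n fun _ => HH) - pk n g) &&& (pk n fun _ => HH)) / HH)) = _
  rw [pk_add, pk_sub (fun i hi => by have := hg i hi; omega)]
  rw [pk_land n _ _ (fun i hi => by have := hh i hi; omega) fun i _ => by omega]
  have e1 : (pk n fun i => (h i + HH - g i) &&& HH) =
      HH * pk n fun i => if g i ≤ h i then 1 else 0 := by
    rw [pk_smul]
    refine pk_congr fun i hi => ?_
    have q1 := hh i hi
    rw [land_HH (by omega), mul_comm]
    by_cases q : g i ≤ h i
    · rw [if_pos q, if_pos (by omega)]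
    · rw [if_neg q, if_neg (by omega)]
  rw [e1, Nat.mul_div_cancel_left _ hH]
  have e2 : (HH * pk n fun i => if g i ≤ h i then 1 else 0) -
      (pk n fun i => if g i ≤ h i then 1 else 0) =
      pk n fun i => if g i ≤ h i then HH - 1 else 0 := by
    rw [pk_smul, pk_sub (fun i _ => by split <;> omega)]
    refine pk_congr fun i _ => ?_
    split <;> omega
  rw [e2, pk_land n _ _ (fun i hi => by have := hh i hi; omega) (fun i _ => by split <;> omega),
    pk_add]
  refine pk_congr fun i hi => ?_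
  have q1 := hg i hi
  have q2 := hh i hi
  by_cases q : g i ≤ h i
  · rw [if_pos q, land_low (by omega) (by omega), max_eq_right q]
    omega
  · rw [if_neg q, Nat.and_zero, max_eq_left (by omega)]
    omega

/-- lane-wise comparison -/
def lle (h a b : ℕ) : Bool := Nat.beq (Nat.land (Nat.sub (Nat.add b h) a) h) h

theorem lle_pk {n : ℕ} {g h : ℕ → ℕ} (hg : ∀ i < n, g i < HH) (hh : ∀ i < n, h i < HH)
    (e : lle (pk n fun _ => HH) (pk n g) (pk n h) = true) : ∀ i < n, g i ≤ h i := by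
  have hB := BB_two
  have hH := HH_pos
  unfold lle at e
  rw [Nat.beq_eq] at e
  simp only [Nat.add_eq, Nat.sub_eq] at e
  have e' : ((pk n h + (pk n fun _ => HH) - pk n g) &&& (pk n fun _ => HH)) =
      pk n fun _ => HH := e
  rw [pk_add, pk_sub (fun i hi => by have := hg i hi; omega),
    pk_land n _ _ (fun i hi => by have := hh i hi; omega) fun i _ => by omega] at e'
  have k : ∀ i < n, ((h i + HH - g i) &&& HH) = HH := pk_inj
    (fun i hi => lt_of_le_of_lt Nat.and_le_right (by omega)) (fun i _ => by omega) e'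
  intro i hi
  have q := k i hi
  have q1 := hh i hi
  rw [land_HH (by omega)] at q
  by_contra hc
  rw [if_neg (by omega), zero_mul] at q
  omega

/-! ### The high part of the lanes -/

/-- bits 104 .. 142 -/
def MH : ℕ := 11150372599245029161164207465900233501704192

theorem MH_eq : MH = 2 ^ 104 * (2 ^ 39 - 1) := by norm_num [MH]

theorem land_MH {d : ℕ} (hd : d < HH) : d &&& MH = 2 ^ 104 * (d / 2 ^ 104) := by
  rw [HH_eq] at hd
  rw [MH_eq]
  have e1 : d = d % 2 ^ 104 + 2 ^ 104 * (d / 2 ^ 104) := (Nat.mod_add_div d _).symm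
  have h1 : d % 2 ^ 104 < 2 ^ 104 := Nat.mod_lt _ (by norm_num)
  have h2 : d / 2 ^ 104 < 2 ^ 39 := by
    rw [Nat.div_lt_iff_lt_mul (by norm_num)]
    calc d < 2 ^ 143 := hd
      _ = 2 ^ 39 * 2 ^ 104 := by norm_num
  have := land_step (k := 104) (a := d % 2 ^ 104) (b := 0) (x := d / 2 ^ 104)
    (y := 2 ^ 39 - 1) h1 (by norm_num)
  rw [← e1, Nat.and_zero, zero_add, zero_add, Nat.and_two_pow_sub_one_eq_mod,
    Nat.mod_eq_of_lt h2] at this
  exact this

/-- high part of every lane, plus one: `m` = `MH` and `o` = `1` at every lane -/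
def hi (m o d : ℕ) : ℕ := Nat.add (Nat.div (Nat.land d m) 20282409603651670423947251286016) o

theorem hi_pk {n : ℕ} {g : ℕ → ℕ} (hg : ∀ i < n, g i < HH) :
    hi (pk n fun _ => MH) (pk n fun _ => 1) (pk n g) = pk n fun i => g i / 2 ^ 104 + 1 := by
  have hB := BB_two
  have hH := HH_pos
  have hM : MH < BB := by norm_num [MH, BB]
  unfold hi
  simp only [Nat.add_eq]
  have e0 : (20282409603651670423947251286016 : ℕ) = 2 ^ 104 := by norm_num
  rw [e0]
  show (pk n g &&& (pk n fun _ => MH)) / 2 ^ 104 + _ = _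
  rw [pk_land n _ _ (fun i hi => by have := hg i hi; omega) fun i _ => hM]
  have e1 : (pk n fun i => g i &&& MH) = 2 ^ 104 * pk n fun i => g i / 2 ^ 104 := by
    rw [pk_smul]
    exact pk_congr fun i hi => land_MH (hg i hi)
  rw [e1, Nat.mul_div_cancel_left _ (by norm_num), pk_add]

/-! ### Two levels: members and rows -/

/-- members `e`, rows `v` -/
def pk2 (E V : ℕ) (g : ℕ → ℕ → ℕ) : ℕ := ∑ e ∈ Finset.range E, (BB ^ V) ^ e * pk V (g e)

theorem pk2_succ (E V : ℕ) (g : ℕ → ℕ → ℕ) :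
    pk2 (E + 1) V g = pk V (g 0) + BB ^ V * pk2 E V fun e => g (e + 1) := by
  unfold pk2
  rw [Finset.sum_range_succ', Finset.mul_sum, pow_zero, one_mul, add_comm]
  congr 1
  refine Finset.sum_congr rfl fun i _ => ?_
  rw [pow_succ]
  ring

theorem pk2_eq {V : ℕ} (hV : 0 < V) : ∀ (E : ℕ) (g : ℕ → ℕ → ℕ),
    pk2 E V g = pk (E * V) fun i => g (i / V) (i % V)
  | 0, g => by simp [pk2, pk]
  | E + 1, g => by
    have h := pk2_eq hV E g
    unfold pk2 at h ⊢
    rw [Finset.sum_range_succ, h]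
    unfold pk
    have e : (E + 1) * V = E * V + V := by ring
    rw [e, Finset.sum_range_add, Finset.mul_sum]
    congr 1
    refine Finset.sum_congr rfl fun v hv => ?_
    have hv' := Finset.mem_range.1 hv
    have d1 : (E * V + v) / V = E := by
      rw [mul_comm, Nat.mul_add_div hV, Nat.div_eq_of_lt hv', add_zero]
    have d2 : (E * V + v) % V = v := by
      rw [mul_comm, Nat.mul_add_mod, Nat.mod_eq_of_lt hv']
    show _ = g ((E * V + v) / V) ((E * V + v) % V) * BB ^ (E * V + v)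
    rw [d1, d2, pow_add, ← pow_mul]
    ring

theorem lane {E V i : ℕ} (hi : i < E * V) : i / V < E ∧ i % V < V := by
  have hV : 0 < V := by
    rcases Nat.eq_zero_or_pos V with h | h
    · rw [h, mul_zero] at hi
      exact absurd hi (Nat.not_lt_zero i)
    · exact h
  exact ⟨(Nat.div_lt_iff_lt_mul hV).2 hi, Nat.mod_lt _ hV⟩

theorem pk2_congr {E V : ℕ} {g h : ℕ → ℕ → ℕ} (e : ∀ i < E, ∀ v < V, g i v = h i v) :
    pk2 E V g = pk2 E V h :=
  Finset.sum_congr rfl fun i hi => by rw [pk_congr (e i (Finset.mem_range.1 hi))]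

theorem pk2_add (E V : ℕ) (g h : ℕ → ℕ → ℕ) :
    pk2 E V g + pk2 E V h = pk2 E V fun e v => g e v + h e v := by
  unfold pk2
  rw [← Finset.sum_add_distrib]
  refine Finset.sum_congr rfl fun i _ => ?_
  rw [← pk_add]
  ring

theorem pk2_smul (E V c : ℕ) (g : ℕ → ℕ → ℕ) : c * pk2 E V g = pk2 E V fun e v => c * g e v := by
  unfold pk2
  rw [Finset.mul_sum]
  refine Finset.sum_congr rfl fun i _ => ?_
  rw [← pk_smul]
  ring

theorem pk2_sub {E V : ℕ} {g h : ℕ → ℕ → ℕ} (e : ∀ i < E, ∀ v < V, h i v ≤ g i v) :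
    pk2 E V g - pk2 E V h = pk2 E V fun i v => g i v - h i v := by
  have k : pk2 E V g = pk2 E V h + pk2 E V fun i v => g i v - h i v := by
    rw [pk2_add]
    exact pk2_congr fun i hi v hv => by
      have := e i hi v hv
      omega
  rw [k, Nat.add_sub_cancel_left]

/-- member numbers times row numbers -/
theorem pk2_outer (E V : ℕ) (f : ℕ → ℕ) (Y : ℕ) (g : ℕ → ℕ → ℕ)
    (hY : ∀ e < E, Y = pk V (g e)) :
    (∑ e ∈ Finset.range E, f e * (BB ^ V) ^ e) * Y = pk2 E V fun e v => f e * g e v := by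
  unfold pk2
  rw [Finset.sum_mul]
  refine Finset.sum_congr rfl fun e he => ?_
  rw [← pk_smul, ← hY e (Finset.mem_range.1 he)]
  ring

theorem mx_pk2 {E V : ℕ} (hV : 0 < V) {g h : ℕ → ℕ → ℕ} (hg : ∀ e < E, ∀ v < V, g e v < HH)
    (hh : ∀ e < E, ∀ v < V, h e v < HH) :
    mx (pk2 E V fun _ _ => HH) (pk2 E V g) (pk2 E V h) =
      pk2 E V fun e v => max (g e v) (h e v) := by
  rw [pk2_eq hV, pk2_eq hV, pk2_eq hV, pk2_eq hV]
  exact mx_pk (fun i hi => hg _ (lane hi).1 _ (lane hi).2) fun i hi => hh _ (lane hi).1 _ (lane hi).2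

theorem hi_pk2 {E V : ℕ} (hV : 0 < V) {g : ℕ → ℕ → ℕ} (hg : ∀ e < E, ∀ v < V, g e v < HH) :
    hi (pk2 E V fun _ _ => MH) (pk2 E V fun _ _ => 1) (pk2 E V g) =
      pk2 E V fun e v => g e v / 2 ^ 104 + 1 := by
  rw [pk2_eq hV, pk2_eq hV, pk2_eq hV, pk2_eq hV]
  exact hi_pk fun i hi => hg _ (lane hi).1 _ (lane hi).2

theorem pk2_inj {E V : ℕ} (hV : 0 < V) {g h : ℕ → ℕ → ℕ} (hg : ∀ e < E, ∀ v < V, g e v < BB)
    (hh : ∀ e < E, ∀ v < V, h e v < BB) (e : pk2 E V g = pk2 E V h) :
    ∀ i < E, ∀ v < V, g i v = h i v := by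
  rw [pk2_eq hV, pk2_eq hV] at e
  have k := pk_inj (fun i hi => hg _ (lane hi).1 _ (lane hi).2)
    (fun i hi => hh _ (lane hi).1 _ (lane hi).2) e
  intro i hi v hv
  have q := k (i * V + v) (by
    calc i * V + v < i * V + V := by omega
      _ = (i + 1) * V := by ring
      _ ≤ E * V := Nat.mul_le_mul_right V hi)
  have d1 : (i * V + v) / V = i := by
    rw [mul_comm, Nat.mul_add_div hV, Nat.div_eq_of_lt hv, add_zero]
  have d2 : (i * V + v) % V = v := by
    rw [mul_comm, Nat.mul_add_mod, Nat.mod_eq_of_lt hv]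
  rwa [d1, d2] at q

end Helper60.R10
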