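import Pool.Agent.Helper60.MEI.R9T
import Pool.Agent.Helper60.MEI.R10A

/-!
# Project MEI (M2), w-term: packed checker of a family, one inequality
-/

set_option autoImplicit false

namespace Helper60.R10

open Helper60.R8 Helper60.R9
open Helper60.R7 (U F4)

/-- `2 ^ 140` -/
def Z : ℕ := 1393796574908163946345982392040522594123776

/-- `e / (1 - e / 2)`, rounded up -/
def kap (e : ℕ) : ℕ := Nat.succ (Nat.div (Nat.mul (Nat.mul 2 e) U) (Nat.sub (Nat.mul 2 U) e))

theorem kap_le {e : ℕ} (he : e < 2 * U) : 2 * e * U ≤ kap e * (2 * U - e) := by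
  have h : 0 < 2 * U - e := Nat.sub_pos_of_lt he
  have h2 := Nat.lt_mul_div_succ (2 * e * U) h
  show 2 * e * U ≤ (2 * e * U / (2 * U - e) + 1) * (2 * U - e)
  rw [Nat.mul_comm _ (2 * U - e)]
  exact h2.le

def cst (A m e F ps : ℕ) : ℕ :=
  Nat.sub
    (Nat.add Z (Nat.add (Nat.mul 127000000000000000000000000 (Nat.mul (kap e) m))
      (Nat.mul 1000000000000000 (Nat.mul (Nat.mul ps A) (Nat.mul m e)))))
    (Nat.add (Nat.mul 1000000000000000000000 (Nat.mul (Nat.mul ps A) e))
      (Nat.mul 1000 (Nat.mul (Nat.mul (Nat.sub U ps) A) F)))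

/-- the common part of both ends -/
def gs (A m ps la C X E ow : ℕ) : ℕ :=
  Nat.mul 1000000000000000 (Nat.mul ps A) * X +
    (Nat.mul 1000000000000000 (Nat.mul (Nat.sub U ps) A) * E +
      1000000000000000000000 * (la * (C + m * ow)))

/-- the value needed at the end `e`, shifted by `Z` -/
def Ls (A m e F ps la D P G : ℕ) : ℕ :=
  (cst A m e F ps * 1 + (Nat.mul 1000000000 (Nat.mul (Nat.mul ps A) e) * D +
    (Nat.mul 500 (Nat.mul A (kap e)) * P + G))) - Nat.mul 1000000000 F * la

/-- the value at a vertex, units `U⁻¹` -/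
def omv (V : ℕ) : ℕ :=
  20282409603651670423947251286016 * ((V - Z) / 20282409603651670423947251286016 + 1) /
    1000000000000000000000000000000000 + 1

theorem omv_ge (V : ℕ) : V - Z ≤ 1000000000000000000000000000000000 * omv V := by
  have h1 := Nat.lt_mul_div_succ (V - Z) (show 0 < 20282409603651670423947251286016 by norm_num)
  have h2 := Nat.lt_mul_div_succ
    (20282409603651670423947251286016 * ((V - Z) / 20282409603651670423947251286016 + 1))
    (show 0 < 1000000000000000000000000000000000 by norm_num)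
  exact (h1.trans h2).le

theorem omv_le (V : ℕ) : 1000000000000000000000000000000000 * omv V ≤
    20282409603651670423947251286016 * ((V - Z) / 20282409603651670423947251286016 + 1) +
      1000000000000000000000000000000000 := by
  unfold omv
  rw [mul_add, mul_one]
  exact Nat.add_le_add_right (Nat.mul_div_le _ _) _

/-- from the normal form to the inequality of the checker -/
theorem ein_of {A m D X C E P e F la ps ow om k : ℕ}
    (hk : 2 * e * U ≤ k * (2 * U - e))
    (h : 127 * U ^ 4 * (k * m) + 1000 * U ^ 2 * (ps * A * (m * e)) +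
      1000 * U * (ps * A * e) * D + 1000 * U ^ 2 * (ps * A) * X +
      1000 * U ^ 2 * ((U - ps) * A) * E + 500 * (A * k) * P +
      1000 * U ^ 3 * (la * (C + m * ow)) ≤
      1000 * U ^ 3 * (ps * A * e) + 1000 * ((U - ps) * A * F) + 1000 * U * F * la +
      1000 * U ^ 5 * om) : ein A m D X C E P e F la ps ow om = true := by
  unfold ein
  simp only [Nat.mul_eq, Nat.add_eq, Nat.sub_eq, Nat.ble_eq]
  obtain ⟨a, ha⟩ : ∃ a, a = 2 * U - e := ⟨_, rfl⟩
  obtain ⟨b, hb⟩ : ∃ a, a = U - ps := ⟨_, rfl⟩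
  rw [← ha] at hk ⊢
  rw [← hb] at h ⊢
  have h1 := Nat.mul_le_mul_left a h
  have h2 := Nat.mul_le_mul_left (127 * m * U ^ 4) hk
  have h3 := Nat.mul_le_mul_left (500 * A * P) hk
  have e1 : U * (254 * (m * e) * (U * U * (U * U)) + 1000 * (a * (ps * A * ((m * U + D) * e) +
      U * (A * (b * E + ps * X) + U * (la * (C + m * ow)))) + A * (P * e))) =
      127 * m * U ^ 4 * (2 * e * U) + 500 * A * P * (2 * e * U) +
      a * (1000 * U ^ 2 * (ps * A * (m * e)) +
      1000 * U * (ps * A * e) * D + 1000 * U ^ 2 * (ps * A) * X +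
      1000 * U ^ 2 * (b * A) * E + 1000 * U ^ 3 * (la * (C + m * ow))) := by ring
  rw [e1]
  calc _ ≤ 127 * m * U ^ 4 * (k * a) + 500 * A * P * (k * a) +
      a * (1000 * U ^ 2 * (ps * A * (m * e)) +
      1000 * U * (ps * A * e) * D + 1000 * U ^ 2 * (ps * A) * X +
      1000 * U ^ 2 * (b * A) * E + 1000 * U ^ 3 * (la * (C + m * ow))) := by omega
    _ = a * (127 * U ^ 4 * (k * m) + 1000 * U ^ 2 * (ps * A * (m * e)) +
      1000 * U * (ps * A * e) * D + 1000 * U ^ 2 * (ps * A) * X +
      1000 * U ^ 2 * (b * A) * E + 500 * (A * k) * P +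
      1000 * U ^ 3 * (la * (C + m * ow))) := by ring
    _ ≤ _ := h1
    _ = _ := by ring

/-- bounds of the numbers -/
structure Bd (A m e F ps la : ℕ) : Prop where
  hA : A ≤ 4194304
  hm : m ≤ 1000000
  he : e < 2000000
  hk : kap e ≤ 8388608
  hp : ps ≤ 1000000
  hF : F ≤ 4835703278458516698824704
  hl : la < 16777216

section
variable {A m e F ps la : ℕ} (hb : Bd A m e F ps la)
include hb

theorem neg_le : 1000000000000000000000 * (ps * A * e) + 1000 * ((U - ps) * A * F) +
    1000000000 * F * la ≤ Z := by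
  obtain ⟨h1, h2, h3, h4, h5, h6, h7⟩ := hb
  have a1 : ps * A * e ≤ 1000000 * 4194304 * 2000000 :=
    Nat.mul_le_mul (Nat.mul_le_mul h5 h1) h3.le
  have a2 : (U - ps) * A * F ≤ 1000000 * 4194304 * 4835703278458516698824704 :=
    Nat.mul_le_mul (Nat.mul_le_mul (Nat.sub_le _ _) h1) h6
  have a3 : 1000000000 * F * la ≤ 1000000000 * 4835703278458516698824704 * 16777216 :=
    Nat.mul_le_mul (Nat.mul_le_mul_left _ h6) h7.le
  unfold Z
  norm_num at a1 a2 a3 ⊢
  omega

theorem cst_eq : cst A m e F ps + (1000000000000000000000 * (ps * A * e) +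
    1000 * ((U - ps) * A * F)) = Z + (127000000000000000000000000 * (kap e * m) +
      1000000000000000 * (ps * A * (m * e))) := by
  have h := neg_le hb
  unfold cst
  simp only [Nat.mul_eq, Nat.add_eq, Nat.sub_eq]
  omega

theorem lane_le {D P G : ℕ} : Nat.mul 1000000000 F * la ≤ cst A m e F ps * 1 +
    (Nat.mul 1000000000 (Nat.mul (Nat.mul ps A) e) * D +
      (Nat.mul 500 (Nat.mul A (kap e)) * P + G)) := by
  have h := neg_le hb
  have h2 := cst_eq hb
  simp only [Nat.mul_eq]
  omega

/-- the inequality from the value -/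
theorem ein_Ls {D X C E P ow V : ℕ} (he : e < 2 * U)
    (hV : Z ≤ V) (h : Ls A m e F ps la D P (gs A m ps la C X E ow) ≤ V) :
    ein A m D X C E P e F la ps ow (omv V) = true := by
  have h1 := neg_le hb
  have h2 := cst_eq hb
  have h3 := omv_ge V
  refine ein_of (kap_le he) ?_
  unfold Ls gs at h
  simp only [Nat.mul_eq, Nat.sub_eq, mul_one] at h
  have e2 : 1000 * U ^ 2 = 1000000000000000 := by norm_num [U]
  have e3 : 1000 * U ^ 3 = 1000000000000000000000 := by norm_num [U]
  have e4 : 127 * U ^ 4 = 127000000000000000000000000 := by unfold U; norm_num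
  have e5 : 1000 * U ^ 5 = 1000000000000000000000000000000000 := by unfold U; norm_num
  have e6 : 1000 * U = 1000000000 := by norm_num [U]
  rw [e2, e3, e4, e5, e6]
  omega

theorem Ls_lt {D X C E P ow : ℕ} (hC : C ≤ 16777216000000) (hD : D ≤ 16777216000000)
    (hX : X ≤ 16777216000000) (hE : E ≤ 16777216000000)
    (hP : P ≤ 1000000000000 * 16777216000000) (how : ow ≤ 16777216) :
    Ls A m e F ps la D P (gs A m ps la C X E ow) < HH := by
  have h2 := cst_eq hb
  obtain ⟨h1, hm, h3, h4, h5, h6, h7⟩ := hb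
  have a1 : kap e * m ≤ 8388608 * 1000000 := Nat.mul_le_mul h4 hm
  have a2 : ps * A * (m * e) ≤ 1000000 * 4194304 * (1000000 * 2000000) :=
    Nat.mul_le_mul (Nat.mul_le_mul h5 h1) (Nat.mul_le_mul hm h3.le)
  have a3 : 1000000000 * (ps * A * e) * D ≤
      1000000000 * (1000000 * 4194304 * 2000000) * 16777216000000 :=
    Nat.mul_le_mul (Nat.mul_le_mul_left _ (Nat.mul_le_mul (Nat.mul_le_mul h5 h1) h3.le)) hD
  have a4 : 500 * (A * kap e) * P ≤ 500 * (4194304 * 8388608) * (1000000000000 * 16777216000000) :=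
    Nat.mul_le_mul (Nat.mul_le_mul_left _ (Nat.mul_le_mul h1 h4)) hP
  have a5 : 1000000000000000 * (ps * A) * X ≤
      1000000000000000 * (1000000 * 4194304) * 16777216000000 :=
    Nat.mul_le_mul (Nat.mul_le_mul_left _ (Nat.mul_le_mul h5 h1)) hX
  have a6 : 1000000000000000 * ((U - ps) * A) * E ≤
      1000000000000000 * (1000000 * 4194304) * 16777216000000 :=
    Nat.mul_le_mul (Nat.mul_le_mul_left _ (Nat.mul_le_mul (Nat.sub_le _ _) h1)) hE
  have a7 : la * (C + m * ow) ≤ 16777216 * (16777216000000 + 1000000 * 16777216) :=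
    Nat.mul_le_mul h7.le (Nat.add_le_add hC (Nat.mul_le_mul hm how))
  refine lt_of_le_of_lt (Nat.sub_le _ _) ?_
  unfold gs HH
  simp only [Nat.mul_eq, Nat.sub_eq, mul_one]
  unfold Z at h2
  norm_num at a1 a2 a3 a4 a5 a6 a7 h2 ⊢
  omega

end

end Helper60.R10
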