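import Pool.Agent.Helper60.MEI.R10B

/-!
# Project MEI (M2), w-term: packed checker of a family, definitions and agreement
-/

set_option autoImplicit false

namespace Helper60.R10

open Helper60.R8 Helper60.R9
open Helper60.R7 (U F4)

/-- a packed load -/
structure PLd where
  Dk : ℕ
  Dj : ℕ
  Dl : ℕ
  Xk : ℕ
  Xj : ℕ
  Xl : ℕ

def zPL : PLd := ⟨0, 0, 0, 0, 0, 0⟩

/-- a packed majorant -/
structure PE where
  k : ℕ
  j : ℕ
  l : ℕ

def zPE : PE := ⟨0, 0, 0⟩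

/-- packed rows of a family: `E` members, `V` rows -/
structure PR where
  E : ℕ
  V : ℕ
  nl : ℕ
  ne : ℕ
  BV : ℕ
  n1 : ℕ
  hV : ℕ
  oE : ℕ
  nN : ℕ
  hN : ℕ
  mN : ℕ
  zN : ℕ
  Sk : ℕ
  Sj : ℕ
  Sl : ℕ
  s : ℕ
  sM : ℕ
  ls : List PLd
  es : List PE

/-- linear combination -/
def l3 (k j l x y : ℕ) : ℕ :=
  Nat.add (Nat.mul k (Nat.sub (Nat.sub U x) y)) (Nat.add (Nat.mul j x) (Nat.mul l y))

theorem af_l3 (p : P3) (x y : ℕ) : af p x y = l3 p.k p.j p.l x y := rfl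

theorem l3_pk (n : ℕ) (f g h : ℕ → ℕ) (x y : ℕ) :
    l3 (pk n f) (pk n g) (pk n h) x y = pk n fun i => l3 (f i) (g i) (h i) x y := by
  unfold l3
  simp only [Nat.add_eq, Nat.mul_eq, Nat.sub_eq]
  rw [mul_comm (pk n f), mul_comm (pk n g), mul_comm (pk n h), pk_smul, pk_smul, pk_smul,
    pk_add, pk_add]
  exact pk_congr fun i _ => by ring

theorem l3_pk2 (E V : ℕ) (f g h : ℕ → ℕ → ℕ) (x y : ℕ) :
    l3 (pk2 E V f) (pk2 E V g) (pk2 E V h) x y =
      pk2 E V fun e v => l3 (f e v) (g e v) (h e v) x y := by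
  unfold l3
  simp only [Nat.add_eq, Nat.mul_eq, Nat.sub_eq]
  rw [mul_comm (pk2 E V f), mul_comm (pk2 E V g), mul_comm (pk2 E V h), pk2_smul, pk2_smul,
    pk2_smul, pk2_add, pk2_add]
  exact pk2_congr fun i _ v _ => by ring

/-- spreads the multipliers -/
def spr (BV E la : ℕ) : ℕ :=
  Nat.rec (motive := fun _ => ℕ → ℕ) (fun _ => 0)
    (fun _ ih a => Nat.add (Nat.mod a 16777216) (Nat.mul BV (ih (Nat.div a 16777216)))) E la

/-- the multiplier of a member -/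
def dig (e la : ℕ) : ℕ := la / 16777216 ^ e % 16777216

theorem dig_lt (e la : ℕ) : dig e la < 16777216 := Nat.mod_lt _ (by norm_num)

theorem spr_eq (BV : ℕ) : ∀ (E la : ℕ), spr BV E la = ∑ e ∈ Finset.range E, dig e la * BV ^ e
  | 0, la => by simp [spr]
  | E + 1, la => by
    have h := spr_eq BV E (la / 16777216)
    have e1 : spr BV (E + 1) la = la % 16777216 + BV * spr BV E (la / 16777216) := rfl
    rw [e1, h, Finset.sum_range_succ', Finset.mul_sum, pow_zero, mul_one, add_comm]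
    congr 1
    · refine Finset.sum_congr rfl fun e _ => ?_
      have : dig (e + 1) la = dig e (la / 16777216) := by
        unfold dig
        rw [Nat.div_div_eq_div_mul, pow_succ, mul_comm (16777216 ^ e)]
      rw [this, pow_succ]
      ring
    · unfold dig
      rw [pow_zero, Nat.div_one]

/-- the own value of a row -/
def owv (ty o s : ℕ) : ℕ :=
  match ty with
  | 0 => s
  | 1 => o
  | 2 => s
  | _ => o

def owP (P : PR) (ty o : ℕ) : ℕ :=
  match ty with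
  | 0 => P.s
  | 1 => Nat.mul o P.n1
  | 2 => P.s
  | _ => Nat.mul o P.n1

/-- choice by the rule -/
def sl (ty a b : ℕ) : ℕ :=
  match ty with
  | 0 => b
  | 1 => b
  | _ => a

/-- the strip function at a vertex -/
def F4k (c0 c1 m x y u r : ℕ) : ℕ :=
  Nat.add (Nat.mul (Nat.mul (Nat.sub U m) u) (Nat.mul U U))
    (Nat.mul (Nat.mul (Nat.mul 2 (Nat.sub x (Nat.sub x y)))
      (Nat.sub (Nat.mul c0 U) (Nat.mul c1 u))) r)

theorem F4k_eq (c0 c1 m x y u r : ℕ) : F4k c0 c1 m x y u r = F4 c0 c1 m (min x y) u r := by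
  unfold F4k F4
  have : x - (x - y) = min x y := by omega
  simp only [Nat.add_eq, Nat.mul_eq, Nat.sub_eq, this]

/-! ### The packed value at a vertex -/

/-- one end -/
def LP (P : PR) (A m e F ps D PN G LA1 : ℕ) : ℕ :=
  Nat.sub (Nat.add (Nat.mul (cst A m e F ps) P.nN)
    (Nat.add (Nat.mul (Nat.mul 1000000000 (Nat.mul (Nat.mul ps A) e)) D)
      (Nat.add (Nat.mul (Nat.mul 500 (Nat.mul A (kap e))) PN) G)))
    (Nat.mul (Nat.mul 1000000000 F) LA1)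

/-- common part -/
def GP (A m ps LA C X E ow : ℕ) : ℕ :=
  Nat.add (Nat.mul (Nat.mul 1000000000000000 (Nat.mul ps A)) X)
    (Nat.add (Nat.mul (Nat.mul 1000000000000000 (Nat.mul (Nat.sub U ps) A)) E)
      (Nat.mul 1000000000000000000000 (Nat.mul LA (Nat.add C (Nat.mul m ow)))))

/-- positive part of `U² C - F`, packed rows -/
def PV (P : PR) (C F : ℕ) : ℕ :=
  Nat.sub (mx P.hV (Nat.mul (Nat.mul U U) C) (Nat.mul F P.n1)) (Nat.mul F P.n1)

def st4 (P : PR) (A m : ℕ) (I : Iv) (Fu Fv acc LA1 D PN G : ℕ) : ℕ :=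
  mx P.hN (mx P.hN acc (LP P A m I.u Fu I.ps D PN G LA1)) (LP P A m I.v Fv I.ps D PN G LA1)

def st3 (P : PR) (A m o x y : ℕ) (I : Iv) (Fu Fv acc LA C : ℕ) (ld : PLd) (ex : PE) : ℕ :=
  st4 P A m I Fu Fv acc (Nat.mul LA P.n1) (l3 ld.Dk ld.Dj ld.Dl x y) (Nat.mul P.oE (PV P C Fu))
    (GP A m I.ps LA C (l3 ld.Xk ld.Xj ld.Xl x y) (l3 ex.k ex.j ex.l x y) (owP P I.ty o))

/-- one interval -/
def stp (P : PR) (A c0 c1 m o x y : ℕ) (acc : ℕ) (I : Iv) : ℕ :=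
  st3 P A m o x y I (F4k c0 c1 m x y I.u I.ru) (F4k c0 c1 m x y I.v I.rv) acc
    (spr P.BV P.E I.la) (l3 P.Sk P.Sj P.Sl x y) (P.ls.getD I.li zPL) (P.es.getD I.ei zPE)

/-- all intervals -/
def acP (P : PR) (A c0 c1 m o x y : ℕ) : ℕ → List Iv → ℕ
  | acc, [] => acc
  | acc, I :: L => acP P A c0 c1 m o x y (sl I.ty acc (stp P A c0 c1 m o x y acc I)) L

/-- the packed high part at a vertex -/
def hiP (P : PR) (A c0 c1 m o x y : ℕ) (L : List Iv) : ℕ :=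
  hi P.mN P.nN (Nat.sub (acP P A c0 c1 m o x y P.zN L) P.zN)

/-- packed weights -/
def wsP (P : PR) (A c0 c1 : ℕ) : Tr → ℕ → ℕ → ℕ → ℕ → ℕ
  | .lf c, x0, x1, y0, y1 =>
    Nat.mul (Nat.mul (Nat.mul (Nat.sub x1 x0) (Nat.sub y1 y0)) c.M)
      (Nat.add (Nat.add (hiP P A c0 c1 c.m00 c.o x0 y0 c.iv) (hiP P A c0 c1 c.m01 c.o x0 y1 c.iv))
        (Nat.add (hiP P A c0 c1 c.m10 c.o x1 y0 c.iv) (hiP P A c0 c1 c.m11 c.o x1 y1 c.iv)))
  | .em, _, _, _, _ => 0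
  | .tp, _, _, _, _ => 0
  | .sx a l r, x0, x1, y0, y1 => Nat.add (wsP P A c0 c1 l x0 a y0 y1) (wsP P A c0 c1 r a x1 y0 y1)
  | .sy b l r, x0, x1, y0, y1 => Nat.add (wsP P A c0 c1 l x0 x1 y0 b) (wsP P A c0 c1 r x0 x1 b y1)

/-- sum of the areas times `m⁻⁴` -/
def arP : Tr → ℕ → ℕ → ℕ → ℕ → ℕ
  | .lf c, x0, x1, y0, y1 => Nat.mul (Nat.mul (Nat.sub x1 x0) (Nat.sub y1 y0)) c.M
  | .em, _, _, _, _ => 0
  | .tp, _, _, _, _ => 0
  | .sx a l r, x0, x1, y0, y1 => Nat.add (arP l x0 a y0 y1) (arP r a x1 y0 y1)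
  | .sy b l r, x0, x1, y0, y1 => Nat.add (arP l x0 x1 y0 b) (arP r x0 x1 b y1)

/-! ### The checks -/

/-- exclusion of an interval -/
def exP (P : PR) (m o x y ty F : ℕ) : Bool :=
  match ty with
  | 0 => true
  | 1 => true
  | _ => lle P.hV (Nat.add (Nat.mul (Nat.mul U U)
      (Nat.add (l3 P.Sk P.Sj P.Sl x y) (Nat.mul m (owP P ty o)))) P.n1) (Nat.mul F P.n1)

def vxP (P : PR) (c0 c1 m o x y : ℕ) (I : Iv) : Bool :=
  Nat.ble (F4k c0 c1 m x y I.u I.ru) (F4k c0 c1 m x y I.v I.rv) &&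
    (Nat.ble (F4k c0 c1 m x y I.v I.rv) 4835703278458516698824704 &&
      exP P m o x y I.ty (F4k c0 c1 m x y I.u I.ru))

def ikP (P : PR) (c0 c1 nl ne x0 x1 y0 y1 : ℕ) (c : Lf) (I : Iv) : Bool :=
  (Nat.blt I.u I.v && Nat.blt I.v 2000000 && Nat.ble (Nat.mul I.ru I.ru) (Nat.mul I.u U) &&
    Nat.ble (Nat.mul I.rv I.rv) (Nat.mul I.v U) && Nat.ble (Nat.mul c1 I.v) (Nat.mul c0 U) &&
    Nat.ble I.ps U && Nat.blt I.li nl && (Nat.ble U I.ps || Nat.blt I.ei ne)) &&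
  (Nat.ble (kap I.u) 8388608 && Nat.ble (kap I.v) 8388608 &&
    vxP P c0 c1 c.m00 c.o x0 y0 I && vxP P c0 c1 c.m01 c.o x0 y1 I &&
    vxP P c0 c1 c.m10 c.o x1 y0 I && vxP P c0 c1 c.m11 c.o x1 y1 I)

def ivP (P : PR) (c0 c1 nl ne x0 x1 y0 y1 : ℕ) (c : Lf) : ℕ → List Iv → Bool
  | b, [] => Nat.blt (Nat.add U P.sM) b
  | b, I :: L => Nat.ble I.u b && (ikP P c0 c1 nl ne x0 x1 y0 y1 c I &&
      ivP P c0 c1 nl ne x0 x1 y0 y1 c I.v L)

def lkP (P : PR) (c0 c1 nl ne x0 x1 y0 y1 : ℕ) (c : Lf) : Bool :=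
  bk x0 x1 y0 y1 c && (Nat.ble c.o 16777216 && ivP P c0 c1 nl ne x0 x1 y0 y1 c 0 c.iv)

/-- the check of a tree -/
def ckP (P : PR) (c0 c1 : ℕ) (nf : ℕ → ℕ → ℕ) (h : ℕ) : Tr → ℕ → ℕ → ℕ → ℕ → Bool
  | .lf c, x0, x1, y0, y1 => lkP P c0 c1 (nf x0 y0) P.ne x0 x1 y0 y1 c
  | .em, x0, _, y0, _ => Nat.ble U (2 * x0 + y0) || Nat.ble U (x0 + 2 * y0)
  | .tp, _, x1, _, y1 => Nat.ble x1 h && Nat.ble y1 h
  | .sx a l r, x0, x1, y0, y1 =>
    ckP P c0 c1 nf h l x0 a y0 y1 && ckP P c0 c1 nf h r a x1 y0 y1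
  | .sy b l r, x0, x1, y0, y1 =>
    ckP P c0 c1 nf h l x0 x1 y0 b && ckP P c0 c1 nf h r x0 x1 b y1

/-! ### Agreement of the packed rows with the rows -/

def r3 (p : P3) : Bool := Nat.blt p.k 16777216 && (Nat.blt p.j 16777216 && Nat.blt p.l 16777216)

def pkl (f : Row → ℕ) : List Row → ℕ
  | [] => 0
  | r :: L => Nat.add (f r) (Nat.mul BB (pkl f L))

def pkm (BV : ℕ) (f : Row → ℕ) : List (List Row) → ℕ
  | [] => 0
  | R :: Rs => Nat.add (pkl f R) (Nat.mul BV (pkm BV f Rs))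

def geo (B n : ℕ) : ℕ := Nat.rec (motive := fun _ => ℕ) 0 (fun _ ih => Nat.add 1 (Nat.mul B ih)) n

theorem geo_eq (B : ℕ) : ∀ n, geo B n = ∑ i ∈ Finset.range n, B ^ i
  | 0 => by simp [geo]
  | n + 1 => by
    have e1 : geo B (n + 1) = 1 + B * geo B n := rfl
    rw [e1, geo_eq B n, Finset.sum_range_succ', Finset.mul_sum, pow_zero, add_comm]
    congr 1
    exact Finset.sum_congr rfl fun i _ => by rw [pow_succ]; ring

/-- the constants -/
def agc (P : PR) : Bool :=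
  Nat.blt 0 P.V && Nat.beq P.BV (Nat.pow BB P.V) && Nat.beq P.n1 (geo BB P.V) &&
    Nat.beq P.hV (Nat.mul HH P.n1) && Nat.beq P.oE (geo P.BV P.E) &&
    Nat.beq P.nN (Nat.mul P.oE P.n1) && Nat.beq P.hN (Nat.mul HH P.nN) &&
    Nat.beq P.mN (Nat.mul MH P.nN) && Nat.beq P.zN (Nat.mul Z P.nN)

/-- bounds of a row -/
def agr (P : PR) (r : Row) : Bool :=
  r3 r.S && Nat.ble r.s 16777216 && Nat.ble r.s P.sM && Nat.ble r.ls.length P.nl &&
    Nat.ble r.es.length P.ne && (r.ls.all fun d => r3 d.D && r3 d.X) && r.es.all r3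

/-- one member -/
def agm (P : PR) (R : List Row) : Bool :=
  Nat.beq R.length P.V && R.all (agr P) && Nat.beq (pkl (fun r => r.S.k) R) P.Sk &&
    Nat.beq (pkl (fun r => r.S.j) R) P.Sj && Nat.beq (pkl (fun r => r.S.l) R) P.Sl &&
    Nat.beq (pkl (fun r => r.s) R) P.s

/-- one load -/
def agl (P : PR) (Rs : List (List Row)) (i : ℕ) (d : PLd) : Bool :=
  Nat.beq (pkm P.BV (fun r => (r.ls.getD i zL).D.k) Rs) d.Dk &&
    Nat.beq (pkm P.BV (fun r => (r.ls.getD i zL).D.j) Rs) d.Dj &&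
    Nat.beq (pkm P.BV (fun r => (r.ls.getD i zL).D.l) Rs) d.Dl &&
    Nat.beq (pkm P.BV (fun r => (r.ls.getD i zL).X.k) Rs) d.Xk &&
    Nat.beq (pkm P.BV (fun r => (r.ls.getD i zL).X.j) Rs) d.Xj &&
    Nat.beq (pkm P.BV (fun r => (r.ls.getD i zL).X.l) Rs) d.Xl

/-- one majorant -/
def age (P : PR) (Rs : List (List Row)) (i : ℕ) (d : PE) : Bool :=
  Nat.beq (pkm P.BV (fun r => (r.es.getD i z3).k) Rs) d.k &&
    Nat.beq (pkm P.BV (fun r => (r.es.getD i z3).j) Rs) d.j &&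
    Nat.beq (pkm P.BV (fun r => (r.es.getD i z3).l) Rs) d.l

def allI {α : Type} (f : ℕ → α → Bool) : ℕ → List α → Bool
  | _, [] => true
  | n, a :: L => f n a && allI f (Nat.succ n) L

/-- **agreement** -/
def agk (P : PR) (Rs : List (List Row)) : Bool :=
  agc P && Nat.beq Rs.length P.E && Nat.beq P.ls.length P.nl && Nat.beq P.es.length P.ne &&
    Rs.all (agm P) && allI (agl P Rs) 0 P.ls && allI (age P Rs) 0 P.es

theorem allI_get {α : Type} {f : ℕ → α → Bool} {z : α} : ∀ {L : List α} {n : ℕ},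
    allI f n L = true → ∀ i < L.length, f (n + i) (L.getD i z) = true
  | [], _, _, i, hi => by simp at hi
  | a :: L, n, h, i, hi => by
    rw [allI, Bool.and_eq_true] at h
    cases i with
    | zero => simpa using h.1
    | succ i =>
      have := allI_get (z := z) h.2 i (by simpa using hi)
      have e : n + (i + 1) = Nat.succ n + i := by omega
      rw [e]
      simpa using this

theorem pkl_eq (f : Row → ℕ) : ∀ L : List Row, pkl f L = pk L.length fun i => f (L.getD i zR)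
  | [] => by simp [pkl, pk]
  | r :: L => by
    have h := pkl_eq f L
    rw [pkl, List.length_cons, pk_succ, h]
    simp only [Nat.add_eq, Nat.mul_eq]
    rfl

theorem pkm_eq {V BV : ℕ} (hB : BV = BB ^ V) (f : Row → ℕ) : ∀ Rs : List (List Row),
    (∀ R ∈ Rs, R.length = V) → pkm BV f Rs =
      pk2 Rs.length V fun e v => f ((Rs.getD e []).getD v zR)
  | [], _ => by simp [pkm, pk2]
  | R :: Rs, h => by
    have h1 := pkm_eq hB f Rs fun R' hR => h R' (List.mem_cons_of_mem _ hR)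
    have h2 := h R List.mem_cons_self
    rw [pkm, List.length_cons, pk2_succ, h1, pkl_eq, h2, hB]
    simp only [Nat.add_eq, Nat.mul_eq]
    rfl

/-- bound of the coefficients -/
def B3 (p : P3) : Prop := p.k < 16777216 ∧ p.j < 16777216 ∧ p.l < 16777216

theorem r3_iff {p : P3} (h : r3 p = true) : B3 p := by
  unfold r3 at h
  simp only [Bool.and_eq_true, Nat.blt_eq] at h
  exact h

theorem af_le {p : P3} (h : B3 p) {x y : ℕ} (hxy : x + y ≤ U) : af p x y ≤ 16777216000000 := by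
  obtain ⟨h1, h2, h3⟩ := h
  unfold af
  simp only [Nat.add_eq, Nat.mul_eq, Nat.sub_eq]
  have a1 : p.k * (U - x - y) ≤ 16777216 * (U - x - y) := Nat.mul_le_mul_right _ h1.le
  have a2 : p.j * x ≤ 16777216 * x := Nat.mul_le_mul_right _ h2.le
  have a3 : p.l * y ≤ 16777216 * y := Nat.mul_le_mul_right _ h3.le
  have e : (16777216000000 : ℕ) = 16777216 * U := by unfold U; norm_num
  rw [e]
  omega

/-- **the packed rows against the rows** -/
structure Ag (P : PR) (R : ℕ → ℕ → Row) : Prop where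
  V0 : 0 < P.V
  BV : P.BV = BB ^ P.V
  n1 : P.n1 = pk P.V fun _ => 1
  hV : P.hV = pk P.V fun _ => HH
  oE : P.oE = ∑ e ∈ Finset.range P.E, 1 * (BB ^ P.V) ^ e
  nN : P.nN = pk2 P.E P.V fun _ _ => 1
  hN : P.hN = pk2 P.E P.V fun _ _ => HH
  mN : P.mN = pk2 P.E P.V fun _ _ => MH
  zN : P.zN = pk2 P.E P.V fun _ _ => Z
  Sk : ∀ e < P.E, P.Sk = pk P.V fun v => (R e v).S.k
  Sj : ∀ e < P.E, P.Sj = pk P.V fun v => (R e v).S.j
  Sl : ∀ e < P.E, P.Sl = pk P.V fun v => (R e v).S.l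
  s : ∀ e < P.E, P.s = pk P.V fun v => (R e v).s
  sM : ∀ e < P.E, ∀ v < P.V, (R e v).s ≤ P.sM
  Dk : ∀ i, (P.ls.getD i zPL).Dk = pk2 P.E P.V fun e v => ((R e v).ls.getD i zL).D.k
  Dj : ∀ i, (P.ls.getD i zPL).Dj = pk2 P.E P.V fun e v => ((R e v).ls.getD i zL).D.j
  Dl : ∀ i, (P.ls.getD i zPL).Dl = pk2 P.E P.V fun e v => ((R e v).ls.getD i zL).D.l
  Xk : ∀ i, (P.ls.getD i zPL).Xk = pk2 P.E P.V fun e v => ((R e v).ls.getD i zL).X.k
  Xj : ∀ i, (P.ls.getD i zPL).Xj = pk2 P.E P.V fun e v => ((R e v).ls.getD i zL).X.j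
  Xl : ∀ i, (P.ls.getD i zPL).Xl = pk2 P.E P.V fun e v => ((R e v).ls.getD i zL).X.l
  Ek : ∀ i, (P.es.getD i zPE).k = pk2 P.E P.V fun e v => ((R e v).es.getD i z3).k
  Ej : ∀ i, (P.es.getD i zPE).j = pk2 P.E P.V fun e v => ((R e v).es.getD i z3).j
  El : ∀ i, (P.es.getD i zPE).l = pk2 P.E P.V fun e v => ((R e v).es.getD i z3).l
  bS : ∀ e < P.E, ∀ v < P.V, B3 (R e v).S
  bs : ∀ e < P.E, ∀ v < P.V, (R e v).s ≤ 16777216
  bD : ∀ e < P.E, ∀ v < P.V, ∀ i, B3 ((R e v).ls.getD i zL).D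
  bX : ∀ e < P.E, ∀ v < P.V, ∀ i, B3 ((R e v).ls.getD i zL).X
  bE : ∀ e < P.E, ∀ v < P.V, ∀ i, B3 ((R e v).es.getD i z3)

theorem getD_mem {α : Type} {L : List α} {i : ℕ} {z : α} (h : i < L.length) : L.getD i z ∈ L := by
  rw [List.getD_eq_getElem _ _ h]
  exact List.getElem_mem h

theorem getD_out {α : Type} {L : List α} {i : ℕ} {z : α} (h : L.length ≤ i) :
    L.getD i z = z := by
  rw [List.getD_eq_default _ _ h]

theorem pk2_z (E V : ℕ) {f : ℕ → ℕ → ℕ} (h : ∀ e < E, ∀ v < V, f e v = 0) : pk2 E V f = 0 := by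
  have := pk2_smul E V 0 f
  rw [zero_mul] at this
  rw [this]
  exact pk2_congr fun e he v hv => by rw [h e he v hv, zero_mul]

theorem B3_z3 : B3 z3 := by
  unfold B3 z3
  norm_num

theorem agk_sound {P : PR} {Rs : List (List Row)} (h : agk P Rs = true) :
    Ag P (fun e v => (Rs.getD e []).getD v zR) ∧ Rs.length = P.E ∧
      ∀ e < P.E, (Rs.getD e []).length = P.V := by
  unfold agk agc at h
  simp only [Bool.and_eq_true, Nat.beq_eq, Nat.blt_eq, List.all_eq_true] at h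
  obtain ⟨⟨⟨⟨⟨⟨⟨⟨⟨⟨⟨⟨⟨⟨c1, c2⟩, c3⟩, c4⟩, c5⟩, c6⟩, c7⟩, c8⟩, c9⟩, hE⟩, hl⟩, he⟩, hm⟩, hL⟩,
    hM⟩ := h
  have hm' : ∀ R ∈ Rs, R.length = P.V ∧ (∀ r ∈ R, agr P r = true) ∧
      pkl (fun r => r.S.k) R = P.Sk ∧ pkl (fun r => r.S.j) R = P.Sj ∧
      pkl (fun r => r.S.l) R = P.Sl ∧ pkl (fun r => r.s) R = P.s := by
    intro R hR
    have := hm R hR
    unfold agm at this
    simp only [Bool.and_eq_true, Nat.beq_eq, List.all_eq_true] at this
    obtain ⟨⟨⟨⟨⟨a1, a2⟩, a3⟩, a4⟩, a5⟩, a6⟩ := this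
    exact ⟨a1, a2, a3, a4, a5, a6⟩
  have hlen : ∀ R ∈ Rs, R.length = P.V := fun R hR => (hm' R hR).1
  have hmem : ∀ e < P.E, Rs.getD e [] ∈ Rs := fun e he => getD_mem (by rw [hE]; exact he)
  have hlen2 : ∀ e < P.E, (Rs.getD e []).length = P.V := fun e he => hlen _ (hmem e he)
  have e2 : P.BV = BB ^ P.V := by
    rw [c2]
    rfl
  have e3 : P.n1 = pk P.V fun _ => 1 := by
    rw [c3, geo_eq]
    unfold pk
    exact Finset.sum_congr rfl fun i _ => by rw [one_mul]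
  have e4 : P.hV = pk P.V fun _ => HH := by
    rw [c4, e3, Nat.mul_eq, pk_smul]
    exact pk_congr fun i _ => by rw [mul_one]
  have e5 : P.oE = ∑ e ∈ Finset.range P.E, 1 * (BB ^ P.V) ^ e := by
    rw [c5, geo_eq, e2]
    exact Finset.sum_congr rfl fun i _ => by rw [one_mul]
  have e6 : P.nN = pk2 P.E P.V fun _ _ => 1 := by
    rw [c6, Nat.mul_eq, e5, pk2_outer P.E P.V (fun _ => 1) P.n1 (fun _ _ => 1) fun _ _ => e3]
  have e7 : P.hN = pk2 P.E P.V fun _ _ => HH := by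
    rw [c7, e6, Nat.mul_eq, pk2_smul]
    exact pk2_congr fun _ _ _ _ => by rw [mul_one]
  have e8 : P.mN = pk2 P.E P.V fun _ _ => MH := by
    rw [c8, e6, Nat.mul_eq, pk2_smul]
    exact pk2_congr fun _ _ _ _ => by rw [mul_one]
  have e9 : P.zN = pk2 P.E P.V fun _ _ => Z := by
    rw [c9, e6, Nat.mul_eq, pk2_smul]
    exact pk2_congr fun _ _ _ _ => by rw [mul_one]
  have hr : ∀ e < P.E, ∀ v < P.V, agr P ((Rs.getD e []).getD v zR) = true := fun e he v hv =>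
    (hm' _ (hmem e he)).2.1 _ (getD_mem (by rw [hlen2 e he]; exact hv))
  have hr' : ∀ e < P.E, ∀ v < P.V, B3 ((Rs.getD e []).getD v zR).S ∧
      ((Rs.getD e []).getD v zR).s ≤ 16777216 ∧ ((Rs.getD e []).getD v zR).s ≤ P.sM ∧
      ((Rs.getD e []).getD v zR).ls.length ≤ P.nl ∧
      ((Rs.getD e []).getD v zR).es.length ≤ P.ne ∧
      (∀ d ∈ ((Rs.getD e []).getD v zR).ls, B3 d.D ∧ B3 d.X) ∧
      ∀ d ∈ ((Rs.getD e []).getD v zR).es, B3 d := by
    intro e he v hv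
    have := hr e he v hv
    unfold agr at this
    simp only [Bool.and_eq_true, Nat.ble_eq, List.all_eq_true] at this
    obtain ⟨⟨⟨⟨⟨⟨a1, a2⟩, a3⟩, a4⟩, a5⟩, a6⟩, a7⟩ := this
    exact ⟨r3_iff a1, a2, a3, a4, a5, fun d hd => ⟨r3_iff (a6 d hd).1, r3_iff (a6 d hd).2⟩,
      fun d hd => r3_iff (a7 d hd)⟩
  have hL' : ∀ i < P.ls.length, agl P Rs i (P.ls.getD i zPL) = true := fun i hi => by
    have := allI_get (z := zPL) hL i hi
    rwa [zero_add] at this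
  have hM' : ∀ i < P.es.length, age P Rs i (P.es.getD i zPE) = true := fun i hi => by
    have := allI_get (z := zPE) hM i hi
    rwa [zero_add] at this
  have hpk : ∀ f : Row → ℕ, pkm P.BV f Rs =
      pk2 P.E P.V fun e v => f ((Rs.getD e []).getD v zR) := fun f => by
    rw [pkm_eq e2 f Rs hlen, hE]
  have gl : ∀ (g : PLd → ℕ) (f : Ld → ℕ), g zPL = 0 → f zL = 0 →
      (∀ i < P.ls.length, pkm P.BV (fun r => f (r.ls.getD i zL)) Rs = g (P.ls.getD i zPL)) →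
      ∀ i, g (P.ls.getD i zPL) =
        pk2 P.E P.V fun e v => f ((((Rs.getD e []).getD v zR)).ls.getD i zL) := by
    intro g f hg hf hh i
    rcases Nat.lt_or_ge i P.ls.length with hi | hi
    · rw [← hh i hi, hpk]
    · rw [getD_out hi, hg, pk2_z]
      intro e he v hv
      rw [getD_out ((hr' e he v hv).2.2.2.1.trans (hl ▸ hi)), hf]
  have ge : ∀ (g : PE → ℕ) (f : P3 → ℕ), g zPE = 0 → f z3 = 0 →
      (∀ i < P.es.length, pkm P.BV (fun r => f (r.es.getD i z3)) Rs = g (P.es.getD i zPE)) →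
      ∀ i, g (P.es.getD i zPE) =
        pk2 P.E P.V fun e v => f ((((Rs.getD e []).getD v zR)).es.getD i z3) := by
    intro g f hg hf hh i
    rcases Nat.lt_or_ge i P.es.length with hi | hi
    · rw [← hh i hi, hpk]
    · rw [getD_out hi, hg, pk2_z]
      intro e he' v hv
      rw [getD_out ((hr' e he' v hv).2.2.2.2.1.trans (he ▸ hi)), hf]
  have hLx : ∀ i < P.ls.length, (pkm P.BV (fun r => (r.ls.getD i zL).D.k) Rs =
      (P.ls.getD i zPL).Dk ∧ pkm P.BV (fun r => (r.ls.getD i zL).D.j) Rs =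
      (P.ls.getD i zPL).Dj ∧ pkm P.BV (fun r => (r.ls.getD i zL).D.l) Rs =
      (P.ls.getD i zPL).Dl) ∧ pkm P.BV (fun r => (r.ls.getD i zL).X.k) Rs =
      (P.ls.getD i zPL).Xk ∧ pkm P.BV (fun r => (r.ls.getD i zL).X.j) Rs =
      (P.ls.getD i zPL).Xj ∧ pkm P.BV (fun r => (r.ls.getD i zL).X.l) Rs =
      (P.ls.getD i zPL).Xl := by
    intro i hi
    have := hL' i hi
    unfold agl at this
    simp only [Bool.and_eq_true, Nat.beq_eq] at this
    obtain ⟨⟨⟨⟨⟨a1, a2⟩, a3⟩, a4⟩, a5⟩, a6⟩ := this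
    exact ⟨⟨a1, a2, a3⟩, a4, a5, a6⟩
  have hMx : ∀ i < P.es.length, pkm P.BV (fun r => (r.es.getD i z3).k) Rs =
      (P.es.getD i zPE).k ∧ pkm P.BV (fun r => (r.es.getD i z3).j) Rs =
      (P.es.getD i zPE).j ∧ pkm P.BV (fun r => (r.es.getD i z3).l) Rs =
      (P.es.getD i zPE).l := by
    intro i hi
    have := hM' i hi
    unfold age at this
    simp only [Bool.and_eq_true, Nat.beq_eq] at this
    obtain ⟨⟨a1, a2⟩, a3⟩ := this
    exact ⟨a1, a2, a3⟩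
  have gS : ∀ (f : Row → ℕ) (a : ℕ), (∀ R ∈ Rs, pkl f R = a) → ∀ e < P.E,
      a = pk P.V fun v => f ((Rs.getD e []).getD v zR) := by
    intro f a hf e he
    rw [← hf _ (hmem e he), pkl_eq, hlen2 e he]
  refine ⟨⟨c1, e2, e3, e4, e5, e6, e7, e8, e9, ?_, ?_, ?_, ?_, ?_, ?_, ?_, ?_, ?_, ?_, ?_, ?_, ?_,
    ?_, ?_, ?_, ?_, ?_, ?_⟩, hE, hlen2⟩
  · exact gS (fun r => r.S.k) _ fun R hR => (hm' R hR).2.2.1
  · exact gS (fun r => r.S.j) _ fun R hR => (hm' R hR).2.2.2.1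
  · exact gS (fun r => r.S.l) _ fun R hR => (hm' R hR).2.2.2.2.1
  · exact gS (fun r => r.s) _ fun R hR => (hm' R hR).2.2.2.2.2
  · exact fun e he v hv => (hr' e he v hv).2.2.1
  · exact gl (fun d => d.Dk) (fun d => d.D.k) rfl rfl fun i hi => (hLx i hi).1.1
  · exact gl (fun d => d.Dj) (fun d => d.D.j) rfl rfl fun i hi => (hLx i hi).1.2.1
  · exact gl (fun d => d.Dl) (fun d => d.D.l) rfl rfl fun i hi => (hLx i hi).1.2.2
  · exact gl (fun d => d.Xk) (fun d => d.X.k) rfl rfl fun i hi => (hLx i hi).2.1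
  · exact gl (fun d => d.Xj) (fun d => d.X.j) rfl rfl fun i hi => (hLx i hi).2.2.1
  · exact gl (fun d => d.Xl) (fun d => d.X.l) rfl rfl fun i hi => (hLx i hi).2.2.2
  · exact ge (fun d => d.k) (fun d => d.k) rfl rfl fun i hi => (hMx i hi).1
  · exact ge (fun d => d.j) (fun d => d.j) rfl rfl fun i hi => (hMx i hi).2.1
  · exact ge (fun d => d.l) (fun d => d.l) rfl rfl fun i hi => (hMx i hi).2.2
  · exact fun e he v hv => (hr' e he v hv).1
  · exact fun e he v hv => (hr' e he v hv).2.1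
  · intro e he v hv i
    rcases Nat.lt_or_ge i ((Rs.getD e []).getD v zR).ls.length with hi | hi
    · exact ((hr' e he v hv).2.2.2.2.2.1 _ (getD_mem hi)).1
    · show B3 ((((Rs.getD e []).getD v zR)).ls.getD i zL).D
      rw [getD_out hi]
      exact B3_z3
  · intro e he v hv i
    rcases Nat.lt_or_ge i ((Rs.getD e []).getD v zR).ls.length with hi | hi
    · exact ((hr' e he v hv).2.2.2.2.2.1 _ (getD_mem hi)).2
    · show B3 ((((Rs.getD e []).getD v zR)).ls.getD i zL).X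
      rw [getD_out hi]
      exact B3_z3
  · intro e he v hv i
    rcases Nat.lt_or_ge i ((Rs.getD e []).getD v zR).es.length with hi | hi
    · exact (hr' e he v hv).2.2.2.2.2.2 _ (getD_mem hi)
    · show B3 ((((Rs.getD e []).getD v zR)).es.getD i z3)
      rw [getD_out hi]
      exact B3_z3

end Helper60.R10
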