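import Pool.Agent.Helper60.MEI.R10C

/-!
# Project MEI (M2), w-term: packed checker of a family, the lanes
-/

set_option autoImplicit false

namespace Helper60.R10

open Helper60.R8 Helper60.R9
open Helper60.R7 (U F4)

/-- one end, one row -/
def Lr (A m o x y : ℕ) (I : Iv) (Fu la e F : ℕ) (r : Row) : ℕ :=
  Ls A m e F I.ps la (af (r.ls.getD I.li zL).D x y) (U * U * af r.S x y - Fu)
    (gs A m I.ps la (af r.S x y) (af (r.ls.getD I.li zL).X x y) (af (r.es.getD I.ei z3) x y)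
      (owv I.ty o r.s))

/-- one interval, one row -/
def stv (A c0 c1 m o x y e : ℕ) (r : Row) (a : ℕ) (I : Iv) : ℕ :=
  max (max a (Lr A m o x y I (F4k c0 c1 m x y I.u I.ru) (dig e I.la) I.u
    (F4k c0 c1 m x y I.u I.ru) r)) (Lr A m o x y I (F4k c0 c1 m x y I.u I.ru) (dig e I.la) I.v
    (F4k c0 c1 m x y I.v I.rv) r)

/-- all intervals, one row -/
def acv (A c0 c1 m o x y e : ℕ) (r : Row) : ℕ → List Iv → ℕ
  | a, [] => a
  | a, I :: L => acv A c0 c1 m o x y e r (sl I.ty a (stv A c0 c1 m o x y e r a I)) L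

/-- the side conditions at a vertex -/
structure Vk (A c0 c1 m o x y : ℕ) (I : Iv) : Prop where
  hA : A ≤ 4194304
  hm : m ≤ 1000000
  hu : I.u < 2000000
  hv : I.v < 2000000
  ku : kap I.u ≤ 8388608
  kv : kap I.v ≤ 8388608
  hp : I.ps ≤ 1000000
  Fu : F4k c0 c1 m x y I.u I.ru ≤ 4835703278458516698824704
  Fv : F4k c0 c1 m x y I.v I.rv ≤ 4835703278458516698824704
  ho : o ≤ 16777216
  xy : x + y ≤ U

theorem Vk.bu {A c0 c1 m o x y : ℕ} {I : Iv} (h : Vk A c0 c1 m o x y I) (e la : ℕ) :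
    Bd A m I.u (F4k c0 c1 m x y I.u I.ru) I.ps (dig e la) :=
  ⟨h.hA, h.hm, h.hu, h.ku, h.hp, h.Fu, dig_lt _ _⟩

theorem Vk.bv {A c0 c1 m o x y : ℕ} {I : Iv} (h : Vk A c0 c1 m o x y I) (e la : ℕ) :
    Bd A m I.v (F4k c0 c1 m x y I.v I.rv) I.ps (dig e la) :=
  ⟨h.hA, h.hm, h.hv, h.kv, h.hp, h.Fv, dig_lt _ _⟩

theorem owP_eq {P : PR} {V : ℕ} {s : ℕ → ℕ} (h1 : P.n1 = pk V fun _ => 1) (hs : P.s = pk V s)
    (ty o : ℕ) : owP P ty o = pk V fun v => owv ty o (s v) := by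
  have e : Nat.mul o P.n1 = pk V fun _ => o := by
    rw [Nat.mul_eq, h1, pk_smul]
    exact pk_congr fun _ _ => by rw [mul_one]
  unfold owP owv
  split
  · exact hs
  · exact e
  · exact hs
  · exact e

theorem owv_le {ty o s : ℕ} (ho : o ≤ 16777216) (hs : s ≤ 16777216) : owv ty o s ≤ 16777216 := by
  unfold owv
  split <;> assumption

theorem PV_eq {P : PR} {V : ℕ} {g : ℕ → ℕ} {F : ℕ} (h1 : P.n1 = pk V fun _ => 1)
    (hV : P.hV = pk V fun _ => HH) (hg : ∀ v < V, g v ≤ 16777216000000)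
    (hF : F ≤ 4835703278458516698824704) :
    PV P (pk V g) F = pk V fun v => U * U * g v - F := by
  have e : Nat.mul F P.n1 = pk V fun _ => F := by
    rw [Nat.mul_eq, h1, pk_smul]
    exact pk_congr fun _ _ => by rw [mul_one]
  unfold PV
  rw [e, hV]
  show mx (pk V fun _ => HH) (U * U * pk V g) (pk V fun _ => F) - (pk V fun _ => F) = _
  rw [pk_smul, mx_pk, pk_sub fun v _ => le_max_right _ _]
  · refine pk_congr fun v _ => ?_
    show max (U * U * g v) F - F = _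
    omega
  · intro v hv
    show U * U * g v < HH
    have h2 : U * U * g v ≤ 1000000 * 1000000 * 16777216000000 :=
      Nat.mul_le_mul_left _ (hg v hv)
    refine lt_of_le_of_lt h2 ?_
    norm_num [HH]
  · intro v _
    show F < HH
    refine lt_of_le_of_lt hF ?_
    norm_num [HH]

section
variable {P : PR} {R : ℕ → ℕ → Row} (hG : Ag P R)
include hG

theorem LA_eq (la : ℕ) (Y : ℕ) (g : ℕ → ℕ → ℕ) (hY : ∀ e < P.E, Y = pk P.V (g e)) :
    spr P.BV P.E la * Y = pk2 P.E P.V fun e v => dig e la * g e v := by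
  rw [spr_eq, hG.BV]
  exact pk2_outer P.E P.V (fun e => dig e la) Y g hY

theorem LP_eq {A m e F ps la : ℕ} {d p g : ℕ → ℕ → ℕ}
    (hb : ∀ i < P.E, Bd A m e F ps (dig i la)) :
    LP P A m e F ps (pk2 P.E P.V d) (pk2 P.E P.V p) (pk2 P.E P.V g)
        (Nat.mul (spr P.BV P.E la) P.n1) =
      pk2 P.E P.V fun i v => Ls A m e F ps (dig i la) (d i v) (p i v) (g i v) := by
  have e1 : Nat.mul (spr P.BV P.E la) P.n1 = pk2 P.E P.V fun e _ => dig e la * 1 := by
    rw [Nat.mul_eq]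
    exact LA_eq hG la P.n1 (fun _ _ => 1) fun _ _ => hG.n1
  unfold LP
  rw [e1, hG.nN]
  show (cst A m e F ps * (pk2 P.E P.V fun _ _ => 1) +
    (Nat.mul 1000000000 (Nat.mul (Nat.mul ps A) e) * (pk2 P.E P.V d) +
      (Nat.mul 500 (Nat.mul A (kap e)) * (pk2 P.E P.V p) + pk2 P.E P.V g))) -
    Nat.mul 1000000000 F * (pk2 P.E P.V fun e _ => dig e la * 1) = _
  rw [pk2_smul, pk2_smul, pk2_smul, pk2_smul, pk2_add, pk2_add, pk2_add, pk2_sub]
  · refine pk2_congr fun i _ v _ => ?_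
    show (cst A m e F ps * 1 + (Nat.mul 1000000000 (Nat.mul (Nat.mul ps A) e) * d i v +
      (Nat.mul 500 (Nat.mul A (kap e)) * p i v + g i v))) -
      Nat.mul 1000000000 F * (dig i la * 1) = Ls A m e F ps (dig i la) (d i v) (p i v) (g i v)
    rw [mul_one (dig i la)]
    rfl
  · intro i hi v _
    show Nat.mul 1000000000 F * (dig i la * 1) ≤ _
    rw [mul_one (dig i la)]
    exact lane_le (hb i hi)

theorem GP_eq {A m ps la C ow : ℕ} {c w : ℕ → ℕ → ℕ} {x t : ℕ → ℕ → ℕ}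
    (hC : ∀ e < P.E, C = pk P.V (c e)) (hw : ∀ e < P.E, ow = pk P.V (w e)) :
    GP A m ps (spr P.BV P.E la) C (pk2 P.E P.V x) (pk2 P.E P.V t) ow =
      pk2 P.E P.V fun i v => gs A m ps (dig i la) (c i v) (x i v) (t i v) (w i v) := by
  unfold GP
  show Nat.mul 1000000000000000 (Nat.mul ps A) * (pk2 P.E P.V x) +
    (Nat.mul 1000000000000000 (Nat.mul (Nat.sub U ps) A) * (pk2 P.E P.V t) +
      1000000000000000000000 * (spr P.BV P.E la * (C + m * ow))) = _
  rw [LA_eq hG la (C + m * ow) (fun e v => c e v + m * w e v) fun e he => by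
    rw [hC e he, hw e he, pk_smul, pk_add], pk2_smul, pk2_smul, pk2_smul, pk2_add, pk2_add]
  exact pk2_congr fun i _ v _ => rfl

variable {A c0 c1 m o x y : ℕ} {I : Iv} (hk : Vk A c0 c1 m o x y I)
include hk

theorem Lr_lt {e la : ℕ} (he : e < P.E) {v : ℕ} (hv : v < P.V) {e' F : ℕ}
    (hb : Bd A m e' F I.ps la) (Fu : ℕ) :
    Lr A m o x y I Fu la e' F (R e v) < HH := by
  unfold Lr
  refine Ls_lt hb (af_le (hG.bS e he v hv) hk.xy) (af_le (hG.bD e he v hv _) hk.xy)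
    (af_le (hG.bX e he v hv _) hk.xy) (af_le (hG.bE e he v hv _) hk.xy) ?_
    (owv_le hk.ho (hG.bs e he v hv))
  refine (Nat.sub_le _ _).trans ?_
  have h2 : U * U * af (R e v).S x y ≤ 1000000 * 1000000 * 16777216000000 :=
    Nat.mul_le_mul_left _ (af_le (hG.bS e he v hv) hk.xy)
  exact h2

theorem stp_eq {a : ℕ → ℕ → ℕ} (ha : ∀ e < P.E, ∀ v < P.V, a e v < HH) :
    stp P A c0 c1 m o x y (pk2 P.E P.V a) I =
      pk2 P.E P.V (fun e v => stv A c0 c1 m o x y e (R e v) (a e v) I) ∧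
    ∀ e < P.E, ∀ v < P.V, stv A c0 c1 m o x y e (R e v) (a e v) I < HH := by
  obtain ⟨Fu, hFu⟩ : ∃ a, a = F4k c0 c1 m x y I.u I.ru := ⟨_, rfl⟩
  obtain ⟨Fv, hFv⟩ : ∃ a, a = F4k c0 c1 m x y I.v I.rv := ⟨_, rfl⟩
  have b1 := hk.Fu
  have lu : ∀ e < P.E, ∀ v < P.V, Lr A m o x y I Fu (dig e I.la) I.u Fu (R e v) < HH :=
    fun e he v hv => Lr_lt hG hk he hv (hFu ▸ hk.bu e I.la) Fu
  have lv : ∀ e < P.E, ∀ v < P.V, Lr A m o x y I Fu (dig e I.la) I.v Fv (R e v) < HH :=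
    fun e he v hv => Lr_lt hG hk he hv (hFv ▸ hk.bv e I.la) Fu
  have hst : ∀ e v a', stv A c0 c1 m o x y e (R e v) a' I =
      max (max a' (Lr A m o x y I Fu (dig e I.la) I.u Fu (R e v)))
        (Lr A m o x y I Fu (dig e I.la) I.v Fv (R e v)) := by
    intro e v a'
    unfold stv
    rw [hFu, hFv]
  have hC : ∀ e < P.E, l3 P.Sk P.Sj P.Sl x y = pk P.V fun v => af (R e v).S x y := by
    intro e he
    rw [hG.Sk e he, hG.Sj e he, hG.Sl e he, l3_pk]
    rfl
  have hD : l3 (P.ls.getD I.li zPL).Dk (P.ls.getD I.li zPL).Dj (P.ls.getD I.li zPL).Dl x y =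
      pk2 P.E P.V fun e v => af ((R e v).ls.getD I.li zL).D x y := by
    rw [hG.Dk, hG.Dj, hG.Dl, l3_pk2]
    rfl
  have hX : l3 (P.ls.getD I.li zPL).Xk (P.ls.getD I.li zPL).Xj (P.ls.getD I.li zPL).Xl x y =
      pk2 P.E P.V fun e v => af ((R e v).ls.getD I.li zL).X x y := by
    rw [hG.Xk, hG.Xj, hG.Xl, l3_pk2]
    rfl
  have hE : l3 (P.es.getD I.ei zPE).k (P.es.getD I.ei zPE).j (P.es.getD I.ei zPE).l x y =
      pk2 P.E P.V fun e v => af ((R e v).es.getD I.ei z3) x y := by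
    rw [hG.Ek, hG.Ej, hG.El, l3_pk2]
    rfl
  have hP : Nat.mul P.oE (PV P (l3 P.Sk P.Sj P.Sl x y) Fu) =
      pk2 P.E P.V fun e v => U * U * af (R e v).S x y - Fu := by
    rw [Nat.mul_eq, hG.oE, pk2_outer P.E P.V (fun _ => 1)
      (PV P (l3 P.Sk P.Sj P.Sl x y) Fu) (fun e v => U * U * af (R e v).S x y - Fu) ?_]
    · exact pk2_congr fun _ _ _ _ => by rw [one_mul]
    · intro e he
      rw [hC e he]
      exact PV_eq hG.n1 hG.hV (fun v hv => af_le (hG.bS e he v hv) hk.xy) (hFu ▸ b1)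
  have hw : ∀ e < P.E, owP P I.ty o = pk P.V fun v => owv I.ty o (R e v).s :=
    fun e he => owP_eq hG.n1 (hG.s e he) I.ty o
  refine ⟨?_, fun e he v hv => ?_⟩
  · unfold stp st3 st4
    rw [← hFu, ← hFv, hD, hP, hX, hE, GP_eq hG hC hw,
      LP_eq hG fun i _ => hFu ▸ hk.bu i I.la, LP_eq hG fun i _ => hFv ▸ hk.bv i I.la, hG.hN]
    show mx (pk2 P.E P.V fun _ _ => HH) (mx (pk2 P.E P.V fun _ _ => HH) (pk2 P.E P.V a)
      (pk2 P.E P.V fun e v => Lr A m o x y I Fu (dig e I.la) I.u Fu (R e v)))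
      (pk2 P.E P.V fun e v => Lr A m o x y I Fu (dig e I.la) I.v Fv (R e v)) = _
    rw [mx_pk2 hG.V0 ha lu, mx_pk2 hG.V0 (fun e he v hv => max_lt (ha e he v hv) (lu e he v hv)) lv]
    exact pk2_congr fun e _ v _ => (hst e v (a e v)).symm
  · rw [hst]
    exact max_lt (max_lt (ha e he v hv) (lu e he v hv)) (lv e he v hv)

end

theorem sl_pk2 (E V ty : ℕ) (a b : ℕ → ℕ → ℕ) :
    sl ty (pk2 E V a) (pk2 E V b) = pk2 E V fun e v => sl ty (a e v) (b e v) := by
  unfold sl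
  split <;> rfl

theorem sl_lt {ty a b c : ℕ} (ha : a < c) (hb : b < c) : sl ty a b < c := by
  unfold sl
  split <;> assumption

theorem acP_eq {P : PR} {R : ℕ → ℕ → Row} (hG : Ag P R) {A c0 c1 m o x y : ℕ} :
    ∀ {L : List Iv} {a : ℕ → ℕ → ℕ}, (∀ I ∈ L, Vk A c0 c1 m o x y I) →
    (∀ e < P.E, ∀ v < P.V, a e v < HH) →
    acP P A c0 c1 m o x y (pk2 P.E P.V a) L =
      pk2 P.E P.V (fun e v => acv A c0 c1 m o x y e (R e v) (a e v) L) ∧
    ∀ e < P.E, ∀ v < P.V, acv A c0 c1 m o x y e (R e v) (a e v) L < HH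
  | [], a, _, ha => ⟨rfl, ha⟩
  | I :: L, a, hL, ha => by
    obtain ⟨h1, h2⟩ := stp_eq hG (hL I List.mem_cons_self) ha
    have h3 := acP_eq hG (L := L)
      (a := fun e v => sl I.ty (a e v) (stv A c0 c1 m o x y e (R e v) (a e v) I))
      (fun J hJ => hL J (List.mem_cons_of_mem _ hJ))
      fun e he v hv => sl_lt (ha e he v hv) (h2 e he v hv)
    rw [acP, h1, sl_pk2]
    exact h3

/-! ### Monotonicity -/

theorem le_sl {ty a b : ℕ} (h : a ≤ b) : a ≤ sl ty a b := by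
  unfold sl
  split
  · exact h
  · exact h
  · exact le_rfl

theorem acv_ge {A c0 c1 m o x y e : ℕ} {r : Row} : ∀ (L : List Iv) (a : ℕ),
    a ≤ acv A c0 c1 m o x y e r a L
  | [], _ => le_rfl
  | I :: L, a => by
    rw [acv]
    exact (le_sl (by unfold stv; exact (le_max_left _ _).trans (le_max_left _ _))).trans
      (acv_ge L _)

theorem acv_mem {A c0 c1 m o x y e : ℕ} {r : Row} {I : Iv} (hty : I.ty = 0 ∨ I.ty = 1) :
    ∀ {L : List Iv} {a : ℕ}, I ∈ L →
    Lr A m o x y I (F4k c0 c1 m x y I.u I.ru) (dig e I.la) I.u (F4k c0 c1 m x y I.u I.ru) r ≤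
        acv A c0 c1 m o x y e r a L ∧
      Lr A m o x y I (F4k c0 c1 m x y I.u I.ru) (dig e I.la) I.v (F4k c0 c1 m x y I.v I.rv) r ≤
        acv A c0 c1 m o x y e r a L
  | [], _, h => by simp at h
  | J :: L, a, h => by
    rw [acv]
    rcases List.mem_cons.1 h with h | h
    · subst h
      have e1 : sl I.ty a (stv A c0 c1 m o x y e r a I) = stv A c0 c1 m o x y e r a I := by
        rcases hty with h | h
        · rw [h]
          rfl
        · rw [h]
          rfl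
      rw [e1]
      have h1 := acv_ge (A := A) (c0 := c0) (c1 := c1) (m := m) (o := o) (x := x) (y := y)
        (e := e) (r := r) L (stv A c0 c1 m o x y e r a I)
      refine ⟨le_trans ?_ h1, le_trans ?_ h1⟩
      · unfold stv
        exact (le_max_right _ _).trans (le_max_left _ _)
      · unfold stv
        exact le_max_right _ _
    · exact acv_mem hty h

end Helper60.R10
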