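import Pool.Agent.Helper60.MEI.R10D

/-!
# Project MEI (M2), w-term: packed checker of a family, the members and the family
-/

set_option autoImplicit false

namespace Helper60.R10

open Helper60.R8 Helper60.R9
open Helper60.R7 (U F4)

/-! ### The members -/

def memI (e : ℕ) (I : Iv) : Iv := ⟨I.u, I.v, I.ru, I.rv, I.ty, dig e I.la, I.ps, I.li, I.ei⟩

def memO (A c0 c1 m o x y e : ℕ) (R : List Row) (L : List Iv) : List ℕ :=
  R.map fun r => omv (acv A c0 c1 m o x y e r Z L)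

def memL (A c0 c1 e : ℕ) (R : List Row) (x0 x1 y0 y1 : ℕ) (c : Lf) : Lf :=
  ⟨c.m00, c.m01, c.m10, c.m11, c.o, c.m0, c.M, c.iv.map (memI e),
    memO A c0 c1 c.m00 c.o x0 y0 e R c.iv, memO A c0 c1 c.m01 c.o x0 y1 e R c.iv,
    memO A c0 c1 c.m10 c.o x1 y0 e R c.iv, memO A c0 c1 c.m11 c.o x1 y1 e R c.iv⟩

/-- the tree of the member `e` -/
def mem (A c0 c1 e : ℕ) (R : List Row) : Tr → ℕ → ℕ → ℕ → ℕ → Tr
  | .lf c, x0, x1, y0, y1 => .lf (memL A c0 c1 e R x0 x1 y0 y1 c)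
  | .em, _, _, _, _ => .em
  | .tp, _, _, _, _ => .tp
  | .sx a l r, x0, x1, y0, y1 => .sx a (mem A c0 c1 e R l x0 a y0 y1) (mem A c0 c1 e R r a x1 y0 y1)
  | .sy b l r, x0, x1, y0, y1 => .sy b (mem A c0 c1 e R l x0 x1 y0 b) (mem A c0 c1 e R r x0 x1 b y1)

theorem sk_memI (e : ℕ) : ∀ L : List Iv, skI (L.map (memI 0)) (L.map (memI e)) = true
  | [] => rfl
  | I :: L => by
    rw [List.map_cons, List.map_cons, skI, sk_memI e L, Bool.and_true]
    unfold skV memI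
    simp

theorem sk_mem (A c0 c1 e : ℕ) (R0 R : List Row) : ∀ (T : Tr) (x0 x1 y0 y1 : ℕ),
    sk (mem A c0 c1 0 R0 T x0 x1 y0 y1) (mem A c0 c1 e R T x0 x1 y0 y1) = true
  | .lf c, x0, x1, y0, y1 => by
    rw [mem, mem, sk]
    unfold skL memL
    simp [sk_memI e c.iv]
  | .em, _, _, _, _ => rfl
  | .tp, _, _, _, _ => rfl
  | .sx a l r, x0, x1, y0, y1 => by
    rw [mem, mem, sk, sk_mem A c0 c1 e R0 R l, sk_mem A c0 c1 e R0 R r]
    simp
  | .sy b l r, x0, x1, y0, y1 => by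
    rw [mem, mem, sk, sk_mem A c0 c1 e R0 R l, sk_mem A c0 c1 e R0 R r]
    simp

theorem rwk_map {A m o x y : ℕ} {I : Iv} {Fu Fv : ℕ} (g : Row → ℕ) : ∀ {Rs : List Row},
    (∀ r ∈ Rs, one A m o I Fu Fv (af r.S x y) (af (r.ls.getD I.li zL).D x y)
      (af (r.ls.getD I.li zL).X x y) (af (r.es.getD I.ei z3) x y) r.s (g r) = true) →
    rwk A m o x y I Fu Fv Rs (Rs.map g) = true
  | [], _ => rfl
  | r :: Rs, h => by
    rw [List.map_cons, rwk, Bool.and_eq_true]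
    exact ⟨h r List.mem_cons_self, rwk_map g fun r' hr => h r' (List.mem_cons_of_mem _ hr)⟩

theorem one_ok {A m o : ℕ} {I : Iv} {Fu Fv C D X E s om : ℕ}
    (h1 : I.ty = 0 ∨ I.ty = 1 → ein A m D X C E (Nat.sub (Nat.mul C (Nat.mul U U)) Fu) I.u Fu
        I.la I.ps (owv I.ty o s) om = true ∧
      ein A m D X C E (Nat.sub (Nat.mul C (Nat.mul U U)) Fu) I.v Fv
        I.la I.ps (owv I.ty o s) om = true)
    (h2 : ¬ (I.ty = 0 ∨ I.ty = 1) → U * U * (C + m * owv I.ty o s) + 1 ≤ Fu) :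
    one A m o I Fu Fv C D X E s om = true := by
  unfold one
  split
  · next h =>
    have := h1 (Or.inl h)
    rw [h] at this
    rw [Bool.and_eq_true]
    exact this
  · next h =>
    have := h1 (Or.inr h)
    rw [h] at this
    rw [Bool.and_eq_true]
    exact this
  · next h =>
    have := h2 (by rw [h]; omega)
    rw [h] at this
    rw [Nat.ble_eq]
    exact this
  · next h0 h1' h2' =>
    have := h2 (by rintro (h | h) <;> contradiction)
    have e : owv I.ty o s = o := by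
      unfold owv
      split
      · exact absurd (by assumption) h0
      · rfl
      · exact absurd (by assumption) h2'
      · rfl
    rw [e] at this
    rw [Nat.ble_eq]
    exact this

section
variable {P : PR} {Rs : List (List Row)} (hG : agk P Rs = true) {A c0 c1 : ℕ}
  (hA : A ≤ 4194304)
include hG

theorem row_ix {e : ℕ} (he : e < P.E) {r : Row} (hr : r ∈ Rs.getD e []) :
    ∃ v < P.V, r = (Rs.getD e []).getD v zR := by
  obtain ⟨n, hn, hn2⟩ := List.mem_iff_getElem.1 hr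
  refine ⟨n, ?_, ?_⟩
  · rw [← (agk_sound hG).2.2 e he]
    exact hn
  · rw [List.getD_eq_getElem _ _ hn, hn2]

theorem ex_ok {m o x y : ℕ} {I : Iv} (hk : Vk A c0 c1 m o x y I)
    (hty : ¬ (I.ty = 0 ∨ I.ty = 1)) {e : ℕ} (he : e < P.E) {r : Row} (hr : r ∈ Rs.getD e [])
    (h : exP P m o x y I.ty (F4k c0 c1 m x y I.u I.ru) = true) :
    U * U * (af r.S x y + m * owv I.ty o r.s) + 1 ≤ F4k c0 c1 m x y I.u I.ru := by
  have ag := (agk_sound hG).1
  obtain ⟨v, hv, rfl⟩ := row_ix hG he hr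
  have hF := hk.Fu
  obtain ⟨F, hFe⟩ : ∃ F, F = F4k c0 c1 m x y I.u I.ru := ⟨_, rfl⟩
  rw [← hFe] at h hF ⊢
  have h' : lle P.hV (Nat.add (Nat.mul (Nat.mul U U)
      (Nat.add (l3 P.Sk P.Sj P.Sl x y) (Nat.mul m (owP P I.ty o)))) P.n1)
      (Nat.mul F P.n1) = true := by
    unfold exP at h
    split at h
    · exact absurd (Or.inl (by assumption)) hty
    · exact absurd (Or.inr (by assumption)) hty
    · exact h
  have e1 : Nat.add (Nat.mul (Nat.mul U U)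
      (Nat.add (l3 P.Sk P.Sj P.Sl x y) (Nat.mul m (owP P I.ty o)))) P.n1 =
      pk P.V fun v => U * U * (af ((Rs.getD e []).getD v zR).S x y +
        m * owv I.ty o ((Rs.getD e []).getD v zR).s) + 1 := by
    rw [owP_eq ag.n1 (ag.s e he) I.ty o, ag.Sk e he, ag.Sj e he, ag.Sl e he, l3_pk, ag.n1]
    simp only [Nat.add_eq, Nat.mul_eq]
    rw [pk_smul, pk_add, pk_smul, pk_add]
    rfl
  have e2 : Nat.mul F P.n1 = pk P.V fun _ => F := by
    rw [Nat.mul_eq, ag.n1, pk_smul]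
    exact pk_congr fun _ _ => by rw [mul_one]
  rw [e1, e2, ag.hV] at h'
  refine lle_pk (fun i hi => ?_) (fun i hi => ?_) h' v hv
  · show U * U * (af ((Rs.getD e []).getD i zR).S x y +
        m * owv I.ty o ((Rs.getD e []).getD i zR).s) + 1 < HH
    have a1 : af ((Rs.getD e []).getD i zR).S x y +
        m * owv I.ty o ((Rs.getD e []).getD i zR).s ≤ 16777216000000 + 1000000 * 16777216 :=
      Nat.add_le_add (af_le (ag.bS e he i hi) hk.xy)
        (Nat.mul_le_mul hk.hm (owv_le hk.ho (ag.bs e he i hi)))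
    have a2 := Nat.mul_le_mul_left (U * U) a1
    refine lt_of_le_of_lt (Nat.add_le_add_right a2 1) ?_
    unfold U HH
    norm_num
  · show F < HH
    refine lt_of_le_of_lt hF ?_
    norm_num [HH]

theorem vx_ok {m o x y : ℕ} {L : List Iv} {I : Iv} (hI : I ∈ L) (hk : Vk A c0 c1 m o x y I)
    {e : ℕ} (he : e < P.E)
    (h : vxP P c0 c1 m o x y I = true) :
    vxk (Rs.getD e []) A c0 c1 m o x y (memI e I) (memO A c0 c1 m o x y e (Rs.getD e []) L) =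
      true := by
  unfold vxP at h
  rw [Bool.and_eq_true, Bool.and_eq_true] at h
  obtain ⟨h1, h2, h3⟩ := h
  unfold vxk memO
  rw [Bool.and_eq_true]
  show Nat.ble (F4 c0 c1 m (min x y) I.u I.ru) (F4 c0 c1 m (min x y) I.v I.rv) = true ∧
    rwk A m o x y (memI e I) (F4 c0 c1 m (min x y) I.u I.ru) (F4 c0 c1 m (min x y) I.v I.rv)
      (Rs.getD e []) ((Rs.getD e []).map fun r => omv (acv A c0 c1 m o x y e r Z L)) = true
  rw [← F4k_eq, ← F4k_eq]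
  refine ⟨h1, rwk_map _ fun r hr => one_ok (fun hty => ?_) fun hty => ?_⟩
  · have hty' : I.ty = 0 ∨ I.ty = 1 := hty
    obtain ⟨l1, l2⟩ := acv_mem (A := A) (c0 := c0) (c1 := c1) (m := m) (o := o) (x := x) (y := y)
      (e := e) (r := r) hty' (a := Z) hI
    have hz := acv_ge (A := A) (c0 := c0) (c1 := c1) (m := m) (o := o) (x := x) (y := y)
      (e := e) (r := r) L Z
    have hU : (2000000 : ℕ) = 2 * U := rfl
    have eP : Nat.sub (Nat.mul (af r.S x y) (Nat.mul U U)) (F4k c0 c1 m x y I.u I.ru) =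
        U * U * af r.S x y - F4k c0 c1 m x y I.u I.ru := by
      simp only [Nat.sub_eq, Nat.mul_eq]
      rw [mul_comm]
    unfold Lr at l1 l2
    refine ⟨?_, ?_⟩
    · show ein A m _ _ _ _ (Nat.sub (Nat.mul (af r.S x y) (Nat.mul U U))
        (F4k c0 c1 m x y I.u I.ru)) I.u (F4k c0 c1 m x y I.u I.ru) (dig e I.la) I.ps
        (owv I.ty o r.s) _ = true
      rw [eP]
      exact ein_Ls (hk.bu e I.la) (hU ▸ hk.hu) hz l1
    · show ein A m _ _ _ _ (Nat.sub (Nat.mul (af r.S x y) (Nat.mul U U))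
        (F4k c0 c1 m x y I.u I.ru)) I.v (F4k c0 c1 m x y I.v I.rv) (dig e I.la) I.ps
        (owv I.ty o r.s) _ = true
      rw [eP]
      exact ein_Ls (hk.bv e I.la) (hU ▸ hk.hv) hz l2
  · exact ex_ok hG hk hty he hr h3

omit hG in
/-- what the packed check of an interval gives -/
theorem ikP_iff {nl ne x0 x1 y0 y1 : ℕ} {c : Lf} {I : Iv}
    (h : ikP P c0 c1 nl ne x0 x1 y0 y1 c I = true) (hbk : bk x0 x1 y0 y1 c = true)
    (ho : c.o ≤ 16777216) (hA : A ≤ 4194304) :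
    ((((((((Nat.blt I.u I.v = true ∧ Nat.blt I.v (2 * U) = true) ∧
      Nat.ble (I.ru * I.ru) (I.u * U) = true) ∧ Nat.ble (I.rv * I.rv) (I.v * U) = true) ∧
      Nat.ble (c1 * I.v) (c0 * U) = true) ∧ Nat.ble I.ps U = true) ∧ Nat.blt I.li nl = true) ∧
      (Nat.ble U I.ps || Nat.blt I.ei ne) = true)) ∧
    (vxP P c0 c1 c.m00 c.o x0 y0 I = true ∧ vxP P c0 c1 c.m01 c.o x0 y1 I = true ∧
      vxP P c0 c1 c.m10 c.o x1 y0 I = true ∧ vxP P c0 c1 c.m11 c.o x1 y1 I = true) ∧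
    Vk A c0 c1 c.m00 c.o x0 y0 I ∧ Vk A c0 c1 c.m01 c.o x0 y1 I ∧
      Vk A c0 c1 c.m10 c.o x1 y0 I ∧ Vk A c0 c1 c.m11 c.o x1 y1 I := by
  unfold ikP at h
  simp only [Bool.and_eq_true] at h
  obtain ⟨⟨⟨⟨⟨⟨⟨⟨i1, i2⟩, i3⟩, i4⟩, i5⟩, i6⟩, i7⟩, i8⟩, ⟨⟨⟨⟨k1, k2⟩, x1'⟩, x2'⟩, x3'⟩, x4'⟩ := h
  obtain ⟨j1, j2, j3, j4, ⟨b1, b2, b3, b4⟩, _⟩ := bk_iff hbk
  have hm : ∀ {x y m : ℕ}, mk1 x y m = true → m ≤ 1000000 := by
    intro x y m h
    unfold mk1 at h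
    simp only [Bool.and_eq_true, Nat.ble_eq] at h
    exact h.1
  have hF : ∀ {m x y : ℕ}, vxP P c0 c1 m c.o x y I = true →
      F4k c0 c1 m x y I.u I.ru ≤ 4835703278458516698824704 ∧
      F4k c0 c1 m x y I.v I.rv ≤ 4835703278458516698824704 := by
    intro m x y h
    unfold vxP at h
    simp only [Bool.and_eq_true, Nat.ble_eq] at h
    exact ⟨h.1.trans h.2.1, h.2.1⟩
  have hu : I.u < 2000000 := by
    rw [Nat.blt_eq] at i1 i2
    exact i1.trans i2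
  have hv : I.v < 2000000 := by
    rw [Nat.blt_eq] at i2
    exact i2
  have hps : I.ps ≤ 1000000 := by
    rw [Nat.ble_eq] at i6
    exact i6
  have hku : kap I.u ≤ 8388608 := by
    rw [Nat.ble_eq] at k1
    exact k1
  have hkv : kap I.v ≤ 8388608 := by
    rw [Nat.ble_eq] at k2
    exact k2
  have hxy : ∀ x y : ℕ, x ≤ x1 → y ≤ y1 → x + y ≤ U := by
    intro x y hx hy
    omega
  refine ⟨⟨⟨⟨⟨⟨⟨⟨i1, i2⟩, i3⟩, i4⟩, i5⟩, i6⟩, i7⟩, i8⟩, ⟨x1', x2', x3', x4'⟩, ?_, ?_, ?_, ?_⟩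
  · exact ⟨hA, hm b1, hu, hv, hku, hkv, hps, (hF x1').1, (hF x1').2, ho, hxy _ _ j1.le j2.le⟩
  · exact ⟨hA, hm b2, hu, hv, hku, hkv, hps, (hF x2').1, (hF x2').2, ho, hxy _ _ j1.le le_rfl⟩
  · exact ⟨hA, hm b3, hu, hv, hku, hkv, hps, (hF x3').1, (hF x3').2, ho, hxy _ _ le_rfl j2.le⟩
  · exact ⟨hA, hm b4, hu, hv, hku, hkv, hps, (hF x4').1, (hF x4').2, ho, hxy _ _ le_rfl le_rfl⟩

omit hG in
theorem ivP_all {nl ne x0 x1 y0 y1 : ℕ} {c : Lf} : ∀ {L : List Iv} {b : ℕ},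
    ivP P c0 c1 nl ne x0 x1 y0 y1 c b L = true →
    ∀ I ∈ L, ikP P c0 c1 nl ne x0 x1 y0 y1 c I = true
  | [], _, _, I, hI => by simp at hI
  | J :: L, b, h, I, hI => by
    rw [ivP, Bool.and_eq_true, Bool.and_eq_true] at h
    rcases List.mem_cons.1 hI with hI | hI
    · rw [hI]
      exact h.2.1
    · exact ivP_all h.2.2 I hI

include hA in
theorem ik_ok {nl ne x0 x1 y0 y1 : ℕ} {c : Lf} (hbk : bk x0 x1 y0 y1 c = true)
    (ho : c.o ≤ 16777216) (hL : ∀ J ∈ c.iv, ikP P c0 c1 nl ne x0 x1 y0 y1 c J = true)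
    {I : Iv} (hI : I ∈ c.iv) {e : ℕ} (he : e < P.E) :
    ik (Rs.getD e []) A c0 c1 nl ne x0 x1 y0 y1
      (memL A c0 c1 e (Rs.getD e []) x0 x1 y0 y1 c) (memI e I) = true := by
  obtain ⟨a1, ⟨b1, b2, b3, b4⟩, d1, d2, d3, d4⟩ := ikP_iff (A := A) (hL I hI) hbk ho hA
  unfold ik
  simp only [Bool.and_eq_true]
  exact ⟨⟨⟨⟨a1, vx_ok hG hI d1 he b1⟩, vx_ok hG hI d2 he b2⟩,
    vx_ok hG hI d3 he b3⟩, vx_ok hG hI d4 he b4⟩

include hA in
theorem iv_ok {nl ne x0 x1 y0 y1 : ℕ} {c : Lf} (hbk : bk x0 x1 y0 y1 c = true)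
    (ho : c.o ≤ 16777216) (hL : ∀ J ∈ c.iv, ikP P c0 c1 nl ne x0 x1 y0 y1 c J = true)
    {e : ℕ} (he : e < P.E) : ∀ {L : List Iv} {b : ℕ}, (∀ J ∈ L, J ∈ c.iv) →
    ivP P c0 c1 nl ne x0 x1 y0 y1 c b L = true →
    ivk (Rs.getD e []) A c0 c1 nl ne x0 x1 y0 y1
      (memL A c0 c1 e (Rs.getD e []) x0 x1 y0 y1 c) b (L.map (memI e)) = true
  | [], b, _, h => by
    rw [ivP, Nat.blt_eq] at h
    rw [List.map_nil, ivk, List.all_eq_true]
    intro r hr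
    obtain ⟨v, hv, rfl⟩ := row_ix hG he hr
    have := (agk_sound hG).1.sM e he v hv
    rw [Nat.blt_eq]
    exact lt_of_le_of_lt (Nat.add_le_add_left this U) h
  | I :: L, b, hs, h => by
    rw [ivP, Bool.and_eq_true, Bool.and_eq_true] at h
    rw [List.map_cons, ivk, Bool.and_eq_true, Bool.and_eq_true]
    exact ⟨⟨h.1, ik_ok hG hA hbk ho hL (hs I List.mem_cons_self) he⟩,
      iv_ok hbk ho hL he (fun J hJ => hs J (List.mem_cons_of_mem _ hJ)) h.2.2⟩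

include hA in
/-- **the members pass the check** -/
theorem ck_ok {nf : ℕ → ℕ → ℕ} {h : ℕ} {e : ℕ} (he : e < P.E) :
    ∀ (T : Tr) (x0 x1 y0 y1 : ℕ), ckP P c0 c1 nf h T x0 x1 y0 y1 = true →
    (mem A c0 c1 e (Rs.getD e []) T x0 x1 y0 y1).ckf (Rs.getD e []) A c0 c1 nf P.ne h
      x0 x1 y0 y1 = true
  | .lf c, x0, x1, y0, y1, hc => by
    rw [ckP] at hc
    unfold lkP at hc
    rw [Bool.and_eq_true, Bool.and_eq_true, Nat.ble_eq] at hc
    obtain ⟨h1, h2, h3⟩ := hc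
    rw [mem, Tr.ckf]
    unfold lk8
    rw [Bool.and_eq_true]
    exact ⟨h1, iv_ok hG hA h1 h2 (ivP_all h3) he (fun J hJ => hJ) h3⟩
  | .em, _, _, _, _, hc => hc
  | .tp, _, _, _, _, hc => hc
  | .sx a l r, x0, x1, y0, y1, hc => by
    rw [ckP, Bool.and_eq_true] at hc
    rw [mem, Tr.ckf, Bool.and_eq_true]
    exact ⟨ck_ok he l _ _ _ _ hc.1, ck_ok he r _ _ _ _ hc.2⟩
  | .sy a l r, x0, x1, y0, y1, hc => by
    rw [ckP, Bool.and_eq_true] at hc
    rw [mem, Tr.ckf, Bool.and_eq_true]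
    exact ⟨ck_ok he l _ _ _ _ hc.1, ck_ok he r _ _ _ _ hc.2⟩

end

end Helper60.R10
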