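import Pool.Agent.Helper60.MEI.R10F

/-!
# Project MEI (M2), w-term: packed checker of a family, fast evaluation of a piece

`wsG`, `ckG`: the packed weights and the check of rule R10, arranged for the kernel (recursors
instead of matches, constants of an interval and values at a vertex as closed terms, the
conditions of an interval as one sum). `okG_of`: the fast check gives a checked piece `OkT`.
-/

set_option autoImplicit false

noncomputable section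

namespace Helper60.R10

open Helper60.R8 Helper60.R9
open Helper60.R7 (U F4)

/-- linear combination with given weights -/
def l3w (k j l a b c : ℕ) : ℕ := Nat.add (Nat.mul k a) (Nat.add (Nat.mul j b) (Nat.mul l c))

def mxg2 (a t g : ℕ) : ℕ := Nat.add a (Nat.land t (Nat.sub g (Nat.shiftRight g 143)))
def mxt2 (h a t : ℕ) : ℕ := mxg2 a t (Nat.land t h)
/-- lane-wise maximum -/
def mxF (h a b : ℕ) : ℕ := mxt2 h a (Nat.sub (Nat.add b h) a)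

def kU (A ps e : ℕ) : ℕ := Nat.mul (Nat.mul ps A) e
def cc1 (A ps e : ℕ) : ℕ := Nat.mul 1000000000000000000000 (kU A ps e)
def cc2 (A ps e : ℕ) : ℕ :=
  Nat.add (Nat.mul 127000000000000000000000000 (kap e)) (Nat.mul 1000000000000000 (kU A ps e))
def cc3 (A ps : ℕ) : ℕ := Nat.mul 1000 (Nat.mul (Nat.sub U ps) A)
def cc4 (A ps e : ℕ) : ℕ := Nat.mul 1000000000 (kU A ps e)
def cc5 (A e : ℕ) : ℕ := Nat.mul 500 (Nat.mul A (kap e))
def fa (e : ℕ) : ℕ := Nat.mul e 1000000000000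
def fb (c0 c1 e r : ℕ) : ℕ := Nat.mul (Nat.sub (Nat.mul c0 1000000) (Nat.mul c1 e)) r
def mn2 (x y : ℕ) : ℕ := Nat.mul 2 (Nat.sub x (Nat.sub x y))
/-- the strip function at a vertex -/
def FF (c0 c1 m x y u r : ℕ) : ℕ :=
  Nat.add (Nat.mul (Nat.sub 1000000 m) (fa u)) (Nat.mul (mn2 x y) (fb c0 c1 u r))
def w0 (x y : ℕ) : ℕ := Nat.sub (Nat.sub 1000000 x) y

/-- the element of a list -/
def nth {α : Type} (z : α) (L : List α) (n : ℕ) : α :=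
  List.rec (motive := fun _ => ℕ → α) (fun _ => z)
    (fun a _ ih n => Nat.rec (motive := fun _ => α) a (fun m _ => ih m) n) L n

def Dv (P : PR) (li x y : ℕ) : ℕ :=
  PLd.rec (motive := fun _ => ℕ) (fun k j l _ _ _ => l3w k j l (w0 x y) x y) (nth zPL P.ls li)
def Xv (P : PR) (li x y : ℕ) : ℕ :=
  PLd.rec (motive := fun _ => ℕ) (fun _ _ _ k j l => l3w k j l (w0 x y) x y) (nth zPL P.ls li)
def Ev (P : PR) (ei x y : ℕ) : ℕ :=
  PE.rec (motive := fun _ => ℕ) (fun k j l => l3w k j l (w0 x y) x y) (nth zPE P.es ei)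
def Cv (P : PR) (x y : ℕ) : ℕ := l3w P.Sk P.Sj P.Sl (w0 x y) x y

def PVF (P : PR) (C FN : ℕ) : ℕ := Nat.sub (mxF P.hV (Nat.mul 1000000000000 C) FN) FN

def LAc (P : PR) (la : ℕ) : ℕ := Nat.mul 1000000000000000000000 (spr P.BV P.E la)
def LAf (P : PR) (la : ℕ) : ℕ := Nat.mul 1000000000 (Nat.mul (spr P.BV P.E la) P.n1)

def cG (A m e F ps : ℕ) : ℕ :=
  Nat.sub (Nat.add Z (Nat.mul (cc2 A ps e) m)) (Nat.add (cc1 A ps e) (Nat.mul (cc3 A ps) F))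

/-- one end -/
def LF (P : PR) (A m e F ps D PN G L : ℕ) : ℕ :=
  Nat.sub (Nat.add (Nat.mul (cG A m e F ps) P.nN)
    (Nat.add (Nat.mul (cc4 A ps e) D) (Nat.add (Nat.mul (cc5 A e) PN) G))) (Nat.mul F L)

def ps1 (A ps : ℕ) : ℕ := Nat.mul 1000000000000000 (Nat.mul ps A)
def ps2 (A ps : ℕ) : ℕ := Nat.mul 1000000000000000 (Nat.mul (Nat.sub U ps) A)

def G1 (P : PR) (A ps la li x y CO : ℕ) : ℕ :=
  Nat.add (Nat.mul (ps1 A ps) (Xv P li x y)) (Nat.mul (LAc P la) CO)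

def vt2 (P : PR) (A m u v ps Fu Fv D PN G L a : ℕ) : ℕ :=
  mxF P.hN (mxF P.hN a (LF P A m u Fu ps D PN G L)) (LF P A m v Fv ps D PN G L)

def vtx (P : PR) (A m x y CO u v ps Fu Fv la li ei a : ℕ) : ℕ :=
  vt2 P A m u v ps Fu Fv (Dv P li x y) (Nat.mul P.oE (PVF P (Cv P x y) (Nat.mul Fu P.n1)))
    (Bool.rec (Nat.add (G1 P A ps la li x y CO) (Nat.mul (ps2 A ps) (Ev P ei x y)))
      (G1 P A ps la li x y CO) (Nat.beq ps 1000000))
    (LAf P la) a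

def Co1 (P : PR) (m x y o : ℕ) : ℕ := Nat.add (Cv P x y) (Nat.mul m (Nat.mul o P.n1))
def Co2 (P : PR) (m x y : ℕ) : ℕ := Nat.add (Cv P x y) (Nat.mul m P.s)

def stB (P : PR) (A c0 c1 m o x y : ℕ) (ih : ℕ → ℕ) (a u v ru rv ty la ps li ei : ℕ) : ℕ :=
  ih (Bool.rec a (vtx P A m x y (Bool.rec (Bool.rec (Co1 P m x y o) (Co2 P m x y) (Nat.beq ty 2))
      (Co2 P m x y) (Nat.beq ty 0)) u v ps
    (FF c0 c1 m x y u ru) (FF c0 c1 m x y v rv) la li ei a) (Nat.ble ty 1))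

def stA (P : PR) (A c0 c1 m o x y : ℕ) (I : Iv) (_ : List Iv) (ih : ℕ → ℕ) (a : ℕ) : ℕ :=
  Iv.rec (motive := fun _ => ℕ) (stB P A c0 c1 m o x y ih a) I

/-- all intervals -/
def acG (P : PR) (A c0 c1 m o x y : ℕ) (L : List Iv) : ℕ → ℕ :=
  List.rec (motive := fun _ => ℕ → ℕ) (fun a => a) (stA P A c0 c1 m o x y) L

def hiG (P : PR) (A c0 c1 m o x y : ℕ) (L : List Iv) : ℕ :=
  hi P.mN P.nN (Nat.sub (acG P A c0 c1 m o x y L P.zN) P.zN)

/-- packed weights -/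
def wsG (P : PR) (A c0 c1 : ℕ) : Tr → ℕ → ℕ → ℕ → ℕ → ℕ
  | .lf c, x0, x1, y0, y1 =>
    Lf.rec (motive := fun _ => ℕ) (fun m00 m01 m10 m11 o _ M L _ _ _ _ =>
      Nat.mul (Nat.mul (Nat.mul (Nat.sub x1 x0) (Nat.sub y1 y0)) M)
        (Nat.add (Nat.add (hiG P A c0 c1 m00 o x0 y0 L) (hiG P A c0 c1 m01 o x0 y1 L))
          (Nat.add (hiG P A c0 c1 m10 o x1 y0 L) (hiG P A c0 c1 m11 o x1 y1 L)))) c
  | .em, _, _, _, _ => 0
  | .tp, _, _, _, _ => 0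
  | .sx a l r, x0, x1, y0, y1 => Nat.add (wsG P A c0 c1 l x0 a y0 y1) (wsG P A c0 c1 r a x1 y0 y1)
  | .sy b l r, x0, x1, y0, y1 => Nat.add (wsG P A c0 c1 l x0 x1 y0 b) (wsG P A c0 c1 r x0 x1 b y1)

/-! ### The weights are those of rule R10 -/

theorem mxF_eq (h a b : ℕ) : mxF h a b = mx h a b := by
  have e : ∀ g : ℕ, Nat.shiftRight g 143 = Nat.div g HH := fun g => by
    rw [HH_eq]
    exact Nat.shiftRight_eq_div_pow g 143
  unfold mxF mxt2 mxg2 mx mxt mxg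
  rw [e]

theorem nth_eq {α : Type} (z : α) : ∀ (L : List α) (n : ℕ), nth z L n = L.getD n z
  | [], n => by simp [nth]
  | a :: L, 0 => rfl
  | a :: L, n + 1 => by
    have h := nth_eq z L n
    show nth z L n = _
    rw [h]
    simp

theorem Dv_eq (P : PR) (li x y : ℕ) : Dv P li x y =
    l3 (P.ls.getD li zPL).Dk (P.ls.getD li zPL).Dj (P.ls.getD li zPL).Dl x y := by
  unfold Dv
  rw [nth_eq]
  rfl

theorem Xv_eq (P : PR) (li x y : ℕ) : Xv P li x y =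
    l3 (P.ls.getD li zPL).Xk (P.ls.getD li zPL).Xj (P.ls.getD li zPL).Xl x y := by
  unfold Xv
  rw [nth_eq]
  rfl

theorem Ev_eq (P : PR) (ei x y : ℕ) : Ev P ei x y =
    l3 (P.es.getD ei zPE).k (P.es.getD ei zPE).j (P.es.getD ei zPE).l x y := by
  unfold Ev
  rw [nth_eq]
  rfl

theorem Cv_eq (P : PR) (x y : ℕ) : Cv P x y = l3 P.Sk P.Sj P.Sl x y := rfl

theorem U_lit : U = 1000000 := rfl

theorem UU : U * U = 1000000000000 := by norm_num [U_lit]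

theorem FF_eq (c0 c1 m x y u r : ℕ) : FF c0 c1 m x y u r = F4k c0 c1 m x y u r := by
  unfold FF F4k fa fb mn2
  simp only [Nat.add_eq, Nat.mul_eq, Nat.sub_eq]
  rw [UU, U_lit, mul_assoc (1000000 - m), mul_assoc (2 * (x - (x - y)))]

theorem PVF_eq (P : PR) (C F : ℕ) : PVF P C (Nat.mul F P.n1) = PV P C F := by
  unfold PVF PV
  rw [mxF_eq]
  simp only [Nat.mul_eq, UU]

theorem cG_eq (A m e F ps : ℕ) : cG A m e F ps = cst A m e F ps := by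
  unfold cG cst cc1 cc2 cc3 kU
  simp only [Nat.add_eq, Nat.mul_eq, Nat.sub_eq]
  have e1 : (127000000000000000000000000 * kap e + 1000000000000000 * (ps * A * e)) * m =
      127000000000000000000000000 * (kap e * m) + 1000000000000000 * (ps * A * (m * e)) := by ring
  have e2 : 1000 * ((U - ps) * A) * F = 1000 * ((U - ps) * A * F) := by ring
  rw [e1, e2]

theorem LF_eq (P : PR) (A m e F ps D PN G L : ℕ) :
    LF P A m e F ps D PN G (Nat.mul 1000000000 L) = LP P A m e F ps D PN G L := by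
  unfold LF LP
  rw [cG_eq]
  unfold cc4 cc5 kU
  simp only [Nat.add_eq, Nat.mul_eq, Nat.sub_eq]
  have e1 : F * (1000000000 * L) = 1000000000 * F * L := by ring
  rw [e1]

theorem vtx_eq (P : PR) (A m x y ow u v ps Fu Fv la li ei a : ℕ) :
    vtx P A m x y (Nat.add (Cv P x y) (Nat.mul m ow)) u v ps Fu Fv la li ei a =
      mx P.hN (mx P.hN a (LP P A m u Fu ps
        (l3 (P.ls.getD li zPL).Dk (P.ls.getD li zPL).Dj (P.ls.getD li zPL).Dl x y)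
        (Nat.mul P.oE (PV P (l3 P.Sk P.Sj P.Sl x y) Fu))
        (GP A m ps (spr P.BV P.E la) (l3 P.Sk P.Sj P.Sl x y)
          (l3 (P.ls.getD li zPL).Xk (P.ls.getD li zPL).Xj (P.ls.getD li zPL).Xl x y)
          (l3 (P.es.getD ei zPE).k (P.es.getD ei zPE).j (P.es.getD ei zPE).l x y) ow)
        (Nat.mul (spr P.BV P.E la) P.n1)))
        (LP P A m v Fv ps
        (l3 (P.ls.getD li zPL).Dk (P.ls.getD li zPL).Dj (P.ls.getD li zPL).Dl x y)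
        (Nat.mul P.oE (PV P (l3 P.Sk P.Sj P.Sl x y) Fu))
        (GP A m ps (spr P.BV P.E la) (l3 P.Sk P.Sj P.Sl x y)
          (l3 (P.ls.getD li zPL).Xk (P.ls.getD li zPL).Xj (P.ls.getD li zPL).Xl x y)
          (l3 (P.es.getD ei zPE).k (P.es.getD ei zPE).j (P.es.getD ei zPE).l x y) ow)
        (Nat.mul (spr P.BV P.E la) P.n1)) := by
  have hG : (Bool.rec (Nat.add (G1 P A ps la li x y (Nat.add (Cv P x y) (Nat.mul m ow)))
        (Nat.mul (ps2 A ps) (Ev P ei x y)))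
      (G1 P A ps la li x y (Nat.add (Cv P x y) (Nat.mul m ow))) (Nat.beq ps 1000000) : ℕ) =
      GP A m ps (spr P.BV P.E la) (l3 P.Sk P.Sj P.Sl x y)
          (l3 (P.ls.getD li zPL).Xk (P.ls.getD li zPL).Xj (P.ls.getD li zPL).Xl x y)
          (l3 (P.es.getD ei zPE).k (P.es.getD ei zPE).j (P.es.getD ei zPE).l x y) ow := by
    unfold G1 GP ps1 ps2 LAc
    rw [Xv_eq, Ev_eq, Cv_eq]
    simp only [Nat.add_eq, Nat.mul_eq, Nat.sub_eq]
    generalize l3 (P.ls.getD li zPL).Xk (P.ls.getD li zPL).Xj (P.ls.getD li zPL).Xl x y = X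
    generalize l3 (P.es.getD ei zPE).k (P.es.getD ei zPE).j (P.es.getD ei zPE).l x y = E
    generalize l3 P.Sk P.Sj P.Sl x y = C
    generalize spr P.BV P.E la = LA
    rcases hb : Nat.beq ps 1000000 with _ | _
    · show 1000000000000000 * (ps * A) * X + 1000000000000000000000 * LA * (C + m * ow) +
        1000000000000000 * ((U - ps) * A) * E = _
      ring
    · have h1 : U - ps = 0 := by
        have h2 := Nat.eq_of_beq_eq_true hb
        have h3 := U_lit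
        omega
      show 1000000000000000 * (ps * A) * X + 1000000000000000000000 * LA * (C + m * ow) = _
      rw [h1]
      ring
  unfold vtx vt2
  rw [hG, Dv_eq, Cv_eq, PVF_eq, mxF_eq, mxF_eq]
  unfold LAf
  rw [LF_eq, LF_eq]

theorem br {a b : ℕ} {c : Bool} : (Bool.rec a b c : ℕ) = cond c b a := by cases c <;> rfl

theorem sl0 (a b : ℕ) : sl 0 a b = b := rfl

theorem sl1 (a b : ℕ) : sl (0 + 1) a b = b := rfl

theorem sl2 (n a b : ℕ) : sl (n + 1 + 1) a b = a := rfl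

theorem stB_eq (P : PR) (A c0 c1 m o x y : ℕ) (ih : ℕ → ℕ) (a u v ru rv ty la ps li ei : ℕ) :
    stB P A c0 c1 m o x y ih a u v ru rv ty la ps li ei =
      ih (sl ty a (stp P A c0 c1 m o x y a ⟨u, v, ru, rv, ty, la, ps, li, ei⟩)) := by
  have hs : ∀ ow, owP P ty o = ow →
      vtx P A m x y (Nat.add (Cv P x y) (Nat.mul m ow)) u v ps (F4k c0 c1 m x y u ru)
        (F4k c0 c1 m x y v rv) la li ei a =
      stp P A c0 c1 m o x y a ⟨u, v, ru, rv, ty, la, ps, li, ei⟩ := by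
    intro ow h
    rw [vtx_eq]
    unfold stp st3 st4
    dsimp only
    rw [h]
  unfold stB
  refine congrArg ih ?_
  rw [FF_eq, FF_eq]
  generalize F4k c0 c1 m x y u ru = Fu at hs ⊢
  generalize F4k c0 c1 m x y v rv = Fv at hs ⊢
  generalize hS : (stp P A c0 c1 m o x y a) = S at hs ⊢
  clear hS
  rw [br, br, br]
  rcases ty with _ | _ | n
  · have k := hs P.s rfl
    have e1 : Nat.ble 0 1 = true := rfl
    have e2 : Nat.beq 0 0 = true := rfl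
    rw [e1, e2, cond_true, cond_true, sl0, ← k]
    rfl
  · have k := hs (Nat.mul o P.n1) rfl
    have e1 : Nat.ble (0 + 1) 1 = true := rfl
    have e2 : Nat.beq (0 + 1) 0 = false := rfl
    have e3 : Nat.beq (0 + 1) 2 = false := rfl
    rw [e1, e2, e3, cond_true, cond_false, cond_false, sl1, ← k]
    rfl
  · have e1 : Nat.ble (n + 1 + 1) 1 = false := rfl
    rw [e1, cond_false, sl2]

theorem acG_eq (P : PR) (A c0 c1 m o x y : ℕ) : ∀ (L : List Iv) (a : ℕ),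
    acG P A c0 c1 m o x y L a = acP P A c0 c1 m o x y a L
  | [], a => rfl
  | I :: L, a => by
    have h := acG_eq P A c0 c1 m o x y L
    obtain ⟨u, v, ru, rv, ty, la, ps, li, ei⟩ := I
    have e : acG P A c0 c1 m o x y (⟨u, v, ru, rv, ty, la, ps, li, ei⟩ :: L) a =
        stB P A c0 c1 m o x y (acG P A c0 c1 m o x y L) a u v ru rv ty la ps li ei := rfl
    rw [e, stB_eq, h, acP]

theorem hiG_eq (P : PR) (A c0 c1 m o x y : ℕ) (L : List Iv) :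
    hiG P A c0 c1 m o x y L = hiP P A c0 c1 m o x y L := by
  unfold hiG hiP
  rw [acG_eq]

theorem wsG_eq (P : PR) (A c0 c1 : ℕ) : ∀ (T : Tr) (x0 x1 y0 y1 : ℕ),
    wsG P A c0 c1 T x0 x1 y0 y1 = wsP P A c0 c1 T x0 x1 y0 y1
  | .lf c, x0, x1, y0, y1 => by
    obtain ⟨m00, m01, m10, m11, o, m0, M, L, a1, a2, a3, a4⟩ := c
    rw [wsP]
    show Nat.mul (Nat.mul (Nat.mul (Nat.sub x1 x0) (Nat.sub y1 y0)) M)
        (Nat.add (Nat.add (hiG P A c0 c1 m00 o x0 y0 L) (hiG P A c0 c1 m01 o x0 y1 L))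
          (Nat.add (hiG P A c0 c1 m10 o x1 y0 L) (hiG P A c0 c1 m11 o x1 y1 L))) = _
    rw [hiG_eq, hiG_eq, hiG_eq, hiG_eq]
  | .em, _, _, _, _ => rfl
  | .tp, _, _, _, _ => rfl
  | .sx a l r, x0, x1, y0, y1 => by
    rw [wsG, wsP, wsG_eq P A c0 c1 l, wsG_eq P A c0 c1 r]
  | .sy b l r, x0, x1, y0, y1 => by
    rw [wsG, wsP, wsG_eq P A c0 c1 l, wsG_eq P A c0 c1 r]

/-! ### The check -/

/-- a vertex: error of the check -/
def vxG2 (P : PR) (m o x y Fu Fv ty : ℕ) : ℕ :=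
  Nat.add (Nat.sub Fu Fv) (Nat.add (Nat.sub Fv 4835703278458516698824704)
    (Bool.rec (Nat.sub P.hV (Nat.land (Nat.sub (Nat.add (Nat.mul Fu P.n1) P.hV)
      (Nat.add (Nat.mul 1000000000000
        (Bool.rec (Co1 P m x y o) (Co2 P m x y) (Nat.beq ty 2))) P.n1)) P.hV))
      0 (Nat.ble ty 1)))

def vxG (P : PR) (c0 c1 m o x y u v ru rv ty : ℕ) : ℕ :=
  vxG2 P m o x y (FF c0 c1 m x y u ru) (FF c0 c1 m x y v rv) ty

/-- the error of an end -/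
def erE (u ru : ℕ) : ℕ :=
  Nat.add (Nat.sub (Nat.mul ru ru) (Nat.mul u 1000000)) (Nat.sub (kap u) 8388608)

/-- the error of an interval -/
def erI (c0 c1 nl ne b u v ru rv ps li ei : ℕ) : ℕ :=
  Nat.add (Nat.add (Nat.add (Nat.sub u b) (Nat.sub (Nat.succ u) v))
      (Nat.add (Nat.sub (Nat.succ v) 2000000) (Nat.sub (Nat.mul c1 v) (Nat.mul c0 1000000))))
    (Nat.add (Nat.add (erE u ru) (erE v rv)) (Nat.add (Nat.sub ps 1000000)
      (Nat.add (Nat.sub (Nat.succ li) nl)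
        (Nat.mul (Nat.sub 1000000 ps) (Nat.sub (Nat.succ ei) ne)))))

/-- go on if the error is zero -/
def siC (e : ℕ) (q : Bool) : Bool := Bool.rec false q (Nat.beq e 0)

def siB (P : PR) (c0 c1 nl ne x0 x1 y0 y1 m00 m01 m10 m11 o : ℕ) (ih : ℕ → Bool)
    (b u v ru rv ty _la ps li ei : ℕ) : Bool :=
  siC (Nat.add (erI c0 c1 nl ne b u v ru rv ps li ei)
    (Nat.add (Nat.add (vxG P c0 c1 m00 o x0 y0 u v ru rv ty)
        (vxG P c0 c1 m01 o x0 y1 u v ru rv ty))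
      (Nat.add (vxG P c0 c1 m10 o x1 y0 u v ru rv ty)
        (vxG P c0 c1 m11 o x1 y1 u v ru rv ty)))) (ih v)

def siA (P : PR) (c0 c1 nl ne x0 x1 y0 y1 m00 m01 m10 m11 o : ℕ) (I : Iv) (_ : List Iv)
    (ih : ℕ → Bool) (b : ℕ) : Bool :=
  Iv.rec (motive := fun _ => Bool) (siB P c0 c1 nl ne x0 x1 y0 y1 m00 m01 m10 m11 o ih b) I

def ivG (P : PR) (c0 c1 nl ne x0 x1 y0 y1 m00 m01 m10 m11 o : ℕ) (L : List Iv) : ℕ → Bool :=
  List.rec (motive := fun _ => ℕ → Bool) (fun b => Nat.blt (Nat.add U P.sM) b)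
    (siA P c0 c1 nl ne x0 x1 y0 y1 m00 m01 m10 m11 o) L

def lkG (P : PR) (c0 c1 nl ne x0 x1 y0 y1 : ℕ) (c : Lf) : Bool :=
  bk x0 x1 y0 y1 c && (Nat.ble c.o 16777216 &&
    Lf.rec (motive := fun _ => Bool) (fun m00 m01 m10 m11 o _ _ L _ _ _ _ =>
      ivG P c0 c1 nl ne x0 x1 y0 y1 m00 m01 m10 m11 o L 0) c)

/-- the check of a tree -/
def ckG (P : PR) (c0 c1 : ℕ) (nf : ℕ → ℕ → ℕ) (h : ℕ) : Tr → ℕ → ℕ → ℕ → ℕ → Bool
  | .lf c, x0, x1, y0, y1 => lkG P c0 c1 (nf x0 y0) P.ne x0 x1 y0 y1 c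
  | .em, x0, _, y0, _ => Nat.ble U (2 * x0 + y0) || Nat.ble U (x0 + 2 * y0)
  | .tp, _, x1, _, y1 => Nat.ble x1 h && Nat.ble y1 h
  | .sx a l r, x0, x1, y0, y1 =>
    ckG P c0 c1 nf h l x0 a y0 y1 && ckG P c0 c1 nf h r a x1 y0 y1
  | .sy b l r, x0, x1, y0, y1 =>
    ckG P c0 c1 nf h l x0 x1 y0 b && ckG P c0 c1 nf h r x0 x1 b y1

theorem lle_of {h a b : ℕ}
    (e : Nat.sub h (Nat.land (Nat.sub (Nat.add b h) a) h) = 0) : lle h a b = true := by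
  unfold lle
  have h1 : Nat.land (Nat.sub (Nat.add b h) a) h ≤ h := Nat.and_le_right
  have h2 : h - Nat.land (Nat.sub (Nat.add b h) a) h = 0 := e
  rw [Nat.beq_eq]
  omega

theorem vxG_ok {P : PR} {c0 c1 m o x y u v ru rv ty la ps li ei : ℕ}
    (h : vxG P c0 c1 m o x y u v ru rv ty = 0) :
    vxP P c0 c1 m o x y ⟨u, v, ru, rv, ty, la, ps, li, ei⟩ = true := by
  unfold vxG vxG2 at h
  rw [FF_eq, FF_eq, br, br] at h
  simp only [Nat.add_eq, Nat.sub_eq] at h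
  have h1 : F4k c0 c1 m x y u ru - F4k c0 c1 m x y v rv = 0 := by omega
  have h2 : F4k c0 c1 m x y v rv - 4835703278458516698824704 = 0 := by omega
  unfold vxP
  rw [Bool.and_eq_true, Bool.and_eq_true, Nat.ble_eq, Nat.ble_eq]
  refine ⟨Nat.le_of_sub_eq_zero h1, Nat.le_of_sub_eq_zero h2, ?_⟩
  rcases ty with _ | _ | n
  · rfl
  · rfl
  · have e1 : Nat.ble (n + 1 + 1) 1 = false := rfl
    rw [e1, cond_false] at h
    have h3 : P.hV - Nat.land (Nat.mul (F4k c0 c1 m x y u ru) P.n1 + P.hV -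
      (Nat.mul 1000000000000 (cond (Nat.beq (n + 1 + 1) 2) (Co2 P m x y) (Co1 P m x y o)) +
        P.n1)) P.hV = 0 := by omega
    show lle P.hV (Nat.add (Nat.mul (Nat.mul U U)
      (Nat.add (l3 P.Sk P.Sj P.Sl x y) (Nat.mul m (owP P (n + 1 + 1) o)))) P.n1)
        (Nat.mul (F4k c0 c1 m x y u ru) P.n1) = true
    have e2 : cond (Nat.beq (n + 1 + 1) 2) (Co2 P m x y) (Co1 P m x y o) =
        Nat.add (l3 P.Sk P.Sj P.Sl x y) (Nat.mul m (owP P (n + 1 + 1) o)) := by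
      rcases n with _ | n
      · rfl
      · rfl
    have e3 : Nat.mul U U = 1000000000000 := UU
    rw [← e2, e3]
    exact lle_of h3

theorem sum0 {a b : ℕ} (h : a + b = 0) : a = 0 ∧ b = 0 := Nat.add_eq_zero_iff.1 h

theorem erI_ok {P : PR} {c0 c1 nl ne b x0 x1 y0 y1 u v ru rv ty la ps li ei : ℕ} {c : Lf}
    (h : erI c0 c1 nl ne b u v ru rv ps li ei = 0)
    (h0 : vxG P c0 c1 c.m00 c.o x0 y0 u v ru rv ty = 0)
    (h1 : vxG P c0 c1 c.m01 c.o x0 y1 u v ru rv ty = 0)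
    (h2 : vxG P c0 c1 c.m10 c.o x1 y0 u v ru rv ty = 0)
    (h3 : vxG P c0 c1 c.m11 c.o x1 y1 u v ru rv ty = 0) :
    u ≤ b ∧ ikP P c0 c1 nl ne x0 x1 y0 y1 c ⟨u, v, ru, rv, ty, la, ps, li, ei⟩ = true := by
  unfold erI erE at h
  simp only [Nat.add_eq, Nat.sub_eq, Nat.mul_eq] at h
  obtain ⟨h4, h5⟩ := sum0 h
  obtain ⟨h6, h7⟩ := sum0 h4
  obtain ⟨p1, p2⟩ := sum0 h6
  obtain ⟨p3, p4⟩ := sum0 h7
  obtain ⟨h8, h9⟩ := sum0 h5
  obtain ⟨h10, h11⟩ := sum0 h8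
  obtain ⟨p5, p7⟩ := sum0 h10
  obtain ⟨p6, p8⟩ := sum0 h11
  obtain ⟨p9, h12⟩ := sum0 h9
  obtain ⟨p10, p11⟩ := sum0 h12
  refine ⟨Nat.le_of_sub_eq_zero p1, ?_⟩
  have q11 : (Nat.ble U ps || Nat.blt ei ne) = true := by
    rw [Bool.or_eq_true, Nat.ble_eq, Nat.blt_eq, U_lit]
    rcases Nat.mul_eq_zero.1 p11 with h5 | h5
    · exact Or.inl (Nat.le_of_sub_eq_zero h5)
    · exact Or.inr (Nat.le_of_sub_eq_zero h5)
  unfold ikP
  dsimp only
  rw [vxG_ok h0, vxG_ok h1, vxG_ok h2, vxG_ok h3, q11]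
  simp only [Nat.mul_eq, Bool.and_true, Bool.and_eq_true, Nat.blt_eq, Nat.ble_eq, U_lit]
  refine ⟨⟨⟨⟨⟨⟨⟨?_, ?_⟩, ?_⟩, ?_⟩, ?_⟩, ?_⟩, ?_⟩, ?_, ?_⟩
  · exact Nat.le_of_sub_eq_zero p2
  · exact Nat.le_of_sub_eq_zero p3
  · exact Nat.le_of_sub_eq_zero p5
  · exact Nat.le_of_sub_eq_zero p6
  · exact Nat.le_of_sub_eq_zero p4
  · exact Nat.le_of_sub_eq_zero p9
  · exact Nat.le_of_sub_eq_zero p10
  · exact Nat.le_of_sub_eq_zero p7
  · exact Nat.le_of_sub_eq_zero p8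

theorem ivG_cons (P : PR) (c0 c1 nl ne x0 x1 y0 y1 m00 m01 m10 m11 o : ℕ)
    (u v ru rv ty la ps li ei : ℕ) (L : List Iv) (b : ℕ) :
    ivG P c0 c1 nl ne x0 x1 y0 y1 m00 m01 m10 m11 o (⟨u, v, ru, rv, ty, la, ps, li, ei⟩ :: L) b =
      siB P c0 c1 nl ne x0 x1 y0 y1 m00 m01 m10 m11 o
        (ivG P c0 c1 nl ne x0 x1 y0 y1 m00 m01 m10 m11 o L) b u v ru rv ty la ps li ei := rfl

theorem sB {a0 a1 a2 a3 a4 : ℕ} {q : Bool}
    (h : siC (Nat.add a0 (Nat.add (Nat.add a1 a2) (Nat.add a3 a4))) q = true) :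
    (a0 = 0 ∧ (a1 = 0 ∧ a2 = 0) ∧ (a3 = 0 ∧ a4 = 0)) ∧ q = true := by
  have k : ∀ (e : ℕ) (q : Bool), siC e q = true → e = 0 ∧ q = true := by
    intro e q h
    rcases e with _ | e
    · exact ⟨rfl, h⟩
    · exact absurd h Bool.false_ne_true
  obtain ⟨h0, h5⟩ := k _ _ h
  obtain ⟨h1, h2⟩ := sum0 h0
  obtain ⟨h3, h4⟩ := sum0 h2
  exact ⟨⟨h1, sum0 h3, sum0 h4⟩, h5⟩

theorem siB_iff {P : PR} {c0 c1 nl ne x0 x1 y0 y1 m00 m01 m10 m11 o : ℕ} {ih : ℕ → Bool}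
    {b u v ru rv ty la ps li ei : ℕ}
    (h : siB P c0 c1 nl ne x0 x1 y0 y1 m00 m01 m10 m11 o ih b u v ru rv ty la ps li ei = true) :
    (erI c0 c1 nl ne b u v ru rv ps li ei = 0 ∧
      (vxG P c0 c1 m00 o x0 y0 u v ru rv ty = 0 ∧ vxG P c0 c1 m01 o x0 y1 u v ru rv ty = 0) ∧
      (vxG P c0 c1 m10 o x1 y0 u v ru rv ty = 0 ∧ vxG P c0 c1 m11 o x1 y1 u v ru rv ty = 0)) ∧
      ih v = true := by
  exact sB h

theorem ivG_ok {P : PR} {c0 c1 nl ne x0 x1 y0 y1 : ℕ} {c : Lf} : ∀ (L : List Iv) (b : ℕ),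
    ivG P c0 c1 nl ne x0 x1 y0 y1 c.m00 c.m01 c.m10 c.m11 c.o L b = true →
      ivP P c0 c1 nl ne x0 x1 y0 y1 c b L = true
  | [], b, h => h
  | ⟨u, v, ru, rv, ty, la, ps, li, ei⟩ :: L, b, h => by
    rw [ivG_cons] at h
    obtain ⟨⟨h1, ⟨h2, h3⟩, h4, h5⟩, h6⟩ := siB_iff h
    obtain ⟨k1, k2⟩ := erI_ok (la := la) h1 h2 h3 h4 h5
    rw [ivP, Bool.and_eq_true, Bool.and_eq_true, Nat.ble_eq]
    exact ⟨k1, k2, ivG_ok L v h6⟩

theorem lkG_ok {P : PR} {c0 c1 nl ne x0 x1 y0 y1 : ℕ} {c : Lf}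
    (h : lkG P c0 c1 nl ne x0 x1 y0 y1 c = true) : lkP P c0 c1 nl ne x0 x1 y0 y1 c = true := by
  unfold lkG at h
  unfold lkP
  rw [Bool.and_eq_true, Bool.and_eq_true] at h ⊢
  refine ⟨h.1, h.2.1, ivG_ok (c := c) c.iv 0 ?_⟩
  obtain ⟨m00, m01, m10, m11, o, m0, M, L, a1, a2, a3, a4⟩ := c
  exact h.2.2

theorem ckG_ok {P : PR} {c0 c1 : ℕ} {nf : ℕ → ℕ → ℕ} {h : ℕ} : ∀ {T : Tr} {x0 x1 y0 y1 : ℕ},
    ckG P c0 c1 nf h T x0 x1 y0 y1 = true → ckP P c0 c1 nf h T x0 x1 y0 y1 = true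
  | .lf c, x0, x1, y0, y1, e => by
    rw [ckG] at e
    rw [ckP]
    exact lkG_ok e
  | .em, _, _, _, _, e => e
  | .tp, _, _, _, _, e => e
  | .sx a l r, x0, x1, y0, y1, e => by
    rw [ckG, Bool.and_eq_true] at e
    rw [ckP, Bool.and_eq_true]
    exact ⟨ckG_ok e.1, ckG_ok e.2⟩
  | .sy b l r, x0, x1, y0, y1, e => by
    rw [ckG, Bool.and_eq_true] at e
    rw [ckP, Bool.and_eq_true]
    exact ⟨ckG_ok e.1, ckG_ok e.2⟩

/-- **the fast check of a piece** -/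
def okG (P : PR) (A c0 c1 : ℕ) (nf : ℕ → ℕ → ℕ) (h : ℕ) (T : Tr) (x0 x1 y0 y1 w a : ℕ) : Bool :=
  ckG P c0 c1 nf h T x0 x1 y0 y1 && (Nat.beq (wsG P A c0 c1 T x0 x1 y0 y1) w &&
    Nat.beq (arP T x0 x1 y0 y1) a)

theorem OkT.fast {P : PR} {A c0 c1 : ℕ} {nf : ℕ → ℕ → ℕ} {h : ℕ} {T : Tr} {x0 x1 y0 y1 w a : ℕ}
    (e : okG P A c0 c1 nf h T x0 x1 y0 y1 w a = true) :
    OkT P A c0 c1 nf h T x0 x1 y0 y1 w a := by
  unfold okG at e
  rw [Bool.and_eq_true, Bool.and_eq_true, Nat.beq_eq, Nat.beq_eq] at e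
  exact ⟨ckG_ok e.1, (wsG_eq P A c0 c1 T x0 x1 y0 y1).symm.trans e.2.1, e.2.2⟩

end Helper60.R10

end
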