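import Pool.Agent.Helper78.MEI.WC7
import Pool.Agent.Helper60.MEI.Cells

/-!
# Project MEI (M2), w-term: checker for tables of rule R7

All numbers are naturals in units of `10⁻⁶`. A table is a tree of boxes in the chart of a corner
(`x = t_j`, `y = t_l`, `t_k = 1 - x - y ≥ x, y`); a leaf carries bounds of `m`, of the own value, of
`M3`, a list of intervals of `w` with a rule, and for every row (vertex of the parameter box)
the value `om` and the bounds `D1`, `E1`.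
-/

set_option autoImplicit false

namespace Helper60.R7

open Set MeasureTheory Helper78.MEI Helper80.CW Helper82.CW Helper14.CW Helper93.MEI Helper82.M2
open Helper14.MEI2 Pool.Agent.Helper52.MEI Pool.Agent.Helper73.MEI Pool.Agent.Helper31.SR

/-! ### Real lemmas -/

/-- LOAD with the bracket at the right end of the interval -/
theorem lin_sound {A m C D f v w om m0 m1 D1 P : ℝ} (hA : 0 ≤ A) (hm0 : 0 < m0) (hm : m0 ≤ m)
    (hm1 : m ≤ m1) (hD : D ≤ D1) (hD1 : D1 ≤ 1) (hP0 : 0 ≤ P) (hP : C - f ≤ P) (hw : 0 ≤ w)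
    (hwv : w ≤ v) (hv : v < 2) (hom : 0 ≤ om)
    (hk : 0.254 * v * m0 * m1 + A * v * (m1 - 1 + D1) * (2 - v) * m0 + A * v * P * m1 ≤
      om * (2 - v) * m0 * m1) : Ci A m C D f w w om := by
  have hmp : 0 < m := hm0.trans_le hm
  have hm1p : 0 < m1 := hmp.trans_le hm1
  have dv : 0 < 2 - v := by linarith
  have dw : 0 < 2 - w := by linarith
  have dw' : 0 < 1 - w / 2 := by linarith
  obtain ⟨b, hb⟩ : ∃ b, b = 0.254 / (2 - v) + A * (1 - (1 - D1) / m1) + A * (P / m0) / (2 - v) :=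
    ⟨_, rfl⟩
  have hbv : v * b ≤ om := by
    have e : v * b = (0.254 * v * m0 * m1 + A * v * (m1 - 1 + D1) * (2 - v) * m0 + A * v * P * m1)
        / ((2 - v) * m0 * m1) := by
      rw [hb]
      field_simp
      ring
    rw [e, div_le_iff₀ (by positivity)]
    linarith
  have k1 : 0.127 * w / (1 - w / 2) ≤ w * (0.254 / (2 - v)) := by
    have e : 0.127 * w / (1 - w / 2) = w * (0.254 / (2 - w)) := by
      field_simp
      ring
    rw [e]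
    exact mul_le_mul_of_nonneg_left (div_le_div_of_nonneg_left (by norm_num) dv (by linarith)) hw
  have k2 : A * ((1 - (1 - D) / m) * w) ≤ w * (A * (1 - (1 - D1) / m1)) := by
    have k : 1 - (1 - D) / m ≤ 1 - (1 - D1) / m1 := by
      have k1 : (1 - D1) / m1 ≤ (1 - D1) / m :=
        div_le_div_of_nonneg_left (by linarith) hmp hm1
      have k2 : (1 - D1) / m ≤ (1 - D) / m := div_le_div_of_nonneg_right (by linarith) hmp.le
      linarith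
    have := mul_le_mul_of_nonneg_left (mul_le_mul_of_nonneg_right k hw) hA
    linarith
  have k3 : ng A m C f w ≤ w * (A * (P / m0) / (2 - v)) := by
    unfold ng
    have e : w / 2 / (1 - w / 2) = w / (2 - w) := by
      field_simp
    rw [e]
    have q1 : pp ((C - f) / m) ≤ P / m0 := by
      refine max_le ?_ (div_nonneg hP0 hm0.le)
      calc (C - f) / m ≤ P / m := div_le_div_of_nonneg_right hP hmp.le
        _ ≤ P / m0 := div_le_div_of_nonneg_left hP0 hm0 hm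
    have q2 : w / (2 - w) ≤ w / (2 - v) := div_le_div_of_nonneg_left hw dv (by linarith)
    have q3 : 0 ≤ w / (2 - w) := div_nonneg hw dw.le
    calc A * pp ((C - f) / m) * (w / (2 - w)) ≤ A * (P / m0) * (w / (2 - w)) :=
          mul_le_mul_of_nonneg_right (mul_le_mul_of_nonneg_left q1 hA) q3
      _ ≤ A * (P / m0) * (w / (2 - v)) :=
          mul_le_mul_of_nonneg_left q2 (mul_nonneg hA (div_nonneg hP0 hm0.le))
      _ = w * (A * (P / m0) / (2 - v)) := by ring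
  unfold Ci
  rw [max_self]
  have k4 : w * b ≤ om := by
    rcases le_total 0 b with h | h
    · exact (mul_le_mul_of_nonneg_right hwv h).trans hbv
    · exact (mul_nonpos_of_nonneg_of_nonpos hw h).trans hom
  rw [hb] at k4
  linarith

/-- STRIPS -/
theorem strips_sound {A m C E f v om m0 P PE : ℝ} (hA : 0 ≤ A) (hm0 : 0 < m0) (hm : m0 ≤ m)
    (hP0 : 0 ≤ P) (hP : C - f ≤ P) (hPE0 : 0 ≤ PE) (hPE : E - f ≤ PE) (hv0 : 0 ≤ v) (hv : v < 2)
    (hk : 0.254 * v * m0 + A * PE * (2 - v) + A * P * v ≤ om * (2 - v) * m0) :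
    Cii A m C E f v om := by
  have hmp : 0 < m := hm0.trans_le hm
  have dv : 0 < 2 - v := by linarith
  have dv' : 0 < 1 - v / 2 := by linarith
  have e : 0.127 * v / (1 - v / 2) + A * (PE / m0) + A * (P / m0) * (v / 2 / (1 - v / 2)) =
      (0.254 * v * m0 + A * PE * (2 - v) + A * P * v) / ((2 - v) * m0) := by
    field_simp
    ring
  have k0 : 0.127 * v / (1 - v / 2) + A * (PE / m0) + A * (P / m0) * (v / 2 / (1 - v / 2)) ≤ om := by
    rw [e, div_le_iff₀ (by positivity)]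
    linarith
  have q1 : pp ((C - f) / m) ≤ P / m0 := by
    refine max_le ?_ (div_nonneg hP0 hm0.le)
    calc (C - f) / m ≤ P / m := div_le_div_of_nonneg_right hP hmp.le
      _ ≤ P / m0 := div_le_div_of_nonneg_left hP0 hm0 hm
  have q2 : (E - f) / m ≤ PE / m0 :=
    calc (E - f) / m ≤ PE / m := div_le_div_of_nonneg_right hPE hmp.le
      _ ≤ PE / m0 := div_le_div_of_nonneg_left hPE0 hm0 hm
  have q3 : 0 ≤ v / 2 / (1 - v / 2) := by positivity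
  have k1 : ng A m C f v ≤ A * (P / m0) * (v / 2 / (1 - v / 2)) :=
    mul_le_mul_of_nonneg_right (mul_le_mul_of_nonneg_left q1 hA) q3
  have k2 := mul_le_mul_of_nonneg_left q2 hA
  unfold Cii
  linarith

/-- OUT OF RANGE -/
theorem out_sound {m C ow f m1 o1 C1 : ℝ} (hm : 0 ≤ m) (hm1 : m ≤ m1) (hC : C ≤ C1)
    (ho : ow ≤ o1) (ho0 : 0 ≤ o1) (hk : C1 + m1 * o1 < f) : Ciii m C ow f := by
  have k1 := mul_le_mul_of_nonneg_left ho hm
  have k2 := mul_le_mul_of_nonneg_right hm1 ho0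
  unfold Ciii
  linarith

/-- convex combinations of a linear inequality -/
theorem comb {n : ℕ} {lam : ℕ → ℝ} (h0 : ∀ i, 0 ≤ lam i)
    (h1 : ∑ i ∈ Finset.range n, lam i = 1) {α β γ δ : ℝ} {D P om : ℕ → ℝ}
    (h : ∀ i < n, α + β * D i + γ * P i ≤ δ * om i) :
    α + β * ∑ i ∈ Finset.range n, lam i * D i + γ * ∑ i ∈ Finset.range n, lam i * P i ≤
      δ * ∑ i ∈ Finset.range n, lam i * om i := by
  have e : α + β * ∑ i ∈ Finset.range n, lam i * D i + γ * ∑ i ∈ Finset.range n, lam i * P i =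
      ∑ i ∈ Finset.range n, lam i * (α + β * D i + γ * P i) := by
    have e1 : ∀ i, lam i * (α + β * D i + γ * P i) =
        α * lam i + β * (lam i * D i) + γ * (lam i * P i) := fun i => by ring
    simp only [e1, Finset.sum_add_distrib, ← Finset.mul_sum, h1, mul_one]
  have e2 : δ * ∑ i ∈ Finset.range n, lam i * om i =
      ∑ i ∈ Finset.range n, lam i * (δ * om i) := by
    rw [Finset.mul_sum]
    exact Finset.sum_congr rfl fun i _ => by ring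
  rw [e, e2]
  exact Finset.sum_le_sum fun i hi => mul_le_mul_of_nonneg_left (h i (Finset.mem_range.1 hi)) (h0 i)

/-! ### The checker -/

/-- the unit -/
def U : ℕ := 1000000

/-- value of the strip function, units `U⁻⁴` -/
def F4 (c0 c1 m1 mu u r : ℕ) : ℕ :=
  (U - m1) * u * (U * U) + 2 * mu * (c0 * U - c1 * u) * r

/-- a row: `S_k`, `S_j`, `S_l`, `s` -/
structure Row where
  Sk : ℕ
  Sj : ℕ
  Sl : ℕ
  s : ℕ
deriving DecidableEq

/-- values of a row on a leaf -/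
structure Vl where
  om : ℕ
  D1 : ℕ
  E1 : ℕ
deriving DecidableEq

/-- an interval of `w`: `u`, `v`, `r` with `r² ≤ u`, rule `0` LOAD, `1` STRIPS, `2` OUT with `s`,
`3` OUT with the own value -/
structure Iv where
  u : ℕ
  v : ℕ
  r : ℕ
  ty : ℕ
deriving DecidableEq

/-- a leaf -/
structure Leaf where
  m0 : ℕ
  m1 : ℕ
  o : ℕ
  M : ℕ
  iv : List Iv
  vl : List Vl
  ax : List ℕ
deriving DecidableEq

def zR : Row := ⟨0, 0, 0, 0⟩
def zV : Vl := ⟨0, 0, 0⟩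

/-- upper bound of `Σ t_i S_i`, units `U⁻²` -/
def C2 (R : Row) (x0 x1 y0 y1 : ℕ) : ℕ :=
  R.Sk * U + x1 * (R.Sj - R.Sk) + y1 * (R.Sl - R.Sk) - x0 * (R.Sk - R.Sj) - y0 * (R.Sk - R.Sl)

/-- one interval, one row -/
def ick (A m0 m1 o F v ty C : ℕ) (s : ℕ) (V : Vl) : Bool :=
  match ty with
  | 0 => Nat.ble (254 * v * m0 * m1 * (U ^ 4) + 1000 * A * v * (m1 + V.D1) * (2 * U - v) * m0 * U ^ 2
      + 1000 * A * v * (C * U ^ 2 - F) * m1)
      (1000 * V.om * (2 * U - v) * m0 * m1 * U ^ 3 + 1000 * A * v * U * (2 * U - v) * m0 * U ^ 2)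
  | 1 => Nat.ble (254 * v * m0 * U ^ 4 + 1000 * A * (V.E1 * U ^ 3 - F) * (2 * U - v)
      + 1000 * A * (C * U ^ 2 - F) * v) (1000 * V.om * (2 * U - v) * m0 * U ^ 3)
  | 2 => Nat.ble (C * U ^ 2 + m1 * s * U ^ 2 + 1) F
  | _ => Nat.ble (C * U ^ 2 + m1 * o * U ^ 2 + 1) F

/-- one interval, all rows -/
def rck (A m0 m1 o F v ty x0 x1 y0 y1 : ℕ) : List Row → List Vl → Bool
  | [], _ => true
  | R :: Rs, V :: Vs => ick A m0 m1 o F v ty (C2 R x0 x1 y0 y1) R.s V &&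
      rck A m0 m1 o F v ty x0 x1 y0 y1 Rs Vs
  | _ :: _, [] => false

/-- list of intervals, `b` is reached -/
def ivck (rows : List Row) (A c0 c1 m0 m1 o mu x0 x1 y0 y1 : ℕ) (V : List Vl) :
    ℕ → List Iv → Bool
  | b, [] => rows.all fun R => Nat.blt (U + R.s) b
  | b, I :: L => Nat.ble I.u b && Nat.ble 1 (2 * U - I.v) && Nat.ble (I.r * I.r) (I.u * U) &&
      Nat.ble (c1 * I.u) (c0 * U) &&
      rck A m0 m1 o (F4 c0 c1 m1 mu I.u I.r) I.v I.ty x0 x1 y0 y1 rows V &&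
      ivck rows A c0 c1 m0 m1 o mu x0 x1 y0 y1 V I.v L

/-- the bounds of `m`, of the own value and of `M3` -/
def mck (x0 x1 y0 y1 : ℕ) (c : Leaf) : Bool :=
  Nat.blt (x1 + y1) U && Nat.blt 0 c.m0 && Nat.ble c.m1 U &&
  Nat.ble (U * U + x0 * x0 + y0 * y0 + x0 * y0) (c.m1 * c.m1 + U * x0 + U * y0) &&
  ((Nat.ble (2 * x1 + y1) U && Nat.ble (x1 + 2 * y1) U &&
      Nat.ble (c.m0 * c.m0 + U * x1 + U * y1) (U * U + x1 * x1 + y1 * y1 + x1 * y1)) ||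
    Nat.ble (c.m0 * c.m0 + U * x1 + U * y1) (U * U + x0 * x0 + y0 * y0 + x0 * y0) ||
    Nat.ble (3 * (c.m0 * c.m0)) (2 * (U * U))) &&
  Nat.ble (U * (3 * (x1 * x1) + 2 * (x1 * y1) + 3 * (y1 * y1)))
    (c.o * ((2 * U - x1 - y1) * (2 * U - x1 - y1))) &&
  Nat.ble (U ^ 4) (c.M * (c.m0 * c.m0 * c.m0))

/-- the leaf -/
def leafck (rows : List Row) (A c0 c1 : ℕ) (x0 x1 y0 y1 : ℕ) (c : Leaf) : Bool :=
  mck x0 x1 y0 y1 c && (c.vl.all fun V => Nat.ble V.D1 U) && Nat.ble rows.length c.vl.length &&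
    ivck rows A c0 c1 c.m0 c.m1 c.o (min x0 y0) x0 x1 y0 y1 c.vl 0 c.iv

/-- tree of boxes -/
inductive Tr where
  | lf (c : Leaf) : Tr
  | em : Tr
  | sx (a : ℕ) (l r : Tr) : Tr
  | sy (b : ℕ) (l r : Tr) : Tr

/-- the checker; `ext` = check of `D1`, `E1` -/
def Tr.ck (rows : List Row) (A c0 c1 : ℕ) (ext : ℕ → ℕ → ℕ → ℕ → Leaf → Bool) :
    Tr → ℕ → ℕ → ℕ → ℕ → Bool
  | lf c, x0, x1, y0, y1 => leafck rows A c0 c1 x0 x1 y0 y1 c && ext x0 x1 y0 y1 c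
  | em, x0, _, y0, _ => Nat.ble U (2 * x0 + y0) || Nat.ble U (x0 + 2 * y0)
  | sx a l r, x0, x1, y0, y1 => Nat.ble x0 a && Nat.ble a x1 &&
      Tr.ck rows A c0 c1 ext l x0 a y0 y1 && Tr.ck rows A c0 c1 ext r a x1 y0 y1
  | sy b l r, x0, x1, y0, y1 => Nat.ble y0 b && Nat.ble b y1 &&
      Tr.ck rows A c0 c1 ext l x0 x1 y0 b && Tr.ck rows A c0 c1 ext r x0 x1 b y1

/-- the weight of row `i`, units `U⁻⁴` -/
def Tr.wt (i : ℕ) : Tr → ℕ → ℕ → ℕ → ℕ → ℕ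
  | lf c, x0, x1, y0, y1 => (c.vl.getD i zV).om * ((x1 - x0) * (y1 - y0)) * c.M
  | em, _, _, _, _ => 0
  | sx a l r, x0, x1, y0, y1 => Tr.wt i l x0 a y0 y1 + Tr.wt i r a x1 y0 y1
  | sy b l r, x0, x1, y0, y1 => Tr.wt i l x0 x1 y0 b + Tr.wt i r x0 x1 b y1

/-! ### Soundness: one interval -/

theorem U_pos : (0 : ℝ) < (U : ℝ) := by
  unfold U
  norm_num

theorem cast_tsub (a b : ℕ) : ((a : ℝ) - b ≤ ((a - b : ℕ) : ℝ)) ∧ 0 ≤ ((a - b : ℕ) : ℝ) := by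
  refine ⟨?_, Nat.cast_nonneg _⟩
  rcases le_total b a with h | h
  · rw [Nat.cast_sub h]
  · have h1 : ((a : ℝ)) ≤ b := by exact_mod_cast h
    have h2 : (0 : ℝ) ≤ ((a - b : ℕ) : ℝ) := Nat.cast_nonneg _
    linarith

theorem rck_get {A m0 m1 o F v ty x0 x1 y0 y1 : ℕ} : ∀ {Rs : List Row} {Vs : List Vl},
    rck A m0 m1 o F v ty x0 x1 y0 y1 Rs Vs = true → ∀ i < Rs.length,
      ick A m0 m1 o F v ty (C2 (Rs.getD i zR) x0 x1 y0 y1) (Rs.getD i zR).s (Vs.getD i zV) = true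
  | [], _, _, i, hi => by simp at hi
  | R :: Rs, [], h, i, hi => by simp [rck] at h
  | R :: Rs, V :: Vs, h, i, hi => by
    rw [rck, Bool.and_eq_true] at h
    cases i with
    | zero => simpa using h.1
    | succ i =>
      have := rck_get h.2 i (by simpa using hi)
      simpa using this

/-- type 0, one row, in real numbers -/
theorem ick0 {A m0 m1 o F v C s : ℕ} {V : Vl} (hv : 1 ≤ 2 * U - v)
    (h : ick A m0 m1 o F v 0 C s V = true) :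
    (0.254 * ((v : ℝ) / U) * ((m0 : ℝ) / U) * ((m1 : ℝ) / U) +
      (A : ℝ) / U * ((v : ℝ) / U) * ((m1 : ℝ) / U - 1) * (2 - (v : ℝ) / U) * ((m0 : ℝ) / U)) +
      ((A : ℝ) / U * ((v : ℝ) / U) * (2 - (v : ℝ) / U) * ((m0 : ℝ) / U)) * ((V.D1 : ℝ) / U) +
      ((A : ℝ) / U * ((v : ℝ) / U) * ((m1 : ℝ) / U)) *
        (((C * U ^ 2 - F : ℕ) : ℝ) / U ^ 4) ≤
      ((2 - (v : ℝ) / U) * ((m0 : ℝ) / U) * ((m1 : ℝ) / U)) * ((V.om : ℝ) / U) := by
  have hU := U_pos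
  obtain ⟨P, hP⟩ : ∃ P, P = C * U ^ 2 - F := ⟨_, rfl⟩
  simp only [ick, Nat.ble_eq] at h
  rw [← hP] at h ⊢
  have h' : ((254 * v * m0 * m1 * (U ^ 4) + 1000 * A * v * (m1 + V.D1) * (2 * U - v) * m0 * U ^ 2
      + 1000 * A * v * P * m1 : ℕ) : ℝ) ≤
      ((1000 * V.om * (2 * U - v) * m0 * m1 * U ^ 3 +
        1000 * A * v * U * (2 * U - v) * m0 * U ^ 2 : ℕ) : ℝ) := by
    exact_mod_cast h
  have e2 : ((2 * U - v : ℕ) : ℝ) = 2 * U - v := by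
    rw [Nat.cast_sub (by omega)]
    push_cast
    ring
  push_cast at h'
  rw [e2] at h'
  refine le_of_mul_le_mul_right ?_ (show (0 : ℝ) < 1000 * (U : ℝ) ^ 7 by positivity)
  have e3 : ∀ z : ℝ, z = z / (U : ℝ) * U := fun z => by field_simp
  obtain ⟨a, ha⟩ : ∃ a, a = (v : ℝ) / U := ⟨_, rfl⟩
  obtain ⟨b, hb⟩ : ∃ a, a = (m0 : ℝ) / U := ⟨_, rfl⟩
  obtain ⟨d, hd⟩ : ∃ a, a = (m1 : ℝ) / U := ⟨_, rfl⟩
  obtain ⟨e, he⟩ : ∃ a, a = (A : ℝ) / U := ⟨_, rfl⟩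
  obtain ⟨g, hg⟩ : ∃ a, a = (V.D1 : ℝ) / U := ⟨_, rfl⟩
  obtain ⟨k, hk⟩ : ∃ a, a = (V.om : ℝ) / U := ⟨_, rfl⟩
  obtain ⟨p, hp⟩ : ∃ a, a = (P : ℝ) / (U : ℝ) ^ 4 := ⟨_, rfl⟩
  have hv' : (v : ℝ) = a * U := by rw [ha]; exact e3 _
  have hm0' : (m0 : ℝ) = b * U := by rw [hb]; exact e3 _
  have hm1' : (m1 : ℝ) = d * U := by rw [hd]; exact e3 _
  have hA' : (A : ℝ) = e * U := by rw [he]; exact e3 _
  have hD' : (V.D1 : ℝ) = g * U := by rw [hg]; exact e3 _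
  have ho' : (V.om : ℝ) = k * U := by rw [hk]; exact e3 _
  have hP' : (P : ℝ) = p * (U : ℝ) ^ 4 := by rw [hp]; field_simp
  rw [← ha, ← hb, ← hd, ← he, ← hg, ← hk, ← hp]
  rw [hv', hm0', hm1', hA', hD', ho', hP'] at h'
  linarith

/-- type 1, one row, in real numbers -/
theorem ick1 {A m0 m1 o F v C s : ℕ} {V : Vl} (hv : 1 ≤ 2 * U - v)
    (h : ick A m0 m1 o F v 1 C s V = true) :
    0.254 * ((v : ℝ) / U) * ((m0 : ℝ) / U) +
      ((A : ℝ) / U * (2 - (v : ℝ) / U)) * (((V.E1 * U ^ 3 - F : ℕ) : ℝ) / U ^ 4) +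
      ((A : ℝ) / U * ((v : ℝ) / U)) * (((C * U ^ 2 - F : ℕ) : ℝ) / U ^ 4) ≤
      ((2 - (v : ℝ) / U) * ((m0 : ℝ) / U)) * ((V.om : ℝ) / U) := by
  have hU := U_pos
  obtain ⟨P, hP⟩ : ∃ P, P = C * U ^ 2 - F := ⟨_, rfl⟩
  obtain ⟨Q, hQ⟩ : ∃ Q, Q = V.E1 * U ^ 3 - F := ⟨_, rfl⟩
  simp only [ick, Nat.ble_eq] at h
  rw [← hP, ← hQ] at h ⊢
  have h' : ((254 * v * m0 * U ^ 4 + 1000 * A * Q * (2 * U - v) + 1000 * A * P * v : ℕ) : ℝ) ≤
      ((1000 * V.om * (2 * U - v) * m0 * U ^ 3 : ℕ) : ℝ) := by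
    exact_mod_cast h
  have e2 : ((2 * U - v : ℕ) : ℝ) = 2 * U - v := by
    rw [Nat.cast_sub (by omega)]
    push_cast
    ring
  push_cast at h'
  rw [e2] at h'
  refine le_of_mul_le_mul_right ?_ (show (0 : ℝ) < 1000 * (U : ℝ) ^ 6 by positivity)
  have e3 : ∀ z : ℝ, z = z / (U : ℝ) * U := fun z => by field_simp
  obtain ⟨a, ha⟩ : ∃ a, a = (v : ℝ) / U := ⟨_, rfl⟩
  obtain ⟨b, hb⟩ : ∃ a, a = (m0 : ℝ) / U := ⟨_, rfl⟩
  obtain ⟨e, he⟩ : ∃ a, a = (A : ℝ) / U := ⟨_, rfl⟩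
  obtain ⟨k, hk⟩ : ∃ a, a = (V.om : ℝ) / U := ⟨_, rfl⟩
  obtain ⟨p, hp⟩ : ∃ a, a = (P : ℝ) / (U : ℝ) ^ 4 := ⟨_, rfl⟩
  obtain ⟨q, hq⟩ : ∃ a, a = (Q : ℝ) / (U : ℝ) ^ 4 := ⟨_, rfl⟩
  have hv' : (v : ℝ) = a * U := by rw [ha]; exact e3 _
  have hm0' : (m0 : ℝ) = b * U := by rw [hb]; exact e3 _
  have hA' : (A : ℝ) = e * U := by rw [he]; exact e3 _
  have ho' : (V.om : ℝ) = k * U := by rw [hk]; exact e3 _
  have hP' : (P : ℝ) = p * (U : ℝ) ^ 4 := by rw [hp]; field_simp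
  have hQ' : (Q : ℝ) = q * (U : ℝ) ^ 4 := by rw [hq]; field_simp
  rw [← ha, ← hb, ← he, ← hk, ← hp, ← hq]
  rw [hv', hm0', hA', ho', hP', hQ'] at h'
  linarith

theorem ick2 {A m0 m1 o F v C s : ℕ} {V : Vl} (h : ick A m0 m1 o F v 2 C s V = true) :
    (C : ℝ) / U ^ 2 + (m1 : ℝ) / U * ((s : ℝ) / U) + 1 / (U : ℝ) ^ 4 ≤ (F : ℝ) / U ^ 4 := by
  have hU := U_pos
  simp only [ick, Nat.ble_eq] at h
  have h' : ((C * U ^ 2 + m1 * s * U ^ 2 + 1 : ℕ) : ℝ) ≤ ((F : ℕ) : ℝ) := by exact_mod_cast h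
  push_cast at h'
  rw [le_div_iff₀ (by positivity)]
  have e : ((C : ℝ) / U ^ 2 + (m1 : ℝ) / U * ((s : ℝ) / U) + 1 / (U : ℝ) ^ 4) * (U : ℝ) ^ 4 =
      C * (U : ℝ) ^ 2 + m1 * s * (U : ℝ) ^ 2 + 1 := by
    field_simp
  rw [e]
  exact h'

theorem ick3 {A m0 m1 o F v ty C s : ℕ} {V : Vl} (hty : 3 ≤ ty)
    (h : ick A m0 m1 o F v ty C s V = true) :
    (C : ℝ) / U ^ 2 + (m1 : ℝ) / U * ((o : ℝ) / U) + 1 / (U : ℝ) ^ 4 ≤ (F : ℝ) / U ^ 4 := by
  have hU := U_pos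
  have h0 : Nat.ble (C * U ^ 2 + m1 * o * U ^ 2 + 1) F = true := by
    obtain ⟨k, rfl⟩ := Nat.exists_eq_add_of_le hty
    rw [Nat.add_comm] at h
    exact h
  rw [Nat.ble_eq] at h0
  have h' : ((C * U ^ 2 + m1 * o * U ^ 2 + 1 : ℕ) : ℝ) ≤ ((F : ℕ) : ℝ) := by exact_mod_cast h0
  push_cast at h'
  rw [le_div_iff₀ (by positivity)]
  have e : ((C : ℝ) / U ^ 2 + (m1 : ℝ) / U * ((o : ℝ) / U) + 1 / (U : ℝ) ^ 4) * (U : ℝ) ^ 4 =
      C * (U : ℝ) ^ 2 + m1 * o * (U : ℝ) ^ 2 + 1 := by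
    field_simp
  rw [e]
  exact h'

/-- the strip function -/
theorem F4_le {c0 c1 m1 mu u r : ℕ} (hm1 : m1 ≤ U) (hc : c1 * u ≤ c0 * U) (hr : r * r ≤ u * U)
    {m μ d0 d1 : ℝ} (hm : m ≤ (m1 : ℝ) / U) (hμ : (mu : ℝ) / U ≤ μ) (hd0 : (c0 : ℝ) / U ≤ d0)
    (hd1 : d1 ≤ (c1 : ℝ) / U) :
    ((F4 c0 c1 m1 mu u r : ℕ) : ℝ) / U ^ 4 ≤ ph m μ d0 d1 ((u : ℝ) / U) := by
  have hU := U_pos
  have e : ((F4 c0 c1 m1 mu u r : ℕ) : ℝ) / U ^ 4 = (1 - (m1 : ℝ) / U) * ((u : ℝ) / U) +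
      2 * ((mu : ℝ) / U) * (((c0 : ℝ) / U - (c1 : ℝ) / U * ((u : ℝ) / U)) * ((r : ℝ) / U)) := by
    unfold F4
    push_cast [Nat.cast_sub hm1, Nat.cast_sub hc]
    field_simp
  rw [e]
  have hu : (0 : ℝ) ≤ (u : ℝ) / U := by positivity
  have hr0 : (0 : ℝ) ≤ (r : ℝ) / U := by positivity
  have hr2 : ((r : ℝ) / U) ^ 2 ≤ (u : ℝ) / U := by
    have h1 : ((r * r : ℕ) : ℝ) ≤ ((u * U : ℕ) : ℝ) := by exact_mod_cast hr
    push_cast at h1
    rw [div_pow, div_le_div_iff₀ (by positivity) hU]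
    nlinarith
  have hcu : (c1 : ℝ) / U * ((u : ℝ) / U) ≤ (c0 : ℝ) / U := by
    have h1 : ((c1 * u : ℕ) : ℝ) ≤ ((c0 * U : ℕ) : ℝ) := by exact_mod_cast hc
    push_cast at h1
    rw [← mul_div_mul_comm, div_le_div_iff₀ (by positivity) hU]
    nlinarith
  refine (ph_num hm hμ (by positivity) hu hr0 hr2 hcu).trans ?_
  have hμ0 : 0 ≤ μ := le_trans (by positivity) hμ
  unfold ph
  have k1 : ((c0 : ℝ) / U - (c1 : ℝ) / U * ((u : ℝ) / U)) * √((u : ℝ) / U) ≤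
      (d0 - d1 * ((u : ℝ) / U)) * √((u : ℝ) / U) := by
    refine mul_le_mul_of_nonneg_right ?_ (Real.sqrt_nonneg _)
    have := mul_le_mul_of_nonneg_right hd1 hu
    linarith
  have k2 := mul_le_mul_of_nonneg_left k1 (show 0 ≤ 2 * μ by linarith)
  linarith

/-- the caps -/
theorem C2_le {R : Row} {x0 x1 y0 y1 : ℕ} {x y : ℝ} (hx0 : (x0 : ℝ) / U ≤ x)
    (hx1 : x ≤ (x1 : ℝ) / U) (hy0 : (y0 : ℝ) / U ≤ y) (hy1 : y ≤ (y1 : ℝ) / U) :
    (1 - x - y) * ((R.Sk : ℝ) / U) + x * ((R.Sj : ℝ) / U) + y * ((R.Sl : ℝ) / U) ≤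
      ((C2 R x0 x1 y0 y1 : ℕ) : ℝ) / U ^ 2 := by
  have hU := U_pos
  rw [le_div_iff₀ (by positivity)]
  unfold C2
  obtain ⟨a, ha⟩ : ∃ a, a = R.Sj - R.Sk := ⟨_, rfl⟩
  obtain ⟨b, hb⟩ : ∃ a, a = R.Sl - R.Sk := ⟨_, rfl⟩
  obtain ⟨a', ha'⟩ : ∃ a, a = R.Sk - R.Sj := ⟨_, rfl⟩
  obtain ⟨b', hb'⟩ : ∃ a, a = R.Sk - R.Sl := ⟨_, rfl⟩
  have e1 : (R.Sj : ℝ) - R.Sk = a - a' := by
    rcases le_total R.Sj R.Sk with h | h
    · have : a = 0 := by omega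
      have h2 : R.Sk = a' + R.Sj := by omega
      rw [this, h2]
      push_cast
      ring
    · have : a' = 0 := by omega
      have h2 : R.Sj = a + R.Sk := by omega
      rw [this, h2]
      push_cast
      ring
  have e2 : (R.Sl : ℝ) - R.Sk = b - b' := by
    rcases le_total R.Sl R.Sk with h | h
    · have : b = 0 := by omega
      have h2 : R.Sk = b' + R.Sl := by omega
      rw [this, h2]
      push_cast
      ring
    · have : b' = 0 := by omega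
      have h2 : R.Sl = b + R.Sk := by omega
      rw [this, h2]
      push_cast
      ring
  rw [← ha, ← hb, ← ha', ← hb']
  have k1 := (cast_tsub (R.Sk * U + x1 * a + y1 * b - x0 * a') (y0 * b')).1
  have k2 := (cast_tsub (R.Sk * U + x1 * a + y1 * b) (x0 * a')).1
  push_cast at k1 k2
  have q1 : x * U ≤ x1 := by rwa [le_div_iff₀ hU] at hx1
  have q2 : (x0 : ℝ) ≤ x * U := by rwa [div_le_iff₀ hU] at hx0
  have q3 : y * U ≤ y1 := by rwa [le_div_iff₀ hU] at hy1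
  have q4 : (y0 : ℝ) ≤ y * U := by rwa [div_le_iff₀ hU] at hy0
  have n1 : (0 : ℝ) ≤ a := Nat.cast_nonneg _
  have n2 : (0 : ℝ) ≤ b := Nat.cast_nonneg _
  have n3 : (0 : ℝ) ≤ a' := Nat.cast_nonneg _
  have n4 : (0 : ℝ) ≤ b' := Nat.cast_nonneg _
  have p1 := mul_le_mul_of_nonneg_right q1 n1
  have p2 := mul_le_mul_of_nonneg_right q2 n3
  have p3 := mul_le_mul_of_nonneg_right q3 n2
  have p4 := mul_le_mul_of_nonneg_right q4 n4
  have e : ((1 - x - y) * ((R.Sk : ℝ) / U) + x * ((R.Sj : ℝ) / U) + y * ((R.Sl : ℝ) / U)) *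
      (U : ℝ) ^ 2 = R.Sk * U + x * U * ((R.Sj : ℝ) - R.Sk) + y * U * ((R.Sl : ℝ) - R.Sk) := by
    field_simp
    ring
  rw [e, e1, e2]
  linarith

/-! ### Soundness: a leaf -/

/-- the box -/
def In (x0 x1 y0 y1 : ℕ) (x y : ℝ) : Prop :=
  (x0 : ℝ) / U ≤ x ∧ x ≤ (x1 : ℝ) / U ∧ (y0 : ℝ) / U ≤ y ∧ y ≤ (y1 : ℝ) / U

/-- `mt` in the chart -/
def mtx (x y : ℝ) : ℝ := 1 - x - y + x ^ 2 + y ^ 2 + x * y

theorem mck_iff {x0 x1 y0 y1 : ℕ} {c : Leaf} (h : mck x0 x1 y0 y1 c = true) :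
    x1 + y1 < U ∧ 0 < c.m0 ∧ c.m1 ≤ U ∧
      U * U + x0 * x0 + y0 * y0 + x0 * y0 ≤ c.m1 * c.m1 + U * x0 + U * y0 ∧
      ((2 * x1 + y1 ≤ U ∧ x1 + 2 * y1 ≤ U ∧
        c.m0 * c.m0 + U * x1 + U * y1 ≤ U * U + x1 * x1 + y1 * y1 + x1 * y1) ∨
        c.m0 * c.m0 + U * x1 + U * y1 ≤ U * U + x0 * x0 + y0 * y0 + x0 * y0 ∨
        3 * (c.m0 * c.m0) ≤ 2 * (U * U)) ∧
      U * (3 * (x1 * x1) + 2 * (x1 * y1) + 3 * (y1 * y1)) ≤
        c.o * ((2 * U - x1 - y1) * (2 * U - x1 - y1)) ∧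
      U ^ 4 ≤ c.M * (c.m0 * c.m0 * c.m0) := by
  unfold mck at h
  simp only [Bool.and_eq_true, Bool.or_eq_true, Nat.ble_eq, Nat.blt_eq] at h
  obtain ⟨⟨⟨⟨⟨⟨h1, h2⟩, h3⟩, h4⟩, h5⟩, h6⟩, h7⟩ := h
  refine ⟨h1, h2, h3, h4, ?_, h6, h7⟩
  rcases h5 with (h5 | h5) | h5
  · exact Or.inl ⟨h5.1.1, h5.1.2, h5.2⟩
  · exact Or.inr (Or.inl h5)
  · exact Or.inr (Or.inr h5)

theorem mck_m1 {x0 x1 y0 y1 : ℕ} {c : Leaf} (h : mck x0 x1 y0 y1 c = true) {x y m : ℝ}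
    (hI : In x0 x1 y0 y1 x y) (k1 : 2 * x + y ≤ 1) (k2 : x + 2 * y ≤ 1) (hm : m ^ 2 = mtx x y)
    (hm0 : 0 ≤ m) : m ≤ (c.m1 : ℝ) / U := by
  have hU := U_pos
  obtain ⟨_, _, _, h4, _⟩ := mck_iff h
  obtain ⟨i1, _, i3, _⟩ := hI
  obtain ⟨a, ha⟩ : ∃ a, a = (x0 : ℝ) / U := ⟨_, rfl⟩
  obtain ⟨b, hb⟩ : ∃ a, a = (y0 : ℝ) / U := ⟨_, rfl⟩
  obtain ⟨M, hM⟩ : ∃ a, a = (c.m1 : ℝ) / U := ⟨_, rfl⟩
  have ha' : (x0 : ℝ) = a * U := by rw [ha]; field_simp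
  have hb' : (y0 : ℝ) = b * U := by rw [hb]; field_simp
  have hM' : (c.m1 : ℝ) = M * U := by rw [hM]; field_simp
  have hM0 : 0 ≤ M := by rw [hM]; positivity
  have ha0 : 0 ≤ a := by rw [ha]; positivity
  have hb0 : 0 ≤ b := by rw [hb]; positivity
  rw [← ha] at i1
  rw [← hb] at i3
  rw [← hM]
  have h' : ((U * U + x0 * x0 + y0 * y0 + x0 * y0 : ℕ) : ℝ) ≤
      ((c.m1 * c.m1 + U * x0 + U * y0 : ℕ) : ℝ) := by exact_mod_cast h4
  push_cast at h'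
  rw [ha', hb', hM'] at h'
  have h2 : 1 + a * a + b * b + a * b ≤ M * M + a + b := by
    refine le_of_mul_le_mul_right ?_ (show (0 : ℝ) < (U : ℝ) * U by positivity)
    linarith
  have h3 : m ^ 2 ≤ M ^ 2 := by
    rw [hm]
    unfold mtx
    have q1 : 0 ≤ (x - a) * (1 - x - a - b) := mul_nonneg (by linarith) (by linarith)
    have q2 : 0 ≤ (y - b) * (1 - y - b - x) := mul_nonneg (by linarith) (by linarith)
    linarith
  exact (pow_le_pow_iff_left₀ hm0 hM0 two_ne_zero).1 h3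

theorem mck_m0 {x0 x1 y0 y1 : ℕ} {c : Leaf} (h : mck x0 x1 y0 y1 c = true) {x y m : ℝ}
    (hI : In x0 x1 y0 y1 x y) (hm : m ^ 2 = mtx x y) (hm0 : 0 ≤ m) : (c.m0 : ℝ) / U ≤ m := by
  have hU := U_pos
  obtain ⟨_, _, _, _, h5, _⟩ := mck_iff h
  obtain ⟨i1, i2, i3, i4⟩ := hI
  obtain ⟨a, ha⟩ : ∃ a, a = (x0 : ℝ) / U := ⟨_, rfl⟩
  obtain ⟨b, hb⟩ : ∃ a, a = (y0 : ℝ) / U := ⟨_, rfl⟩
  obtain ⟨a', hc⟩ : ∃ a, a = (x1 : ℝ) / U := ⟨_, rfl⟩
  obtain ⟨b', hd⟩ : ∃ a, a = (y1 : ℝ) / U := ⟨_, rfl⟩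
  obtain ⟨M, hM⟩ : ∃ a, a = (c.m0 : ℝ) / U := ⟨_, rfl⟩
  have ha' : (x0 : ℝ) = a * U := by rw [ha]; field_simp
  have hb' : (y0 : ℝ) = b * U := by rw [hb]; field_simp
  have hc' : (x1 : ℝ) = a' * U := by rw [hc]; field_simp
  have hd' : (y1 : ℝ) = b' * U := by rw [hd]; field_simp
  have hM' : (c.m0 : ℝ) = M * U := by rw [hM]; field_simp
  have hM0 : 0 ≤ M := by rw [hM]; positivity
  have ha0 : 0 ≤ a := by rw [ha]; positivity
  have hb0 : 0 ≤ b := by rw [hb]; positivity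
  rw [← ha] at i1
  rw [← hb] at i3
  rw [← hc] at i2
  rw [← hd] at i4
  rw [← hM]
  have hx0 : 0 ≤ x := ha0.trans i1
  have hy0 : 0 ≤ y := hb0.trans i3
  have h3 : M ^ 2 ≤ m ^ 2 := by
    rw [hm]
    unfold mtx
    rcases h5 with ⟨e1, e2, e3⟩ | e3 | e3
    · have g1 : ((2 * x1 + y1 : ℕ) : ℝ) ≤ (U : ℝ) := by exact_mod_cast e1
      have g2 : ((x1 + 2 * y1 : ℕ) : ℝ) ≤ (U : ℝ) := by exact_mod_cast e2
      have g3 : ((c.m0 * c.m0 + U * x1 + U * y1 : ℕ) : ℝ) ≤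
        ((U * U + x1 * x1 + y1 * y1 + x1 * y1 : ℕ) : ℝ) := by exact_mod_cast e3
      push_cast at g1 g2 g3
      rw [hc', hd'] at g1 g2 g3
      rw [hM'] at g3
      have f1 : 2 * a' + b' ≤ 1 := by
        refine le_of_mul_le_mul_right ?_ hU
        linarith
      have f2 : a' + 2 * b' ≤ 1 := by
        refine le_of_mul_le_mul_right ?_ hU
        linarith
      have f3 : M * M + a' + b' ≤ 1 + a' * a' + b' * b' + a' * b' := by
        refine le_of_mul_le_mul_right ?_ (show (0 : ℝ) < (U : ℝ) * U by positivity)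
        linarith
      have q1 : 0 ≤ (a' - x) * (1 - x - a' - y) := mul_nonneg (by linarith) (by linarith)
      have q2 : 0 ≤ (b' - y) * (1 - y - b' - a') := mul_nonneg (by linarith) (by linarith)
      linarith
    · have g3 : ((c.m0 * c.m0 + U * x1 + U * y1 : ℕ) : ℝ) ≤
        ((U * U + x0 * x0 + y0 * y0 + x0 * y0 : ℕ) : ℝ) := by exact_mod_cast e3
      push_cast at g3
      rw [hc', hd', hM', ha', hb'] at g3
      have f3 : M * M + a' + b' ≤ 1 + a * a + b * b + a * b := by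
        refine le_of_mul_le_mul_right ?_ (show (0 : ℝ) < (U : ℝ) * U by positivity)
        linarith
      have q1 : a * a ≤ x * x := mul_self_le_mul_self ha0 i1
      have q2 : b * b ≤ y * y := mul_self_le_mul_self hb0 i3
      have q3 : a * b ≤ x * y := mul_le_mul i1 i3 hb0 hx0
      linarith
    · have g3 : ((3 * (c.m0 * c.m0) : ℕ) : ℝ) ≤ ((2 * (U * U) : ℕ) : ℝ) := by exact_mod_cast e3
      push_cast at g3
      rw [hM'] at g3
      have f3 : 3 * (M * M) ≤ 2 := by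
        refine le_of_mul_le_mul_right ?_ (show (0 : ℝ) < (U : ℝ) * U by positivity)
        linarith
      nlinarith [sq_nonneg (x + y / 2 - 1 / 2), sq_nonneg (y - 1 / 3)]
  exact (pow_le_pow_iff_left₀ hM0 hm0 two_ne_zero).1 h3

theorem mck_o {x0 x1 y0 y1 : ℕ} {c : Leaf} (h : mck x0 x1 y0 y1 c = true) {x y : ℝ}
    (hI : In x0 x1 y0 y1 x y) :
    (3 * x ^ 2 + 2 * x * y + 3 * y ^ 2) / (2 - x - y) ^ 2 ≤ (c.o : ℝ) / U := by
  have hU := U_pos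
  obtain ⟨h1, _, _, _, _, h6, _⟩ := mck_iff h
  obtain ⟨i1, i2, i3, i4⟩ := hI
  have hx0 : 0 ≤ x := le_trans (by positivity) i1
  have hy0 : 0 ≤ y := le_trans (by positivity) i3
  obtain ⟨a', hc⟩ : ∃ a, a = (x1 : ℝ) / U := ⟨_, rfl⟩
  obtain ⟨b', hd⟩ : ∃ a, a = (y1 : ℝ) / U := ⟨_, rfl⟩
  obtain ⟨M, hM⟩ : ∃ a, a = (c.o : ℝ) / U := ⟨_, rfl⟩
  have hc' : (x1 : ℝ) = a' * U := by rw [hc]; field_simp
  have hd' : (y1 : ℝ) = b' * U := by rw [hd]; field_simp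
  have hM' : (c.o : ℝ) = M * U := by rw [hM]; field_simp
  have hM0 : 0 ≤ M := by rw [hM]; positivity
  rw [← hc] at i2
  rw [← hd] at i4
  rw [← hM]
  have g1 : ((x1 + y1 : ℕ) : ℝ) < (U : ℝ) := by exact_mod_cast h1
  have g3 : ((U * (3 * (x1 * x1) + 2 * (x1 * y1) + 3 * (y1 * y1)) : ℕ) : ℝ) ≤
      ((c.o * ((2 * U - x1 - y1) * (2 * U - x1 - y1)) : ℕ) : ℝ) := by exact_mod_cast h6
  have e2 : ((2 * U - x1 - y1 : ℕ) : ℝ) = 2 * U - x1 - y1 := by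
    rw [Nat.cast_sub (by omega), Nat.cast_sub (by omega)]
    push_cast
    ring
  push_cast at g1 g3
  rw [e2] at g3
  rw [hc', hd'] at g1 g3
  rw [hM'] at g3
  have f1 : a' + b' < 1 := by
    refine lt_of_mul_lt_mul_right ?_ hU.le
    linarith
  have f3 : 3 * (a' * a') + 2 * (a' * b') + 3 * (b' * b') ≤ M * ((2 - a' - b') * (2 - a' - b')) := by
    refine le_of_mul_le_mul_right ?_ (show (0 : ℝ) < (U : ℝ) * U * U by positivity)
    linarith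
  have p : 0 < 2 - x - y := by linarith
  rw [div_le_iff₀ (by positivity)]
  have q1 : x * x ≤ a' * a' := mul_self_le_mul_self hx0 i2
  have q2 : y * y ≤ b' * b' := mul_self_le_mul_self hy0 i4
  have q3 : x * y ≤ a' * b' := mul_le_mul i2 i4 hy0 (hx0.trans i2)
  have q4 : (2 - a' - b') * (2 - a' - b') ≤ (2 - x - y) * (2 - x - y) :=
    mul_self_le_mul_self (by linarith) (by linarith)
  have q5 := mul_le_mul_of_nonneg_left q4 hM0
  nlinarith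

/-- the interval of `w` -/
theorem ivck_find {rows : List Row} {A c0 c1 m0 m1 o mu x0 x1 y0 y1 : ℕ} {V : List Vl} {w : ℝ}
    (hW : ∀ b : ℕ, (rows.all fun R => Nat.blt (U + R.s) b) = true → w < (b : ℝ) / U) :
    ∀ (L : List Iv) (b : ℕ),
      ivck rows A c0 c1 m0 m1 o mu x0 x1 y0 y1 V b L = true → (b : ℝ) / U ≤ w →
      ∃ I : Iv, (I.u : ℝ) / U ≤ w ∧ w ≤ (I.v : ℝ) / U ∧ 1 ≤ 2 * U - I.v ∧ I.r * I.r ≤ I.u * U ∧
        c1 * I.u ≤ c0 * U ∧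
        rck A m0 m1 o (F4 c0 c1 m1 mu I.u I.r) I.v I.ty x0 x1 y0 y1 rows V = true
  | [], b, h, hb => absurd hb (not_le.2 (hW b h))
  | I :: L, b, h, hb => by
    have hU := U_pos
    simp only [ivck, Bool.and_eq_true, Nat.ble_eq] at h
    obtain ⟨⟨⟨⟨⟨h1, h2⟩, h3⟩, h4⟩, h5⟩, h6⟩ := h
    rcases le_or_gt w ((I.v : ℝ) / U) with hv | hv
    · refine ⟨I, le_trans ?_ hb, hv, h2, h3, h4, h5⟩
      exact div_le_div_of_nonneg_right (by exact_mod_cast h1) hU.le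
    · exact ivck_find hW L I.v h6 hv.le

/-- convex combination of naturals in units of `U⁻¹` -/
noncomputable def cb (n : ℕ) (lam : ℕ → ℝ) (f : ℕ → ℕ) : ℝ :=
  ∑ i ∈ Finset.range n, lam i * ((f i : ℝ) / U)

theorem cb_nonneg {n : ℕ} {lam : ℕ → ℝ} (h0 : ∀ i, 0 ≤ lam i) (f : ℕ → ℕ) : 0 ≤ cb n lam f :=
  Finset.sum_nonneg fun i _ => mul_nonneg (h0 i) (div_nonneg (Nat.cast_nonneg _) U_pos.le)

/-- `om`, `D1`, `E1` of a leaf -/
noncomputable def gO (n : ℕ) (lam : ℕ → ℝ) (c : Leaf) : ℝ := cb n lam fun i => (c.vl.getD i zV).om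
noncomputable def gD (n : ℕ) (lam : ℕ → ℝ) (c : Leaf) : ℝ := cb n lam fun i => (c.vl.getD i zV).D1
noncomputable def gE (n : ℕ) (lam : ℕ → ℝ) (c : Leaf) : ℝ := cb n lam fun i => (c.vl.getD i zV).E1

theorem getD_D1 {V : List Vl} (h : (V.all fun V => Nat.ble V.D1 U) = true) (i : ℕ) :
    (V.getD i zV).D1 ≤ U := by
  by_cases hi : i < V.length
  · rw [List.getD_eq_getElem _ _ hi]
    exact Nat.le_of_ble_eq_true (List.all_eq_true.1 h _ (List.getElem_mem hi))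
  · rw [List.getD_eq_default _ _ (not_lt.1 hi)]
    exact Nat.zero_le _

theorem gD_le {n : ℕ} {lam : ℕ → ℝ} (h0 : ∀ i, 0 ≤ lam i)
    (h1 : ∑ i ∈ Finset.range n, lam i = 1) {c : Leaf}
    (h : (c.vl.all fun V => Nat.ble V.D1 U) = true) : gD n lam c ≤ 1 := by
  have hU := U_pos
  unfold gD cb
  rw [← h1]
  refine Finset.sum_le_sum fun i _ => ?_
  have k : (((c.vl.getD i zV).D1 : ℕ) : ℝ) / U ≤ 1 := by
    rw [div_le_one hU]
    exact_mod_cast getD_D1 h i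
  calc lam i * ((((c.vl.getD i zV).D1 : ℕ) : ℝ) / U) ≤ lam i * 1 :=
        mul_le_mul_of_nonneg_left k (h0 i)
    _ = lam i := mul_one _

/-- **one leaf**: every `w` of the range has an interval with a rule -/
theorem leaf_pt {rows : List Row} {A c0 c1 x0 x1 y0 y1 : ℕ} {c : Leaf}
    (hck : leafck rows A c0 c1 x0 x1 y0 y1 c = true) {n : ℕ} (hn : n = rows.length)
    {lam : ℕ → ℝ} (h0 : ∀ i, 0 ≤ lam i) (h1 : ∑ i ∈ Finset.range n, lam i = 1)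
    {x y Sk Sj Sl s d0 d1 m ow w D : ℝ} (hI : In x0 x1 y0 y1 x y)
    (k1 : 2 * x + y ≤ 1) (k2 : x + 2 * y ≤ 1)
    (hSk : Sk ≤ cb n lam fun i => (rows.getD i zR).Sk)
    (hSj : Sj ≤ cb n lam fun i => (rows.getD i zR).Sj)
    (hSl : Sl ≤ cb n lam fun i => (rows.getD i zR).Sl)
    (hs : s ≤ cb n lam fun i => (rows.getD i zR).s)
    (hd0 : (c0 : ℝ) / U ≤ d0) (hd1 : d1 ≤ (c1 : ℝ) / U) (hd : 0 ≤ d1)
    (hm : m ^ 2 = mtx x y) (hm0 : 0 ≤ m) (how : ow ≤ s)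
    (how2 : ow ≤ (3 * x ^ 2 + 2 * x * y + 3 * y ^ 2) / (2 - x - y) ^ 2)
    (hw0 : 0 ≤ w) (hw1 : w ≤ 1 + s) (hw3 : 3 * d1 * w ≤ d0) (hD : D = gD n lam c)
    {om : ℝ} (hom : gO n lam c ≤ om) :
    ∃ u v' f : ℝ, 0 ≤ u ∧ u ≤ w ∧ w ≤ v' ∧ v' < 2 ∧
      f ≤ ph m (((min x0 y0 : ℕ) : ℝ) / U) d0 d1 u ∧
      (Ci ((A : ℝ) / U) m ((1 - x - y) * Sk + x * Sj + y * Sl) D f u v' om ∨
        Cii ((A : ℝ) / U) m ((1 - x - y) * Sk + x * Sj + y * Sl) (gE n lam c) f v' om ∨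
        Ciii m ((1 - x - y) * Sk + x * Sj + y * Sl) ow f) := by
  have hU := U_pos
  unfold leafck at hck
  simp only [Bool.and_eq_true, Nat.ble_eq] at hck
  obtain ⟨⟨⟨hmck, hDU⟩, hlen⟩, hiv⟩ := hck
  obtain ⟨j1, j2, j3, _⟩ := mck_iff hmck
  have hm1 := mck_m1 hmck hI k1 k2 hm hm0
  have hm2 := mck_m0 hmck hI hm hm0
  have hmo := mck_o hmck hI
  have hm0' : 0 < (c.m0 : ℝ) / U := div_pos (by exact_mod_cast j2) hU
  have hm1U : (c.m1 : ℝ) / U ≤ 1 := by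
    rw [div_le_one hU]
    exact_mod_cast j3
  have hx0 : 0 ≤ x := le_trans (by positivity) hI.1
  have hy0 : 0 ≤ y := le_trans (by positivity) hI.2.2.1
  have hz0 : 0 ≤ 1 - x - y := by linarith
  have hA : 0 ≤ (A : ℝ) / U := by positivity
  -- the combination of the caps
  have hC : (1 - x - y) * Sk + x * Sj + y * Sl ≤ ∑ i ∈ Finset.range n,
      lam i * (((C2 (rows.getD i zR) x0 x1 y0 y1 : ℕ) : ℝ) / U ^ 2) := by
    have q : (1 - x - y) * Sk + x * Sj + y * Sl ≤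
        (1 - x - y) * (cb n lam fun i => (rows.getD i zR).Sk) +
        x * (cb n lam fun i => (rows.getD i zR).Sj) + y * (cb n lam fun i => (rows.getD i zR).Sl) := by
      have q1 := mul_le_mul_of_nonneg_left hSk hz0
      have q2 := mul_le_mul_of_nonneg_left hSj hx0
      have q3 := mul_le_mul_of_nonneg_left hSl hy0
      linarith
    refine q.trans ?_
    unfold cb
    rw [Finset.mul_sum, Finset.mul_sum, Finset.mul_sum, ← Finset.sum_add_distrib,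
      ← Finset.sum_add_distrib]
    refine Finset.sum_le_sum fun i _ => ?_
    have := mul_le_mul_of_nonneg_left
      (C2_le (R := rows.getD i zR) hI.1 hI.2.1 hI.2.2.1 hI.2.2.2) (h0 i)
    linarith
  -- the range
  have hW : ∀ b : ℕ, (rows.all fun R => Nat.blt (U + R.s) b) = true → w < (b : ℝ) / U := by
    intro b hb
    have k : ∀ i < n, (1 : ℝ) + (((rows.getD i zR).s : ℕ) : ℝ) / U ≤ ((b : ℝ) - 1) / U := by
      intro i hi
      rw [hn] at hi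
      have h2 : U + (rows.getD i zR).s < b := by
        rw [List.getD_eq_getElem _ _ hi]
        have h5 := List.all_eq_true.1 hb _ (List.getElem_mem hi)
        rwa [Nat.blt_eq] at h5
      have h3 : ((U + (rows.getD i zR).s + 1 : ℕ) : ℝ) ≤ (b : ℝ) := by exact_mod_cast h2
      push_cast at h3
      rw [le_div_iff₀ hU, add_mul, one_mul, div_mul_cancel₀ _ hU.ne']
      linarith
    have e : 1 + cb n lam (fun i => (rows.getD i zR).s) =
        ∑ i ∈ Finset.range n, lam i * (1 + (((rows.getD i zR).s : ℕ) : ℝ) / U) := by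
      unfold cb
      simp only [mul_add, mul_one, Finset.sum_add_distrib, h1]
    have h2 : ∑ i ∈ Finset.range n, lam i * (1 + (((rows.getD i zR).s : ℕ) : ℝ) / U) ≤
        ∑ i ∈ Finset.range n, lam i * (((b : ℝ) - 1) / U) :=
      Finset.sum_le_sum fun i hi => mul_le_mul_of_nonneg_left (k i (Finset.mem_range.1 hi)) (h0 i)
    rw [← Finset.sum_mul, h1, one_mul] at h2
    have h3 : ((b : ℝ) - 1) / U < (b : ℝ) / U := div_lt_div_of_pos_right (by linarith) hU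
    linarith
  obtain ⟨I, hu, hv, hv2, hr, hcu, hrow⟩ := ivck_find hW c.iv 0 hiv (by simpa using hw0)
  have hget := rck_get hrow
  rw [← hn] at hget
  obtain ⟨μ, hμ⟩ : ∃ μ, μ = (((min x0 y0 : ℕ) : ℝ) / U) := ⟨_, rfl⟩
  have hμ0 : 0 ≤ μ := by rw [hμ]; positivity
  obtain ⟨F, hF⟩ : ∃ F, F = F4 c0 c1 c.m1 (min x0 y0) I.u I.r := ⟨_, rfl⟩
  have hph : ((F : ℕ) : ℝ) / U ^ 4 ≤ ph m μ d0 d1 ((I.u : ℝ) / U) := by
    rw [hF]
    exact F4_le j3 hcu hr hm1 (by rw [hμ]) hd0 hd1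
  rw [← hF] at hget
  rw [← hμ]
  have hu0 : 0 ≤ (I.u : ℝ) / U := by positivity
  have hv0 : 0 ≤ (I.v : ℝ) / U := by positivity
  have hv3 : (I.v : ℝ) / U < 2 := by
    rw [div_lt_iff₀ hU]
    have : ((I.v + 1 : ℕ) : ℝ) ≤ ((2 * U : ℕ) : ℝ) := by
      have : I.v + 1 ≤ 2 * U := by omega
      exact_mod_cast this
    push_cast at this
    linarith
  have hm1' : m ≤ 1 := hm1.trans hm1U
  obtain ⟨C, hCe⟩ : ∃ C, C = (1 - x - y) * Sk + x * Sj + y * Sl := ⟨_, rfl⟩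
  rw [← hCe] at hC ⊢
  obtain ⟨f, hf⟩ : ∃ f, f = ((F : ℕ) : ℝ) / U ^ 4 := ⟨_, rfl⟩
  rw [← hf] at hph
  -- the positive part
  obtain ⟨P, hP⟩ : ∃ P : ℕ → ℝ, P = fun i =>
    (((C2 (rows.getD i zR) x0 x1 y0 y1 * U ^ 2 - F : ℕ) : ℝ) / U ^ 4) := ⟨_, rfl⟩
  have hP0 : 0 ≤ ∑ i ∈ Finset.range n, lam i * P i := by
    refine Finset.sum_nonneg fun i _ => mul_nonneg (h0 i) ?_
    rw [hP]
    exact div_nonneg (Nat.cast_nonneg _) (pow_nonneg hU.le 4)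
  have hPC : C - f ≤ ∑ i ∈ Finset.range n, lam i * P i := by
    have k : ∀ i, ((C2 (rows.getD i zR) x0 x1 y0 y1 : ℕ) : ℝ) / U ^ 2 - f ≤ P i := by
      intro i
      have q := (cast_tsub (C2 (rows.getD i zR) x0 x1 y0 y1 * U ^ 2) F).1
      rw [hP, hf]
      show _ ≤ (((C2 (rows.getD i zR) x0 x1 y0 y1 * U ^ 2 - F : ℕ) : ℝ) / U ^ 4)
      rw [le_div_iff₀ (by positivity)]
      have e : (((C2 (rows.getD i zR) x0 x1 y0 y1 : ℕ) : ℝ) / U ^ 2 - (F : ℝ) / U ^ 4) *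
          (U : ℝ) ^ 4 = ((C2 (rows.getD i zR) x0 x1 y0 y1 : ℕ) : ℝ) * (U : ℝ) ^ 2 - F := by
        field_simp
      rw [e]
      push_cast at q
      exact q
    have h2 : ∑ i ∈ Finset.range n,
        lam i * (((C2 (rows.getD i zR) x0 x1 y0 y1 : ℕ) : ℝ) / U ^ 2 - f) ≤
        ∑ i ∈ Finset.range n, lam i * P i :=
      Finset.sum_le_sum fun i _ => mul_le_mul_of_nonneg_left (k i) (h0 i)
    simp only [mul_sub, Finset.sum_sub_distrib, ← Finset.sum_mul, h1, one_mul] at h2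
    linarith
  rcases Nat.lt_or_ge I.ty 3 with hty | hty
  · have hty' : I.ty = 0 ∨ I.ty = 1 ∨ I.ty = 2 := by omega
    rcases hty' with hty | hty | hty
    · -- LOAD
      rw [hty] at hget
      refine ⟨w, w, f, hw0, le_rfl, le_rfl, lt_of_le_of_lt hv hv3,
        hph.trans (ph_mono hm1' hμ0 hd hu0 hu hw3), Or.inl ?_⟩
      have hk : ∀ i < n, _ := fun i hi => ick0 (V := c.vl.getD i zV) hv2 (hget i hi)
      have hcomb := comb h0 h1 hk
      refine lin_sound (P := ∑ i ∈ Finset.range n, lam i * P i) hA hm0' hm2 hm1 hD.le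
        (gD_le h0 h1 hDU) hP0 hPC hw0 hv hv3 ((cb_nonneg h0 _).trans hom) ?_
      have k2 : ((2 - (I.v : ℝ) / U) * ((c.m0 : ℝ) / U) * ((c.m1 : ℝ) / U)) * gO n lam c ≤
          ((2 - (I.v : ℝ) / U) * ((c.m0 : ℝ) / U) * ((c.m1 : ℝ) / U)) * om :=
        mul_le_mul_of_nonneg_left hom (mul_nonneg (mul_nonneg (by linarith) hm0'.le) (by positivity))
      have e1 : gO n lam c = ∑ i ∈ Finset.range n, lam i * (((c.vl.getD i zV).om : ℝ) / U) := rfl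
      have e2 : gD n lam c = ∑ i ∈ Finset.range n, lam i * (((c.vl.getD i zV).D1 : ℝ) / U) := rfl
      rw [e1] at k2
      rw [e2, hP]
      linarith
    · -- STRIPS
      rw [hty] at hget
      refine ⟨(I.u : ℝ) / U, (I.v : ℝ) / U, f, hu0, hu, hv, hv3, hph, Or.inr (Or.inl ?_)⟩
      have hk : ∀ i < n, _ := fun i hi => ick1 (V := c.vl.getD i zV) hv2 (hget i hi)
      have hcomb := comb h0 h1 hk
      obtain ⟨Q, hQ⟩ : ∃ Q : ℕ → ℝ, Q = fun i =>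
        ((((c.vl.getD i zV).E1 * U ^ 3 - F : ℕ) : ℝ) / U ^ 4) := ⟨_, rfl⟩
      have hQ0 : 0 ≤ ∑ i ∈ Finset.range n, lam i * Q i := by
        refine Finset.sum_nonneg fun i _ => mul_nonneg (h0 i) ?_
        rw [hQ]
        exact div_nonneg (Nat.cast_nonneg _) (pow_nonneg hU.le 4)
      have hQE : gE n lam c - f ≤ ∑ i ∈ Finset.range n, lam i * Q i := by
        have k : ∀ i, (((c.vl.getD i zV).E1 : ℕ) : ℝ) / U - f ≤ Q i := by
          intro i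
          have q := (cast_tsub ((c.vl.getD i zV).E1 * U ^ 3) F).1
          rw [hQ, hf]
          show _ ≤ ((((c.vl.getD i zV).E1 * U ^ 3 - F : ℕ) : ℝ) / U ^ 4)
          rw [le_div_iff₀ (by positivity)]
          have e : ((((c.vl.getD i zV).E1 : ℕ) : ℝ) / U - (F : ℝ) / U ^ 4) *
              (U : ℝ) ^ 4 = (((c.vl.getD i zV).E1 : ℕ) : ℝ) * (U : ℝ) ^ 3 - F := by
            field_simp
          rw [e]
          push_cast at q
          exact q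
        have h2 : ∑ i ∈ Finset.range n, lam i * ((((c.vl.getD i zV).E1 : ℕ) : ℝ) / U - f) ≤
            ∑ i ∈ Finset.range n, lam i * Q i :=
          Finset.sum_le_sum fun i _ => mul_le_mul_of_nonneg_left (k i) (h0 i)
        simp only [mul_sub, Finset.sum_sub_distrib, ← Finset.sum_mul, h1, one_mul] at h2
        unfold gE cb
        exact h2
      refine strips_sound (P := ∑ i ∈ Finset.range n, lam i * P i)
        (PE := ∑ i ∈ Finset.range n, lam i * Q i) hA hm0' hm2 hP0 hPC hQ0 hQE hv0 hv3 ?_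
      have k2 : ((2 - (I.v : ℝ) / U) * ((c.m0 : ℝ) / U)) * gO n lam c ≤
          ((2 - (I.v : ℝ) / U) * ((c.m0 : ℝ) / U)) * om :=
        mul_le_mul_of_nonneg_left hom (mul_nonneg (by linarith) hm0'.le)
      have e1 : gO n lam c = ∑ i ∈ Finset.range n, lam i * (((c.vl.getD i zV).om : ℝ) / U) := rfl
      rw [e1] at k2
      rw [hP, hQ]
      linarith
    · -- OUT with `s`
      rw [hty] at hget
      refine ⟨(I.u : ℝ) / U, (I.v : ℝ) / U, f, hu0, hu, hv, hv3, hph, Or.inr (Or.inr ?_)⟩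
      have hk : ∀ i < n, (1 : ℝ) / U ^ 4 + 1 *
          (((C2 (rows.getD i zR) x0 x1 y0 y1 : ℕ) : ℝ) / U ^ 2) +
          (c.m1 : ℝ) / U * ((((rows.getD i zR).s : ℕ) : ℝ) / U) ≤ f * 1 := by
        intro i hi
        have := ick2 (hget i hi)
        rw [hf]
        linarith
      have hcomb := comb (om := fun _ => 1) h0 h1 hk
      simp only [mul_one, h1, one_mul] at hcomb
      refine out_sound hm0 hm1 hC (how.trans hs) (cb_nonneg h0 _) ?_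
      have q : (0 : ℝ) < 1 / (U : ℝ) ^ 4 := by positivity
      unfold cb
      linarith
  · -- OUT with the own value
    refine ⟨(I.u : ℝ) / U, (I.v : ℝ) / U, f, hu0, hu, hv, hv3, hph, Or.inr (Or.inr ?_)⟩
    have hk : ∀ i < n, ((1 : ℝ) / U ^ 4 + (c.m1 : ℝ) / U * ((c.o : ℝ) / U)) + 1 *
        (((C2 (rows.getD i zR) x0 x1 y0 y1 : ℕ) : ℝ) / U ^ 2) + 0 * (0 : ℝ) ≤ f * 1 := by
      intro i hi
      have := ick3 hty (hget i hi)
      rw [hf]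
      linarith
    have hcomb := comb (P := fun _ => 0) (om := fun _ => 1) h0 h1 hk
    simp only [mul_one, h1, one_mul, zero_mul, add_zero] at hcomb
    refine out_sound hm0 hm1 hC (how2.trans hmo) (by positivity) ?_
    have q : (0 : ℝ) < 1 / (U : ℝ) ^ 4 := by positivity
    linarith

end Helper60.R7
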