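import Pool.Agent.Helper60.MEI.R7

/-!
# Project MEI (M2), w-term: tables of rule R7, the integral and the cost of a face
-/

set_option autoImplicit false

namespace Helper60.R7

open Set MeasureTheory Helper78.MEI Helper80.CW Helper82.CW Helper14.CW Helper93.MEI Helper82.M2
open Helper14.MEI2 Pool.Agent.Helper52.MEI Pool.Agent.Helper73.MEI Pool.Agent.Helper31.SR
open Helper33.MEI (Wi Dl tx M3 mt mt_pos)

/-- rectangle in the chart -/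
def rc (x0 x1 y0 y1 : ℕ) : Set (ℝ × ℝ) :=
  Icc ((x0 : ℝ) / U) ((x1 : ℝ) / U) ×ˢ Icc ((y0 : ℝ) / U) ((y1 : ℝ) / U)

theorem rc_meas (x0 x1 y0 y1 : ℕ) : MeasurableSet (rc x0 x1 y0 y1) :=
  measurableSet_Icc.prod measurableSet_Icc

theorem mem_rc {x0 x1 y0 y1 : ℕ} {t : ℝ × ℝ} : t ∈ rc x0 x1 y0 y1 ↔ In x0 x1 y0 y1 t.1 t.2 := by
  unfold rc In
  simp only [mem_prod, mem_Icc]
  tauto

/-- the step function of a tree -/
noncomputable def Tr.val (g : Leaf → ℝ) : Tr → ℕ → ℕ → ℕ → ℕ → ℝ × ℝ → ℝ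
  | lf c, x0, x1, y0, y1 => fun t => (rc x0 x1 y0 y1).indicator (fun _ => g c) t
  | em, _, _, _, _ => fun _ => 0
  | sx a l r, x0, x1, y0, y1 => fun t => Tr.val g l x0 a y0 y1 t + Tr.val g r a x1 y0 y1 t
  | sy b l r, x0, x1, y0, y1 => fun t => Tr.val g l x0 x1 y0 b t + Tr.val g r x0 x1 b y1 t

theorem Tr.val_meas (g : Leaf → ℝ) : ∀ (T : Tr) (x0 x1 y0 y1 : ℕ),
    Measurable (T.val g x0 x1 y0 y1)
  | lf _, x0, x1, y0, y1 => measurable_const.indicator (rc_meas x0 x1 y0 y1)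
  | em, _, _, _, _ => measurable_const
  | sx a l r, x0, x1, y0, y1 => (Tr.val_meas g l x0 a y0 y1).add (Tr.val_meas g r a x1 y0 y1)
  | sy b l r, x0, x1, y0, y1 => (Tr.val_meas g l x0 x1 y0 b).add (Tr.val_meas g r x0 x1 b y1)

theorem Tr.val_nonneg {g : Leaf → ℝ} (hg : ∀ c, 0 ≤ g c) : ∀ (T : Tr) (x0 x1 y0 y1 : ℕ)
    (t : ℝ × ℝ), 0 ≤ T.val g x0 x1 y0 y1 t
  | lf c, _, _, _, _, t => indicator_nonneg (fun _ _ => hg c) t
  | em, _, _, _, _, _ => le_rfl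
  | sx a l r, x0, x1, y0, y1, t =>
    add_nonneg (Tr.val_nonneg hg l x0 a y0 y1 t) (Tr.val_nonneg hg r a x1 y0 y1 t)
  | sy b l r, x0, x1, y0, y1, t =>
    add_nonneg (Tr.val_nonneg hg l x0 x1 y0 b t) (Tr.val_nonneg hg r x0 x1 b y1 t)

theorem Tr.val_bd {g : Leaf → ℝ} (hg : ∀ c, 0 ≤ g c) : ∀ (T : Tr) (x0 x1 y0 y1 : ℕ),
    ∃ C : ℝ, ∀ t, T.val g x0 x1 y0 y1 t ≤ C
  | lf c, x0, x1, y0, y1 => ⟨g c, fun t => by
      show (rc x0 x1 y0 y1).indicator (fun _ => g c) t ≤ g c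
      by_cases ht : t ∈ rc x0 x1 y0 y1
      · rw [indicator_of_mem ht]
      · rw [indicator_of_notMem ht]
        exact hg c⟩
  | em, _, _, _, _ => ⟨0, fun _ => le_rfl⟩
  | sx a l r, x0, x1, y0, y1 => by
    obtain ⟨C1, h1⟩ := Tr.val_bd hg l x0 a y0 y1
    obtain ⟨C2, h2⟩ := Tr.val_bd hg r a x1 y0 y1
    exact ⟨C1 + C2, fun t => add_le_add (h1 t) (h2 t)⟩
  | sy b l r, x0, x1, y0, y1 => by
    obtain ⟨C1, h1⟩ := Tr.val_bd hg l x0 x1 y0 b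
    obtain ⟨C2, h2⟩ := Tr.val_bd hg r x0 x1 b y1
    exact ⟨C1 + C2, fun t => add_le_add (h1 t) (h2 t)⟩

/-- the real weight -/
noncomputable def Tr.rw (g : Leaf → ℝ) : Tr → ℕ → ℕ → ℕ → ℕ → ℝ
  | lf c, x0, x1, y0, y1 => g c * ((((x1 - x0 : ℕ) : ℝ) / U) * (((y1 - y0 : ℕ) : ℝ) / U)) *
      ((c.M : ℝ) / U)
  | em, _, _, _, _ => 0
  | sx a l r, x0, x1, y0, y1 => Tr.rw g l x0 a y0 y1 + Tr.rw g r a x1 y0 y1
  | sy b l r, x0, x1, y0, y1 => Tr.rw g l x0 x1 y0 b + Tr.rw g r x0 x1 b y1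

theorem Tr.rw_eq (n : ℕ) (lam : ℕ → ℝ) : ∀ (T : Tr) (x0 x1 y0 y1 : ℕ),
    T.rw (gO n lam) x0 x1 y0 y1 =
      ∑ i ∈ Finset.range n, lam i * (((T.wt i x0 x1 y0 y1 : ℕ) : ℝ) / U ^ 4)
  | lf c, x0, x1, y0, y1 => by
    show gO n lam c * ((((x1 - x0 : ℕ) : ℝ) / U) * (((y1 - y0 : ℕ) : ℝ) / U)) * ((c.M : ℝ) / U) = _
    have hU := U_pos
    unfold gO cb
    rw [Finset.sum_mul, Finset.sum_mul]
    refine Finset.sum_congr rfl fun i _ => ?_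
    have e : (((Tr.lf c).wt i x0 x1 y0 y1 : ℕ) : ℝ) =
        (((c.vl.getD i zV).om : ℕ) : ℝ) * (((x1 - x0 : ℕ) : ℝ) * ((y1 - y0 : ℕ) : ℝ)) * c.M := by
      show (((c.vl.getD i zV).om * ((x1 - x0) * (y1 - y0)) * c.M : ℕ) : ℝ) = _
      rw [Nat.cast_mul, Nat.cast_mul, Nat.cast_mul]
    rw [e]
    field_simp
  | em, _, _, _, _ => by
    show (0 : ℝ) = _
    symm
    refine Finset.sum_eq_zero fun i _ => ?_
    show lam i * (((0 : ℕ) : ℝ) / _) = 0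
    simp
  | sx a l r, x0, x1, y0, y1 => by
    show Tr.rw _ l x0 a y0 y1 + Tr.rw _ r a x1 y0 y1 = _
    rw [Tr.rw_eq n lam l, Tr.rw_eq n lam r, ← Finset.sum_add_distrib]
    refine Finset.sum_congr rfl fun i _ => ?_
    have e : (((Tr.sx a l r).wt i x0 x1 y0 y1 : ℕ) : ℝ) =
        ((l.wt i x0 a y0 y1 : ℕ) : ℝ) + ((r.wt i a x1 y0 y1 : ℕ) : ℝ) := by
      show ((l.wt i x0 a y0 y1 + r.wt i a x1 y0 y1 : ℕ) : ℝ) = _
      rw [Nat.cast_add]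
    rw [e]
    ring
  | sy b l r, x0, x1, y0, y1 => by
    show Tr.rw _ l x0 x1 y0 b + Tr.rw _ r x0 x1 b y1 = _
    rw [Tr.rw_eq n lam l, Tr.rw_eq n lam r, ← Finset.sum_add_distrib]
    refine Finset.sum_congr rfl fun i _ => ?_
    have e : (((Tr.sy b l r).wt i x0 x1 y0 y1 : ℕ) : ℝ) =
        ((l.wt i x0 x1 y0 b : ℕ) : ℝ) + ((r.wt i x0 x1 b y1 : ℕ) : ℝ) := by
      show ((l.wt i x0 x1 y0 b + r.wt i x0 x1 b y1 : ℕ) : ℝ) = _
      rw [Nat.cast_add]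
    rw [e]
    ring

/-- `mt` in the chart -/
theorem mt_mtx (t : ℝ × ℝ) : Helper33.MEI.mt t = mtx t.1 t.2 := by
  unfold Helper33.MEI.mt mtx
  ring

theorem M3_box {x0 x1 y0 y1 : ℕ} {c : Leaf} (h : mck x0 x1 y0 y1 c = true) {t : ℝ × ℝ}
    (hI : In x0 x1 y0 y1 t.1 t.2) : M3 t ≤ (c.M : ℝ) / U := by
  have hU := U_pos
  obtain ⟨_, h2, _, _, _, _, h7⟩ := mck_iff h
  have hs : 0 < √(Helper33.MEI.mt t) := Real.sqrt_pos.2 mt_pos
  have hsq := Real.sq_sqrt (mt_pos (t := t)).le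
  have k := mck_m0 h hI (m := √(Helper33.MEI.mt t)) (by rw [hsq, mt_mtx]) hs.le
  have hm0 : 0 < (c.m0 : ℝ) := by exact_mod_cast h2
  have hm0' : 0 < (c.m0 : ℝ) / U := div_pos hm0 hU
  have k3 : ((c.m0 : ℝ) / U) ^ 3 ≤ √(Helper33.MEI.mt t) ^ 3 := pow_le_pow_left₀ hm0'.le k 3
  have h8 : ((U ^ 4 : ℕ) : ℝ) ≤ ((c.M * (c.m0 * c.m0 * c.m0) : ℕ) : ℝ) := by exact_mod_cast h7
  push_cast at h8
  unfold M3
  rw [inv_pow]
  have k4 : (1 : ℝ) ≤ (c.M : ℝ) / U * ((c.m0 : ℝ) / U) ^ 3 := by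
    have e : (c.M : ℝ) / U * ((c.m0 : ℝ) / U) ^ 3 =
        ((c.M : ℝ) * (c.m0 * c.m0 * c.m0)) / (U : ℝ) ^ 4 := by
      field_simp
    rw [e, le_div_iff₀ (by positivity), one_mul]
    exact h8
  have k5 : (1 : ℝ) ≤ (c.M : ℝ) / U * √(Helper33.MEI.mt t) ^ 3 :=
    k4.trans (mul_le_mul_of_nonneg_left k3 (by positivity))
  rw [inv_le_iff_one_le_mul₀ (by positivity)]
  exact k5

theorem leaf_int {x0 x1 y0 y1 : ℕ} {c : Leaf} (h : mck x0 x1 y0 y1 c = true) {z : ℝ}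
    (hz : 0 ≤ z) :
    ∫ t in Dl, (rc x0 x1 y0 y1).indicator (fun _ => z) t * M3 t ≤
      z * ((((x1 - x0 : ℕ) : ℝ) / U) * (((y1 - y0 : ℕ) : ℝ) / U)) * ((c.M : ℝ) / U) := by
  have hU := U_pos
  have hM' : (0 : ℝ) ≤ (c.M : ℝ) / U := by positivity
  have hrf : volume (rc x0 x1 y0 y1) = ENNReal.ofReal ((x1 : ℝ) / U - (x0 : ℝ) / U) *
      ENNReal.ofReal ((y1 : ℝ) / U - (y0 : ℝ) / U) := by
    unfold rc
    rw [Measure.volume_eq_prod, Measure.prod_prod, Real.volume_Icc, Real.volume_Icc]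
  have hlt : volume (rc x0 x1 y0 y1) < ⊤ := by
    rw [hrf]
    exact ENNReal.mul_lt_top ENNReal.ofReal_lt_top ENNReal.ofReal_lt_top
  have hint : IntegrableOn (fun t => (rc x0 x1 y0 y1).indicator (fun _ => z * ((c.M : ℝ) / U)) t)
      Dl := by
    refine IntegrableOn.indicator ?_ (rc_meas _ _ _ _)
    exact integrableOn_const (Helper33.MEI.Dl_fin.ne)
  have hle : ∀ t ∈ Dl, (rc x0 x1 y0 y1).indicator (fun _ => z) t * M3 t ≤
      (rc x0 x1 y0 y1).indicator (fun _ => z * ((c.M : ℝ) / U)) t := by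
    intro t _
    by_cases ht : t ∈ rc x0 x1 y0 y1
    · rw [indicator_of_mem ht, indicator_of_mem ht]
      exact mul_le_mul_of_nonneg_left (M3_box h (mem_rc.1 ht)) hz
    · rw [indicator_of_notMem ht, indicator_of_notMem ht, zero_mul]
  have hi1 : IntegrableOn (fun t => (rc x0 x1 y0 y1).indicator (fun _ => z) t * M3 t) Dl := by
    refine Helper78.MEI.on_Dl (C := z)
      ((measurable_const.indicator (rc_meas _ _ _ _)).aestronglyMeasurable) fun t _ => ?_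
    by_cases ht : t ∈ rc x0 x1 y0 y1
    · rw [indicator_of_mem ht, abs_of_nonneg hz]
    · rw [indicator_of_notMem ht, abs_zero]
      exact hz
  calc ∫ t in Dl, (rc x0 x1 y0 y1).indicator (fun _ => z) t * M3 t ≤
        ∫ t in Dl, (rc x0 x1 y0 y1).indicator (fun _ => z * ((c.M : ℝ) / U)) t :=
        setIntegral_mono_on hi1 hint Helper33.MEI.Dl_meas hle
    _ = ∫ t in Dl ∩ rc x0 x1 y0 y1, z * ((c.M : ℝ) / U) := by
        rw [setIntegral_indicator (rc_meas _ _ _ _)]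
    _ = volume.real (Dl ∩ rc x0 x1 y0 y1) * (z * ((c.M : ℝ) / U)) := by
        rw [setIntegral_const, smul_eq_mul]
    _ ≤ ((((x1 - x0 : ℕ) : ℝ) / U) * (((y1 - y0 : ℕ) : ℝ) / U)) * (z * ((c.M : ℝ) / U)) := by
        refine mul_le_mul_of_nonneg_right ?_ (mul_nonneg hz hM')
        refine (measureReal_mono inter_subset_right hlt.ne).trans ?_
        have q : ∀ a b : ℕ, (ENNReal.ofReal ((a : ℝ) / U - (b : ℝ) / U)).toReal ≤
            ((a - b : ℕ) : ℝ) / U := by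
          intro a b
          obtain ⟨q1, q2⟩ := cast_tsub a b
          refine ENNReal.toReal_le_of_le_ofReal (div_nonneg q2 hU.le) ?_
          refine ENNReal.ofReal_le_ofReal ?_
          rw [← sub_div]
          exact div_le_div_of_nonneg_right q1 hU.le
        rw [Measure.real, hrf, ENNReal.toReal_mul]
        exact mul_le_mul (q _ _) (q _ _) ENNReal.toReal_nonneg
          (div_nonneg (Nat.cast_nonneg _) hU.le)
    _ = z * ((((x1 - x0 : ℕ) : ℝ) / U) * (((y1 - y0 : ℕ) : ℝ) / U)) * ((c.M : ℝ) / U) := by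
        ring

/-- integrability in a chart -/
theorem val_on {g : Leaf → ℝ} (hg : ∀ c, 0 ≤ g c) (T : Tr) (x0 x1 y0 y1 : ℕ)
    {e : ℝ × ℝ → ℝ × ℝ} (he : Measurable e) :
    IntegrableOn (fun t => T.val g x0 x1 y0 y1 (e t) * M3 t) Dl := by
  obtain ⟨C, hC⟩ := T.val_bd hg x0 x1 y0 y1
  refine Helper78.MEI.on_Dl (C := C) ((T.val_meas g x0 x1 y0 y1).comp he).aestronglyMeasurable
    fun t _ => ?_
  rw [abs_of_nonneg (T.val_nonneg hg _ _ _ _ _)]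
  exact hC _

/-- **the integral of the step function of a tree** -/
theorem Tr.int {rows : List Row} {A c0 c1 : ℕ} {ext : ℕ → ℕ → ℕ → ℕ → Leaf → Bool} {g : Leaf → ℝ}
    (hg : ∀ c, 0 ≤ g c) : ∀ (T : Tr) (x0 x1 y0 y1 : ℕ),
    T.ck rows A c0 c1 ext x0 x1 y0 y1 = true →
      ∫ t in Dl, T.val g x0 x1 y0 y1 t * M3 t ≤ T.rw g x0 x1 y0 y1
  | lf c, x0, x1, y0, y1, h => by
    rw [Tr.ck, Bool.and_eq_true] at h
    have h1 := h.1
    unfold leafck at h1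
    simp only [Bool.and_eq_true] at h1
    exact leaf_int h1.1.1.1 (hg c)
  | em, _, _, _, _, _ => by
    show ∫ t in Dl, (0 : ℝ) * M3 t ≤ 0
    simp
  | sx a l r, x0, x1, y0, y1, h => by
    simp only [Tr.ck, Bool.and_eq_true] at h
    have k1 := Tr.int hg l x0 a y0 y1 h.1.2
    have k2 := Tr.int hg r a x1 y0 y1 h.2
    show ∫ t in Dl, (Tr.val g l x0 a y0 y1 t + Tr.val g r a x1 y0 y1 t) * M3 t ≤
      Tr.rw g l x0 a y0 y1 + Tr.rw g r a x1 y0 y1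
    have e : ∀ t, (Tr.val g l x0 a y0 y1 t + Tr.val g r a x1 y0 y1 t) * M3 t =
        Tr.val g l x0 a y0 y1 t * M3 t + Tr.val g r a x1 y0 y1 t * M3 t := fun t => by ring
    simp only [e]
    have i1 : IntegrableOn (fun t => Tr.val g l x0 a y0 y1 t * M3 t) Dl :=
      val_on hg l x0 a y0 y1 measurable_id
    have i2 : IntegrableOn (fun t => Tr.val g r a x1 y0 y1 t * M3 t) Dl :=
      val_on hg r a x1 y0 y1 measurable_id
    rw [integral_add i1 i2]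
    exact add_le_add k1 k2
  | sy b l r, x0, x1, y0, y1, h => by
    simp only [Tr.ck, Bool.and_eq_true] at h
    have k1 := Tr.int hg l x0 x1 y0 b h.1.2
    have k2 := Tr.int hg r x0 x1 b y1 h.2
    show ∫ t in Dl, (Tr.val g l x0 x1 y0 b t + Tr.val g r x0 x1 b y1 t) * M3 t ≤
      Tr.rw g l x0 x1 y0 b + Tr.rw g r x0 x1 b y1
    have e : ∀ t, (Tr.val g l x0 x1 y0 b t + Tr.val g r x0 x1 b y1 t) * M3 t =
        Tr.val g l x0 x1 y0 b t * M3 t + Tr.val g r x0 x1 b y1 t * M3 t := fun t => by ring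
    simp only [e]
    have i1 : IntegrableOn (fun t => Tr.val g l x0 x1 y0 b t * M3 t) Dl :=
      val_on hg l x0 x1 y0 b measurable_id
    have i2 : IntegrableOn (fun t => Tr.val g r x0 x1 b y1 t * M3 t) Dl :=
      val_on hg r x0 x1 b y1 measurable_id
    rw [integral_add i1 i2]
    exact add_le_add k1 k2

/-- **search in the tree** -/
theorem Tr.find {rows : List Row} {A c0 c1 : ℕ} {ext : ℕ → ℕ → ℕ → ℕ → Leaf → Bool} {g : Leaf → ℝ}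
    (hg : ∀ c, 0 ≤ g c) {x y : ℝ} (k1 : 2 * x + y ≤ 1) (k2 : x + 2 * y ≤ 1) :
    ∀ (T : Tr) (x0 x1 y0 y1 : ℕ), T.ck rows A c0 c1 ext x0 x1 y0 y1 = true →
    (x0 : ℝ) / U < x → x ≤ (x1 : ℝ) / U → (y0 : ℝ) / U < y → y ≤ (y1 : ℝ) / U →
    ∃ (c : Leaf) (a0 a1 b0 b1 : ℕ), leafck rows A c0 c1 a0 a1 b0 b1 c = true ∧
      ext a0 a1 b0 b1 c = true ∧ In a0 a1 b0 b1 x y ∧ g c ≤ T.val g x0 x1 y0 y1 (x, y)
  | lf c, x0, x1, y0, y1, h, e1, e2, e3, e4 => by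
    rw [Tr.ck, Bool.and_eq_true] at h
    refine ⟨c, x0, x1, y0, y1, h.1, h.2, ⟨e1.le, e2, e3.le, e4⟩, ?_⟩
    show g c ≤ (rc x0 x1 y0 y1).indicator (fun _ => g c) (x, y)
    rw [indicator_of_mem (mem_rc.2 ⟨e1.le, e2, e3.le, e4⟩)]
  | em, x0, x1, y0, y1, h, e1, e2, e3, e4 => by
    exfalso
    have hU := U_pos
    simp only [Tr.ck, Bool.or_eq_true, Nat.ble_eq] at h
    rw [div_lt_iff₀ hU] at e1 e3
    rcases h with h | h
    · have h2 : (U : ℝ) ≤ ((2 * x0 + y0 : ℕ) : ℝ) := by exact_mod_cast h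
      push_cast at h2
      have h3 := mul_le_mul_of_nonneg_right k1 hU.le
      linarith
    · have h2 : (U : ℝ) ≤ ((x0 + 2 * y0 : ℕ) : ℝ) := by exact_mod_cast h
      push_cast at h2
      have h3 := mul_le_mul_of_nonneg_right k2 hU.le
      linarith
  | sx a l r, x0, x1, y0, y1, h, e1, e2, e3, e4 => by
    simp only [Tr.ck, Bool.and_eq_true] at h
    rcases le_or_gt x ((a : ℝ) / U) with ha | ha
    · obtain ⟨c, a0, a1, b0, b1, q1, q2, q3, q4⟩ :=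
        Tr.find hg k1 k2 l x0 a y0 y1 h.1.2 e1 ha e3 e4
      refine ⟨c, a0, a1, b0, b1, q1, q2, q3, q4.trans ?_⟩
      exact le_add_of_nonneg_right (Tr.val_nonneg hg r a x1 y0 y1 _)
    · obtain ⟨c, a0, a1, b0, b1, q1, q2, q3, q4⟩ :=
        Tr.find hg k1 k2 r a x1 y0 y1 h.2 ha e2 e3 e4
      refine ⟨c, a0, a1, b0, b1, q1, q2, q3, q4.trans ?_⟩
      exact le_add_of_nonneg_left (Tr.val_nonneg hg l x0 a y0 y1 _)
  | sy b l r, x0, x1, y0, y1, h, e1, e2, e3, e4 => by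
    simp only [Tr.ck, Bool.and_eq_true] at h
    rcases le_or_gt y ((b : ℝ) / U) with ha | ha
    · obtain ⟨c, a0, a1, b0, b1, q1, q2, q3, q4⟩ :=
        Tr.find hg k1 k2 l x0 x1 y0 b h.1.2 e1 e2 e3 ha
      refine ⟨c, a0, a1, b0, b1, q1, q2, q3, q4.trans ?_⟩
      exact le_add_of_nonneg_right (Tr.val_nonneg hg r x0 x1 b y1 _)
    · obtain ⟨c, a0, a1, b0, b1, q1, q2, q3, q4⟩ :=
        Tr.find hg k1 k2 r x0 x1 b y1 h.2 e1 e2 ha e4
      refine ⟨c, a0, a1, b0, b1, q1, q2, q3, q4.trans ?_⟩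
      exact le_add_of_nonneg_left (Tr.val_nonneg hg l x0 x1 y0 b _)

/-! ### One corner -/

/-- a corner: rows, tree, check of `D1`, `E1` -/
structure Cor where
  rows : List Row
  T : Tr
  ext : ℕ → ℕ → ℕ → ℕ → Leaf → Bool

/-- half of the unit -/
def H : ℕ := 500000

def Cor.ok (Q : Cor) (A c0 c1 : ℕ) : Bool := Q.T.ck Q.rows A c0 c1 Q.ext 0 H 0 H

/-- weight of row `i`, units `U⁻⁴` -/
def Cor.w (Q : Cor) (i : ℕ) : ℕ := Q.T.wt i 0 H 0 H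

/-- weight of a point of the parameter box -/
noncomputable def Cor.W (Q : Cor) (lam : ℕ → ℝ) : ℝ :=
  ∑ i ∈ Finset.range Q.rows.length, lam i * (((Q.w i : ℕ) : ℝ) / U ^ 4)

/-- the step function -/
noncomputable def Cor.f (Q : Cor) (lam : ℕ → ℝ) : ℝ × ℝ → ℝ :=
  Q.T.val (gO Q.rows.length lam) 0 H 0 H

theorem gO_nonneg {n : ℕ} {lam : ℕ → ℝ} (h0 : ∀ i, 0 ≤ lam i) (c : Leaf) : 0 ≤ gO n lam c :=
  cb_nonneg h0 _

theorem Cor.f_int {Q : Cor} {A c0 c1 : ℕ} (hQ : Q.ok A c0 c1 = true) {lam : ℕ → ℝ}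
    (h0 : ∀ i, 0 ≤ lam i) : ∫ t in Dl, Q.f lam t * M3 t ≤ Q.W lam := by
  have h := Tr.int (gO_nonneg (n := Q.rows.length) h0) Q.T 0 H 0 H hQ
  rw [Tr.rw_eq] at h
  exact h

/-- **one corner, pointwise** in the chart -/
theorem Cor.pt {Q : Cor} {A c0 c1 : ℕ} (hQ : Q.ok A c0 c1 = true) {lam : ℕ → ℝ}
    (h0 : ∀ i, 0 ≤ lam i) (h1 : ∑ i ∈ Finset.range Q.rows.length, lam i = 1)
    {x y Sk Sj Sl s d0 d1 m ow Dt : ℝ} {C Gt : ℝ} (hx : 0 < x) (hy : 0 < y)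
    (k1 : 2 * x + y ≤ 1) (k2 : x + 2 * y ≤ 1)
    (hCe : C = (1 - x - y) * Sk + x * Sj + y * Sl)
    (hSk : Sk ≤ cb Q.rows.length lam fun i => (Q.rows.getD i zR).Sk)
    (hSj : Sj ≤ cb Q.rows.length lam fun i => (Q.rows.getD i zR).Sj)
    (hSl : Sl ≤ cb Q.rows.length lam fun i => (Q.rows.getD i zR).Sl)
    (hs : s ≤ cb Q.rows.length lam fun i => (Q.rows.getD i zR).s)
    (hd0 : (c0 : ℝ) / U ≤ d0) (hd1 : d1 ≤ (c1 : ℝ) / U) (hd : 0 ≤ d1)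
    (hd3 : 3 * d1 * (1 + s) ≤ d0)
    (hm : m ^ 2 = mtx x y) (hm0 : 0 ≤ m) (how : ow ≤ s)
    (how2 : ow ≤ (3 * x ^ 2 + 2 * x * y + 3 * y ^ 2) / (2 - x - y) ^ 2)
    (hext : ∀ (a0 a1 b0 b1 : ℕ) (c : Leaf), Q.ext a0 a1 b0 b1 c = true → In a0 a1 b0 b1 x y →
      Dt ≤ gD Q.rows.length lam c ∧ Gt ≤ -C + gE Q.rows.length lam c)
    {om : ℝ} (hom : Q.f lam (x, y) ≤ om) :
    ∃ D1 E μ : ℝ, Dt ≤ D1 ∧ Gt ≤ -C + E ∧ 0 ≤ μ ∧ μ ≤ x ∧ μ ≤ y ∧
      ∀ w, 0 ≤ w → w ≤ 1 + s → ∃ u v' f : ℝ, 0 ≤ u ∧ u ≤ w ∧ w ≤ v' ∧ v' < 2 ∧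
        f ≤ ph m μ d0 d1 u ∧
        (Ci ((A : ℝ) / U) m C D1 f u v' om ∨ Cii ((A : ℝ) / U) m C E f v' om ∨
          Ciii m C ow f) := by
  have hU := U_pos
  have hH : (H : ℝ) / U = 1 / 2 := by
    unfold H U
    norm_num
  obtain ⟨c, a0, a1, b0, b1, q1, q2, q3, q4⟩ :=
    Tr.find (gO_nonneg (n := Q.rows.length) h0) k1 k2 Q.T 0 H 0 H hQ (by simpa using hx)
      (by rw [hH]; linarith) (by simpa using hy) (by rw [hH]; linarith)
  obtain ⟨e1, e2⟩ := hext a0 a1 b0 b1 c q2 q3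
  refine ⟨gD Q.rows.length lam c, gE Q.rows.length lam c, ((min a0 b0 : ℕ) : ℝ) / U, e1, e2,
    by positivity, ?_, ?_, ?_⟩
  · refine le_trans ?_ q3.1
    exact div_le_div_of_nonneg_right (by exact_mod_cast min_le_left _ _) hU.le
  · refine le_trans ?_ q3.2.2.1
    exact div_le_div_of_nonneg_right (by exact_mod_cast min_le_right _ _) hU.le
  · intro w hw0 hw1
    have hw3 : 3 * d1 * w ≤ d0 := by
      have := mul_le_mul_of_nonneg_left hw1 (show 0 ≤ 3 * d1 by linarith)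
      linarith
    rw [hCe]
    exact leaf_pt q1 rfl h0 h1 q3 k1 k2 hSk hSj hSl hs hd0 hd1 hd hm hm0 how how2 hw0 hw1 hw3 rfl
      (q4.trans hom)

/-! ### A face -/

/-- charts of the three corners -/
def ch : Fin 3 → ℝ × ℝ → ℝ × ℝ := ![Helper60.MEI.c0, Helper60.MEI.c1, id]
/-- the index of `x` -/
def jj : Fin 3 → Fin 3 := ![2, 0, 0]
/-- the index of `y` -/
def ll : Fin 3 → Fin 3 := ![1, 2, 1]

theorem ch_fst (k : Fin 3) (t : ℝ × ℝ) : (ch k t).1 = T3 t (jj k) := by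
  fin_cases k <;> rfl

theorem ch_snd (k : Fin 3) (t : ℝ × ℝ) : (ch k t).2 = T3 t (ll k) := by
  fin_cases k <;> rfl

theorem T3_sum (k : Fin 3) (t : ℝ × ℝ) : T3 t k = 1 - T3 t (jj k) - T3 t (ll k) := by
  fin_cases k
  · show t.1 = 1 - (1 - t.1 - t.2) - t.2
    ring
  · show t.2 = 1 - t.1 - (1 - t.1 - t.2)
    ring
  · show 1 - t.1 - t.2 = 1 - t.1 - t.2
    rfl

theorem ch_meas (k : Fin 3) : Measurable (ch k) := by
  fin_cases k
  · exact Helper60.MEI.c0_meas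
  · exact Helper60.MEI.c1_meas
  · exact measurable_id

theorem mt_ch (k : Fin 3) (t : ℝ × ℝ) : Helper33.MEI.mt (ch k t) = Helper33.MEI.mt t := by
  fin_cases k
  · exact Helper60.MEI.mt_c0 t
  · exact Helper60.MEI.mt_c1 t
  · rfl

theorem M3_ch (k : Fin 3) (t : ℝ × ℝ) : M3 (ch k t) = M3 t := by
  unfold M3
  rw [mt_ch]

theorem int_ch (k : Fin 3) (F : ℝ × ℝ → ℝ) : ∫ t in Dl, F (ch k t) = ∫ t in Dl, F t := by
  fin_cases k
  · exact Helper60.MEI.int_c0 F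
  · exact Helper60.MEI.int_c1 F
  · rfl

/-- the caps in the chart -/
theorem cap_ch (k : Fin 3) (t : ℝ × ℝ) (V : Fin 3 → ℝ) :
    T3 t 0 * V 0 + T3 t 1 * V 1 + T3 t 2 * V 2 =
      (1 - T3 t (jj k) - T3 t (ll k)) * V k + T3 t (jj k) * V (jj k) + T3 t (ll k) * V (ll k) := by
  rw [← T3_sum]
  fin_cases k
  · show T3 t 0 * V 0 + T3 t 1 * V 1 + T3 t 2 * V 2 = T3 t 0 * V 0 + T3 t 2 * V 2 + T3 t 1 * V 1
    ring
  · show T3 t 0 * V 0 + T3 t 1 * V 1 + T3 t 2 * V 2 = T3 t 1 * V 1 + T3 t 0 * V 0 + T3 t 2 * V 2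
    ring
  · show T3 t 0 * V 0 + T3 t 1 * V 1 + T3 t 2 * V 2 = T3 t 2 * V 2 + T3 t 0 * V 0 + T3 t 1 * V 1
    ring

theorem T3_pos' {t : ℝ × ℝ} (ht : t ∈ Dl) (k : Fin 3) : 0 < T3 t k := by
  obtain ⟨h1, h2, h3⟩ := ht
  fin_cases k
  · exact h1
  · exact h2
  · show 0 < 1 - t.1 - t.2
    linarith

/-- some corner is the largest -/
theorem ex_corner (t : ℝ × ℝ) : ∃ k, T3 t (jj k) ≤ T3 t k ∧ T3 t (ll k) ≤ T3 t k := by
  rcases le_total (T3 t 0) (T3 t 1) with h1 | h1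
  · rcases le_total (T3 t 1) (T3 t 2) with h2 | h2
    · exact ⟨2, h1.trans h2, h2⟩
    · exact ⟨1, h1, h2⟩
  · rcases le_total (T3 t 0) (T3 t 2) with h2 | h2
    · exact ⟨2, h2, h1.trans h2⟩
    · exact ⟨0, h2, h1⟩

theorem own_ch {s : ℝ} {t : ℝ × ℝ} (ht : t ∈ Dl) (k : Fin 3) :
    own s t ≤ (3 * T3 t (jj k) ^ 2 + 2 * T3 t (jj k) * T3 t (ll k) + 3 * T3 t (ll k) ^ 2) /
      (2 - T3 t (jj k) - T3 t (ll k)) ^ 2 := by
  have hp := fun k => T3_pos' ht k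
  have hs := T3_sum k t
  have hmt : mt t = mtx (T3 t (jj k)) (T3 t (ll k)) := by
    have h := mt_ch k t
    rw [mt_mtx (ch k t), ch_fst, ch_snd] at h
    exact h.symm
  unfold own
  refine (min_le_right _ _).trans ?_
  have hmax : T3 t k ≤ max (T3 t 0) (max (T3 t 1) (T3 t 2)) := by
    fin_cases k
    · exact le_max_left _ _
    · exact (le_max_left _ _).trans (le_max_right _ _)
    · exact (le_max_right _ _).trans (le_max_right _ _)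
  have h1 : 0 < 1 + T3 t k := by linarith [hp k]
  have h2 : 4 * mt t / (1 + max (T3 t 0) (max (T3 t 1) (T3 t 2))) ^ 2 ≤
      4 * mt t / (1 + T3 t k) ^ 2 := by
    refine div_le_div_of_nonneg_left (by linarith [mt_pos (t := t)]) (by positivity) ?_
    exact pow_le_pow_left₀ h1.le (by linarith) 2
  have h3 : 4 * mt t / (1 + T3 t k) ^ 2 - 1 =
      (3 * T3 t (jj k) ^ 2 + 2 * T3 t (jj k) * T3 t (ll k) + 3 * T3 t (ll k) ^ 2) /
      (2 - T3 t (jj k) - T3 t (ll k)) ^ 2 := by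
    rw [hs] at h1
    have e1 : (1 : ℝ) + T3 t k = 2 - T3 t (jj k) - T3 t (ll k) := by
      rw [hs]
      ring
    rw [e1, hmt]
    have h4 : (2 - T3 t (jj k) - T3 t (ll k)) ^ 2 ≠ 0 := by
      have : 0 < 2 - T3 t (jj k) - T3 t (ll k) := by linarith
      positivity
    rw [div_sub_one h4]
    congr 1
    unfold mtx
    ring
  linarith

/-- **THE TABLE AS A COST OF THE FACE** -/
theorem wcost_tab {a : Fin 4 → E3} {σ : Measure (E3 × E3)} {K : Set E3} {S : Fin 4 → ℝ}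
    {c : Fin 4 → E3} [IsFiniteMeasure σ] (h : CN K σ a c) (v : Viol K a S)
    (τ : Equiv.Perm (Fin 4)) {A c0 c1 : ℕ} {Sm d0 d1 : ℝ} (hC : IsC Sm d0 d1)
    (hSm : ∀ k, S k ≤ Sm) (hd : 0 ≤ d1) (hd3 : 3 * d1 * (1 + S (τ 0)) ≤ d0)
    (hd0 : (c0 : ℝ) / U ≤ d0) (hd1 : d1 ≤ (c1 : ℝ) / U)
    {G D : ℝ × ℝ → ℝ} {Q : Fin 3 → Cor} (hQ : ∀ k, (Q k).ok A c0 c1 = true)
    {lam : Fin 3 → ℕ → ℝ} (h0 : ∀ k i, 0 ≤ lam k i)
    (h1 : ∀ k, ∑ i ∈ Finset.range (Q k).rows.length, lam k i = 1)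
    (hSk : ∀ k, S (τ k.succ) ≤ cb (Q k).rows.length (lam k) fun i => ((Q k).rows.getD i zR).Sk)
    (hSj : ∀ k, S (τ (jj k).succ) ≤
      cb (Q k).rows.length (lam k) fun i => ((Q k).rows.getD i zR).Sj)
    (hSl : ∀ k, S (τ (ll k).succ) ≤
      cb (Q k).rows.length (lam k) fun i => ((Q k).rows.getD i zR).Sl)
    (hs : ∀ k, S (τ 0) ≤ cb (Q k).rows.length (lam k) fun i => ((Q k).rows.getD i zR).s)
    (hext : ∀ k, ∀ t ∈ Dl, T3 t (jj k) ≤ T3 t k → T3 t (ll k) ≤ T3 t k →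
      ∀ (a0 a1 b0 b1 : ℕ) (c : Leaf), (Q k).ext a0 a1 b0 b1 c = true →
        In a0 a1 b0 b1 (T3 t (jj k)) (T3 t (ll k)) →
        D t ≤ gD (Q k).rows.length (lam k) c ∧
        G t ≤ -(T3 t 0 * S (τ 1) + T3 t 1 * S (τ 2) + T3 t 2 * S (τ 3)) +
          gE (Q k).rows.length (lam k) c) :
    WCost a K τ ((A : ℝ) / U) G D
      ((√2)⁻¹ * ((Q 0).W (lam 0) + (Q 1).W (lam 1) + (Q 2).W (lam 2))) := by
  have hU := U_pos
  have n0 : ∀ k t, 0 ≤ (Q k).f (lam k) t := fun k t =>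
    Tr.val_nonneg (gO_nonneg (h0 k)) _ _ _ _ _ t
  obtain ⟨ω, hω⟩ : ∃ ω : ℝ × ℝ → ℝ, ω = fun t => (Q 0).f (lam 0) (ch 0 t) +
    (Q 1).f (lam 1) (ch 1 t) + (Q 2).f (lam 2) (ch 2 t) := ⟨_, rfl⟩
  have hωm : Measurable ω := by
    rw [hω]
    exact (((Tr.val_meas _ _ _ _ _ _).comp (ch_meas 0)).add
      ((Tr.val_meas _ _ _ _ _ _).comp (ch_meas 1))).add ((Tr.val_meas _ _ _ _ _ _).comp (ch_meas 2))
  have hge : ∀ k t, (Q k).f (lam k) (ch k t) ≤ ω t := by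
    intro k t
    rw [hω]
    have e0 := n0 0 (ch 0 t)
    have e1 := n0 1 (ch 1 t)
    have e2 := n0 2 (ch 2 t)
    fin_cases k
    · show (Q 0).f (lam 0) (ch 0 t) ≤ (Q 0).f (lam 0) (ch 0 t) +
        (Q 1).f (lam 1) (ch 1 t) + (Q 2).f (lam 2) (ch 2 t)
      linarith
    · show (Q 1).f (lam 1) (ch 1 t) ≤ (Q 0).f (lam 0) (ch 0 t) +
        (Q 1).f (lam 1) (ch 1 t) + (Q 2).f (lam 2) (ch 2 t)
      linarith
    · show (Q 2).f (lam 2) (ch 2 t) ≤ (Q 0).f (lam 0) (ch 0 t) +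
        (Q 1).f (lam 1) (ch 1 t) + (Q 2).f (lam 2) (ch 2 t)
      linarith
  obtain ⟨C0, hC0⟩ := Tr.val_bd (gO_nonneg (n := (Q 0).rows.length) (h0 0)) (Q 0).T 0 H 0 H
  obtain ⟨C1, hC1⟩ := Tr.val_bd (gO_nonneg (n := (Q 1).rows.length) (h0 1)) (Q 1).T 0 H 0 H
  obtain ⟨C2, hC2⟩ := Tr.val_bd (gO_nonneg (n := (Q 2).rows.length) (h0 2)) (Q 2).T 0 H 0 H
  have hωb : ∀ t ∈ Dl, |ω t| ≤ C0 + C1 + C2 := by
    intro t _
    have e0 := n0 0 (ch 0 t)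
    have e1 := n0 1 (ch 1 t)
    have e2 := n0 2 (ch 2 t)
    have e : ω t = (Q 0).f (lam 0) (ch 0 t) + (Q 1).f (lam 1) (ch 1 t) +
      (Q 2).f (lam 2) (ch 2 t) := by rw [hω]
    rw [e, abs_of_nonneg (by linarith)]
    exact add_le_add (add_le_add (hC0 _) (hC1 _)) (hC2 _)
  have hint : ∫ t in Dl, ω t * M3 t ≤
      (Q 0).W (lam 0) + (Q 1).W (lam 1) + (Q 2).W (lam 2) := by
    have i : ∀ k, IntegrableOn (fun t => (Q k).f (lam k) (ch k t) * M3 t) Dl := fun k =>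
      val_on (gO_nonneg (h0 k)) (Q k).T 0 H 0 H (ch_meas k)
    have e : ∀ k, ∫ t in Dl, (Q k).f (lam k) (ch k t) * M3 t =
        ∫ t in Dl, (Q k).f (lam k) t * M3 t := by
      intro k
      have h := int_ch k fun t => (Q k).f (lam k) t * M3 t
      simp only [M3_ch] at h
      exact h
    have e3 : ∀ t, ω t * M3 t = ((Q 0).f (lam 0) (ch 0 t) * M3 t +
        (Q 1).f (lam 1) (ch 1 t) * M3 t) + (Q 2).f (lam 2) (ch 2 t) * M3 t := fun t => by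
      rw [hω]
      ring
    simp only [e3]
    have k1 : ∫ t in Dl, ((Q 0).f (lam 0) (ch 0 t) * M3 t + (Q 1).f (lam 1) (ch 1 t) * M3 t) +
        (Q 2).f (lam 2) (ch 2 t) * M3 t =
        (∫ t in Dl, ((Q 0).f (lam 0) (ch 0 t) * M3 t + (Q 1).f (lam 1) (ch 1 t) * M3 t)) +
          ∫ t in Dl, (Q 2).f (lam 2) (ch 2 t) * M3 t := integral_add ((i 0).add (i 1)) (i 2)
    have k2 : ∫ t in Dl, ((Q 0).f (lam 0) (ch 0 t) * M3 t + (Q 1).f (lam 1) (ch 1 t) * M3 t) =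
        (∫ t in Dl, (Q 0).f (lam 0) (ch 0 t) * M3 t) +
          ∫ t in Dl, (Q 1).f (lam 1) (ch 1 t) * M3 t := integral_add (i 0) (i 1)
    rw [k1, k2, e 0, e 1, e 2]
    exact add_le_add (add_le_add (Cor.f_int (hQ 0) (h0 0)) (Cor.f_int (hQ 1) (h0 1)))
      (Cor.f_int (hQ 2) (h0 2))
  refine (wcost_R7 h v τ (G := G) (D := D) (ω := ω) (C2 := C0 + C1 + C2)
    (div_nonneg (Nat.cast_nonneg A) hU.le) hC hSm hd hd3
    hωm.aestronglyMeasurable hωb ?_).mono ?_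
  · intro t ht
    obtain ⟨k, hk1, hk2⟩ := ex_corner t
    have hp := fun k => T3_pos' ht k
    have hsum := T3_sum k t
    have hcap := cap_ch k t fun p => S (τ p.succ)
    have hm : √(mt t) ^ 2 = mtx (T3 t (jj k)) (T3 t (ll k)) := by
      have h := mt_ch k t
      rw [mt_mtx (ch k t), ch_fst, ch_snd] at h
      rw [Real.sq_sqrt (mt_pos (t := t)).le]
      exact h.symm
    have hfk : (Q k).f (lam k) (T3 t (jj k), T3 t (ll k)) ≤ ω t := by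
      have := hge k t
      have e : ch k t = (T3 t (jj k), T3 t (ll k)) := by
        rw [← ch_fst, ← ch_snd]
      rw [e] at this
      exact this
    obtain ⟨D1, E, μ, g1, g2, g3, g4, g5, g6⟩ := Cor.pt (hQ k) (h0 k) (h1 k)
      (hp (jj k)) (hp (ll k)) (by linarith) (by linarith) hcap (hSk k) (hSj k) (hSl k) (hs k)
      hd0 hd1 hd hd3 hm (Real.sqrt_nonneg _) (own_le_s (S (τ 0)) t) (own_ch ht k)
      (hext k t ht hk1 hk2) hfk
    refine ⟨D1, E, μ, g1, g2, g3, ?_, g6⟩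
    intro p
    have hμk : μ ≤ T3 t k := g4.trans hk1
    fin_cases k
    · fin_cases p
      · exact hμk
      · exact g5
      · exact g4
    · fin_cases p
      · exact g4
      · exact hμk
      · exact g5
    · fin_cases p
      · exact g4
      · exact g5
      · exact hμk
  · exact mul_le_mul_of_nonneg_left hint (by positivity)

end Helper60.R7
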