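import Pool.Agent.Helper60.MEI.R7T

/-!
# Project MEI (M2), w-term: tables of second order (rule R8)

`ω = B / m`, `B` bilinear on the cells; the checks are made at the four vertices of a cell, at the
two ends of an interval of `w`, for all rows (vertices of the parameter box), with a range
multiplier `la` and a mix `ps` of LOAD and STRIPS. Deficit and value through affine majorants
(price vectors). Numbers are naturals in units of `10⁻⁶`.
-/

set_option autoImplicit false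

namespace Helper60.R8

open Set MeasureTheory Helper78.MEI Helper80.CW Helper82.CW Helper14.CW Helper93.MEI Helper82.M2
open Helper14.MEI2 Pool.Agent.Helper52.MEI Pool.Agent.Helper73.MEI Pool.Agent.Helper31.SR
open Helper33.MEI (Wi Dl tx M3 mt mt_pos)
open Helper60.R7 (U U_pos F4 cast_tsub In mtx rc rc_meas mem_rc mt_mtx cb cb_nonneg)

/-! ### Pointwise: from an inequality to the rules -/

/-- **the rule, pointwise**: `Y` in range, above a load and above the strips -/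
theorem rule_of {A m G Y C D X E f w om P psi la ow : ℝ} (hA : 0 ≤ A) (hm : 0 < m) (hw : 0 ≤ w)
    (hw2 : w < 2) (hL : G + (1 - D) * w - X ≤ Y) (hS : f - C + m * w ≤ Y) (hO : Y / m - w ≤ ow)
    (hE : G ≤ -C + E) (hP0 : 0 ≤ P) (hP : C - f ≤ P) (hps0 : 0 ≤ psi) (hps1 : psi ≤ 1)
    (hla : 0 ≤ la)
    (hk : 0.127 * (w / (1 - w / 2)) * m + psi * (A * ((m - 1 + D) * w + X)) +
      (1 - psi) * (A * (E - f)) + A * P * (w / (1 - w / 2) / 2) + la * (C + m * ow - f) ≤ m * om) :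
    A * (G / m) - om ≤ ff A (Y / m - w) w := by
  have dw : 0 < 1 - w / 2 := by linarith
  obtain ⟨ka, hka⟩ : ∃ a, a = w / (1 - w / 2) := ⟨_, rfl⟩
  have hka0 : 0 ≤ ka := by
    rw [hka]
    positivity
  rw [← hka] at hk
  -- everything times `m`
  obtain ⟨Z, hZ⟩ : ∃ Z, Z = Y - m * w := ⟨_, rfl⟩
  have eX : m * (Y / m - w) = Z := by
    rw [hZ]
    field_simp
  have hO' : Z ≤ m * ow := by
    rw [← eX]
    exact mul_le_mul_of_nonneg_left hO hm.le
  have hla' := mul_nonneg hla (show 0 ≤ C + m * ow - f by linarith)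
  have k1 : psi * (A * (G - Z)) ≤ psi * (A * ((m - 1 + D) * w + X)) :=
    mul_le_mul_of_nonneg_left (mul_le_mul_of_nonneg_left (by linarith) hA) hps0
  have k2 : (1 - psi) * (A * (G - Z)) ≤ (1 - psi) * (A * (E - f)) :=
    mul_le_mul_of_nonneg_left (mul_le_mul_of_nonneg_left (by linarith) hA) (sub_nonneg.2 hps1)
  have k3 : -(A * P * (ka / 2)) ≤ A * Z * (ka / 2) := by
    have q1 : -P ≤ Z := by linarith
    have q2 := mul_le_mul_of_nonneg_right (mul_le_mul_of_nonneg_left q1 hA)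
      (show 0 ≤ ka / 2 by linarith)
    linarith
  have k4 : 0 ≤ A * P * (ka / 2) := by positivity
  have k5 : 0 ≤ 0.127 * ka * m := by positivity
  -- the inequality without multipliers
  have k6 : A * (G - Z) + 0.127 * ka * m + A * P * (ka / 2) ≤ m * om := by linarith
  have eG : m * (A * (G / m) - om) = A * G - m * om := by
    field_simp
  unfold ff
  refine le_min ?_ ?_
  · refine le_of_mul_le_mul_left ?_ hm
    have e1 : m * (A * (Y / m - w) - 0.127 * w / (1 - w / 2)) = A * Z - 0.127 * ka * m := by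
      rw [← eX, hka]
      ring
    rw [eG, e1]
    linarith
  · refine le_of_mul_le_mul_left ?_ hm
    have e2 : m * ((A * (Y / m - w) - 0.127 * w) / (1 - w / 2)) =
        A * Z + A * Z * (ka / 2) - 0.127 * ka * m := by
      have hi : (1 - w / 2) * (1 - w / 2)⁻¹ = 1 := mul_inv_cancel₀ dw.ne'
      have eka : ka = w * (1 - w / 2)⁻¹ := by
        rw [hka, div_eq_mul_inv]
      rw [div_eq_mul_inv, eka, ← eX]
      linear_combination (m * (A * (Y / m - w))) * hi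
    rw [eG, e2]
    linarith

/-- the strip function is concave in `w` -/
theorem ph_chord {m μ d0 d1 u v w r : ℝ} (hμ : 0 ≤ μ) (h0 : 0 ≤ u) (huv : u < v)
    (hr0 : 0 ≤ r) (hr1 : r ≤ 1) (hw : w = (1 - r) * u + r * v) (hd0 : 0 ≤ d0) (hd1 : 0 ≤ d1) :
    (1 - r) * ph m μ d0 d1 u + r * ph m μ d0 d1 v ≤ ph m μ d0 d1 w := by
  have h1 : u ≤ w := by
    rw [hw]
    nlinarith
  have h2 : w ≤ v := by
    rw [hw]
    nlinarith
  have k := cw_chord h0 h1 h2 hd0 hd1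
  have e1 : v - w = (v - u) * (1 - r) := by
    rw [hw]
    ring
  have e2 : w - u = (v - u) * r := by
    rw [hw]
    ring
  rw [e1, e2] at k
  have hvu : 0 < v - u := by linarith
  have k2 : (1 - r) * ((d0 - d1 * u) * √u) + r * ((d0 - d1 * v) * √v) ≤ (d0 - d1 * w) * √w := by
    refine le_of_mul_le_mul_left ?_ hvu
    linarith
  have k3 := mul_le_mul_of_nonneg_left k2 (by linarith : 0 ≤ 2 * μ)
  have e3 : (1 - m) * w = (1 - r) * ((1 - m) * u) + r * ((1 - m) * v) := by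
    rw [hw]
    ring
  unfold ph
  linarith

/-- `w / (1 - w / 2)` is convex -/
theorem kap_chord {u v w r : ℝ} (huv : u < v) (hv : v < 2)
    (hr0 : 0 ≤ r) (hr1 : r ≤ 1) (hw : w = (1 - r) * u + r * v) :
    w / (1 - w / 2) ≤ (1 - r) * (u / (1 - u / 2)) + r * (v / (1 - v / 2)) := by
  have h1 : u ≤ w := by
    rw [hw]
    nlinarith
  have h2 : w ≤ v := by
    rw [hw]
    nlinarith
  have du : 0 < 1 - u / 2 := by linarith
  have dv : 0 < 1 - v / 2 := by linarith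
  have dw : 0 < 1 - w / 2 := by linarith
  obtain ⟨a, ha⟩ : ∃ a, a = 1 - u / 2 := ⟨_, rfl⟩
  obtain ⟨b, hb⟩ : ∃ a, a = 1 - v / 2 := ⟨_, rfl⟩
  obtain ⟨c, hc⟩ : ∃ a, a = 1 - w / 2 := ⟨_, rfl⟩
  have q : ∀ z y : ℝ, 0 < z → z = 1 - y / 2 → y / z = -2 + 2 / z := by
    intro z y hz hy
    have e : y = 2 - 2 * z := by linarith
    rw [e]
    field_simp
    ring
  rw [← ha] at du
  rw [← hb] at dv
  rw [← hc] at dw
  have e1 : u / a = -2 + 2 / a := q a u du ha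
  have e2 : v / b = -2 + 2 / b := q b v dv hb
  have e3 : w / c = -2 + 2 / c := q c w dw hc
  have ec : c = (1 - r) * a + r * b := by
    rw [hc, ha, hb, hw]
    ring
  have k : 1 / c ≤ (1 - r) * (1 / a) + r * (1 / b) := by
    have e4 : (1 - r) * (1 / a) + r * (1 / b) = ((1 - r) * b + r * a) / (a * b) := by
      field_simp
    rw [e4, div_le_div_iff₀ dw (mul_pos du dv), ec]
    nlinarith [mul_nonneg (mul_nonneg (sub_nonneg.2 hr1) hr0) (sq_nonneg (a - b))]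
  rw [← ha, ← hb, ← hc, e1, e2, e3]
  have e5 : ∀ z : ℝ, 2 / z = 2 * (1 / z) := fun z => by ring
  rw [e5, e5, e5]
  linarith

/-- **from the two ends of the interval to `w`** -/
theorem ends_of {A m G Y C D X E fu fv w om P psi la ow u v r : ℝ} (hA : 0 ≤ A) (hm : 0 < m)
    (hu : 0 ≤ u) (huv : u < v) (hv : v < 2) (hr0 : 0 ≤ r) (hr1 : r ≤ 1)
    (hw : w = (1 - r) * u + r * v)
    (hL : G + (1 - D) * w - X ≤ Y) (hS : (1 - r) * fu + r * fv - C + m * w ≤ Y)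
    (hO : Y / m - w ≤ ow) (hE : G ≤ -C + E)
    (hP0 : 0 ≤ P) (hP : C - fu ≤ P) (hfuv : fu ≤ fv) (hps0 : 0 ≤ psi) (hps1 : psi ≤ 1)
    (hla : 0 ≤ la)
    (hku : 0.127 * (u / (1 - u / 2)) * m + psi * (A * ((m - 1 + D) * u + X)) +
      (1 - psi) * (A * (E - fu)) + A * P * (u / (1 - u / 2) / 2) + la * (C + m * ow - fu) ≤ m * om)
    (hkv : 0.127 * (v / (1 - v / 2)) * m + psi * (A * ((m - 1 + D) * v + X)) +
      (1 - psi) * (A * (E - fv)) + A * P * (v / (1 - v / 2) / 2) + la * (C + m * ow - fv) ≤ m * om) :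
    A * (G / m) - om ≤ ff A (Y / m - w) w := by
  have h1 : u ≤ w := by
    rw [hw]
    nlinarith
  have h2 : w ≤ v := by
    rw [hw]
    nlinarith
  have hc := kap_chord huv hv hr0 hr1 hw
  have hf : fu ≤ (1 - r) * fu + r * fv := by nlinarith
  refine rule_of (f := (1 - r) * fu + r * fv) (P := P) (psi := psi) (la := la) hA hm
    (hu.trans h1) (by linarith) hL hS hO hE hP0 (by linarith) hps0 hps1 hla ?_
  have k1 := mul_le_mul_of_nonneg_left hku (sub_nonneg.2 hr1)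
  have k2 := mul_le_mul_of_nonneg_left hkv hr0
  have k3 := mul_le_mul_of_nonneg_left hc (show 0 ≤ 0.127 * m by positivity)
  have k4 := mul_le_mul_of_nonneg_left hc (show 0 ≤ A * P / 2 by positivity)
  obtain ⟨a, ha⟩ : ∃ a, a = w / (1 - w / 2) := ⟨_, rfl⟩
  obtain ⟨b, hb⟩ : ∃ a, a = u / (1 - u / 2) := ⟨_, rfl⟩
  obtain ⟨c, hcc⟩ : ∃ a, a = v / (1 - v / 2) := ⟨_, rfl⟩
  rw [← ha, ← hb, ← hcc] at k3 k4
  rw [← hb] at k1
  rw [← hcc] at k2
  rw [← ha]
  rw [hw]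
  linarith

/-! ### Pointwise: from the vertices to the point -/

/-- the inequality of a vertex at the end `e` with `f = fe`, `ka = e / (1 - e / 2)` -/
def vin (A psi la ow ka e m C D X E P f om : ℝ) : Prop :=
  0.127 * ka * m + psi * (A * ((m - 1 + D) * e + X)) + (1 - psi) * (A * (E - f)) +
    A * P * (ka / 2) + la * (C + m * ow - f) ≤ om

/-- the inequality is monotone in `m`, `D`, `E` and convex -/
theorem vin_comb {A psi la ow ka e : ℝ} (hA : 0 ≤ A) (hps0 : 0 ≤ psi) (hps1 : psi ≤ 1)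
    (hla : 0 ≤ la) (how : 0 ≤ ow) (hka : 0 ≤ ka) (he : 0 ≤ e)
    {t1 t2 t3 t4 : ℝ} (h1 : 0 ≤ t1) (h2 : 0 ≤ t2) (h3 : 0 ≤ t3) (h4 : 0 ≤ t4)
    (hs : t1 + t2 + t3 + t4 = 1)
    {m1 m2 m3 m4 C1 C2 C3 C4 D1 D2 D3 D4 X1 X2 X3 X4 E1 E2 E3 E4 P1 P2 P3 P4 f1 f2 f3 f4
      o1 o2 o3 o4 : ℝ}
    (v1 : vin A psi la ow ka e m1 C1 D1 X1 E1 P1 f1 o1)
    (v2 : vin A psi la ow ka e m2 C2 D2 X2 E2 P2 f2 o2)
    (v3 : vin A psi la ow ka e m3 C3 D3 X3 E3 P3 f3 o3)
    (v4 : vin A psi la ow ka e m4 C4 D4 X4 E4 P4 f4 o4)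
    {m C D X E : ℝ} (hm : m ≤ t1 * m1 + t2 * m2 + t3 * m3 + t4 * m4)
    (hC : C ≤ t1 * C1 + t2 * C2 + t3 * C3 + t4 * C4)
    (hD : D ≤ t1 * D1 + t2 * D2 + t3 * D3 + t4 * D4)
    (hX : X ≤ t1 * X1 + t2 * X2 + t3 * X3 + t4 * X4)
    (hE : E ≤ t1 * E1 + t2 * E2 + t3 * E3 + t4 * E4) :
    vin A psi la ow ka e m C D X E (t1 * P1 + t2 * P2 + t3 * P3 + t4 * P4)
      (t1 * f1 + t2 * f2 + t3 * f3 + t4 * f4) (t1 * o1 + t2 * o2 + t3 * o3 + t4 * o4) := by
  unfold vin at *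
  have k1 := mul_le_mul_of_nonneg_left v1 h1
  have k2 := mul_le_mul_of_nonneg_left v2 h2
  have k3 := mul_le_mul_of_nonneg_left v3 h3
  have k4 := mul_le_mul_of_nonneg_left v4 h4
  have q1 := mul_le_mul_of_nonneg_left hm
    (show 0 ≤ 0.127 * ka + psi * A * e + la * ow by positivity)
  have q2 := mul_le_mul_of_nonneg_left hC hla
  have q3 := mul_le_mul_of_nonneg_left hD (show 0 ≤ psi * A * e by positivity)
  have q4 := mul_le_mul_of_nonneg_left hE (show 0 ≤ (1 - psi) * A from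
    mul_nonneg (by linarith) hA)
  have q5 := mul_le_mul_of_nonneg_left hX (show 0 ≤ psi * A from mul_nonneg hps0 hA)
  have t4e : t4 = 1 - t1 - t2 - t3 := by linarith
  subst t4e
  linarith

/-- convexity of `m` on a rectangle -/
theorem m_conv {X0 X1 Y0 Y1 p q x y m m1 m2 m3 m4 : ℝ} (hp0 : 0 ≤ p) (hp1 : p ≤ 1) (hq0 : 0 ≤ q)
    (hq1 : q ≤ 1) (hx : x = (1 - p) * X0 + p * X1) (hy : y = (1 - q) * Y0 + q * Y1)
    (hm : m ^ 2 = mtx x y) (hm0 : 0 < m) (h1 : 0 ≤ m1) (h2 : 0 ≤ m2) (h3 : 0 ≤ m3) (h4 : 0 ≤ m4)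
    (k1 : mtx X0 Y0 ≤ m1 ^ 2) (k2 : mtx X0 Y1 ≤ m2 ^ 2) (k3 : mtx X1 Y0 ≤ m3 ^ 2)
    (k4 : mtx X1 Y1 ≤ m4 ^ 2) :
    m ≤ (1 - p) * (1 - q) * m1 + (1 - p) * q * m2 + p * (1 - q) * m3 + p * q * m4 := by
  -- Cauchy
  have cs : ∀ a b n : ℝ, 0 ≤ n → mtx a b ≤ n ^ 2 →
      1 - (x + a + y + b) / 2 + x * a + y * b + (x * b + y * a) / 2 ≤ n * m := by
    intro a b n hn hk
    apply le_of_sq_le_sq _ (mul_nonneg hn hm0.le)
    have e : mtx a b * mtx x y -
        (1 - (x + a + y + b) / 2 + x * a + y * b + (x * b + y * a) / 2) ^ 2 =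
        ((1 - (a + b) / 2) * ((x + y) / 2) - (a + b) / 2 * (1 - (x + y) / 2)) ^ 2
        + 1 / 2 * ((1 - (a + b) / 2) * x - (1 - (x + y) / 2) * a) ^ 2
        + 1 / 2 * ((1 - (a + b) / 2) * y - (1 - (x + y) / 2) * b) ^ 2
        + 1 / 2 * ((a + b) / 2 * x - (x + y) / 2 * a) ^ 2
        + 1 / 2 * ((a + b) / 2 * y - (x + y) / 2 * b) ^ 2
        + 1 / 4 * (a * y - x * b) ^ 2 := by
      unfold mtx
      ring
    have hxy : 0 ≤ mtx x y := by
      rw [← hm]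
      positivity
    have k := mul_le_mul_of_nonneg_right hk hxy
    rw [mul_pow, hm]
    nlinarith [sq_nonneg ((1 - (a + b) / 2) * ((x + y) / 2) - (a + b) / 2 * (1 - (x + y) / 2)),
      sq_nonneg ((1 - (a + b) / 2) * x - (1 - (x + y) / 2) * a),
      sq_nonneg ((1 - (a + b) / 2) * y - (1 - (x + y) / 2) * b),
      sq_nonneg ((a + b) / 2 * x - (x + y) / 2 * a),
      sq_nonneg ((a + b) / 2 * y - (x + y) / 2 * b), sq_nonneg (a * y - x * b)]
  have c1 := cs X0 Y0 m1 h1 k1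
  have c2 := cs X0 Y1 m2 h2 k2
  have c3 := cs X1 Y0 m3 h3 k3
  have c4 := cs X1 Y1 m4 h4 k4
  have t1 : 0 ≤ (1 - p) * (1 - q) := mul_nonneg (by linarith) (by linarith)
  have t2 : 0 ≤ (1 - p) * q := mul_nonneg (by linarith) hq0
  have t3 : 0 ≤ p * (1 - q) := mul_nonneg hp0 (by linarith)
  have t4 : 0 ≤ p * q := mul_nonneg hp0 hq0
  have d1 := mul_le_mul_of_nonneg_left c1 t1
  have d2 := mul_le_mul_of_nonneg_left c2 t2
  have d3 := mul_le_mul_of_nonneg_left c3 t3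
  have d4 := mul_le_mul_of_nonneg_left c4 t4
  refine le_of_mul_le_mul_right ?_ hm0
  have e : m * m = (1 - p) * (1 - q) *
        (1 - (x + X0 + y + Y0) / 2 + x * X0 + y * Y0 + (x * Y0 + y * X0) / 2)
      + (1 - p) * q * (1 - (x + X0 + y + Y1) / 2 + x * X0 + y * Y1 + (x * Y1 + y * X0) / 2)
      + p * (1 - q) * (1 - (x + X1 + y + Y0) / 2 + x * X1 + y * Y0 + (x * Y0 + y * X1) / 2)
      + p * q * (1 - (x + X1 + y + Y1) / 2 + x * X1 + y * Y1 + (x * Y1 + y * X1) / 2) := by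
    have e1 : m * m = mtx x y := by
      rw [← hm]
      ring
    rw [e1]
    have e2 : (1 - p) * (1 - q) *
        (1 - (x + X0 + y + Y0) / 2 + x * X0 + y * Y0 + (x * Y0 + y * X0) / 2)
      + (1 - p) * q * (1 - (x + X0 + y + Y1) / 2 + x * X0 + y * Y1 + (x * Y1 + y * X0) / 2)
      + p * (1 - q) * (1 - (x + X1 + y + Y0) / 2 + x * X1 + y * Y0 + (x * Y0 + y * X1) / 2)
      + p * q * (1 - (x + X1 + y + Y1) / 2 + x * X1 + y * Y1 + (x * Y1 + y * X1) / 2) =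
      1 - (x + y) / 2 - (((1 - p) * X0 + p * X1) + ((1 - q) * Y0 + q * Y1)) / 2 +
        x * ((1 - p) * X0 + p * X1) + y * ((1 - q) * Y0 + q * Y1) +
        (x * ((1 - q) * Y0 + q * Y1) + y * ((1 - p) * X0 + p * X1)) / 2 := by ring
    rw [e2, ← hx, ← hy]
    unfold mtx
    ring
  linarith

/-- convex combinations over the rows -/
theorem comb6 {n : ℕ} {lam : ℕ → ℝ} (h0 : ∀ i, 0 ≤ lam i)
    (h1 : ∑ i ∈ Finset.range n, lam i = 1) {a0 a1 a2 a3 a4 a5 a6 : ℝ} {D E P C s X om : ℕ → ℝ}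
    (h : ∀ i < n, a0 + a1 * D i + a2 * E i + a3 * P i + a4 * C i + a5 * s i + a6 * X i ≤ om i) :
    a0 + a1 * ∑ i ∈ Finset.range n, lam i * D i + a2 * ∑ i ∈ Finset.range n, lam i * E i
      + a3 * ∑ i ∈ Finset.range n, lam i * P i + a4 * ∑ i ∈ Finset.range n, lam i * C i
      + a5 * ∑ i ∈ Finset.range n, lam i * s i + a6 * ∑ i ∈ Finset.range n, lam i * X i
      ≤ ∑ i ∈ Finset.range n, lam i * om i := by
  have e : a0 + a1 * ∑ i ∈ Finset.range n, lam i * D i + a2 * ∑ i ∈ Finset.range n, lam i * E i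
      + a3 * ∑ i ∈ Finset.range n, lam i * P i + a4 * ∑ i ∈ Finset.range n, lam i * C i
      + a5 * ∑ i ∈ Finset.range n, lam i * s i + a6 * ∑ i ∈ Finset.range n, lam i * X i =
      ∑ i ∈ Finset.range n,
        lam i * (a0 + a1 * D i + a2 * E i + a3 * P i + a4 * C i + a5 * s i + a6 * X i) := by
    have e1 : ∀ i, lam i * (a0 + a1 * D i + a2 * E i + a3 * P i + a4 * C i + a5 * s i + a6 * X i) =
        a0 * lam i + a1 * (lam i * D i) + a2 * (lam i * E i) + a3 * (lam i * P i)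
        + a4 * (lam i * C i) + a5 * (lam i * s i) + a6 * (lam i * X i) := fun i => by ring
    simp only [e1, Finset.sum_add_distrib, ← Finset.mul_sum, h1, mul_one]
  rw [e]
  exact Finset.sum_le_sum fun i hi => mul_le_mul_of_nonneg_left (h i (Finset.mem_range.1 hi)) (h0 i)

/-! ### The checker -/

/-- an affine function on the triangle, by its values at the corners -/
structure P3 where
  k : ℕ
  j : ℕ
  l : ℕ

def z3 : P3 := ⟨0, 0, 0⟩

/-- its value, units `U⁻²` -/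
def af (p : P3) (x y : ℕ) : ℕ :=
  Nat.add (Nat.mul p.k (Nat.sub (Nat.sub U x) y)) (Nat.add (Nat.mul p.j x) (Nat.mul p.l y))

/-- a load: majorant of the deficit and of the dropped value -/
structure Ld where
  D : P3
  X : P3

def zL : Ld := ⟨z3, z3⟩

/-- a row: caps, `s`, loads, majorants of the value above the empty filling -/
structure Row where
  S : P3
  s : ℕ
  ls : List Ld
  es : List P3

def zR : Row := ⟨z3, 0, [], []⟩

/-- an interval of `w`: ends, roots, rule, range multiplier, mix, load, majorant of the value -/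
structure Iv where
  u : ℕ
  v : ℕ
  ru : ℕ
  rv : ℕ
  ty : ℕ
  la : ℕ
  ps : ℕ
  li : ℕ
  ei : ℕ

/-- a leaf: upper bounds of `m` at the vertices `00`, `01`, `10`, `11`, bound of the own value,
lower bound of `m`, bound of `m⁻⁴`, intervals, values of `B` at the vertices -/
structure Lf where
  m00 : ℕ
  m01 : ℕ
  m10 : ℕ
  m11 : ℕ
  o : ℕ
  m0 : ℕ
  M : ℕ
  iv : List Iv
  o00 : List ℕ
  o01 : List ℕ
  o10 : List ℕ
  o11 : List ℕ

/-- the inequality at the end `e`; `D`, `X`, `C`, `E` in `U⁻²`, `P`, `F` in `U⁻⁴` -/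
def ein (A m D X C E P e F la ps ow om : ℕ) : Bool :=
  Nat.ble
    (Nat.mul U (Nat.add (Nat.mul (Nat.mul 254 (Nat.mul m e)) (Nat.mul (Nat.mul U U) (Nat.mul U U)))
      (Nat.mul 1000 (Nat.add
        (Nat.mul (Nat.sub (Nat.mul 2 U) e)
          (Nat.add (Nat.mul (Nat.mul ps A) (Nat.mul (Nat.add (Nat.mul m U) D) e))
            (Nat.mul U (Nat.add (Nat.mul A (Nat.add (Nat.mul (Nat.sub U ps) E) (Nat.mul ps X)))
              (Nat.mul U (Nat.mul la (Nat.add C (Nat.mul m ow))))))))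
        (Nat.mul A (Nat.mul P e))))))
    (Nat.mul 1000 (Nat.mul (Nat.sub (Nat.mul 2 U) e)
      (Nat.add (Nat.mul (Nat.mul (Nat.sub U ps) A) F)
        (Nat.mul U (Nat.add (Nat.mul la F) (Nat.mul (Nat.mul U U)
          (Nat.add (Nat.mul (Nat.mul ps A) e) (Nat.mul (Nat.mul U U) om))))))))

/-- one interval, one vertex, one row, with the data evaluated -/
def one (A m o : ℕ) (I : Iv) (Fu Fv : ℕ) (C D X E s om : ℕ) : Bool :=
  match I.ty with
  | 0 => ein A m D X C E (Nat.sub (Nat.mul C (Nat.mul U U)) Fu) I.u Fu I.la I.ps s om &&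
      ein A m D X C E (Nat.sub (Nat.mul C (Nat.mul U U)) Fu) I.v Fv I.la I.ps s om
  | 1 => ein A m D X C E (Nat.sub (Nat.mul C (Nat.mul U U)) Fu) I.u Fu I.la I.ps o om &&
      ein A m D X C E (Nat.sub (Nat.mul C (Nat.mul U U)) Fu) I.v Fv I.la I.ps o om
  | 2 => Nat.ble (Nat.succ (Nat.mul (Nat.mul U U) (Nat.add C (Nat.mul m s)))) Fu
  | _ => Nat.ble (Nat.succ (Nat.mul (Nat.mul U U) (Nat.add C (Nat.mul m o)))) Fu

/-- one interval, one vertex, all rows -/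
def rwk (A m o x y : ℕ) (I : Iv) (Fu Fv : ℕ) : List Row → List ℕ → Bool
  | [], _ => true
  | R :: Rs, om :: Os =>
    one A m o I Fu Fv (af R.S x y) (af (R.ls.getD I.li zL).D x y) (af (R.ls.getD I.li zL).X x y)
      (af (R.es.getD I.ei z3) x y) R.s om && rwk A m o x y I Fu Fv Rs Os
  | _ :: _, [] => false

/-- one interval, one vertex -/
def vxk (rows : List Row) (A c0 c1 m o x y : ℕ) (I : Iv) (Os : List ℕ) : Bool :=
  Nat.ble (F4 c0 c1 m (min x y) I.u I.ru) (F4 c0 c1 m (min x y) I.v I.rv) &&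
    rwk A m o x y I (F4 c0 c1 m (min x y) I.u I.ru) (F4 c0 c1 m (min x y) I.v I.rv) rows Os

/-- one interval -/
def ik (rows : List Row) (A c0 c1 nl ne x0 x1 y0 y1 : ℕ) (c : Lf) (I : Iv) : Bool :=
  Nat.blt I.u I.v && Nat.blt I.v (2 * U) && Nat.ble (I.ru * I.ru) (I.u * U) &&
    Nat.ble (I.rv * I.rv) (I.v * U) && Nat.ble (c1 * I.v) (c0 * U) && Nat.ble I.ps U &&
    Nat.blt I.li nl && (Nat.ble U I.ps || Nat.blt I.ei ne) &&
    vxk rows A c0 c1 c.m00 c.o x0 y0 I c.o00 && vxk rows A c0 c1 c.m01 c.o x0 y1 I c.o01 &&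
    vxk rows A c0 c1 c.m10 c.o x1 y0 I c.o10 && vxk rows A c0 c1 c.m11 c.o x1 y1 I c.o11

/-- list of intervals, `b` is reached -/
def ivk (rows : List Row) (A c0 c1 nl ne x0 x1 y0 y1 : ℕ) (c : Lf) : ℕ → List Iv → Bool
  | b, [] => rows.all fun R => Nat.blt (U + R.s) b
  | b, I :: L => Nat.ble I.u b && ik rows A c0 c1 nl ne x0 x1 y0 y1 c I &&
      ivk rows A c0 c1 nl ne x0 x1 y0 y1 c I.v L

/-- upper bound of `m` at a vertex -/
def mk1 (x y m : ℕ) : Bool :=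
  Nat.ble m U && Nat.ble (U * U + x * x + y * y + x * y) (m * m + U * x + U * y)

/-- bounds of the box -/
def bk (x0 x1 y0 y1 : ℕ) (c : Lf) : Bool :=
  Nat.blt x0 x1 && Nat.blt y0 y1 && Nat.blt (x1 + y1) U && Nat.blt 0 c.m0 &&
  mk1 x0 y0 c.m00 && mk1 x0 y1 c.m01 && mk1 x1 y0 c.m10 && mk1 x1 y1 c.m11 &&
  ((Nat.ble (2 * x1 + y1) U && Nat.ble (x1 + 2 * y1) U &&
      Nat.ble (c.m0 * c.m0 + U * x1 + U * y1) (U * U + x1 * x1 + y1 * y1 + x1 * y1)) ||
    Nat.ble (c.m0 * c.m0 + U * x1 + U * y1) (U * U + x0 * x0 + y0 * y0 + x0 * y0) ||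
    Nat.ble (3 * (c.m0 * c.m0)) (2 * (U * U))) &&
  Nat.ble (U * (3 * (x1 * x1) + 2 * (x1 * y1) + 3 * (y1 * y1)))
    (c.o * ((2 * U - x1 - y1) * (2 * U - x1 - y1))) &&
  Nat.ble (U * U * (U * U) * U) (c.M * (c.m0 * c.m0 * (c.m0 * c.m0)))

/-- the leaf -/
def lk8 (rows : List Row) (A c0 c1 nl ne x0 x1 y0 y1 : ℕ) (c : Lf) : Bool :=
  bk x0 x1 y0 y1 c && ivk rows A c0 c1 nl ne x0 x1 y0 y1 c 0 c.iv

/-- tree of boxes; `tp` = the tip, treated outside of the table -/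
inductive Tr where
  | lf (c : Lf) : Tr
  | em : Tr
  | tp : Tr
  | sx (a : ℕ) (l r : Tr) : Tr
  | sy (b : ℕ) (l r : Tr) : Tr

/-- the checker; `h` = size of the tip -/
def Tr.ck (rows : List Row) (A c0 c1 nl ne h : ℕ) : Tr → ℕ → ℕ → ℕ → ℕ → Bool
  | lf c, x0, x1, y0, y1 => lk8 rows A c0 c1 nl ne x0 x1 y0 y1 c
  | em, x0, _, y0, _ => Nat.ble U (2 * x0 + y0) || Nat.ble U (x0 + 2 * y0)
  | tp, _, x1, _, y1 => Nat.ble x1 h && Nat.ble y1 h
  | sx a l r, x0, x1, y0, y1 =>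
    Tr.ck rows A c0 c1 nl ne h l x0 a y0 y1 && Tr.ck rows A c0 c1 nl ne h r a x1 y0 y1
  | sy b l r, x0, x1, y0, y1 =>
    Tr.ck rows A c0 c1 nl ne h l x0 x1 y0 b && Tr.ck rows A c0 c1 nl ne h r x0 x1 b y1

/-- the weight of row `i`, units `U⁻⁴ / 4` -/
def Tr.wt (i : ℕ) : Tr → ℕ → ℕ → ℕ → ℕ → ℕ
  | lf c, x0, x1, y0, y1 => (c.o00.getD i 0 + c.o01.getD i 0 + c.o10.getD i 0 + c.o11.getD i 0) *
      ((x1 - x0) * (y1 - y0)) * c.M
  | em, _, _, _, _ => 0
  | tp, _, _, _, _ => 0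
  | sx a l r, x0, x1, y0, y1 => Tr.wt i l x0 a y0 y1 + Tr.wt i r a x1 y0 y1
  | sy b l r, x0, x1, y0, y1 => Tr.wt i l x0 x1 y0 b + Tr.wt i r x0 x1 b y1

/-- a corner: rows, numbers of loads and of majorants, size of the tip, tree -/
structure Cor where
  rows : List Row
  nl : ℕ
  ne : ℕ
  h : ℕ
  T : Tr

def Cor.ok (Q : Cor) (A c0 c1 : ℕ) : Bool :=
  Q.T.ck Q.rows A c0 c1 Q.nl Q.ne Q.h 0 500000 0 500000

/-- weight of row `i`, units `U⁻⁴ / 4` -/
def Cor.w (Q : Cor) (i : ℕ) : ℕ := Q.T.wt i 0 500000 0 500000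

/-! ### The function of a table -/

/-- value of `B` at a vertex -/
noncomputable def sO (rows : List Row) (lam : ℕ → ℝ) (Os : List ℕ) : ℝ :=
  ∑ i ∈ Finset.range rows.length, lam i * (((Os.getD i 0 : ℕ) : ℝ) / U)

/-- bilinear interpolation -/
noncomputable def bil (p q o1 o2 o3 o4 : ℝ) : ℝ :=
  (1 - p) * (1 - q) * o1 + (1 - p) * q * o2 + p * (1 - q) * o3 + p * q * o4

/-- position in an interval -/
noncomputable def pos (a0 a1 : ℕ) (z : ℝ) : ℝ :=
  (z - (a0 : ℝ) / U) / ((a1 : ℝ) / U - (a0 : ℝ) / U)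

/-- the function `B` on a box -/
noncomputable def Bf (rows : List Row) (lam : ℕ → ℝ) (x0 x1 y0 y1 : ℕ) (c : Lf) (t : ℝ × ℝ) : ℝ :=
  bil (pos x0 x1 t.1) (pos y0 y1 t.2) (sO rows lam c.o00) (sO rows lam c.o01)
    (sO rows lam c.o10) (sO rows lam c.o11)

/-- the function of a tree -/
noncomputable def Tr.val (rows : List Row) (lam : ℕ → ℝ) : Tr → ℕ → ℕ → ℕ → ℕ → ℝ × ℝ → ℝ
  | lf c, x0, x1, y0, y1 => fun t =>
    (rc x0 x1 y0 y1).indicator (fun t => Bf rows lam x0 x1 y0 y1 c t / √(mt t)) t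
  | em, _, _, _, _ => fun _ => 0
  | tp, _, _, _, _ => fun _ => 0
  | sx a l r, x0, x1, y0, y1 => fun t =>
    Tr.val rows lam l x0 a y0 y1 t + Tr.val rows lam r a x1 y0 y1 t
  | sy b l r, x0, x1, y0, y1 => fun t =>
    Tr.val rows lam l x0 x1 y0 b t + Tr.val rows lam r x0 x1 b y1 t

end Helper60.R8
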