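import Pool.Agent.Helper60.MEI.R8T

/-!
# Project MEI (M2), w-term: families of tables with one skeleton (rule R9)

A family of trees of rule R8 with the same boxes, intervals, loads and mixes; the range
multipliers and the values at the vertices are free in every member. The members are the vertices
of the deficit (leaks, bit of the apex), the rows of a member are the vertices of the violations.
-/

set_option autoImplicit false

namespace Helper60.R9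

open Set MeasureTheory Helper78.MEI Helper80.CW Helper82.CW Helper14.CW Helper93.MEI Helper82.M2
open Helper14.MEI2 Pool.Agent.Helper52.MEI Pool.Agent.Helper73.MEI Pool.Agent.Helper31.SR
open Helper33.MEI (Wi Dl tx M3 mt mt_pos)
open Helper60.R7 (U U_pos F4 cast_tsub In mtx rc rc_meas mem_rc mt_mtx cb cb_nonneg jj ll ch_fst
  ch_snd T3_sum ch_meas mt_ch M3_ch int_ch cap_ch T3_pos' ex_corner own_ch)
open Helper60.R8

/-! ### The skeleton -/

/-- the same interval, up to the multiplier -/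
def skV (I J : Iv) : Bool :=
  Nat.beq I.u J.u && Nat.beq I.v J.v && Nat.beq I.ru J.ru && Nat.beq I.rv J.rv &&
    Nat.beq I.ty J.ty && Nat.beq I.ps J.ps && Nat.beq I.li J.li && Nat.beq I.ei J.ei

def skI : List Iv → List Iv → Bool
  | [], [] => true
  | I :: L, J :: M => skV I J && skI L M
  | _, _ => false

/-- the same leaf, up to the multipliers, the values and the bounds of the weight -/
def skL (c d : Lf) : Bool :=
  Nat.beq c.m00 d.m00 && Nat.beq c.m01 d.m01 && Nat.beq c.m10 d.m10 && Nat.beq c.m11 d.m11 &&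
    Nat.beq c.o d.o && skI c.iv d.iv

/-- **the same skeleton** -/
def sk : Tr → Tr → Bool
  | .lf c, .lf d => skL c d
  | .em, .em => true
  | .tp, .tp => true
  | .sx a l r, .sx b l' r' => Nat.beq a b && sk l l' && sk r r'
  | .sy a l r, .sy b l' r' => Nat.beq a b && sk l l' && sk r r'
  | _, _ => false

theorem skV_iff {I J : Iv} (h : skV I J = true) : I.u = J.u ∧ I.v = J.v ∧ I.ru = J.ru ∧
    I.rv = J.rv ∧ I.ty = J.ty ∧ I.ps = J.ps ∧ I.li = J.li ∧ I.ei = J.ei := by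
  unfold skV at h
  simp only [Bool.and_eq_true, Nat.beq_eq] at h
  obtain ⟨⟨⟨⟨⟨⟨⟨h1, h2⟩, h3⟩, h4⟩, h5⟩, h6⟩, h7⟩, h8⟩ := h
  exact ⟨h1, h2, h3, h4, h5, h6, h7, h8⟩

theorem skL_iff {c d : Lf} (h : skL c d = true) : c.m00 = d.m00 ∧ c.m01 = d.m01 ∧
    c.m10 = d.m10 ∧ c.m11 = d.m11 ∧ c.o = d.o ∧ skI c.iv d.iv = true := by
  unfold skL at h
  simp only [Bool.and_eq_true, Nat.beq_eq] at h
  obtain ⟨⟨⟨⟨⟨h1, h2⟩, h3⟩, h4⟩, h5⟩, h6⟩ := h
  exact ⟨h1, h2, h3, h4, h5, h6⟩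

theorem skI_nil {L : List Iv} (h : skI [] L = true) : L = [] := by
  cases L with
  | nil => rfl
  | cons J M => simp [skI] at h

theorem skI_cons {I : Iv} {L M : List Iv} (h : skI (I :: L) M = true) :
    ∃ J M', M = J :: M' ∧ skV I J = true ∧ skI L M' = true := by
  cases M with
  | nil => simp [skI] at h
  | cons J M' =>
    rw [skI, Bool.and_eq_true] at h
    exact ⟨J, M', rfl, h.1, h.2⟩

theorem sk_lf {c : Lf} {T : Tr} (h : sk (.lf c) T = true) : ∃ d, T = .lf d ∧ skL c d = true := by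
  cases T with
  | lf d => exact ⟨d, rfl, h⟩
  | em => simp [sk] at h
  | tp => simp [sk] at h
  | sx a l r => simp [sk] at h
  | sy a l r => simp [sk] at h

theorem sk_em {T : Tr} (h : sk .em T = true) : T = .em := by
  cases T with
  | lf d => simp [sk] at h
  | em => rfl
  | tp => simp [sk] at h
  | sx a l r => simp [sk] at h
  | sy a l r => simp [sk] at h

theorem sk_tp {T : Tr} (h : sk .tp T = true) : T = .tp := by
  cases T with
  | lf d => simp [sk] at h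
  | em => simp [sk] at h
  | tp => rfl
  | sx a l r => simp [sk] at h
  | sy a l r => simp [sk] at h

theorem sk_sx {a : ℕ} {l r T : Tr} (h : sk (.sx a l r) T = true) :
    ∃ l' r', T = .sx a l' r' ∧ sk l l' = true ∧ sk r r' = true := by
  cases T with
  | lf d => simp [sk] at h
  | em => simp [sk] at h
  | tp => simp [sk] at h
  | sx b l' r' =>
    simp only [sk, Bool.and_eq_true, Nat.beq_eq] at h
    obtain ⟨⟨h1, h2⟩, h3⟩ := h
    rw [h1]
    exact ⟨l', r', rfl, h2, h3⟩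
  | sy a l r => simp [sk] at h

theorem sk_sy {a : ℕ} {l r T : Tr} (h : sk (.sy a l r) T = true) :
    ∃ l' r', T = .sy a l' r' ∧ sk l l' = true ∧ sk r r' = true := by
  cases T with
  | lf d => simp [sk] at h
  | em => simp [sk] at h
  | tp => simp [sk] at h
  | sx a l r => simp [sk] at h
  | sy b l' r' =>
    simp only [sk, Bool.and_eq_true, Nat.beq_eq] at h
    obtain ⟨⟨h1, h2⟩, h3⟩ := h
    rw [h1]
    exact ⟨l', r', rfl, h2, h3⟩

/-! ### One member of the family at a point -/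

/-- bilinear lower bound of the strip function at `e` -/
noncomputable def FF (c : Lf) (c0 c1 x0 x1 y0 y1 : ℕ) (p q : ℝ) (e r : ℕ) : ℝ :=
  bil p q (((F4 c0 c1 c.m00 (min x0 y0) e r : ℕ) : ℝ) / U ^ 4)
    (((F4 c0 c1 c.m01 (min x0 y1) e r : ℕ) : ℝ) / U ^ 4)
    (((F4 c0 c1 c.m10 (min x1 y0) e r : ℕ) : ℝ) / U ^ 4)
    (((F4 c0 c1 c.m11 (min x1 y1) e r : ℕ) : ℝ) / U ^ 4)

/-- bilinear interpolation of the values -/
noncomputable def BO (rows : List Row) (lam : ℕ → ℝ) (c : Lf) (p q : ℝ) : ℝ :=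
  bil p q (sO rows lam c.o00) (sO rows lam c.o01) (sO rows lam c.o10) (sO rows lam c.o11)

theorem FF_sk {c d : Lf} (h : skL c d = true) (c0 c1 x0 x1 y0 y1 : ℕ) (p q : ℝ) (e r : ℕ) :
    FF d c0 c1 x0 x1 y0 y1 p q e r = FF c c0 c1 x0 x1 y0 y1 p q e r := by
  obtain ⟨h1, h2, h3, h4, _, _⟩ := skL_iff h
  unfold FF
  rw [h1, h2, h3, h4]

section
variable {x0 x1 y0 y1 : ℕ} {p q x y m : ℝ} (hp0 : 0 ≤ p) (hp1 : p ≤ 1) (hq0 : 0 ≤ q)
  (hq1 : q ≤ 1) (hx : x = (1 - p) * ((x0 : ℝ) / U) + p * ((x1 : ℝ) / U))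
  (hy : y = (1 - q) * ((y0 : ℝ) / U) + q * ((y1 : ℝ) / U))
  (hx0 : 0 ≤ x) (hy0 : 0 ≤ y) (hz0 : 0 ≤ 1 - x - y) (hm : m ^ 2 = mtx x y) (hm0 : 0 < m)

include hp0 hp1 hq0 hq1 hx hy hm hm0 in
theorem FF_ph {c : Lf} (hbk : bk x0 x1 y0 y1 c = true) {c0 c1 : ℕ} {d0 d1 : ℝ}
    (hd0 : (c0 : ℝ) / U ≤ d0) (hd1 : d1 ≤ (c1 : ℝ) / U) {e r : ℕ} (hce : c1 * e ≤ c0 * U)
    (hre : r * r ≤ e * U) : FF c c0 c1 x0 x1 y0 y1 p q e r ≤
      ph m (bil p q ((min x0 y0 : ℕ) / U) ((min x0 y1 : ℕ) / U) ((min x1 y0 : ℕ) / U)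
        ((min x1 y1 : ℕ) / U)) d0 d1 ((e : ℝ) / U) := by
  have hU := U_pos
  obtain ⟨j1, j2, j3, j4, ⟨b1, b2, b3, b4⟩, _⟩ := bk_iff hbk
  obtain ⟨u1, n1⟩ := mk1_iff b1
  obtain ⟨u2, n2⟩ := mk1_iff b2
  obtain ⟨u3, n3⟩ := mk1_iff b3
  obtain ⟨u4, n4⟩ := mk1_iff b4
  have hmc := m_conv hp0 hp1 hq0 hq1 hx hy hm hm0 (m1 := (c.m00 : ℝ) / U)
    (m2 := (c.m01 : ℝ) / U) (m3 := (c.m10 : ℝ) / U) (m4 := (c.m11 : ℝ) / U)
    (by positivity) (by positivity) (by positivity) (by positivity) n1 n2 n3 n4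
  have p' : 0 ≤ 1 - p := sub_nonneg.2 hp1
  have q' : 0 ≤ 1 - q := sub_nonneg.2 hq1
  obtain ⟨μ, hμ⟩ : ∃ μ, μ = bil p q ((min x0 y0 : ℕ) / U) ((min x0 y1 : ℕ) / U)
    ((min x1 y0 : ℕ) / U) ((min x1 y1 : ℕ) / U) := ⟨_, rfl⟩
  have hμ0 : 0 ≤ μ := by
    rw [hμ]
    unfold bil
    positivity
  rw [← hμ]
  have hr2 : ((r : ℝ) / U) ^ 2 ≤ (e : ℝ) / U := by
    have h1 : ((r * r : ℕ) : ℝ) ≤ ((e * U : ℕ) : ℝ) := by exact_mod_cast hre
    push_cast at h1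
    rw [div_pow, div_le_div_iff₀ (by positivity) hU]
    nlinarith
  have hcu' : (c1 : ℝ) / U * ((e : ℝ) / U) ≤ (c0 : ℝ) / U := by
    have h1 : ((c1 * e : ℕ) : ℝ) ≤ ((c0 * U : ℕ) : ℝ) := by exact_mod_cast hce
    push_cast at h1
    rw [← mul_div_mul_comm, div_le_div_iff₀ (by positivity) hU]
    nlinarith
  refine le_trans (le_of_eq ?_) (ph_lo (μ0 := μ) (r := (r : ℝ) / U) hmc le_rfl hμ0
    (by positivity) (by positivity) hr2 hcu' hd0 hd1)
  unfold FF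
  rw [F4_eq u1 hce, F4_eq u2 hce, F4_eq u3 hce, F4_eq u4 hce, hμ]
  unfold bil
  ring

include hp0 hp1 hq0 hq1 in
theorem FF_mono {c : Lf} {rows : List Row} {A c0 c1 nl ne : ℕ} {I : Iv}
    (hik : ik rows A c0 c1 nl ne x0 x1 y0 y1 c I = true) :
    FF c c0 c1 x0 x1 y0 y1 p q I.u I.ru ≤ FF c c0 c1 x0 x1 y0 y1 p q I.v I.rv := by
  have hU := U_pos
  unfold ik at hik
  simp only [Bool.and_eq_true] at hik
  obtain ⟨⟨⟨⟨_, x1'⟩, x2'⟩, x3'⟩, x4'⟩ := hik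
  have t1 : 0 ≤ (1 - p) * (1 - q) := mul_nonneg (by linarith) (by linarith)
  have t2 : 0 ≤ (1 - p) * q := mul_nonneg (by linarith) hq0
  have t3 : 0 ≤ p * (1 - q) := mul_nonneg hp0 (by linarith)
  have t4 : 0 ≤ p * q := mul_nonneg hp0 hq0
  have g : ∀ {mm xx yy : ℕ} {Os : List ℕ},
      vxk rows A c0 c1 mm c.o xx yy I Os = true →
      ((F4 c0 c1 mm (min xx yy) I.u I.ru : ℕ) : ℝ) / U ^ 4 ≤
        ((F4 c0 c1 mm (min xx yy) I.v I.rv : ℕ) : ℝ) / U ^ 4 := by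
    intro mm xx yy Os hh
    unfold vxk at hh
    rw [Bool.and_eq_true, Nat.ble_eq] at hh
    exact div_le_div_of_nonneg_right (by exact_mod_cast hh.1) (by positivity)
  unfold FF bil
  have a1 := mul_le_mul_of_nonneg_left (g x1') t1
  have a2 := mul_le_mul_of_nonneg_left (g x2') t2
  have a3 := mul_le_mul_of_nonneg_left (g x3') t3
  have a4 := mul_le_mul_of_nonneg_left (g x4') t4
  linarith only [a1, a2, a3, a4]

include hp0 hp1 hq0 hq1 hx hy hx0 hy0 hz0 hm hm0 in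
/-- the caps at the point against the vertices -/
theorem C_bil {c : Lf} (hbk : bk x0 x1 y0 y1 c = true) {rows : List Row} {lam : ℕ → ℝ}
    {Sk Sj Sl C : ℝ}
    (hSk : Sk ≤ ∑ i ∈ Finset.range rows.length, lam i * (((rows.getD i zR).S.k : ℝ) / U))
    (hSj : Sj ≤ ∑ i ∈ Finset.range rows.length, lam i * (((rows.getD i zR).S.j : ℝ) / U))
    (hSl : Sl ≤ ∑ i ∈ Finset.range rows.length, lam i * (((rows.getD i zR).S.l : ℝ) / U))
    (hCe : C = (1 - x - y) * Sk + x * Sj + y * Sl) :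
    C ≤ bil p q (sC rows lam x0 y0) (sC rows lam x0 y1) (sC rows lam x1 y0)
      (sC rows lam x1 y1) := by
  obtain ⟨j1, j2, j3, j4, _⟩ := bk_iff hbk
  have e := sum_bil (lam := lam) (rows := rows) j3 j1 j2 hx hy fun i => (rows.getD i zR).S
  unfold sC
  rw [← e, hCe]
  have q1 := mul_le_mul_of_nonneg_left hSk hz0
  have q2 := mul_le_mul_of_nonneg_left hSj hx0
  have q3 := mul_le_mul_of_nonneg_left hSl hy0
  refine (add_le_add (add_le_add q1 q2) q3).trans (le_of_eq ?_)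
  rw [Finset.mul_sum, Finset.mul_sum, Finset.mul_sum, ← Finset.sum_add_distrib,
    ← Finset.sum_add_distrib]
  refine Finset.sum_congr rfl fun i _ => ?_
  unfold afr
  ring

include hp0 hp1 hq0 hq1 hx hy hx0 hy0 hz0 hm hm0 in
/-- **one member of the family at a point**: the two inequalities of the interval -/
theorem lf_blk {rows : List Row} {A c0 c1 nl ne : ℕ} {c : Lf} (hbk : bk x0 x1 y0 y1 c = true)
    {I : Iv} (hik : ik rows A c0 c1 nl ne x0 x1 y0 y1 c I = true) (hty : I.ty = 0 ∨ I.ty = 1)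
    {lam : ℕ → ℝ} (h0 : ∀ i, 0 ≤ lam i) (h1 : ∑ i ∈ Finset.range rows.length, lam i = 1)
    {Sk Sj Sl s ow C : ℝ}
    (hSk : Sk ≤ ∑ i ∈ Finset.range rows.length, lam i * (((rows.getD i zR).S.k : ℝ) / U))
    (hSj : Sj ≤ ∑ i ∈ Finset.range rows.length, lam i * (((rows.getD i zR).S.j : ℝ) / U))
    (hSl : Sl ≤ ∑ i ∈ Finset.range rows.length, lam i * (((rows.getD i zR).S.l : ℝ) / U))
    (hs : s ≤ sS rows lam) (how0 : 0 ≤ ow) (how : ow ≤ s)
    (how2 : ow ≤ (3 * x ^ 2 + 2 * x * y + 3 * y ^ 2) / (2 - x - y) ^ 2)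
    (hCe : C = (1 - x - y) * Sk + x * Sj + y * Sl) :
    ∃ P : ℝ, 0 ≤ P ∧ C - FF c c0 c1 x0 x1 y0 y1 p q I.u I.ru ≤ P ∧
      vin ((A : ℝ) / U) ((I.ps : ℝ) / U) ((I.la : ℝ) / U) ow
        ((I.u : ℝ) / U / (1 - (I.u : ℝ) / U / 2)) ((I.u : ℝ) / U) m C
        (sAf rows.length lam (fun i => ((rows.getD i zR).ls.getD I.li zL).D) x y)
        (sAf rows.length lam (fun i => ((rows.getD i zR).ls.getD I.li zL).X) x y)
        (sAf rows.length lam (fun i => (rows.getD i zR).es.getD I.ei z3) x y) P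
        (FF c c0 c1 x0 x1 y0 y1 p q I.u I.ru) (BO rows lam c p q) ∧
      vin ((A : ℝ) / U) ((I.ps : ℝ) / U) ((I.la : ℝ) / U) ow
        ((I.v : ℝ) / U / (1 - (I.v : ℝ) / U / 2)) ((I.v : ℝ) / U) m C
        (sAf rows.length lam (fun i => ((rows.getD i zR).ls.getD I.li zL).D) x y)
        (sAf rows.length lam (fun i => ((rows.getD i zR).ls.getD I.li zL).X) x y)
        (sAf rows.length lam (fun i => (rows.getD i zR).es.getD I.ei z3) x y) P
        (FF c c0 c1 x0 x1 y0 y1 p q I.v I.rv) (BO rows lam c p q) := by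
  have hU := U_pos
  have hC := C_bil hp0 hp1 hq0 hq1 hx hy hx0 hy0 hz0 hm hm0 hbk hSk hSj hSl hCe
  obtain ⟨j1, j2, j3, j4, ⟨b1, b2, b3, b4⟩, _⟩ := bk_iff hbk
  obtain ⟨u1, n1⟩ := mk1_iff b1
  obtain ⟨u2, n2⟩ := mk1_iff b2
  obtain ⟨u3, n3⟩ := mk1_iff b3
  obtain ⟨u4, n4⟩ := mk1_iff b4
  have hnm : In x0 x1 y0 y1 x y := by
    have a1 : (x0 : ℝ) / U ≤ (x1 : ℝ) / U :=
      div_le_div_of_nonneg_right (by exact_mod_cast j1.le) hU.le
    have a2 : (y0 : ℝ) / U ≤ (y1 : ℝ) / U :=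
      div_le_div_of_nonneg_right (by exact_mod_cast j2.le) hU.le
    refine ⟨?_, ?_, ?_, ?_⟩
    · rw [hx]; nlinarith
    · rw [hx]; nlinarith
    · rw [hy]; nlinarith
    · rw [hy]; nlinarith
  have hmo := Helper60.R7.mck_o (bk_mck hbk) hnm
  unfold ik at hik
  simp only [Bool.and_eq_true, Bool.or_eq_true, Nat.ble_eq, Nat.blt_eq] at hik
  obtain ⟨⟨⟨⟨⟨⟨⟨⟨⟨⟨⟨i1, i2⟩, i3⟩, i4⟩, i5⟩, i6⟩, i7⟩, i8⟩, x1'⟩, x2'⟩, x3'⟩, x4'⟩ := hik
  have t1 : 0 ≤ (1 - p) * (1 - q) := mul_nonneg (by linarith) (by linarith)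
  have t2 : 0 ≤ (1 - p) * q := mul_nonneg (by linarith) hq0
  have t3 : 0 ≤ p * (1 - q) := mul_nonneg hp0 (by linarith)
  have t4 : 0 ≤ p * q := mul_nonneg hp0 hq0
  have ts : (1 - p) * (1 - q) + (1 - p) * q + p * (1 - q) + p * q = 1 := by ring
  have hmc := m_conv hp0 hp1 hq0 hq1 hx hy hm hm0 (m1 := (c.m00 : ℝ) / U)
    (m2 := (c.m01 : ℝ) / U) (m3 := (c.m10 : ℝ) / U) (m4 := (c.m11 : ℝ) / U)
    (by positivity) (by positivity) (by positivity) (by positivity) n1 n2 n3 n4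
  have hu0 : 0 ≤ (I.u : ℝ) / U := by positivity
  have huv : (I.u : ℝ) / U < (I.v : ℝ) / U :=
    div_lt_div_of_pos_right (by exact_mod_cast i1) hU
  have hv3 : (I.v : ℝ) / U < 2 := by
    rw [div_lt_iff₀ hU]
    exact_mod_cast i2
  have hA : 0 ≤ (A : ℝ) / U := by positivity
  have hps1 : (I.ps : ℝ) / U ≤ 1 := by
    rw [div_le_one hU]
    exact_mod_cast i6
  have hps0 : 0 ≤ (I.ps : ℝ) / U := by positivity
  have hla0 : 0 ≤ (I.la : ℝ) / U := by positivity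
  obtain ⟨D, hD⟩ : ∃ D, D = sAf rows.length lam
    (fun i => ((rows.getD i zR).ls.getD I.li zL).D) x y := ⟨_, rfl⟩
  obtain ⟨X, hX⟩ : ∃ D, D = sAf rows.length lam
    (fun i => ((rows.getD i zR).ls.getD I.li zL).X) x y := ⟨_, rfl⟩
  obtain ⟨E, hEe⟩ : ∃ D, D = sAf rows.length lam
    (fun i => (rows.getD i zR).es.getD I.ei z3) x y := ⟨_, rfl⟩
  have hD' : D ≤ bil p q (sD rows lam I.li x0 y0) (sD rows lam I.li x0 y1)
      (sD rows lam I.li x1 y0) (sD rows lam I.li x1 y1) := by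
    rw [hD]
    exact le_of_eq (sum_bil (lam := lam) (rows := rows) j3 j1 j2 hx hy fun i =>
      ((rows.getD i zR).ls.getD I.li zL).D)
  have hX' : X ≤ bil p q (sX rows lam I.li x0 y0) (sX rows lam I.li x0 y1)
      (sX rows lam I.li x1 y0) (sX rows lam I.li x1 y1) := by
    rw [hX]
    exact le_of_eq (sum_bil (lam := lam) (rows := rows) j3 j1 j2 hx hy fun i =>
      ((rows.getD i zR).ls.getD I.li zL).X)
  have hE' : E ≤ bil p q (sE rows lam I.ei x0 y0) (sE rows lam I.ei x0 y1)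
      (sE rows lam I.ei x1 y0) (sE rows lam I.ei x1 y1) := by
    rw [hEe]
    exact le_of_eq (sum_bil (lam := lam) (rows := rows) j3 j1 j2 hx hy fun i =>
      (rows.getD i zR).es.getD I.ei z3)
  have hown : ow ≤ owr rows lam I.ty c.o := by
    unfold owr
    split
    · exact how.trans hs
    · exact how.trans hs
    · exact how2.trans hmo
  have hown0 : 0 ≤ owr rows lam I.ty c.o := how0.trans hown
  have hI2 : I.u < 2 * U := i1.trans i2
  obtain ⟨v1, w1⟩ := vx_sound h0 h1 hI2 i2 i6 x1' hty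
  obtain ⟨v2, w2⟩ := vx_sound h0 h1 hI2 i2 i6 x2' hty
  obtain ⟨v3, w3⟩ := vx_sound h0 h1 hI2 i2 i6 x3' hty
  obtain ⟨v4, w4⟩ := vx_sound h0 h1 hI2 i2 i6 x4' hty
  have du : 0 < 1 - (I.u : ℝ) / U / 2 := by linarith only [huv, hv3]
  have dv : 0 < 1 - (I.v : ℝ) / U / 2 := by linarith only [hv3]
  have V1 := vin_comb hA hps0 hps1 hla0 hown0 (div_nonneg hu0 du.le) hu0 t1 t2 t3 t4 ts
    v1 v2 v3 v4 hmc hC hD' hX' hE'
  have V2 := vin_comb hA hps0 hps1 hla0 hown0 (div_nonneg (hu0.trans huv.le) dv.le)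
    (hu0.trans huv.le) t1 t2 t3 t4 ts w1 w2 w3 w4 hmc hC hD' hX' hE'
  have k1 : (I.la : ℝ) / U * (m * ow) ≤ (I.la : ℝ) / U * (m * owr rows lam I.ty c.o) :=
    mul_le_mul_of_nonneg_left (mul_le_mul_of_nonneg_left hown hm0.le) hla0
  rw [← hD, ← hX, ← hEe]
  refine ⟨(1 - p) * (1 - q) * sP rows lam
      (F4 c0 c1 c.m00 (min x0 y0) I.u I.ru) x0 y0 + (1 - p) * q * sP rows lam
      (F4 c0 c1 c.m01 (min x0 y1) I.u I.ru) x0 y1 + p * (1 - q) * sP rows lam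
      (F4 c0 c1 c.m10 (min x1 y0) I.u I.ru) x1 y0 + p * q * sP rows lam
      (F4 c0 c1 c.m11 (min x1 y1) I.u I.ru) x1 y1, ?_, ?_, ?_, ?_⟩
  · have a1 := mul_nonneg t1 (sP_nonneg (rows := rows) h0 (F4 c0 c1 c.m00 (min x0 y0) I.u I.ru) x0 y0)
    have a2 := mul_nonneg t2 (sP_nonneg (rows := rows) h0 (F4 c0 c1 c.m01 (min x0 y1) I.u I.ru) x0 y1)
    have a3 := mul_nonneg t3 (sP_nonneg (rows := rows) h0 (F4 c0 c1 c.m10 (min x1 y0) I.u I.ru) x1 y0)
    have a4 := mul_nonneg t4 (sP_nonneg (rows := rows) h0 (F4 c0 c1 c.m11 (min x1 y1) I.u I.ru) x1 y1)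
    linarith only [a1, a2, a3, a4]
  · unfold FF
    unfold bil at hC ⊢
    have a1 := mul_le_mul_of_nonneg_left
      (sP_ge h0 h1 (F4 c0 c1 c.m00 (min x0 y0) I.u I.ru) x0 y0) t1
    have a2 := mul_le_mul_of_nonneg_left
      (sP_ge h0 h1 (F4 c0 c1 c.m01 (min x0 y1) I.u I.ru) x0 y1) t2
    have a3 := mul_le_mul_of_nonneg_left
      (sP_ge h0 h1 (F4 c0 c1 c.m10 (min x1 y0) I.u I.ru) x1 y0) t3
    have a4 := mul_le_mul_of_nonneg_left
      (sP_ge h0 h1 (F4 c0 c1 c.m11 (min x1 y1) I.u I.ru) x1 y1) t4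
    linarith only [a1, a2, a3, a4, hC]
  · unfold vin at V1 ⊢
    unfold FF BO bil
    linarith only [V1, k1]
  · unfold vin at V2 ⊢
    unfold FF BO bil
    linarith only [V2, k1]

end

end Helper60.R9
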